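import Pool.Agent.Helper18.RAC.MkR

/-!
# Location of the additional vertices in a monotone window
-/

set_option autoImplicit false

open Complex

namespace Pool.Agent.Helper18.RAC

variable {V : Type*}

/-- the additional vertices, seen from a window of radius `20` -/
structure ZWin (G : SimpleGraph V) (a b : V) (w : ℤ → V) (Z : ℤ → ℤ → Bool → V) : Prop where
  z12 : ∀ s δ, -20 ≤ s → s ≤ 20 → (δ = 1 ∨ δ = -1) → G.Adj (Z s δ false) (Z s δ true)
  zc : ∀ s δ, -20 ≤ s → s ≤ 20 → (δ = 1 ∨ δ = -1) →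
    ∃ x, (x = a ∨ x = b) ∧ G.Adj (Z s δ false) x
  zp : ∀ s δ, -20 ≤ s → s ≤ 20 → (δ = 1 ∨ δ = -1) → G.Adj (Z s δ true) (w (s + δ))
  zr : ∀ s δ r, -20 ≤ s → s ≤ 20 → (δ = 1 ∨ δ = -1) → G.Adj (Z s δ r) (Z s (-δ) r)
  zs : ∀ s δ r, -18 ≤ s → s ≤ 18 → (δ = 1 ∨ δ = -1) → G.Adj (Z s δ r) (Z (s + 2 * δ) (-δ) r)
  core : ∀ s δ r, -20 ≤ s → s ≤ 20 → (δ = 1 ∨ δ = -1) → ¬ CoreV G a b (Z s δ r)
  inj : ∀ s δ r s' δ' r', -20 ≤ s → s ≤ 20 → (δ = 1 ∨ δ = -1) → -20 ≤ s' → s' ≤ 20 →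
    (δ' = 1 ∨ δ' = -1) → Z s δ r = Z s' δ' r' → s = s' ∧ δ = δ' ∧ r = r'
  winj : ∀ s s', -20 ≤ s → s ≤ 20 → -20 ≤ s' → s' ≤ 20 → w s = w s' → s = s'
  ga : ∀ s, -20 ≤ s → s ≤ 20 → G.Adj (w s) a
  gb : ∀ s, -20 ≤ s → s ≤ 20 → G.Adj (w s) b
  cov : ∀ v, ¬ CoreV G a b v → ∃ v₂ y, ¬ CoreV G a b v₂ ∧ (v = v₂ ∨ G.Adj v v₂) ∧ G.Adj v₂ y ∧
    y ≠ a ∧ y ≠ b ∧ G.Adj y a ∧ G.Adj y b ∧ ∀ t, -19 ≤ t → t ≤ 19 → y = w t →
      ∃ δ r, (δ = 1 ∨ δ = -1) ∧ v = Z (t - δ) δ r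

section

variable {G H : SimpleGraph V} {f : V → ℂ} {a b v v' x : V} {w c : ℤ → V} {q : ℤ → ℂ}
  {Z : ℤ → ℤ → Bool → V} {s δ s' δ' s₁ δ₁ t d : ℤ} {κ κ' κ₁ : Bool}

/-- a non-core vertex is different from `w s`, from the hubs -/
theorem WinR.off (h : WinR H f a b w c q 20) (hz : ZWin G a b w Z) (hv : ¬ CoreV G a b v)
    (h1 : -20 < s) (h2 : s < 20) : v ≠ w s ∧ v ≠ c s ∧ v ≠ cond κ (c s) (w s) := by
  have e1 : v ≠ w s := by
    rintro rfl
    exact hv (Or.inr (Or.inr ⟨hz.ga s h1.le h2.le, hz.gb s h1.le h2.le⟩))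
  have e2 : v ≠ c s := by
    rintro rfl
    rcases h.cab s h1 h2 with e | e
    · exact hv (Or.inl e)
    · exact hv (Or.inr (Or.inl e))
  refine ⟨e1, e2, ?_⟩
  cases κ
  · exact e1
  · exact e2

/-- a step to a non-core vertex -/
theorem WinR.stepz (h : WinR H f a b w c q 20) (hz : ZWin G a b w Z) (hδ : δ = 1 ∨ δ = -1)
    (h1 : -17 ≤ s) (h2 : s ≤ 17) (hv : H.Adj v v') (hc : Cell f w c q s δ κ (f v))
    (hv' : ¬ CoreV G a b v') :
    ∃ s' δ' κ', Rel s δ κ s' δ' κ' ∧ (δ' = 1 ∨ δ' = -1) ∧ s - 2 ≤ s' ∧ s' ≤ s + 2 ∧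
      Cell f w c q s' δ' κ' (f v') := by
  rcases h.step hδ (by omega) (by omega) hv hc with h3 | h3 | ⟨s', δ', κ', h3, h4⟩
  · exact absurd h3 (h.off hz hv' (κ := true) (by omega) (by omega)).1
  · exact absurd h3 (h.off hz hv' (by omega) (by omega)).2.2
  · exact ⟨s', δ', κ', h3, h3.pm hδ, (h3.bd hδ).1, (h3.bd hδ).2, h4⟩

/-- a step to a path vertex -/
theorem WinR.stepw (h : WinR H f a b w c q 20) (hδ : δ = 1 ∨ δ = -1)
    (h1 : -15 ≤ s) (h2 : s ≤ 15) (hv : H.Adj v v') (hc : Cell f w c q s δ κ (f v))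
    (ha : H.Adj v' a) (hb : H.Adj v' b) : v' = w (s + δ) ∨ (κ = false ∧ v' = w s) := by
  rcases h.step hδ (by omega) (by omega) hv hc with h3 | h3 | ⟨s', δ', κ', h3, h4⟩
  · exact Or.inl h3
  · cases κ with
    | false => exact Or.inr ⟨rfl, h3⟩
    | true =>
      exfalso
      simp only [cond_true] at h3
      rcases h.cab s (by omega) (by omega) with e | e
      · rw [h3, e] at ha; exact ha.ne rfl
      · rw [h3, e] at hb; exact hb.ne rfl
  · exfalso
    have hb' := h3.bd hδ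
    exact h.no_core (h3.pm hδ) (by omega) (by omega) (Or.inr (Or.inr ⟨ha, hb⟩)) h4

/-- a step to a hub -/
theorem WinR.steph (h : WinR H f a b w c q 20) (hδ : δ = 1 ∨ δ = -1)
    (h1 : -15 ≤ s) (h2 : s ≤ 15) (hv : H.Adj v x) (hc : Cell f w c q s δ κ (f v))
    (hx : x = a ∨ x = b) : κ = true ∧ x = c s := by
  have hne : ∀ t, -20 ≤ t → t ≤ 20 → x ≠ w t := by
    rintro t e1 e2 rfl
    rcases hx with e | e
    · have := h.adja t e1 e2; rw [e] at this; exact this.ne rfl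
    · have := h.adjb t e1 e2; rw [e] at this; exact this.ne rfl
  rcases h.step hδ (by omega) (by omega) hv hc with h3 | h3 | ⟨s', δ', κ', h3, h4⟩
  · rcases hδ with rfl | rfl
    · exact absurd h3 (hne _ (by omega) (by omega))
    · exact absurd h3 (hne _ (by omega) (by omega))
  · cases κ with
    | false => exact absurd h3 (hne _ (by omega) (by omega))
    | true => exact ⟨rfl, h3⟩
  · exfalso
    have hb' := h3.bd hδ
    refine h.no_core (h3.pm hδ) (by omega) (by omega) ?_ h4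
    rcases hx with e | e
    · exact Or.inl e
    · exact Or.inr (Or.inl e)

theorem WinR.loc2a (h : WinR H f a b w c q 20) (hz : ZWin G a b w Z) (hle : G ≤ H)
    (hδ : δ = 1 ∨ δ = -1) (h1 : -15 ≤ s) (h2 : s ≤ 15) (hδ₁ : δ₁ = 1 ∨ δ₁ = -1)
    (h3 : -15 ≤ s₁) (h4 : s₁ ≤ 15) (hc : Cell f w c q s₁ δ₁ κ₁ (f (Z s δ true))) :
    s₁ + δ₁ = s + δ ∨ (κ₁ = false ∧ s₁ = s + δ) := by
  have hb1 : -16 ≤ s + δ ∧ s + δ ≤ 16 := by omega
  have hb2 : -16 ≤ s₁ + δ₁ ∧ s₁ + δ₁ ≤ 16 := by omega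
  rcases h.stepw hδ₁ h3 h4 (hle (hz.zp s δ (by omega) (by omega) hδ)) hc
    (h.adja _ (by omega) (by omega)) (h.adjb _ (by omega) (by omega)) with h5 | ⟨h5, h6⟩
  · left
    exact (hz.winj _ _ (by omega) (by omega) (by omega) (by omega) h5).symm
  · right
    exact ⟨h5, (hz.winj _ _ (by omega) (by omega) (by omega) (by omega) h6).symm⟩

theorem WinR.loc2b (h : WinR H f a b w c q 20) (hz : ZWin G a b w Z) (hle : G ≤ H)
    (hδ : δ = 1 ∨ δ = -1) (h1 : -15 ≤ s) (h2 : s ≤ 15) (hδ₁ : δ₁ = 1 ∨ δ₁ = -1)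
    (h3 : -13 ≤ s₁) (h4 : s₁ ≤ 13) (hc : Cell f w c q s₁ δ₁ κ₁ (f (Z s δ true))) :
    s₁ = s ∧ δ₁ = δ := by
  have e1 := h.loc2a hz hle hδ h1 h2 hδ₁ (by omega) (by omega) hc
  have hδ' : -δ = 1 ∨ -δ = -1 := by omega
  obtain ⟨s', δ', κ', hr, hδ'', hb1, hb2, hc'⟩ := h.stepz hz hδ₁ (by omega) (by omega)
    (hle (hz.zr s δ true (by omega) (by omega) hδ)) hc (hz.core _ _ _ (by omega) (by omega) hδ')
  have e2 := h.loc2a hz hle hδ' h1 h2 hδ'' (by omega) (by omega) hc'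
  rcases hr with ⟨r1, r2⟩ | ⟨r1, r2, r3⟩ | ⟨r1, r2, r3, r4⟩ | ⟨r1, r2, r3, r4⟩
  · rcases e1 with e1 | ⟨-, e1⟩ <;> rcases e2 with e2 | ⟨-, e2⟩ <;> omega
  · rcases e1 with e1 | ⟨-, e1⟩ <;> rcases e2 with e2 | ⟨-, e2⟩ <;> omega
  · rcases e1 with e1 | ⟨-, e1⟩ <;> rcases e2 with e2 | ⟨-, e2⟩ <;> omega
  · subst r1 r2
    rcases e1 with e1 | ⟨e1, -⟩
    · rcases e2 with e2 | ⟨e2, -⟩
      · omega
      · exact absurd e2 (by decide)
    · exact absurd e1 (by decide)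

theorem WinR.loc2 (h : WinR H f a b w c q 20) (hz : ZWin G a b w Z) (hle : G ≤ H)
    (hδ : δ = 1 ∨ δ = -1) (h1 : -11 ≤ s) (h2 : s ≤ 11) (hδ₁ : δ₁ = 1 ∨ δ₁ = -1)
    (h3 : -13 ≤ s₁) (h4 : s₁ ≤ 13) (hc : Cell f w c q s₁ δ₁ κ₁ (f (Z s δ true))) :
    s₁ = s ∧ δ₁ = δ ∧ κ₁ = true := by
  obtain ⟨rfl, rfl⟩ := h.loc2b hz hle hδ (by omega) (by omega) hδ₁ h3 h4 hc
  refine ⟨rfl, rfl, ?_⟩
  have hδ' : -δ₁ = 1 ∨ -δ₁ = -1 := by omega
  obtain ⟨s', δ', κ', hr, hδ'', hb1, hb2, hc'⟩ := h.stepz hz hδ₁ (by omega) (by omega)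
    (hle (hz.zs s₁ δ₁ true (by omega) (by omega) hδ)) hc (hz.core _ _ _ (by omega) (by omega) hδ')
  obtain ⟨e1, e2⟩ := h.loc2b hz hle hδ' (by omega) (by omega) hδ'' (by omega) (by omega) hc'
  rcases hr with ⟨r1, r2⟩ | ⟨r1, r2, r3⟩ | ⟨r1, r2, r3, r4⟩ | ⟨r1, r2, r3, r4⟩
  · omega
  · omega
  · omega
  · exact r1

theorem WinR.ex2 (h : WinR H f a b w c q 20) (hz : ZWin G a b w Z) (hle : G ≤ H)
    (hδ : δ = 1 ∨ δ = -1) (h1 : -11 ≤ s) (h2 : s ≤ 11) :
    Cell f w c q s δ true (f (Z s δ true)) := by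
  have hcore := hz.core s δ true (by omega) (by omega) hδ
  rcases h.around (t := s + δ) (by omega) (by omega)
    (hle (hz.zp s δ (by omega) (by omega) hδ)).symm with e | e | e | e | e | e |
    ⟨s₁, δ₁, κ₁, e1, e2, hδ₁, -, hc⟩
  · exact absurd e (h.off hz hcore (κ := true) (by omega) (by omega)).1
  · exact absurd e (h.off hz hcore (κ := true) (by omega) (by omega)).1
  · exact absurd e (h.off hz hcore (κ := true) (by omega) (by omega)).1
  · exact absurd e (h.off hz hcore (κ := true) (by omega) (by omega)).1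
  · exact absurd (Or.inl e) hcore
  · exact absurd (Or.inr (Or.inl e)) hcore
  · obtain ⟨rfl, rfl, rfl⟩ := h.loc2 hz hle hδ h1 h2 hδ₁ (by omega) (by omega) hc
    exact hc

/-- the orientation of a point of the cell across the side -/
theorem WinR.across (h : WinR H f a b w c q 20) (hδ : δ = 1 ∨ δ = -1) (h1 : -17 ≤ s)
    (h2 : s ≤ 17) {z : ℂ} (hc : Cell f w c q (s + 2 * δ) (-δ) true z) :
    Dt (f (w (s + δ))) (f (c s)) z * Dt (f (w (s + δ))) (f (c s)) (q s) < 0 := by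
  obtain ⟨h4, h5⟩ := h.sd_true hδ (by omega) (show s ≤ 20 - 3 by omega)
  unfold Cell at hc
  have e1 : s + 2 * δ + -δ = s + δ := by ring
  rw [e1, cond_true, h5] at hc
  obtain ⟨α, β, γ, hα, hβ, hγ, hs, hr, hi⟩ := hc
  have : Dt (f (w (s + δ))) (f (c s)) z = α * Dt (f (w (s + δ))) (f (c s)) (q (s + 2 * δ)) := by
    have hα' : α = 1 - β - γ := by linarith
    unfold Dt
    rw [hr, hi, hα']
    ring
  rw [this]
  have := mul_neg_of_pos_of_neg hα h4
  linarith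

/-- the kite of a hub cell -/
theorem WinR.kt (h : WinR H f a b w c q 20) (hδ : δ = 1 ∨ δ = -1) (h1 : -20 < s) (h2 : s < 20) :
    Kite H f (w (s + δ)) (w (s - δ)) (c s) (w s) (q s) := h.ck hδ true h1 h2

theorem WinR.opp (hc : Cell f w c q s (-δ) true (f v)) :
    Tri (q s) (f (c s)) (f (w (s - δ))) (f v) := by
  unfold Cell at hc
  rw [← sub_eq_add_neg] at hc
  exact hc.symm

theorem WinR.u1 (h : WinR H f a b w c q 20) (hδ : δ = 1 ∨ δ = -1) (h1 : -20 < s)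
    (h2 : s < 20) {y : V} (hv : H.Adj x v) (hv' : H.Adj x y) (hx : Cell f w c q s δ true (f x))
    (hc : Cell f w c q s (-δ) true (f v)) (hc' : Cell f w c q s (-δ) true (f y)) : v = y :=
  (h.kt hδ h1 h2).unique_diag h.rac hv hv' hx (WinR.opp hc) (WinR.opp hc')

theorem WinR.u2 (h : WinR H f a b w c q 20) (hδ : δ = 1 ∨ δ = -1) (h1 : -17 ≤ s)
    (h2 : s ≤ 17) {y : V} (hv : H.Adj x v) (hv' : H.Adj x y) (hx : Cell f w c q s δ true (f x))
    (hc : Cell f w c q (s + 2 * δ) (-δ) true (f v))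
    (hc' : Cell f w c q (s + 2 * δ) (-δ) true (f y)) : v = y :=
  (h.kt hδ (by omega) (by omega)).unique_side h.rac hv hv' hx (h.across hδ h1 h2 hc)
    (h.across hδ h1 h2 hc')

theorem WinR.loc1 (h : WinR H f a b w c q 20) (hz : ZWin G a b w Z) (hle : G ≤ H)
    (hδ : δ = 1 ∨ δ = -1) (h1 : -9 ≤ s) (h2 : s ≤ 9) (hδ₁ : δ₁ = 1 ∨ δ₁ = -1)
    (h3 : -11 ≤ s₁) (h4 : s₁ ≤ 11) (hc : Cell f w c q s₁ δ₁ κ₁ (f (Z s δ false))) :
    s₁ = s ∧ δ₁ = δ ∧ κ₁ = true := by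
  obtain ⟨x, hx, hzx⟩ := hz.zc s δ (by omega) (by omega) hδ
  obtain ⟨rfl, -⟩ := h.steph hδ₁ (by omega) (by omega) (hle hzx) hc hx
  have hz12 := hle (hz.z12 s δ (by omega) (by omega) hδ)
  have hδ' : -δ = 1 ∨ -δ = -1 := by omega
  obtain ⟨s', δ', κ', hr, hδ'', hb1, hb2, hc'⟩ := h.stepz hz hδ₁ (by omega) (by omega)
    hz12 hc (hz.core _ _ _ (by omega) (by omega) hδ)
  obtain ⟨rfl, rfl, rfl⟩ := h.loc2 hz hle hδ (by omega) (by omega) hδ'' (by omega) (by omega) hc'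
  rcases hr with ⟨r1, r2⟩ | ⟨r1, r2, r3⟩ | ⟨r1, r2, r3, r4⟩ | ⟨r1, r2, r3, r4⟩
  · exact ⟨r1.symm, r2.symm, rfl⟩
  · -- in the cell across the diagonal
    exfalso
    have e1 : δ₁ = -δ' := by omega
    subst r1 e1
    have k1 := h.u1 hδ'' (by omega) (by omega) hz12.symm
      (hle (hz.zr s' δ' true (by omega) (by omega) hδ'')) hc' hc
      (h.ex2 hz hle hδ' (by omega) (by omega))
    have := (hz.inj _ _ _ _ _ _ (by omega) (by omega) hδ'' (by omega) (by omega) hδ' k1).2.2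
    exact absurd this (by decide)
  · exact absurd r1 (by decide)
  · exfalso
    have e1 : δ₁ = -δ' := by omega
    have e2 : s₁ = s' + 2 * δ' := by omega
    subst e2 e1
    have k1 := h.u2 hδ'' (by omega) (by omega) hz12.symm
      (hle (hz.zs s' δ' true (by omega) (by omega) hδ'')) hc' hc
      (h.ex2 hz hle hδ' (by omega) (by omega))
    have := (hz.inj _ _ _ _ _ _ (by omega) (by omega) hδ'' (by omega) (by omega) hδ' k1).2.2
    exact absurd this (by decide)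

theorem WinR.ex (h : WinR H f a b w c q 20) (hz : ZWin G a b w Z) (hle : G ≤ H)
    (hδ : δ = 1 ∨ δ = -1) (h1 : -9 ≤ s) (h2 : s ≤ 9) (r : Bool) :
    Cell f w c q s δ true (f (Z s δ r)) := by
  have e2 := h.ex2 hz hle hδ (show -11 ≤ s by omega) (by omega)
  cases r with
  | true => exact e2
  | false =>
    have hz12 := hle (hz.z12 s δ (by omega) (by omega) hδ)
    obtain ⟨s', δ', κ', hr, hδ'', hb1, hb2, hc'⟩ := h.stepz hz hδ (by omega) (by omega)
      hz12.symm e2 (hz.core _ _ _ (by omega) (by omega) hδ)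
    obtain ⟨rfl, rfl, rfl⟩ := h.loc1 hz hle hδ h1 h2 hδ'' (by omega) (by omega) hc'
    exact hc'

theorem WinR.loc (h : WinR H f a b w c q 20) (hz : ZWin G a b w Z) (hle : G ≤ H)
    (hδ : δ = 1 ∨ δ = -1) (h1 : -9 ≤ s) (h2 : s ≤ 9) (hδ₁ : δ₁ = 1 ∨ δ₁ = -1)
    (h3 : -11 ≤ s₁) (h4 : s₁ ≤ 11) {r : Bool} (hc : Cell f w c q s₁ δ₁ κ₁ (f (Z s δ r))) :
    s₁ = s ∧ δ₁ = δ ∧ κ₁ = true := by
  cases r with
  | true => exact h.loc2 hz hle hδ (by omega) (by omega) hδ₁ (by omega) (by omega) hc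
  | false => exact h.loc1 hz hle hδ h1 h2 hδ₁ h3 h4 hc

/-- **Step 5.** The non-core vertices of the cells. -/
theorem WinR.vert (h : WinR H f a b w c q 20) (hz : ZWin G a b w Z) (hle : G ≤ H)
    (hd : d = 1 ∨ d = -1) (h1 : -4 ≤ t) (h2 : t ≤ 4) (hv : ¬ CoreV G a b v)
    (hc : Cell f w c q t d κ (f v)) : κ = true ∧ ∃ r, v = Z t d r := by
  obtain ⟨v₂, y, hv₂, hvv, hy, hya, hyb, hga, hgb, hcov⟩ := hz.cov v hv
  have key : ∃ t', -7 ≤ t' ∧ t' ≤ 7 ∧ y = w t' := by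
    rcases hvv with rfl | hvv
    · rcases h.stepw hd (by omega) (by omega) (hle hy) hc (hle hga) (hle hgb) with e | ⟨-, e⟩
      · exact ⟨_, by omega, by omega, e⟩
      · exact ⟨_, by omega, by omega, e⟩
    · obtain ⟨s', δ', κ', hr, hδ'', hb1, hb2, hc'⟩ := h.stepz hz hd (by omega) (by omega)
        (hle hvv) hc hv₂
      rcases h.stepw hδ'' (by omega) (by omega) (hle hy) hc' (hle hga) (hle hgb) with e | ⟨-, e⟩
      · exact ⟨_, by omega, by omega, e⟩
      · exact ⟨_, by omega, by omega, e⟩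
  obtain ⟨t', ht1, ht2, hyt⟩ := key
  obtain ⟨δ, r, hδ, rfl⟩ := hcov t' (by omega) (by omega) hyt
  obtain ⟨e1, e2, e3⟩ := h.loc hz hle hδ (by omega) (by omega) hd (by omega) (by omega) hc
  refine ⟨e3, r, ?_⟩
  rw [e1, e2]

/-- the barriers -/
theorem WinR.bar (h : WinR H f a b w c q 20) (hz : ZWin G a b w Z) (hle : G ≤ H)
    (hδ : δ = 1 ∨ δ = -1) (h1 : -7 ≤ s) (h2 : s ≤ 7) (r : Bool) :
    Bar H f (w (s + δ)) (w (s - δ)) (c s) (q s) (Z s δ r) (Z s (-δ) r)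
      (Z (s + 2 * δ) (-δ) r) := by
  have hδ' : -δ = 1 ∨ -δ = -1 := by omega
  exact ⟨h.ex hz hle hδ (by omega) (by omega) r, hle (hz.zr s δ r (by omega) (by omega) hδ),
    hle (hz.zs s δ r (by omega) (by omega) hδ),
    WinR.opp (h.ex hz hle hδ' (by omega) (by omega) r),
    h.across hδ (by omega) (by omega) (h.ex hz hle hδ' (by omega) (by omega) r)⟩

/-- `X1`: the corner on the path is not adjacent to the inner vertex -/
theorem WinR.x1 (h : WinR H f a b w c q 20) (hz : ZWin G a b w Z) (hle : G ≤ H)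
    (hδ : δ = 1 ∨ δ = -1) (h1 : -7 ≤ s) (h2 : s ≤ 7) :
    ¬ H.Adj (w (s + δ)) (Z s δ false) := by
  intro hadj
  have hδ' : -δ = 1 ∨ -δ = -1 := by omega
  obtain ⟨x, hx, hzx⟩ := hz.zc s δ (by omega) (by omega) hδ
  have e1 := h.ex hz hle hδ (show -9 ≤ s by omega) (by omega) false
  obtain ⟨-, rfl⟩ := h.steph hδ (by omega) (by omega) (hle hzx) e1 hx
  have k1 := h.off hz (hz.core s (-δ) true (by omega) (by omega) hδ') (s := s + δ) (κ := true)
    (by omega) (by omega)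
  have k2 := h.off hz (hz.core (s + 2 * δ) (-δ) true (by omega) (by omega) hδ') (s := s + δ)
    (κ := true) (by omega) (by omega)
  have k3 := h.off hz (hz.core s (-δ) true (by omega) (by omega) hδ') (s := s) (κ := true)
    (by omega) (by omega)
  have k4 := h.off hz (hz.core (s + 2 * δ) (-δ) true (by omega) (by omega) hδ') (s := s)
    (κ := true) (by omega) (by omega)
  have hinj := hz.inj s δ false
  refine (h.kt hδ (by omega) (by omega)).not_u h.rac (h.bar hz hle hδ h1 h2 true) e1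
    k1.1.symm k2.1.symm k3.2.1.symm k4.2.1.symm ?_ ?_ ?_ (hle hzx).symm hadj
  · intro e
    exact absurd (hinj _ _ _ (by omega) (by omega) hδ (by omega) (by omega) hδ e).2.2 (by decide)
  · intro e
    exact absurd (hinj _ _ _ (by omega) (by omega) hδ (by omega) (by omega) hδ' e).2.2 (by decide)
  · intro e
    exact absurd (hinj _ _ _ (by omega) (by omega) hδ (by omega) (by omega) hδ' e).2.2 (by decide)

/-- `X2`: the hub is not adjacent to the outer vertex -/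
theorem WinR.x2 (h : WinR H f a b w c q 20) (hz : ZWin G a b w Z) (hle : G ≤ H)
    (hδ : δ = 1 ∨ δ = -1) (h1 : -7 ≤ s) (h2 : s ≤ 7) :
    ¬ H.Adj (c s) (Z s δ true) := by
  intro hadj
  have hδ' : -δ = 1 ∨ -δ = -1 := by omega
  obtain ⟨x, hx, hzx⟩ := hz.zc s δ (by omega) (by omega) hδ
  have e1 := h.ex hz hle hδ (show -9 ≤ s by omega) (by omega) false
  obtain ⟨-, rfl⟩ := h.steph hδ (by omega) (by omega) (hle hzx) e1 hx
  have k := fun r => h.off hz (hz.core s (-δ) r (by omega) (by omega) hδ') (s := s) (κ := true)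
    (by omega) (by omega)
  have k' := fun r => h.off hz (hz.core (s + 2 * δ) (-δ) r (by omega) (by omega) hδ') (s := s)
    (κ := true) (by omega) (by omega)
  have hinj := hz.inj s δ false
  have hinj' := hz.inj s δ true
  refine (h.kt hδ (by omega) (by omega)).not_both h.rac (h.bar hz hle hδ h1 h2 true)
    (h.bar hz hle hδ h1 h2 false) (k true).2.1.symm (k' true).2.1.symm (k false).2.1.symm
    (k' false).2.1.symm ?_ ?_ ?_ ?_ ?_ (hle hzx).symm hadj
  · intro e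
    exact absurd (hinj _ _ _ (by omega) (by omega) hδ (by omega) (by omega) hδ e).2.2 (by decide)
  · intro e
    exact absurd (hinj _ _ _ (by omega) (by omega) hδ (by omega) (by omega) hδ' e).2.2 (by decide)
  · intro e
    exact absurd (hinj _ _ _ (by omega) (by omega) hδ (by omega) (by omega) hδ' e).2.2 (by decide)
  · intro e
    exact absurd (hinj' _ _ _ (by omega) (by omega) hδ (by omega) (by omega) hδ' e).2.2
      (by decide)
  · intro e
    exact absurd (hinj' _ _ _ (by omega) (by omega) hδ (by omega) (by omega) hδ' e).2.2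
      (by decide)

/-- all neighbours of the centre are neighbours in `G` -/
theorem WinR.g1 (h : WinR H f a b w c q 20) (hz : ZWin G a b w Z) (hle : G ≤ H)
    (w1 : G.Adj (w 0) (w 1)) (w2 : G.Adj (w 0) (w 2))
    (w1' : G.Adj (w 0) (w (-1))) (w2' : G.Adj (w 0) (w (-2))) (hv : H.Adj (w 0) v) :
    G.Adj (w 0) v := by
  rcases h.around (t := 0) (by omega) (by omega) hv with e | e | e | e | e | e |
    ⟨s, δ, κ, h1, h2, hδ, h3, h4⟩
  · rw [e]; simpa using w1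
  · rw [e]; simpa using w1'
  · rw [e]; simpa using w2
  · rw [e]; simpa using w2'
  · rw [e]; exact hz.ga 0 (by omega) (by omega)
  · rw [e]; exact hz.gb 0 (by omega) (by omega)
  · have hcore : ¬ CoreV G a b v := fun hcv =>
      h.no_core hδ (by omega) (by omega) (hcv.mono hle) h4
    obtain ⟨rfl, r, rfl⟩ := h.vert hz hle hδ (by omega) (by omega) hcore h4
    rcases h3 with h3 | ⟨-, h3⟩
    · rw [← h3] at hv ⊢
      cases r with
      | true => exact (hz.zp s δ (by omega) (by omega) hδ).symm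
      | false => exact absurd hv (h.x1 hz hle hδ (by omega) (by omega))
    · exact absurd h3 (by decide)

/-- all neighbours of the additional vertices at the centre are neighbours in `G` -/
theorem WinR.g2 (h : WinR H f a b w c q 20) (hz : ZWin G a b w Z) (hle : G ≤ H)
    (hδ : δ = 1 ∨ δ = -1) {r : Bool} (hv : H.Adj (Z 0 δ r) v) : G.Adj (Z 0 δ r) v := by
  have hδ' : -δ = 1 ∨ -δ = -1 := by omega
  have hc := h.ex hz hle hδ (show (-9 : ℤ) ≤ 0 by omega) (by omega) r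
  by_cases hcv : CoreV G a b v
  · rcases h.step hδ (by omega) (by omega) hv hc with e | e | ⟨s', δ', κ', hr, hc'⟩
    · cases r with
      | true => rw [e]; exact hz.zp 0 δ (by omega) (by omega) hδ
      | false =>
        rw [e] at hv
        exact absurd hv.symm (h.x1 hz hle hδ (by omega) (by omega))
    · simp only [cond_true] at e
      cases r with
      | true =>
        rw [e] at hv
        exact absurd hv.symm (h.x2 hz hle hδ (by omega) (by omega))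
      | false =>
        obtain ⟨x, hx, hzx⟩ := hz.zc 0 δ (by omega) (by omega) hδ
        obtain ⟨-, hxc⟩ := h.steph hδ (by omega) (by omega) (hle hzx) hc hx
        rw [e, ← hxc]
        exact hzx
    · exfalso
      have hb := hr.bd hδ
      exact h.no_core (hr.pm hδ) (by omega) (by omega) (hcv.mono hle) hc'
  · obtain ⟨s', δ', κ', hr, hδ'', hb1, hb2, hc'⟩ := h.stepz hz hδ (by omega) (by omega) hv hc hcv
    obtain ⟨rfl, r', rfl⟩ := h.vert hz hle hδ'' (by omega) (by omega) hcv hc'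
    rcases hr with ⟨r1, r2⟩ | ⟨r1, r2, r3⟩ | ⟨r1, r2, r3, r4⟩ | ⟨r1, r2, r3, r4⟩
    · subst r1 r2
      cases r <;> cases r'
      · exact absurd hv (SimpleGraph.irrefl H)
      · exact hz.z12 _ _ (by omega) (by omega) hδ
      · exact (hz.z12 _ _ (by omega) (by omega) hδ).symm
      · exact absurd hv (SimpleGraph.irrefl H)
    · subst r1 r2
      rw [h.u1 hδ (by omega) (by omega) hv (hle (hz.zr _ δ r (by omega) (by omega) hδ)) hc hc'
        (h.ex hz hle hδ' (by omega) (by omega) r)]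
      exact hz.zr _ δ r (by omega) (by omega) hδ
    · exact absurd r1 (by decide)
    · subst r3 r4
      rw [h.u2 hδ (by omega) (by omega) hv (hle (hz.zs _ δ r (by omega) (by omega) hδ)) hc hc'
        (h.ex hz hle hδ' (by omega) (by omega) r)]
      exact hz.zs _ δ r (by omega) (by omega) hδ

end

end Pool.Agent.Helper18.RAC
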