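import Pool.Agent.Helper18.RAC.Kite

/-!
# Common neighbours of two adjacent vertices

The drawing is normalised such that the hubs `a`, `b` are at `0` and `1`.  A point `z` above the
real axis is described by the cotangents `xc z`, `yc z` of its angles at `a` and `b`.
-/

set_option autoImplicit false

open Complex

namespace Pool.Agent.Helper18.RAC

/-- cotangent of the angle at `0` -/
noncomputable def xc (z : ℂ) : ℝ := z.re / z.im

/-- cotangent of the angle at `1` -/
noncomputable def yc (z : ℂ) : ℝ := (1 - z.re) / z.im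

theorem xc_mul {z : ℂ} (h : 0 < z.im) : xc z * z.im = z.re := by unfold xc; field_simp

theorem yc_mul {z : ℂ} (h : 0 < z.im) : yc z * z.im = 1 - z.re := by unfold yc; field_simp

theorem xy_mul {z : ℂ} (h : 0 < z.im) : (xc z + yc z) * z.im = 1 := by
  rw [add_mul, xc_mul h, yc_mul h]; ring

theorem xy_pos {z : ℂ} (h : 0 < z.im) : 0 < xc z + yc z := by
  have h1 := xy_mul h
  by_contra hcon
  push Not at hcon
  have := mul_nonpos_of_nonpos_of_nonneg hcon h.le
  linarith

theorem im_eq {z : ℂ} (h : 0 < z.im) : z.im = 1 / (xc z + yc z) := by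
  rw [eq_div_iff (xy_pos h).ne', mul_comm]; exact xy_mul h

theorem re_eq {z : ℂ} (h : 0 < z.im) : z.re = xc z / (xc z + yc z) := by
  rw [← xc_mul h, im_eq h]
  ring

theorem ext_xy {z w : ℂ} (hz : 0 < z.im) (hw : 0 < w.im) (hx : xc z = xc w) (hy : yc z = yc w) :
    z = w := by
  apply Complex.ext
  · rw [re_eq hz, re_eq hw, hx, hy]
  · rw [im_eq hz, im_eq hw, hx, hy]

/-- the point with given cotangents -/
noncomputable def pt (x y : ℝ) : ℂ := ⟨x / (x + y), 1 / (x + y)⟩

theorem pt_im {x y : ℝ} (h : 0 < x + y) : 0 < (pt x y).im := by simp only [pt]; positivity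

theorem xc_pt {x y : ℝ} (h : 0 < x + y) : xc (pt x y) = x := by
  simp only [pt, xc]; field_simp

theorem yc_pt {x y : ℝ} (h : 0 < x + y) : yc (pt x y) = y := by
  simp only [pt, yc]; field_simp; ring

theorem pt_xy {z : ℂ} (h : 0 < z.im) : pt (xc z) (yc z) = z :=
  ext_xy (pt_im (xy_pos h)) h (xc_pt (xy_pos h)) (yc_pt (xy_pos h))

/-- points of the segment from `0` to `w` -/
theorem mem_spoke_a {z w : ℂ} (hz : 0 < z.im) (hw : 0 < w.im) (hx : xc z = xc w)
    (hy : yc w < yc z) : z ∈ openSegment ℝ 0 w := by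
  rw [mem_openSegment_iff]
  have h1 := xy_mul hz
  have h2 := xy_mul hw
  have h3 : z.im < w.im := by
    by_contra hcon
    push Not at hcon
    have h4 : (xc w + yc w) * w.im < (xc z + yc z) * w.im :=
      mul_lt_mul_of_pos_right (by linarith) hw
    have h5 : (xc z + yc z) * w.im ≤ (xc z + yc z) * z.im :=
      mul_le_mul_of_nonneg_left hcon (xy_pos hz).le
    linarith
  refine ⟨z.im / w.im, div_pos hz hw, (div_lt_one hw).2 h3, ?_, ?_⟩
  · rw [← xc_mul hz, ← xc_mul hw, hx]
    simp only [Complex.zero_re]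
    field_simp
    ring
  · simp only [Complex.zero_im]
    field_simp
    ring

theorem xc_refl (z : ℂ) : xc (1 - (starRingEnd ℂ) z) = yc z := by
  simp [xc, yc]

theorem yc_refl (z : ℂ) : yc (1 - (starRingEnd ℂ) z) = xc z := by
  simp [xc, yc]

theorem im_refl (z : ℂ) : (1 - (starRingEnd ℂ) z).im = z.im := by simp

/-- points of the segment from `1` to `w` -/
theorem mem_spoke_b {z w : ℂ} (hz : 0 < z.im) (hw : 0 < w.im) (hy : yc z = yc w)
    (hx : xc w < xc z) : z ∈ openSegment ℝ 1 w := by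
  have h1 := mem_spoke_a (z := 1 - (starRingEnd ℂ) z) (w := 1 - (starRingEnd ℂ) w)
    (by rw [im_refl]; exact hz) (by rw [im_refl]; exact hw) (by rw [xc_refl, xc_refl]; exact hy)
    (by rw [yc_refl, yc_refl]; exact hx)
  rw [mem_openSegment_iff] at h1 ⊢
  obtain ⟨t, h0, h1, h2, h3⟩ := h1
  simp at h2 h3
  refine ⟨t, h0, h1, ?_, ?_⟩
  · simp only [Complex.one_re]; linarith
  · simp only [Complex.one_im]; linarith

/-- points of the segment between two points above the axis -/
theorem exists_mem_seg {z w : ℂ} (hz : 0 < z.im) (hw : 0 < w.im) {l : ℝ} (h0 : 0 < l) (h1 : l < 1) :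
    ∃ v ∈ openSegment ℝ z w, 0 < v.im ∧ xc v = l * xc z + (1 - l) * xc w ∧
      yc v = l * yc z + (1 - l) * yc w := by
  have hsz := xy_pos hz
  have hsw := xy_pos hw
  set x := l * xc z + (1 - l) * xc w with hx
  set y := l * yc z + (1 - l) * yc w with hy
  have hs : x + y = l * (xc z + yc z) + (1 - l) * (xc w + yc w) := by rw [hx, hy]; ring
  have hpos : 0 < x + y := by
    rw [hs]
    have := mul_pos h0 hsz
    have := mul_pos (show 0 < 1 - l by linarith) hsw
    linarith
  refine ⟨pt x y, ?_, pt_im hpos, xc_pt hpos, yc_pt hpos⟩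
  rw [mem_openSegment_iff]
  have h2 : 0 < (1 - l) * (xc w + yc w) := mul_pos (by linarith) hsw
  have h3 : 0 < l * (xc z + yc z) := mul_pos h0 hsz
  refine ⟨(1 - l) * (xc w + yc w) / (x + y), div_pos h2 hpos,
    (div_lt_one hpos).2 (by rw [hs]; linarith), ?_, ?_⟩
  · rw [re_eq hz, re_eq hw]
    simp only [pt]
    have e1 : 1 - (1 - l) * (xc w + yc w) / (x + y) = l * (xc z + yc z) / (x + y) := by
      rw [eq_div_iff hpos.ne']; field_simp; rw [hs]; ring
    rw [e1]
    field_simp
    rw [hx]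
  · rw [im_eq hz, im_eq hw]
    simp only [pt]
    have e1 : 1 - (1 - l) * (xc w + yc w) / (x + y) = l * (xc z + yc z) / (x + y) := by
      rw [eq_div_iff hpos.ne']; field_simp; rw [hs]; ring
    rw [e1]
    field_simp
    ring

theorem mem_seg_coords {z w v : ℂ} (hz : 0 < z.im) (hw : 0 < w.im) (hv : v ∈ openSegment ℝ z w) :
    0 < v.im ∧ ∃ l : ℝ, 0 < l ∧ l < 1 ∧ xc v = l * xc z + (1 - l) * xc w ∧
      yc v = l * yc z + (1 - l) * yc w := by
  obtain ⟨t, h0, h1, h2, h3⟩ := mem_openSegment_iff.1 hv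
  have hpos : 0 < v.im := by
    rw [h3]
    have := mul_pos (show 0 < 1 - t by linarith) hz
    have := mul_pos h0 hw
    linarith
  have e1 : 0 < (1 - t) * z.im := mul_pos (by linarith) hz
  have e2 : 0 < t * w.im := mul_pos h0 hw
  refine ⟨hpos, (1 - t) * z.im / v.im, div_pos e1 hpos, (div_lt_one hpos).2 (by rw [h3]; linarith),
    ?_, ?_⟩
  · have e3 : 1 - (1 - t) * z.im / v.im = t * w.im / v.im := by
      rw [eq_div_iff hpos.ne']; field_simp; rw [h3]; ring
    rw [e3]
    have : xc v = v.re / v.im := rfl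
    rw [this, h2, ← xc_mul hz, ← xc_mul hw]
    field_simp
  · have e3 : 1 - (1 - t) * z.im / v.im = t * w.im / v.im := by
      rw [eq_div_iff hpos.ne']; field_simp; rw [h3]; ring
    rw [e3]
    have : yc v = (1 - v.re) / v.im := rfl
    rw [this, h2]
    have h5 : (1 - ((1 - t) * z.re + t * w.re)) = (1 - t) * (1 - z.re) + t * (1 - w.re) := by ring
    rw [h5, ← yc_mul hz, ← yc_mul hw]
    field_simp

/-- the edge `z w` is perpendicular to the spoke `0 k` -/
theorem perp_a {z w k : ℂ} (hz : 0 < z.im) (hw : 0 < w.im) (hk : 0 < k.im)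
    (h : dotp z w 0 k = 0) :
    xc k * (xc z * yc w - xc w * yc z) = (xc z + yc z) - (xc w + yc w) := by
  unfold dotp at h
  rw [re_eq hz, re_eq hw, re_eq hk, im_eq hz, im_eq hw, im_eq hk] at h
  have h1 := xy_pos hz
  have h2 := xy_pos hw
  have h3 := xy_pos hk
  simp only [Complex.zero_re, Complex.zero_im, sub_zero] at h
  field_simp at h
  linear_combination -h

theorem perp_b {z w k : ℂ} (hz : 0 < z.im) (hw : 0 < w.im) (hk : 0 < k.im)
    (h : dotp z w 1 k = 0) :
    yc k * (xc w * yc z - xc z * yc w) = (xc z + yc z) - (xc w + yc w) := by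
  unfold dotp at h
  rw [re_eq hz, re_eq hw, re_eq hk, im_eq hz, im_eq hw, im_eq hk] at h
  have h1 := xy_pos hz
  have h2 := xy_pos hw
  have h3 := xy_pos hk
  simp only [Complex.one_re, Complex.one_im, sub_zero] at h
  field_simp at h
  linear_combination -h

/-- the spokes `0 z` and `1 w` are perpendicular -/
theorem perp_ab {z w : ℂ} (hz : 0 < z.im) (hw : 0 < w.im) (h : dotp 0 z 1 w = 0) :
    xc z * yc w = 1 := by
  unfold dotp at h
  rw [re_eq hz, re_eq hw, im_eq hz, im_eq hw] at h
  have h1 := xy_pos hz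
  have h2 := xy_pos hw
  simp only [Complex.zero_re, Complex.zero_im, Complex.one_re, Complex.one_im, sub_zero] at h
  field_simp at h
  linear_combination -h

/-- normalised drawing -/
structure Nm {V : Type*} (H : SimpleGraph V) (f : V → ℂ) (a b : V) : Prop where
  rac : IsRAC H f
  fa : f a = 0
  fb : f b = 1
  ab : H.Adj a b

section

variable {V : Type*} {H : SimpleGraph V} {f : V → ℂ} {a b p q k l : V}

theorem Nm.refl (h : Nm H f a b) : Nm H (fun v => 1 - (starRingEnd ℂ) (f v)) b a where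
  rac := h.rac.refl
  fa := by simp [h.fb]
  fb := by simp [h.fa]
  ab := h.ab.symm

theorem Nm.conj (h : Nm H f a b) : Nm H (fun v => (starRingEnd ℂ) (f v)) a b where
  rac := h.rac.conj
  fa := by simp [h.fa]
  fb := by simp [h.fb]
  ab := h.ab

/-- a common neighbour of the hubs is not on the axis -/
theorem Nm.im_ne (h : Nm H f a b) (ha : H.Adj a p) (hb : H.Adj b p) : (f p).im ≠ 0 := by
  intro hp
  rcases lt_trichotomy (f p).re 0 with h1 | h1 | h1
  · apply h.rac.vtx p b a hb.symm ha.ne h.ab.ne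
    rw [mem_segment_iff, h.fa, h.fb]
    refine ⟨-(f p).re / (1 - (f p).re), div_nonneg (by linarith) (by linarith),
      (div_le_one (by linarith)).2 (by linarith), ?_, ?_⟩
    · have : 1 - (f p).re ≠ 0 := by linarith
      simp only [Complex.zero_re, Complex.one_re]
      field_simp
      ring
    · simp [hp]
  · exact ha.ne' (h.rac.inj (Complex.ext (by rw [h1, h.fa]; rfl) (by rw [hp, h.fa]; rfl)))
  · rcases le_or_gt (f p).re 1 with h2 | h2
    · apply h.rac.vtx a b p h.ab ha.ne' hb.ne'
      rw [mem_segment_iff, h.fa, h.fb]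
      exact ⟨(f p).re, h1.le, h2, by simp, by simp [hp]⟩
    · apply h.rac.vtx a p b ha h.ab.ne' hb.ne
      rw [mem_segment_iff, h.fa, h.fb]
      refine ⟨1 / (f p).re, by positivity, (div_le_one h1).2 h2.le, ?_, ?_⟩
      · simp only [Complex.zero_re, Complex.one_re]
        field_simp
        ring
      · simp [hp]

theorem Nm.x_ne (h : Nm H f a b) (hp : 0 < (f p).im) (hq : 0 < (f q).im) (hap : H.Adj a p)
    (haq : H.Adj a q) (hpq : p ≠ q) : xc (f p) ≠ xc (f q) := by
  intro hx
  apply hpq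
  apply h.rac.same_dir hap haq (s := (f p).im / (f q).im) (div_pos hp hq)
  · rw [h.fa, ← xc_mul hp, ← xc_mul hq, hx]
    simp only [Complex.zero_re, sub_zero]
    field_simp
  · rw [h.fa]
    simp only [Complex.zero_im, sub_zero]
    field_simp

theorem Nm.y_ne (h : Nm H f a b) (hp : 0 < (f p).im) (hq : 0 < (f q).im) (hbp : H.Adj b p)
    (hbq : H.Adj b q) (hpq : p ≠ q) : yc (f p) ≠ yc (f q) := by
  have := h.refl.x_ne (p := p) (q := q) (by rw [im_refl]; exact hp) (by rw [im_refl]; exact hq)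
    hbp hbq hpq
  rwa [xc_refl, xc_refl] at this

/-- incomparable common neighbours have perpendicular spokes -/
theorem Nm.incomp (h : Nm H f a b) (hp : 0 < (f p).im) (hq : 0 < (f q).im) (haq : H.Adj a q)
    (hbp : H.Adj b p) (hx : xc (f p) < xc (f q)) (hy : yc (f q) < yc (f p)) :
    xc (f q) * yc (f p) = 1 := by
  have hs : 0 < xc (f q) + yc (f p) := by
    have := xy_pos hq
    linarith
  have h1 : pt (xc (f q)) (yc (f p)) ∈ openSegment ℝ (f a) (f q) := by
    rw [h.fa]
    exact mem_spoke_a (pt_im hs) hq (xc_pt hs) (by rw [yc_pt hs]; exact hy)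
  have h2 : pt (xc (f q)) (yc (f p)) ∈ openSegment ℝ (f b) (f p) := by
    rw [h.fb]
    exact mem_spoke_b (pt_im hs) hp (yc_pt hs) (by rw [xc_pt hs]; exact hx)
  have hpq : p ≠ q := by rintro rfl; exact lt_irrefl _ hx
  have hne : s(a, q) ≠ s(b, p) := by
    intro hh
    rcases Sym2.eq_iff.1 hh with hh | hh
    · exact hpq hh.2.symm
    · rw [hh.1] at h
      rw [← hh.2] at hbp
      have hb0 := h.fa
      rw [hb0] at hp
      simp at hp
  have h3 := h.rac.dot haq hbp hne h1 h2
  rw [h.fa, h.fb] at h3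
  exact perp_ab hq hp h3

/-- the side on which the edge `p q` passes the vertex `k` -/
noncomputable def Or3 (p k q : ℂ) : ℝ :=
  (xc k - xc q) * (yc p - yc q) - (yc k - yc q) * (xc p - xc q)

/-- `p` is nested inside `q` -/
def Nest (p q : ℂ) : Prop := xc q < xc p ∧ yc q < yc p

theorem Nest.trans {p q r : ℂ} (h1 : Nest p q) (h2 : Nest q r) : Nest p r :=
  ⟨h2.1.trans h1.1, h2.2.trans h1.2⟩

/-- an edge between nested common neighbours crosses exactly one spoke of a vertex between -/
theorem Nm.cross (h : Nm H f a b) (hp : 0 < (f p).im) (hq : 0 < (f q).im) (hk : 0 < (f k).im)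
    (hpq : H.Adj p q) (hak : H.Adj a k) (hbk : H.Adj b k) (h1 : Nest (f p) (f k))
    (h2 : Nest (f k) (f q)) :
    (0 < Or3 (f p) (f k) (f q) ∧
      xc (f k) * (xc (f p) * yc (f q) - xc (f q) * yc (f p)) =
        (xc (f p) + yc (f p)) - (xc (f q) + yc (f q)) ∧
      dotp (f p) (f q) (f a) (f k) = 0 ∧
      ∃ z ∈ openSegment ℝ (f p) (f q), z ∈ openSegment ℝ (f a) (f k)) ∨
    (Or3 (f p) (f k) (f q) < 0 ∧
      yc (f k) * (xc (f q) * yc (f p) - xc (f p) * yc (f q)) =
        (xc (f p) + yc (f p)) - (xc (f q) + yc (f q)) ∧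
      dotp (f p) (f q) (f b) (f k) = 0 ∧
      ∃ z ∈ openSegment ℝ (f p) (f q), z ∈ openSegment ℝ (f b) (f k)) := by
  have hx := h1.1
  have hy := h1.2
  have hx' := h2.1
  have hy' := h2.2
  have hXpos : 0 < xc (f p) - xc (f q) := by linarith
  have hYpos : 0 < yc (f p) - yc (f q) := by linarith
  have hpk : k ≠ p := by rintro rfl; exact lt_irrefl _ hx
  have hqk : k ≠ q := by rintro rfl; exact lt_irrefl _ hx'
  have hpa : p ≠ a := by rintro rfl; rw [h.fa] at hp; simp at hp
  have hqa : q ≠ a := by rintro rfl; rw [h.fa] at hq; simp at hq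
  have hpb : p ≠ b := by rintro rfl; rw [h.fb] at hp; simp at hp
  have hqb : q ≠ b := by rintro rfl; rw [h.fb] at hq; simp at hq
  have hO : Or3 (f p) (f k) (f q) = (xc (f k) - xc (f q)) * (yc (f p) - yc (f q)) -
    (yc (f k) - yc (f q)) * (xc (f p) - xc (f q)) := rfl
  -- the point of the edge with the abscissa of `k`
  obtain ⟨z, hz, hzi, hzx, hzy⟩ := exists_mem_seg hp hq
    (l := (xc (f k) - xc (f q)) / (xc (f p) - xc (f q))) (div_pos (by linarith) hXpos)
    ((div_lt_one hXpos).2 (by linarith))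
  have hzx' : xc z = xc (f k) := by rw [hzx]; field_simp; ring
  have hzy' : (xc (f p) - xc (f q)) * (yc z - yc (f k)) = Or3 (f p) (f k) (f q) := by
    rw [hzy, hO]; field_simp; ring
  rcases lt_trichotomy (Or3 (f p) (f k) (f q)) 0 with ho | ho | ho
  · right
    obtain ⟨z', hz', hzi', hzx1, hzy1⟩ := exists_mem_seg hp hq
      (l := (yc (f k) - yc (f q)) / (yc (f p) - yc (f q))) (div_pos (by linarith) hYpos)
      ((div_lt_one hYpos).2 (by linarith))
    have hzy2 : yc z' = yc (f k) := by rw [hzy1]; field_simp; ring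
    have hzx2 : (yc (f p) - yc (f q)) * (xc z' - xc (f k)) = -Or3 (f p) (f k) (f q) := by
      rw [hzx1, hO]; field_simp; ring
    have hlt : xc (f k) < xc z' := by
      by_contra hcon
      push Not at hcon
      have := mul_nonpos_of_nonneg_of_nonpos hYpos.le (sub_nonpos.2 hcon)
      linarith
    have hmem : z' ∈ openSegment ℝ (f b) (f k) := by
      rw [h.fb]; exact mem_spoke_b hzi' hk hzy2 hlt
    have hdot := h.rac.dot hpq hbk (ne_of_right hqb hqk.symm) hz' hmem
    refine ⟨ho, perp_b hp hq hk (by rw [← h.fb]; exact hdot), hdot, z', hz', hmem⟩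
  · exfalso
    have hzk : z = f k := by
      refine ext_xy hzi hk hzx' ?_
      rw [ho] at hzy'
      have := (mul_eq_zero.1 hzy').resolve_left hXpos.ne'
      linarith
    exact h.rac.vtx p q k hpq hpk hqk (openSegment_subset_segment ℝ _ _ (hzk ▸ hz))
  · left
    have hlt : yc (f k) < yc z := by
      by_contra hcon
      push Not at hcon
      have := mul_nonpos_of_nonneg_of_nonpos hXpos.le (sub_nonpos.2 hcon)
      linarith
    have hmem : z ∈ openSegment ℝ (f a) (f k) := by
      rw [h.fa]; exact mem_spoke_a hzi hk hzx' hlt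
    have hdot := h.rac.dot hpq hak (ne_of_right hqa hqk.symm) hz hmem
    refine ⟨ho, perp_a hp hq hk (by rw [← h.fa]; exact hdot), hdot, z, hz, hmem⟩

/-- at most one (comparable) vertex lies between the ends of an edge -/
theorem Nm.not_two (h : Nm H f a b) (hp : 0 < (f p).im) (hq : 0 < (f q).im) (hk : 0 < (f k).im)
    (hl : 0 < (f l).im) (hpq : H.Adj p q) (hak : H.Adj a k) (hbk : H.Adj b k) (hal : H.Adj a l)
    (hbl : H.Adj b l) (h1 : Nest (f p) (f k)) (h2 : Nest (f k) (f l)) (h3 : Nest (f l) (f q)) :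
    False := by
  have hxkl := h2.1
  have hykl := h2.2
  have hsk := xy_pos hk
  have hsl := xy_pos hl
  have hpos : 0 < (xc (f p) + yc (f p)) - (xc (f q) + yc (f q)) := by
    have := (h1.trans (h2.trans h3)).1
    have := (h1.trans (h2.trans h3)).2
    linarith
  have hD : xc (f p) * yc (f q) - xc (f q) * yc (f p) ≠ 0 := by
    intro h0
    rcases h.cross hp hq hk hpq hak hbk h1 (h2.trans h3) with ⟨-, e, -⟩ | ⟨-, e, -⟩
    · rw [h0, mul_zero] at e; linarith
    · rw [show xc (f q) * yc (f p) - xc (f p) * yc (f q) = 0 by linarith, mul_zero] at e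
      linarith
  rcases h.cross hp hq hk hpq hak hbk h1 (h2.trans h3) with ⟨-, e, -⟩ | ⟨-, e, -⟩ <;>
    rcases h.cross hp hq hl hpq hal hbl (h1.trans h2) h3 with ⟨-, e', -⟩ | ⟨-, e', -⟩
  · have : (xc (f k) - xc (f l)) * (xc (f p) * yc (f q) - xc (f q) * yc (f p)) = 0 := by linarith
    have := (mul_eq_zero.1 this).resolve_right hD
    linarith
  · have : (xc (f k) + yc (f l)) * (xc (f p) * yc (f q) - xc (f q) * yc (f p)) = 0 := by linarith
    have := (mul_eq_zero.1 this).resolve_right hD
    linarith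
  · have : (yc (f k) + xc (f l)) * (xc (f p) * yc (f q) - xc (f q) * yc (f p)) = 0 := by linarith
    have := (mul_eq_zero.1 this).resolve_right hD
    linarith
  · have : (yc (f k) - yc (f l)) * (xc (f p) * yc (f q) - xc (f q) * yc (f p)) = 0 := by linarith
    have := (mul_eq_zero.1 this).resolve_right hD
    linarith

end

end Pool.Agent.Helper18.RAC
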