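import Pool.Agent.Helper18.RAC.Seq
import Pool.Agent.Helper18.RAC.Order

/-!
# The drawing of the core
-/

set_option autoImplicit false

open Complex

namespace Pool.Agent.Helper18.RAC

section

variable {V : Type*} {G : SimpleGraph V} {f : V → ℂ} {a b : V} {p : ℕ → V} {m : ℕ} {x y : ℕ → ℝ}

/-- a criterion for RAC drawings: the edges are given by codes -/
theorem IsRAC.of_codes {ι : Type*} (E : ι → V × V) (P : ι → Prop)
    (hG : ∀ u v, G.Adj u v → ∃ e, P e ∧ s(u, v) = s((E e).1, (E e).2))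
    (hinj : Function.Injective f)
    (hvtx : ∀ e w, P e → w ≠ (E e).1 → w ≠ (E e).2 →
      f w ∉ openSegment ℝ (f (E e).1) (f (E e).2))
    (hcrs : ∀ e e', P e → P e' → s((E e).1, (E e).2) ≠ s((E e').1, (E e').2) → ∀ z,
      z ∈ openSegment ℝ (f (E e).1) (f (E e).2) → z ∈ openSegment ℝ (f (E e').1) (f (E e').2) →
      dotp (f (E e).1) (f (E e).2) (f (E e').1) (f (E e').2) = 0) : IsRAC G f where
  inj := hinj
  vtx := fun u v w huv hwu hwv hmem => by
    obtain ⟨e, he, hs⟩ := hG u v huv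
    rw [← insert_endpoints_openSegment] at hmem
    rcases hmem with h | h | h
    · exact hwu (hinj h)
    · exact hwv (hinj h)
    · rcases Sym2.eq_iff.1 hs with ⟨h1, h2⟩ | ⟨h1, h2⟩
      · rw [h1, h2] at h
        rw [h1] at hwu
        rw [h2] at hwv
        exact hvtx e w he hwu hwv h
      · rw [h1, h2, openSegment_symm] at h
        rw [h1] at hwu
        rw [h2] at hwv
        exact hvtx e w he hwv hwu h
  crs := fun u v x y huv hxy hne z hz1 hz2 => by
    obtain ⟨e, he, hs⟩ := hG u v huv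
    obtain ⟨e', he', hs'⟩ := hG x y hxy
    rw [re_mul_conj]
    rw [hs, hs'] at hne
    rcases Sym2.eq_iff.1 hs with ⟨h1, h2⟩ | ⟨h1, h2⟩ <;>
      rcases Sym2.eq_iff.1 hs' with ⟨h3, h4⟩ | ⟨h3, h4⟩
    · rw [h1, h2] at hz1
      rw [h3, h4] at hz2
      rw [h1, h2, h3, h4]
      exact hcrs e e' he he' hne z hz1 hz2
    · rw [h1, h2] at hz1
      rw [h3, h4, openSegment_symm] at hz2
      rw [h1, h2, h3, h4]
      have := hcrs e e' he he' hne z hz1 hz2
      unfold dotp at this ⊢
      linarith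
    · rw [h1, h2, openSegment_symm] at hz1
      rw [h3, h4] at hz2
      rw [h1, h2, h3, h4]
      have := hcrs e e' he he' hne z hz1 hz2
      unfold dotp at this ⊢
      linarith
    · rw [h1, h2, openSegment_symm] at hz1
      rw [h3, h4, openSegment_symm] at hz2
      rw [h1, h2, h3, h4]
      have := hcrs e e' he he' hne z hz1 hz2
      unfold dotp at this ⊢
      linarith

/-- codes of the edges of the core -/
inductive Code
  | ab
  | A (j : ℕ)
  | B (j : ℕ)
  | I (i j : ℕ)

/-- valid codes -/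
def Code.valid (m : ℕ) : Code → Prop
  | .ab => True
  | .A j => j < m
  | .B j => j < m
  | .I i j => i < j ∧ j ≤ i + 2 ∧ j < m

/-- the ends of the edges -/
def Code.ends (a b : V) (p : ℕ → V) : Code → V × V
  | .ab => (a, b)
  | .A j => (a, p j)
  | .B j => (b, p j)
  | .I i j => (p i, p j)

/-- the edges of the core -/
def coreE (a b : V) (p : ℕ → V) (m : ℕ) : Set (Sym2 V) :=
  {e | ∃ c : Code, c.valid m ∧ e = s((c.ends a b p).1, (c.ends a b p).2)}

theorem spoke_a_coords {z w : ℂ} (hw : 0 < w.im) (hz : z ∈ openSegment ℝ 0 w) :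
    0 < z.im ∧ xc z = xc w ∧ yc w < yc z := by
  obtain ⟨t, h0, h1, h2, h3⟩ := mem_openSegment_iff.1 hz
  simp only [Complex.zero_re, Complex.zero_im, mul_zero, zero_add] at h2 h3
  have hzi : 0 < z.im := by rw [h3]; exact mul_pos h0 hw
  refine ⟨hzi, ?_, ?_⟩
  · unfold xc
    rw [h2, h3]
    field_simp
  · unfold yc
    rw [div_lt_div_iff₀ hw hzi, h2, h3]
    have : 0 < (1 - t) * w.im := mul_pos (by linarith) hw
    linarith

theorem spoke_b_coords {z w : ℂ} (hw : 0 < w.im) (hz : z ∈ openSegment ℝ 1 w) :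
    0 < z.im ∧ yc z = yc w ∧ xc w < xc z := by
  obtain ⟨t, h0, h1, h2, h3⟩ := mem_openSegment_iff.1 hz
  simp only [Complex.one_re, Complex.one_im, mul_zero, zero_add, mul_one] at h2 h3
  have hzi : 0 < z.im := by rw [h3]; exact mul_pos h0 hw
  refine ⟨hzi, ?_, ?_⟩
  · unfold yc
    rw [h2, h3]
    field_simp
    ring
  · unfold xc
    rw [div_lt_div_iff₀ hw hzi, h2, h3]
    have : 0 < (1 - t) * w.im := mul_pos (by linarith) hw
    linarith

theorem SeqOK.lt (h : SeqOK x y m) {i j : ℕ} (hij : i < j) (hj : j < m) : x j < x i ∧ y j < y i := by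
  obtain ⟨d, rfl⟩ := Nat.exists_eq_add_of_lt hij
  induction d with
  | zero => exact ⟨h.x_lt i hj, h.y_lt i hj⟩
  | succ d ih =>
    obtain ⟨h1, h2⟩ := ih (by omega) (by omega)
    have e1 := h.x_lt (i + d + 1) (by omega)
    have e2 := h.y_lt (i + d + 1) (by omega)
    have e3 : i + (d + 1) + 1 = i + d + 1 + 1 := by ring
    rw [e3]
    exact ⟨e1.trans h1, e2.trans h2⟩

theorem SeqOK.of_x (h : SeqOK x y m) {i j : ℕ} (hi : i < m) (hlt : x j < x i) : i < j := by
  by_contra hcon
  push Not at hcon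
  rcases hcon.eq_or_lt with rfl | hcon
  · exact lt_irrefl _ hlt
  · exact lt_asymm hlt (h.lt hcon hi).1

theorem SeqOK.of_y (h : SeqOK x y m) {i j : ℕ} (hi : i < m) (hlt : y j < y i) : i < j := by
  by_contra hcon
  push Not at hcon
  rcases hcon.eq_or_lt with rfl | hcon
  · exact lt_irrefl _ hlt
  · exact lt_asymm hlt (h.lt hcon hi).2

theorem SeqOK.x_inj (h : SeqOK x y m) {i j : ℕ} (hi : i < m) (hj : j < m) (he : x i = x j) :
    i = j := by
  rcases lt_trichotomy i j with h1 | h1 | h1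
  · exact absurd (h.lt h1 hj).1 (by rw [he]; exact lt_irrefl _)
  · exact h1
  · exact absurd (h.lt h1 hi).1 (by rw [he]; exact lt_irrefl _)

theorem SeqOK.y_inj (h : SeqOK x y m) {i j : ℕ} (hi : i < m) (hj : j < m) (he : y i = y j) :
    i = j := by
  rcases lt_trichotomy i j with h1 | h1 | h1
  · exact absurd (h.lt h1 hj).2 (by rw [he]; exact lt_irrefl _)
  · exact h1
  · exact absurd (h.lt h1 hi).2 (by rw [he]; exact lt_irrefl _)

theorem SeqOK.or_ne (h : SeqOK x y m) {k : ℕ} (hk : k + 2 < m) :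
    OrC (x k) (y k) (x (k + 1)) (y (k + 1)) (x (k + 2)) (y (k + 2)) ≠ 0 := by
  rcases Nat.mod_two_eq_zero_or_one (k + 1) with h0 | h0
  · exact (h.even k hk h0).2.ne'
  · exact (h.odd k hk h0).2.ne

/-- drawing of the core -/
structure CD (f : V → ℂ) (a b : V) (p : ℕ → V) (m : ℕ) (x y : ℕ → ℝ) : Prop where
  ok : SeqOK x y m
  inj : Function.Injective f
  fa : f a = 0
  fb : f b = 1
  fp : ∀ j < m, f (p j) = pt (x j) (y j)
  oth : ∀ v, v = a ∨ v = b ∨ (∃ j < m, v = p j) ∨ (f v).im < 0

theorem CD.s_pos (h : CD f a b p m x y) {j : ℕ} (hj : j < m) : 0 < x j + y j :=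
  add_pos (h.ok.x_pos j hj) (h.ok.y_pos j hj)

theorem CD.im (h : CD f a b p m x y) {j : ℕ} (hj : j < m) : 0 < (f (p j)).im := by
  rw [h.fp j hj]; exact pt_im (h.s_pos hj)

theorem CD.xc (h : CD f a b p m x y) {j : ℕ} (hj : j < m) : xc (f (p j)) = x j := by
  rw [h.fp j hj]; exact xc_pt (h.s_pos hj)

theorem CD.yc (h : CD f a b p m x y) {j : ℕ} (hj : j < m) : yc (f (p j)) = y j := by
  rw [h.fp j hj]; exact yc_pt (h.s_pos hj)

theorem CD.regA (h : CD f a b p m x y) {j : ℕ} (hj : j < m) {z : ℂ}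
    (hz : z ∈ openSegment ℝ (f a) (f (p j))) :
    0 < z.im ∧ RAC.xc z = x j ∧ y j < RAC.yc z := by
  rw [h.fa] at hz
  have := spoke_a_coords (h.im hj) hz
  rwa [h.xc hj, h.yc hj] at this

theorem CD.regB (h : CD f a b p m x y) {j : ℕ} (hj : j < m) {z : ℂ}
    (hz : z ∈ openSegment ℝ (f b) (f (p j))) :
    0 < z.im ∧ RAC.yc z = y j ∧ x j < RAC.xc z := by
  rw [h.fb] at hz
  have := spoke_b_coords (h.im hj) hz
  rwa [h.xc hj, h.yc hj] at this

theorem CD.regI (h : CD f a b p m x y) {i j : ℕ} (hij : i < j) (hj : j < m) {z : ℂ}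
    (hz : z ∈ openSegment ℝ (f (p i)) (f (p j))) :
    0 < z.im ∧ x j < RAC.xc z ∧ RAC.xc z < x i ∧ y j < RAC.yc z ∧ RAC.yc z < y i ∧
      (RAC.xc z - x j) * (y i - y j) = (RAC.yc z - y j) * (x i - x j) := by
  have hi : i < m := hij.trans hj
  obtain ⟨h0, l, hl0, hl1, h1, h2⟩ := mem_seg_coords (h.im hi) (h.im hj) hz
  rw [h.xc hi, h.xc hj] at h1
  rw [h.yc hi, h.yc hj] at h2
  obtain ⟨k1, k2⟩ := h.ok.lt hij hj
  have e1 : 0 < l * (x i - x j) := mul_pos hl0 (by linarith)
  have e2 : 0 < (1 - l) * (x i - x j) := mul_pos (by linarith) (by linarith)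
  have e3 : 0 < l * (y i - y j) := mul_pos hl0 (by linarith)
  have e4 : 0 < (1 - l) * (y i - y j) := mul_pos (by linarith) (by linarith)
  refine ⟨h0, by linarith, by linarith, by linarith, by linarith, ?_⟩
  rw [h1, h2]
  ring

/-- the crossings of the core -/
def Crossing (c c' : Code) : Prop :=
  (∃ k, (k + 1) % 2 = 0 ∧ c = .A (k + 1) ∧ c' = .I k (k + 2)) ∨
    (∃ k, (k + 1) % 2 = 1 ∧ c = .B (k + 1) ∧ c' = .I k (k + 2))

theorem CD.AI (h : CD f a b p m x y) {k i j : ℕ} (hk : k < m) (hij : i < j) (hj2 : j ≤ i + 2)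
    (hj : j < m) {z : ℂ} (h1 : z ∈ openSegment ℝ (f a) (f (p k)))
    (h2 : z ∈ openSegment ℝ (f (p i)) (f (p j))) : Crossing (.A k) (.I i j) := by
  obtain ⟨-, a1, a2⟩ := h.regA hk h1
  obtain ⟨-, b1, b2, b3, b4, b5⟩ := h.regI hij hj h2
  rw [a1] at b1 b2 b5
  have c1 := h.ok.of_x hk b1
  have c2 := h.ok.of_x (hij.trans hj) b2
  have c3 : j = i + 2 := by omega
  have c4 : k = i + 1 := by omega
  subst c3 c4
  rcases Nat.mod_two_eq_zero_or_one (i + 1) with h0 | h0
  · exact Or.inl ⟨i, h0, rfl, rfl⟩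
  · exfalso
    have h3 := (h.ok.odd i hj h0).2
    unfold OrC at h3
    have h4 : 0 < (RAC.yc z - y (i + 1)) * (x i - x (i + 2)) :=
      mul_pos (by linarith) (by linarith)
    linarith

theorem CD.BI (h : CD f a b p m x y) {k i j : ℕ} (hk : k < m) (hij : i < j) (hj2 : j ≤ i + 2)
    (hj : j < m) {z : ℂ} (h1 : z ∈ openSegment ℝ (f b) (f (p k)))
    (h2 : z ∈ openSegment ℝ (f (p i)) (f (p j))) : Crossing (.B k) (.I i j) := by
  obtain ⟨-, a1, a2⟩ := h.regB hk h1
  obtain ⟨-, b1, b2, b3, b4, b5⟩ := h.regI hij hj h2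
  rw [a1] at b3 b4 b5
  have c1 := h.ok.of_y hk b3
  have c2 := h.ok.of_y (hij.trans hj) b4
  have c3 : j = i + 2 := by omega
  have c4 : k = i + 1 := by omega
  subst c3 c4
  rcases Nat.mod_two_eq_zero_or_one (i + 1) with h0 | h0
  · exfalso
    have h3 := (h.ok.even i hj h0).2
    unfold OrC at h3
    have h4 : 0 < (RAC.xc z - x (i + 1)) * (y i - y (i + 2)) :=
      mul_pos (by linarith) (by linarith)
    linarith
  · exact Or.inr ⟨i, h0, rfl, rfl⟩

theorem CD.II (h : CD f a b p m x y) {i j i' j' : ℕ} (hij : i < j) (hj2 : j ≤ i + 2)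
    (hj : j < m) (hij' : i' < j') (hj2' : j' ≤ i' + 2) (hj' : j' < m)
    (hne : ¬ (i = i' ∧ j = j')) (hii : i ≤ i') {z : ℂ}
    (h1 : z ∈ openSegment ℝ (f (p i)) (f (p j)))
    (h2 : z ∈ openSegment ℝ (f (p i')) (f (p j'))) : False := by
  obtain ⟨-, a1, a2, a3, a4, a5⟩ := h.regI hij hj h1
  obtain ⟨-, b1, b2, b3, b4, b5⟩ := h.regI hij' hj' h2
  have c1 := h.ok.of_x (hij'.trans hj') (a1.trans b2)
  have c2 := h.ok.of_x (hij.trans hj) (b1.trans a2)
  have hc : i' = i ∨ (i' = i + 1 ∧ j = i + 2) := by omega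
  rcases hc with rfl | ⟨rfl, rfl⟩
  · -- the same inner end
    have hcase : (j = i' + 1 ∧ j' = i' + 2) ∨ (j = i' + 2 ∧ j' = i' + 1) := by omega
    rcases hcase with ⟨rfl, rfl⟩ | ⟨rfl, rfl⟩
    · apply h.ok.or_ne hj'
      have hu : RAC.xc z - x i' ≠ 0 := by linarith
      apply mul_left_cancel₀ hu
      unfold OrC
      linear_combination (x i' - x (i' + 2)) * a5 - (x i' - x (i' + 1)) * b5
    · apply h.ok.or_ne hj
      have hu : RAC.xc z - x i' ≠ 0 := by linarith
      apply mul_left_cancel₀ hu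
      unfold OrC
      linear_combination (x i' - x (i' + 2)) * b5 - (x i' - x (i' + 1)) * a5
  · have hcase : j' = i + 2 ∨ j' = i + 3 := by omega
    rcases hcase with rfl | rfl
    · apply h.ok.or_ne hj
      have hu : RAC.xc z - x (i + 2) ≠ 0 := by linarith
      apply mul_left_cancel₀ hu
      unfold OrC
      linear_combination (x (i + 1) - x (i + 2)) * a5 - (x i - x (i + 2)) * b5
    · have e1 : i + 1 + 1 = i + 2 := rfl
      have e2 : i + 1 + 2 = i + 3 := rfl
      have k12 := h.ok.lt (show i + 1 < i + 2 by omega) hj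
      have k01 := h.ok.lt (show i < i + 1 by omega) (by omega)
      have k23 := h.ok.lt (show i + 2 < i + 3 by omega) hj'
      set M := (RAC.xc z - x (i + 2)) * (y (i + 1) - y (i + 2)) -
        (RAC.yc z - y (i + 2)) * (x (i + 1) - x (i + 2)) with hM
      have m1 : M * (x i - x (i + 2)) = -((RAC.xc z - x (i + 2)) *
          OrC (x i) (y i) (x (i + 1)) (y (i + 1)) (x (i + 2)) (y (i + 2))) := by
        rw [hM]
        unfold OrC
        linear_combination (x (i + 1) - x (i + 2)) * a5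
      have m2 : M * (x (i + 1) - x (i + 3)) = -((x (i + 1) - RAC.xc z) *
          OrC (x (i + 1)) (y (i + 1)) (x (i + 2)) (y (i + 2)) (x (i + 3)) (y (i + 3))) := by
        rw [hM]
        unfold OrC
        linear_combination (x (i + 1) - x (i + 2)) * b5
      have p1 : 0 < x i - x (i + 2) := by linarith [k12.1, k01.1]
      have p2 : 0 < x (i + 1) - x (i + 3) := by linarith [k12.1, k23.1]
      have p3 : 0 < RAC.xc z - x (i + 2) := by linarith
      have p4 : 0 < x (i + 1) - RAC.xc z := by linarith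
      rcases Nat.mod_two_eq_zero_or_one (i + 1) with h0 | h0
      · have o1 := (h.ok.even i hj h0).2
        have o2 := (h.ok.odd (i + 1) (by omega) (by omega)).2
        rw [e1, e2] at o2
        have q1 : M < 0 := by
          have := mul_pos p3 o1
          by_contra hcon
          push Not at hcon
          have := mul_nonneg hcon p1.le
          linarith
        have q2 : 0 < M := by
          have := mul_neg_of_pos_of_neg p4 o2
          by_contra hcon
          push Not at hcon
          have := mul_nonpos_of_nonpos_of_nonneg hcon p2.le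
          linarith
        linarith
      · have o1 := (h.ok.odd i hj h0).2
        have o2 := (h.ok.even (i + 1) (by omega) (by omega)).2
        rw [e1, e2] at o2
        have q1 : 0 < M := by
          have := mul_neg_of_pos_of_neg p3 o1
          by_contra hcon
          push Not at hcon
          have := mul_nonpos_of_nonpos_of_nonneg hcon p1.le
          linarith
        have q2 : M < 0 := by
          have := mul_pos p4 o2
          by_contra hcon
          push Not at hcon
          have := mul_nonneg hcon p2.le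
          linarith
        linarith

/-- all crossings of the core -/
theorem CD.crossing (h : CD f a b p m x y) {c c' : Code} (hc : c.valid m) (hc' : c'.valid m)
    (hne : c ≠ c') {z : ℂ}
    (h1 : z ∈ openSegment ℝ (f (c.ends a b p).1) (f (c.ends a b p).2))
    (h2 : z ∈ openSegment ℝ (f (c'.ends a b p).1) (f (c'.ends a b p).2)) :
    Crossing c c' ∨ Crossing c' c := by
  have hab : ∀ z, z ∈ openSegment ℝ (f a) (f b) → z.im = 0 := by
    intro z hz
    rw [h.fa, h.fb] at hz
    obtain ⟨t, -, -, -, h3⟩ := mem_openSegment_iff.1 hz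
    rw [h3]; simp
  cases c with
  | ab =>
    exfalso
    have h3 := hab z h1
    cases c' with
    | ab => exact hne rfl
    | A j => have := (h.regA hc' h2).1; linarith
    | B j => have := (h.regB hc' h2).1; linarith
    | I i j => have := (h.regI hc'.1 hc'.2.2 h2).1; linarith
  | A k =>
    have h3 := h.regA hc h1
    cases c' with
    | ab => exfalso; have := hab z h2; linarith [h3.1]
    | A j =>
      exfalso
      have h4 := h.regA hc' h2
      exact hne (by rw [h.ok.x_inj hc hc' (h3.2.1.symm.trans h4.2.1)])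
    | B j =>
      exfalso
      have h4 := h.regB hc' h2
      have e1 := h.ok.of_x hc (show x j < x k by linarith [h3.2.1, h4.2.2])
      have e2 := h.ok.of_y hc' (show y k < y j by linarith [h3.2.2, h4.2.1])
      omega
    | I i j => exact Or.inl (h.AI hc hc'.1 hc'.2.1 hc'.2.2 h1 h2)
  | B k =>
    have h3 := h.regB hc h1
    cases c' with
    | ab => exfalso; have := hab z h2; linarith [h3.1]
    | A j =>
      exfalso
      have h4 := h.regA hc' h2
      have e1 := h.ok.of_x hc' (show x k < x j by linarith [h3.2.2, h4.2.1])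
      have e2 := h.ok.of_y hc (show y j < y k by linarith [h3.2.1, h4.2.2])
      omega
    | B j =>
      exfalso
      have h4 := h.regB hc' h2
      exact hne (by rw [h.ok.y_inj hc hc' (h3.2.1.symm.trans h4.2.1)])
    | I i j => exact Or.inl (h.BI hc hc'.1 hc'.2.1 hc'.2.2 h1 h2)
  | I i j =>
    cases c' with
    | ab => exfalso; have := hab z h2; linarith [(h.regI hc.1 hc.2.2 h1).1]
    | A k => exact Or.inr (h.AI hc' hc.1 hc.2.1 hc.2.2 h2 h1)
    | B k => exact Or.inr (h.BI hc' hc.1 hc.2.1 hc.2.2 h2 h1)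
    | I i' j' =>
      exfalso
      have hne' : ¬ (i = i' ∧ j = j') := by
        rintro ⟨rfl, rfl⟩; exact hne rfl
      rcases le_total i i' with hii | hii
      · exact h.II hc.1 hc.2.1 hc.2.2 hc'.1 hc'.2.1 hc'.2.2 hne' hii h1 h2
      · exact h.II hc'.1 hc'.2.1 hc'.2.2 hc.1 hc.2.1 hc.2.2
          (fun hh => hne' ⟨hh.1.symm, hh.2.symm⟩) hii h2 h1

theorem CD.dot (h : CD f a b p m x y) {c c' : Code} (hc : c.valid m) (hc' : c'.valid m)
    (hcr : Crossing c c') :
    dotp (f (c.ends a b p).1) (f (c.ends a b p).2) (f (c'.ends a b p).1) (f (c'.ends a b p).2) = 0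
    := by
  rcases hcr with ⟨k, h0, rfl, rfl⟩ | ⟨k, h0, rfl, rfl⟩
  · have h1 := (h.ok.even k hc'.2.2 h0).1
    have hk2 : k + 2 < m := hc'.2.2
    have s0 := h.s_pos (show k < m by omega)
    have s1 := h.s_pos (show k + 1 < m by omega)
    have s2 := h.s_pos hk2
    simp only [Code.ends]
    rw [h.fa, h.fp k (by omega), h.fp (k + 1) (by omega), h.fp (k + 2) hk2]
    unfold dotp pt
    simp only [Complex.zero_re, Complex.zero_im, sub_zero]
    field_simp
    linear_combination -h1
  · have h1 := (h.ok.odd k hc'.2.2 h0).1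
    have hk2 : k + 2 < m := hc'.2.2
    have s0 := h.s_pos (show k < m by omega)
    have s1 := h.s_pos (show k + 1 < m by omega)
    have s2 := h.s_pos hk2
    simp only [Code.ends]
    rw [h.fb, h.fp k (by omega), h.fp (k + 1) (by omega), h.fp (k + 2) hk2]
    unfold dotp pt
    simp only [Complex.one_re, Complex.one_im, sub_zero]
    field_simp
    linear_combination -h1

/-- no vertex lies on an edge of the core -/
theorem CD.vtx (h : CD f a b p m x y) {c : Code} (hc : c.valid m) {w : V}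
    (hw1 : w ≠ (c.ends a b p).1) (hw2 : w ≠ (c.ends a b p).2) :
    f w ∉ openSegment ℝ (f (c.ends a b p).1) (f (c.ends a b p).2) := by
  intro hmem
  cases c with
  | ab =>
    simp only [Code.ends] at hw1 hw2 hmem
    have him : (f w).im = 0 := by
      rw [h.fa, h.fb] at hmem
      obtain ⟨t, -, -, -, h3⟩ := mem_openSegment_iff.1 hmem
      rw [h3]; simp
    rcases h.oth w with h1 | h1 | ⟨j, hj, rfl⟩ | h1
    · exact hw1 h1
    · exact hw2 h1
    · have := h.im hj; linarith
    · linarith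
  | A k =>
    simp only [Code.ends] at hw1 hw2 hmem
    have h3 := h.regA hc hmem
    rcases h.oth w with h1 | h1 | ⟨j, hj, rfl⟩ | h1
    · exact hw1 h1
    · rw [h1, h.fb] at h3; simp at h3
    · rw [h.xc hj] at h3
      exact hw2 (by rw [h.ok.x_inj hj hc h3.2.1])
    · linarith [h3.1]
  | B k =>
    simp only [Code.ends] at hw1 hw2 hmem
    have h3 := h.regB hc hmem
    rcases h.oth w with h1 | h1 | ⟨j, hj, rfl⟩ | h1
    · rw [h1, h.fa] at h3; simp at h3
    · exact hw1 h1
    · rw [h.yc hj] at h3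
      exact hw2 (by rw [h.ok.y_inj hj hc h3.2.1])
    · linarith [h3.1]
  | I i j =>
    simp only [Code.ends] at hw1 hw2 hmem
    obtain ⟨b0, b1, b2, b3, b4, b5⟩ := h.regI hc.1 hc.2.2 hmem
    rcases h.oth w with h1 | h1 | ⟨k, hk, rfl⟩ | h1
    · rw [h1, h.fa] at b0; simp at b0
    · rw [h1, h.fb] at b0; simp at b0
    · rw [h.xc hk] at b1 b2 b5
      rw [h.yc hk] at b5
      have c1 := h.ok.of_x hk b1
      have c2 := h.ok.of_x (hc.1.trans hc.2.2) b2
      have hc2 := hc.2.1
      have c3 : j = i + 2 := by omega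
      have c4 : k = i + 1 := by omega
      subst c3 c4
      apply h.ok.or_ne hc.2.2
      unfold OrC
      linarith
    · linarith

/-- the graph with a given set of edges -/
theorem CD.rac (h : CD f a b p m x y) : IsRAC (SimpleGraph.fromEdgeSet (coreE a b p m)) f := by
  refine IsRAC.of_codes (fun c : Code => c.ends a b p) (Code.valid m) ?_ h.inj
    (fun e w he hw1 hw2 => h.vtx he hw1 hw2) ?_
  · intro u v huv
    rw [SimpleGraph.fromEdgeSet_adj] at huv
    exact huv.1
  · intro e e' he he' hne z hz1 hz2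
    have hne' : e ≠ e' := by rintro rfl; exact hne rfl
    rcases h.crossing he he' hne' hz1 hz2 with h1 | h1
    · exact h.dot he he' h1
    · have := h.dot he' he h1
      unfold dotp at this ⊢
      linarith

/-- the edge `u v` is not crossed -/
def Unc (G : SimpleGraph V) (f : V → ℂ) (u v : V) : Prop :=
  ∀ x y, G.Adj x y → s(x, y) ≠ s(u, v) → ∀ z, z ∈ openSegment ℝ (f x) (f y) →
    z ∉ openSegment ℝ (f u) (f v)

theorem Unc.symm {u v : V} (h : Unc G f u v) : Unc G f v u := by
  intro x y hxy hne z hz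
  rw [openSegment_symm]
  exact h x y hxy (by rw [Sym2.eq_swap (a := u)]; exact hne) z hz

theorem CD.unc (h : CD f a b p m x y) {c : Code} (hc : c.valid m)
    (hcr : ∀ c', ¬ Crossing c c' ∧ ¬ Crossing c' c) :
    Unc (SimpleGraph.fromEdgeSet (coreE a b p m)) f (c.ends a b p).1 (c.ends a b p).2 := by
  intro u v huv hne z hz hz'
  rw [SimpleGraph.fromEdgeSet_adj] at huv
  obtain ⟨⟨c', hc', he⟩, -⟩ := huv
  have hne' : c ≠ c' := by rintro rfl; exact hne he
  have hz'' : z ∈ openSegment ℝ (f (c'.ends a b p).1) (f (c'.ends a b p).2) := by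
    rcases Sym2.eq_iff.1 he with ⟨h1, h2⟩ | ⟨h1, h2⟩
    · rw [← h1, ← h2]; exact hz
    · rw [← h1, ← h2, openSegment_symm]; exact hz
  rcases h.crossing hc hc' hne' hz' hz'' with h1 | h1
  · exact (hcr c').1 h1
  · exact (hcr c').2 h1

/-- spokes to `a` of odd vertices are not crossed -/
theorem CD.uncA (h : CD f a b p m x y) {j : ℕ} (hj : j < m) (h1 : j % 2 = 1) :
    Unc (SimpleGraph.fromEdgeSet (coreE a b p m)) f a (p j) := by
  refine h.unc (c := .A j) hj fun c' => ⟨?_, ?_⟩
  · rintro (⟨k, h0, hk, -⟩ | ⟨k, h0, hk, -⟩)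
    · injection hk with hk
      omega
    · cases hk
  · rintro (⟨k, h0, -, hk⟩ | ⟨k, h0, -, hk⟩) <;> cases hk

/-- spokes to `b` of even vertices are not crossed -/
theorem CD.uncB (h : CD f a b p m x y) {j : ℕ} (hj : j < m) (h1 : j % 2 = 0) :
    Unc (SimpleGraph.fromEdgeSet (coreE a b p m)) f b (p j) := by
  refine h.unc (c := .B j) hj fun c' => ⟨?_, ?_⟩
  · rintro (⟨k, h0, hk, -⟩ | ⟨k, h0, hk, -⟩)
    · cases hk
    · injection hk with hk
      omega
  · rintro (⟨k, h0, -, hk⟩ | ⟨k, h0, -, hk⟩) <;> cases hk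

/-- the edges of the path are not crossed -/
theorem CD.uncP (h : CD f a b p m x y) {j : ℕ} (hj : j + 1 < m) :
    Unc (SimpleGraph.fromEdgeSet (coreE a b p m)) f (p j) (p (j + 1)) := by
  refine h.unc (c := .I j (j + 1)) ⟨by omega, by omega, hj⟩ fun c' => ⟨?_, ?_⟩
  · rintro (⟨k, h0, hk, -⟩ | ⟨k, h0, hk, -⟩) <;> cases hk
  · rintro (⟨k, h0, -, hk⟩ | ⟨k, h0, -, hk⟩) <;>
    · injection hk with hk1 hk2
      omega

end

end Pool.Agent.Helper18.RAC
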