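import Pool.Agent.Helper18.RAC.Sector

/-!
# Two vertices in a cell with edges across two sides
-/

set_option autoImplicit false

open Complex

namespace Pool.Agent.Helper18.RAC

variable {V : Type*}

section

variable {H : SimpleGraph V} {X Y : V → ℝ} {E F a b : ℝ} {u u' w w' v v' v'' z z' z'' : V}

/-- an edge from the cell `u w` to the neighbouring cell `w u'` is parallel to the first axis -/
theorem KN.horiz (hd : ADraw H X Y E F) (hk : KN H X Y a b u u' w w') (hv : H.Adj v v')
    (h1 : 0 < X v) (h2 : 0 < Y v) (h3 : X v + Y v < 1) (h4 : X v' < 0) (h5 : 0 < Y v')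
    (h6 : Y v' < 1) : Y v' = Y v := by
  have hb := hk.b_pos
  have hD : 0 < X v - X v' := by linarith
  have hne : s(v, v') ≠ s(w, w') := by
    apply ne_of_left
    · rintro rfl; rw [hk.Xw] at h1; exact lt_irrefl _ h1
    · rintro rfl; rw [hk.Xw'] at h1; exact lt_irrefl _ h1
  have e : X v / (X v - X v') * (X v - X v') = X v := div_mul_cancel₀ _ hD.ne'
  have s0 : 0 < X v / (X v - X v') := div_pos h1 hD
  have s1 : X v / (X v - X v') < 1 := (div_lt_one hD).2 (by linarith)
  refine hk.cross_w hd hv hne s0 s1
    (y := (1 - X v / (X v - X v')) * Y v + X v / (X v - X v') * Y v') ?_ rfl ?_ ?_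
  · linear_combination -e
  · have k1 := mul_pos (show 0 < 1 - X v / (X v - X v') by linarith) h2
    have k2 := mul_pos s0 h5
    linarith
  · have k1 := mul_lt_mul_of_pos_left (show Y v < 1 by linarith)
      (show 0 < 1 - X v / (X v - X v') by linarith)
    have k2 := mul_lt_mul_of_pos_left h6 s0
    linarith

/-- two vertices in the same direction from a third one coincide -/
theorem ADraw.same_dir (hd : ADraw H X Y E F) (hv : H.Adj v v') (hv' : H.Adj v v'') {s : ℝ}
    (hs : 0 < s) (h1 : X v' - X v = s * (X v'' - X v)) (h2 : Y v' - Y v = s * (Y v'' - Y v)) :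
    v' = v'' := by
  by_contra hne
  rcases le_total s 1 with h | h
  · exact hd.vtx v v'' v' hv' hv.ne' hne s hs.le h (by linarith) (by linarith)
  · refine hd.vtx v v' v'' hv hv'.ne' (Ne.symm hne) s⁻¹ (inv_pos.2 hs).le
      (inv_le_one_of_one_le₀ h) ?_ ?_
    · have : X v'' - X v = s⁻¹ * (X v' - X v) := by rw [h1]; field_simp
      linarith
    · have : Y v'' - Y v = s⁻¹ * (Y v' - Y v) := by rw [h2]; field_simp
      linarith

/-- only one edge leads from a vertex of a cell to the neighbouring cell -/
theorem KN.unique_diag (hd : ADraw H X Y E F) (hk : KN H X Y a b u u' w w') (hv : H.Adj v v')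
    (hv' : H.Adj v v'') (h1 : 0 < X v) (h2 : 0 < Y v) (h3 : X v + Y v < 1) (h4 : X v' < 0)
    (h5 : 0 < Y v') (h6 : Y v' < 1) (h4' : X v'' < 0) (h5' : 0 < Y v'') (h6' : Y v'' < 1) :
    v' = v'' := by
  have e1 := hk.horiz hd hv h1 h2 h3 h4 h5 h6
  have e2 := hk.horiz hd hv' h1 h2 h3 h4' h5' h6'
  have hD : 0 < X v - X v'' := by linarith
  refine hd.same_dir hv hv' (s := (X v - X v') / (X v - X v'')) (div_pos (by linarith) hD) ?_ ?_
  · have : (X v - X v') / (X v - X v'') * (X v - X v'') = X v - X v' :=
      div_mul_cancel₀ _ hD.ne'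
    linarith
  · rw [e1, e2]; ring

/-- an edge which crosses the side `u w` is parallel to `(F, E)` -/
theorem KN.unique_side (hd : ADraw H X Y E F) (hk : KN H X Y a b u u' w w') (hv : H.Adj v v')
    (hv' : H.Adj v v'') (h3 : X v + Y v < 1) {s t s' t' : ℝ} (hs0 : 0 < s) (hs1 : s < 1)
    (ht0 : 0 < t) (ht1 : t < 1) (hx : (1 - s) * X v + s * X v' = 1 - t)
    (hy : (1 - s) * Y v + s * Y v' = t) (hs0' : 0 < s') (hs1' : s' < 1)
    (ht0' : 0 < t') (ht1' : t' < 1) (hx' : (1 - s') * X v + s' * X v'' = 1 - t')
    (hy' : (1 - s') * Y v + s' * Y v'' = t') : v' = v'' := by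
  have hne : ∀ x, s(v, x) ≠ s(u, w) := by
    intro x
    apply ne_of_left
    · rintro rfl; rw [hk.Xu, hk.Yu] at h3; linarith
    · rintro rfl; rw [hk.Xw, hk.Yw] at h3; linarith
  have e1 := hk.cross_s hd hv (hne v') hs0 hs1 ht0 ht1 hx hy
  have e2 := hk.cross_s hd hv' (hne v'') hs0' hs1' ht0' ht1' hx' hy'
  have hE := hd.E_pos
  have hF := hd.F_pos
  -- both are positive multiples of (F, E)
  have p1 : 0 < (X v' - X v) + (Y v' - Y v) := by
    have : s * ((X v' - X v) + (Y v' - Y v)) = 1 - (X v + Y v) := by linarith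
    exact (pos_iff_pos_of_mul_pos (show 0 < s * _ by rw [this]; linarith)).1 hs0
  have p2 : 0 < (X v'' - X v) + (Y v'' - Y v) := by
    have : s' * ((X v'' - X v) + (Y v'' - Y v)) = 1 - (X v + Y v) := by linarith
    exact (pos_iff_pos_of_mul_pos (show 0 < s' * _ by rw [this]; linarith)).1 hs0'
  have hEF : 0 < E + F := by linarith
  have q1 : (E + F) * (X v' - X v) = F * ((X v' - X v) + (Y v' - Y v)) := by linarith
  have q2 : (E + F) * (X v'' - X v) = F * ((X v'' - X v) + (Y v'' - Y v)) := by linarith
  have q3 : (E + F) * (Y v' - Y v) = E * ((X v' - X v) + (Y v' - Y v)) := by linarith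
  have q4 : (E + F) * (Y v'' - Y v) = E * ((X v'' - X v) + (Y v'' - Y v)) := by linarith
  set A := (X v' - X v) + (Y v' - Y v) with hA
  set B := (X v'' - X v) + (Y v'' - Y v) with hB
  refine hd.same_dir hv hv' (s := A / B) (div_pos p1 p2) ?_ ?_
  · apply mul_left_cancel₀ hEF.ne'
    rw [q1, mul_left_comm, q2]
    field_simp
  · apply mul_left_cancel₀ hEF.ne'
    rw [q3, mul_left_comm, q4]
    field_simp

/-- the data of a vertex `z` in the cell with edges across the diagonal `w w'` and the side
`u w` -/
structure Barrier (H : SimpleGraph V) (X Y : V → ℝ) (E F : ℝ) (z z' z'' : V) : Prop where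
  x_pos : 0 < X z
  y_pos : 0 < Y z
  lt : X z + Y z < 1
  adj' : H.Adj z z'
  adj'' : H.Adj z z''
  x' : X z' < 0
  y' : Y z' = Y z
  lt'' : 1 < X z'' + Y z''
  perp : E * (X z'' - X z) = F * (Y z'' - Y z)

/-- no edge meets the first part of the barrier, except horizontally -/
theorem Barrier.not1 (hd : ADraw H X Y E F) (hB : Barrier H X Y E F z z' z'')
    (hu : H.Adj u v) (huz : u ≠ z) (huz' : u ≠ z') (hvz : v ≠ z) (hvz' : v ≠ z')
    (hne : X u ≠ X v) {t : ℝ}
    (ht0 : 0 < t) (ht1 : t < 1) (h0 : 0 ≤ (1 - t) * X u + t * X v)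
    (hx : (1 - t) * X u + t * X v ≤ X z) (hy : (1 - t) * Y u + t * Y v = Y z) : False := by
  rcases hx.eq_or_lt with hx | hx
  · exact hd.vtx u v z hu huz.symm hvz.symm t ht0.le ht1.le hx.symm hy.symm
  · have h1 := hB.x_pos
    have h2 := hB.x'
    have hD : 0 < X z - X z' := by linarith
    have hr := hd.crs u v z z' hu hB.adj' (ne_of_left huz huz') t
      ((X z - ((1 - t) * X u + t * X v)) / (X z - X z')) ht0 ht1
      (div_pos (by linarith) hD) ((div_lt_one hD).2 (by linarith))
      (by
        have : (X z - ((1 - t) * X u + t * X v)) / (X z - X z') * (X z - X z') =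
          X z - ((1 - t) * X u + t * X v) := div_mul_cancel₀ _ hD.ne'
        linarith)
      (by rw [hy, hB.y']; ring)
    rw [hB.y', sub_self, mul_zero, mul_zero, add_zero] at hr
    have hE := hd.E_pos
    have h3 : (X v - X u) * (X z' - X z) = 0 := by
      rcases mul_eq_zero.1 hr with h | h
      · linarith
      · exact h
    rcases mul_eq_zero.1 h3 with h | h
    · exact hne (by linarith)
    · linarith

/-- no edge meets the second part of the barrier, except in the direction of the side -/
theorem Barrier.not2 (hd : ADraw H X Y E F) (hB : Barrier H X Y E F z z' z'')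
    (hu : H.Adj u v) (huz : u ≠ z) (huz' : u ≠ z'') (hvz : v ≠ z) (hvz' : v ≠ z'')
    (hne : X u + Y u ≠ X v + Y v) {t : ℝ}
    (ht0 : 0 < t) (ht1 : t < 1) (h0 : (1 - t) * X u + t * X v + ((1 - t) * Y u + t * Y v) ≤ 1)
    (hx : -E * ((1 - t) * X u + t * X v) + F * ((1 - t) * Y u + t * Y v) =
      -E * X z + F * Y z) (hy : Y z ≤ (1 - t) * Y u + t * Y v) : False := by
  have hE := hd.E_pos
  have hF := hd.F_pos
  have hEF : 0 < E + F := by linarith
  set x := (1 - t) * X u + t * X v with hxd
  set y := (1 - t) * Y u + t * Y v with hyd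
  rcases hy.eq_or_lt with hy | hy
  · have hxz : x = X z := by
      have : E * (x - X z) = 0 := by rw [← hy] at hx; linarith
      have := (mul_eq_zero.1 this).resolve_left hE.ne'
      linarith
    exact hd.vtx u v z hu huz.symm hvz.symm t ht0.le ht1.le (by rw [← hxz]) (by rw [hy])
  · have h1 := hB.lt
    have h2 := hB.lt''
    have h3 := hB.perp
    -- the point is z + tau (z'' - z)
    have hD : 0 < Y z'' - Y z := by
      have e1 : E * (X z'' + Y z'' - X z - Y z) = (E + F) * (Y z'' - Y z) := by linarith
      have e2 : 0 < E * (X z'' + Y z'' - X z - Y z) := mul_pos hE (by linarith)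
      rw [e1] at e2
      exact (pos_iff_pos_of_mul_pos e2).1 hEF
    have e3 : E * (x - X z) = F * (y - Y z) := by linarith
    have e4 : E * (x + y - X z - Y z) = (E + F) * (y - Y z) := by linarith
    have e5 : E * (X z'' + Y z'' - X z - Y z) = (E + F) * (Y z'' - Y z) := by linarith
    have hlt : y - Y z < Y z'' - Y z := by
      have k1 : E * (x + y - X z - Y z) < E * (X z'' + Y z'' - X z - Y z) :=
        mul_lt_mul_of_pos_left (by linarith) hE
      rw [e4, e5] at k1
      exact lt_of_mul_lt_mul_left k1 hEF.le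
    have hq : (y - Y z) / (Y z'' - Y z) * (Y z'' - Y z) = y - Y z := div_mul_cancel₀ _ hD.ne'
    have hr := hd.crs u v z z'' hu hB.adj'' (ne_of_left huz huz') t
      ((y - Y z) / (Y z'' - Y z)) ht0 ht1 (div_pos (by linarith) hD) ((div_lt_one hD).2 hlt)
      (by
        apply mul_left_cancel₀ hE.ne'
        have : E * ((1 - (y - Y z) / (Y z'' - Y z)) * X z + (y - Y z) / (Y z'' - Y z) * X z'') =
          E * X z + (y - Y z) / (Y z'' - Y z) * (E * (X z'' - X z)) := by ring
        rw [this, h3]
        have : (y - Y z) / (Y z'' - Y z) * (F * (Y z'' - Y z)) =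
          F * ((y - Y z) / (Y z'' - Y z) * (Y z'' - Y z)) := by ring
        rw [this, hq]
        linarith)
      (by linarith)
    have k2 : F * ((Y z'' - Y z) * ((X v - X u) + (Y v - Y u))) = 0 := by
      have : E * ((X v - X u) * (X z'' - X z)) = (X v - X u) * (F * (Y z'' - Y z)) := by
        rw [← h3]; ring
      rw [this] at hr
      linarith
    have k3 := (mul_eq_zero.1 k2).resolve_left hF.ne'
    have k4 := (mul_eq_zero.1 k3).resolve_left hD.ne'
    exact hne (by linarith)

/-- **Lemma W.** An edge from the corner `w` ends in front of the barrier. -/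
theorem Barrier.wedge (hd : ADraw H X Y E F) (hk : KN H X Y a b u u' w w')
    (hB : Barrier H X Y E F z z' z'') (hwz' : w ≠ z') (hwz'' : w ≠ z'') (hwv : H.Adj w v)
    (hvz : v ≠ z) (hvz' : v ≠ z') (hvz'' : v ≠ z'')
    (h1 : 0 < X v) (h2 : 0 < Y v) (h3 : X v + Y v < 1) :
    Y z < Y v ∧ -E * X z + F * Y z < -E * X v + F * Y v := by
  have hE := hd.E_pos
  have hF := hd.F_pos
  have hz1 := hB.x_pos
  have hz2 := hB.y_pos
  have hz3 := hB.lt
  have hwz : w ≠ z := by rintro rfl; rw [hk.Xw] at hz1; exact lt_irrefl _ hz1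
  have hXw : X w = 0 := hk.Xw
  have hYw : Y w = 1 := hk.Yw
  have hnx : X w ≠ X v := by rw [hXw]; exact h1.ne
  have hns : X w + Y w ≠ X v + Y v := by rw [hXw, hYw]; linarith
  have hsw : -E * X z + F * Y z < F := by
    have k1 := mul_pos hE hz1
    have k2 : F * Y z < F * 1 := mul_lt_mul_of_pos_left (by linarith) hF
    linarith
  -- crossing of the second line
  have key : -E * X v + F * Y v ≤ -E * X z + F * Y z → Y v < Y z ∧
      ∃ t : ℝ, 0 < t ∧ t < 1 ∧ (1 - t) * Y w + t * Y v < Y z ∧
        -E * ((1 - t) * X w + t * X v) + F * ((1 - t) * Y w + t * Y v) =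
          -E * X z + F * Y z := by
    intro hle
    set D := F - (-E * X v + F * Y v) with hD
    have hDpos : 0 < D := by rw [hD]; linarith
    have ht0 : 0 < (F - (-E * X z + F * Y z)) / D := div_pos (by linarith) hDpos
    have ht1 : (F - (-E * X z + F * Y z)) / D ≤ 1 := (div_le_one hDpos).2 (by rw [hD]; linarith)
    have hte : (F - (-E * X z + F * Y z)) / D * D = F - (-E * X z + F * Y z) :=
      div_mul_cancel₀ _ hDpos.ne'
    set t := (F - (-E * X z + F * Y z)) / D with ht
    have hs : -E * ((1 - t) * X w + t * X v) + F * ((1 - t) * Y w + t * Y v) =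
        -E * X z + F * Y z := by
      rw [hXw, hYw]
      rw [hD] at hte
      linarith
    rcases ht1.eq_or_lt with ht1 | ht1
    · -- v itself lies on the second line
      exfalso
      rw [ht1] at hs
      have hs' : -E * X v + F * Y v = -E * X z + F * Y z := by linarith
      have hyv : Y v < Y z := by
        by_contra hcon
        push Not at hcon
        rcases hcon.eq_or_lt with hcon | hcon
        · have : E * (X v - X z) = 0 := by rw [← hcon] at hs'; linarith
          have := (mul_eq_zero.1 this).resolve_left hE.ne'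
          exact hvz (by
            by_contra hne
            exact hd.vtx z z' v hB.adj' hne hvz' 0 le_rfl zero_le_one (by linarith)
              (by linarith))
        · -- v lies on the edge z z''
          have h4 := hB.lt''
          have h5 := hB.perp
          have hDD : 0 < Y z'' - Y z := by
            have e1 : E * (X z'' + Y z'' - X z - Y z) = (E + F) * (Y z'' - Y z) := by linarith
            have e2 : 0 < E * (X z'' + Y z'' - X z - Y z) := mul_pos hE (by linarith)
            rw [e1] at e2
            exact (pos_iff_pos_of_mul_pos e2).1 (by linarith)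
          have e3 : E * (X v - X z) = F * (Y v - Y z) := by linarith
          have e4 : E * (X v + Y v - X z - Y z) = (E + F) * (Y v - Y z) := by linarith
          have e5 : E * (X z'' + Y z'' - X z - Y z) = (E + F) * (Y z'' - Y z) := by linarith
          have hlt : Y v - Y z < Y z'' - Y z := by
            have k1 : E * (X v + Y v - X z - Y z) < E * (X z'' + Y z'' - X z - Y z) :=
              mul_lt_mul_of_pos_left (by linarith) hE
            rw [e4, e5] at k1
            exact lt_of_mul_lt_mul_left k1 (by linarith)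
          have hq : (Y v - Y z) / (Y z'' - Y z) * (Y z'' - Y z) = Y v - Y z :=
            div_mul_cancel₀ _ hDD.ne'
          refine hd.vtx z z'' v hB.adj'' hvz hvz'' ((Y v - Y z) / (Y z'' - Y z))
            (div_nonneg (by linarith) hDD.le) ((div_le_one hDD).2 hlt.le) ?_ (by linarith)
          apply mul_left_cancel₀ hE.ne'
          have e6 : E * ((1 - (Y v - Y z) / (Y z'' - Y z)) * X z +
              (Y v - Y z) / (Y z'' - Y z) * X z'') =
            E * X z + (Y v - Y z) / (Y z'' - Y z) * (E * (X z'' - X z)) := by ring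
          rw [e6, h5]
          have e7 : (Y v - Y z) / (Y z'' - Y z) * (F * (Y z'' - Y z)) =
            F * ((Y v - Y z) / (Y z'' - Y z) * (Y z'' - Y z)) := by ring
          rw [e7, hq]
          linarith
      -- then the edge w v crosses the first line to the right of z
      have hDY : 0 < 1 - Y v := by linarith
      have r0 : 0 < (1 - Y z) / (1 - Y v) := div_pos (by linarith) hDY
      have r1 : (1 - Y z) / (1 - Y v) < 1 := (div_lt_one hDY).2 (by linarith)
      have hre : (1 - Y z) / (1 - Y v) * (1 - Y v) = 1 - Y z := div_mul_cancel₀ _ hDY.ne'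
      have hxlt : (1 - Y z) / (1 - Y v) * X v ≤ X z := by
        -- X v < X z because Y v < Y z on the same line
        have e1 : E * (X v - X z) = F * (Y v - Y z) := by linarith
        have e2 : X v < X z := by
          have k0 : F * (Y v - Y z) < 0 := mul_neg_of_pos_of_neg hF (by linarith)
          rw [← e1] at k0
          by_contra hcon
          push Not at hcon
          have := mul_nonneg hE.le (sub_nonneg.2 hcon)
          linarith
        have e3 : (1 - Y z) / (1 - Y v) * X v ≤ 1 * X v :=
          mul_le_mul_of_nonneg_right r1.le h1.le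
        linarith
      refine hB.not1 hd hwv hwz hwz' hvz hvz' hnx r0 r1 ?_ ?_ ?_
      · rw [hXw]
        have := mul_pos r0 h1
        linarith
      · rw [hXw]; linarith
      · rw [hYw]; linarith
    · have hylt : (1 - t) * Y w + t * Y v < Y z := by
        by_contra hcon
        push Not at hcon
        refine hB.not2 hd hwv hwz hwz'' hvz hvz'' hns ht0 ht1 ?_ hs hcon
        rw [hXw, hYw]
        have := mul_pos ht0 (show 0 < 1 - (X v + Y v) by linarith)
        linarith
      refine ⟨?_, t, ht0, ht1, hylt, hs⟩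
      by_contra hcon
      push Not at hcon
      rw [hYw] at hylt
      have k1 : (1 - t) * 1 + t * Y v ≥ (1 - t) * Y v + t * Y v := by
        have := mul_le_mul_of_nonneg_left (show Y v ≤ 1 by linarith)
          (show 0 ≤ 1 - t by linarith)
        linarith
      linarith
  by_contra hcon
  -- in any case the edge passes below z on the second line
  have hYlt : Y v ≤ Y z → -E * X v + F * Y v ≤ -E * X z + F * Y z := by
    intro hle
    by_contra hc
    push Not at hc
    -- the edge crosses the first line to the left of z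
    have hxlt : X v < X z := by
      have k1 : F * Y v ≤ F * Y z := mul_le_mul_of_nonneg_left hle hF.le
      have k2 : E * X v < E * X z := by linarith
      exact lt_of_mul_lt_mul_left k2 hE.le
    have hDY : 0 < 1 - Y v := by linarith
    have r0 : 0 < (1 - Y z) / (1 - Y v) := div_pos (by linarith) hDY
    have r1 : (1 - Y z) / (1 - Y v) ≤ 1 := (div_le_one hDY).2 (by linarith)
    have hre : (1 - Y z) / (1 - Y v) * (1 - Y v) = 1 - Y z := div_mul_cancel₀ _ hDY.ne'
    have hxle : (1 - Y z) / (1 - Y v) * X v ≤ 1 * X v := mul_le_mul_of_nonneg_right r1 h1.le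
    rcases r1.eq_or_lt with r1 | r1
    · -- Y v = Y z
      have hyv : Y v = Y z := by rw [r1] at hre; linarith
      have hD : 0 < X z - X z' := by linarith [hB.x']
      have hq : (X z - X v) / (X z - X z') * (X z - X z') = X z - X v :=
        div_mul_cancel₀ _ hD.ne'
      exact hd.vtx z z' v hB.adj' hvz hvz' ((X z - X v) / (X z - X z'))
        (div_nonneg (by linarith) hD.le) ((div_le_one hD).2 (by linarith [hB.x']))
        (by linarith) (by rw [hyv, hB.y']; ring)
    · refine hB.not1 hd hwv hwz hwz' hvz hvz' hnx r0 r1 ?_ ?_ ?_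
      · rw [hXw]
        have := mul_pos r0 h1
        linarith
      · rw [hXw]; linarith
      · rw [hYw]; linarith
  have hle : -E * X v + F * Y v ≤ -E * X z + F * Y z := by
    by_contra hc
    push Not at hc
    apply hcon
    refine ⟨?_, hc⟩
    by_contra hc2
    push Not at hc2
    have := hYlt hc2
    linarith
  obtain ⟨hyv, t, ht0, ht1, hty, hts⟩ := key hle
  -- crossing of the first line at smaller parameter, to the left of z
  have hDY : 0 < 1 - Y v := by linarith
  have r0 : 0 < (1 - Y z) / (1 - Y v) := div_pos (by linarith) hDY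
  have r1 : (1 - Y z) / (1 - Y v) < 1 := (div_lt_one hDY).2 (by linarith)
  have hre : (1 - Y z) / (1 - Y v) * (1 - Y v) = 1 - Y z := div_mul_cancel₀ _ hDY.ne'
  set r := (1 - Y z) / (1 - Y v) with hr
  refine hB.not1 hd hwv hwz hwz' hvz hvz' hnx r0 r1 ?_ ?_ ?_
  · rw [hXw]
    have := mul_pos r0 h1
    linarith
  · rw [hXw]
    -- r < t because at t the ordinate is below Y z
    have hrt : r < t := by
      rw [hYw] at hty
      have k1 : t * (1 - Y v) > 1 - Y z := by linarith
      rw [← hre] at k1
      exact lt_of_mul_lt_mul_right k1 hDY.le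
    -- at t the abscissa is less than X z
    have k2 : t * X v < X z := by
      rw [hXw, hYw] at hts
      rw [hYw] at hty
      have k3 : E * (t * X v) = F * ((1 - t) * 1 + t * Y v) + E * X z - F * Y z := by linarith
      have k4 : F * ((1 - t) * 1 + t * Y v) < F * Y z := mul_lt_mul_of_pos_left hty hF
      have k5 : E * (t * X v) < E * X z := by linarith
      exact lt_of_mul_lt_mul_left k5 hE.le
    have k6 : r * X v < t * X v := mul_lt_mul_of_pos_right hrt h1
    linarith
  · rw [hYw]; linarith

/-- **Exclusion.** The corner `w` is adjacent to at most one of two vertices with barriers. -/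
theorem Barrier.not_both (hd : ADraw H X Y E F) (hk : KN H X Y a b u u' w w')
    {v₁ v₂ : V} (hB : Barrier H X Y E F z z' z'') (hB' : Barrier H X Y E F v v₁ v₂)
    (h1 : w ≠ z') (h2 : w ≠ z'') (h3 : w ≠ v₁) (h4 : w ≠ v₂) (hvz : v ≠ z) (h5 : v ≠ z')
    (h6 : v ≠ z'') (h7 : z ≠ v₁) (h8 : z ≠ v₂) (hwv : H.Adj w v) (hwz : H.Adj w z) : False := by
  have e1 := hB.wedge hd hk h1 h2 hwv hvz h5 h6 hB'.x_pos hB'.y_pos hB'.lt
  have e2 := hB'.wedge hd hk h3 h4 hwz hvz.symm h7 h8 hB.x_pos hB.y_pos hB.lt
  linarith [e1.1, e2.1]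

/-- **Exclusion.** The corner `u` is not adjacent to a vertex in front of the barrier. -/
theorem Barrier.not_u (hd : ADraw H X Y E F) (hk : KN H X Y a b u u' w w')
    (hB : Barrier H X Y E F z z' z'') (huz' : u ≠ z') (huz'' : u ≠ z'') (huv : H.Adj u v)
    (hvz : v ≠ z) (hvz' : v ≠ z') (hvz'' : v ≠ z'') (h1 : 0 < X v) (h3 : X v + Y v < 1)
    (h4 : Y z < Y v) (h5 : -E * X z + F * Y z < -E * X v + F * Y v) : False := by
  have hE := hd.E_pos
  have hF := hd.F_pos
  have hz1 := hB.x_pos
  have hz2 := hB.y_pos
  have hz3 := hB.lt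
  have huz : u ≠ z := by rintro rfl; rw [hk.Yu] at hz2; exact lt_irrefl _ hz2
  have hXu : X u = 1 := hk.Xu
  have hYu : Y u = 0 := hk.Yu
  have hnx : X u ≠ X v := by rw [hXu]; linarith
  have hns : X u + Y u ≠ X v + Y v := by rw [hXu, hYu]; linarith
  have hY0 : 0 < Y v := by linarith
  -- parameter of the first line
  have r0 : 0 < Y z / Y v := div_pos hz2 hY0
  have r1 : Y z / Y v < 1 := (div_lt_one hY0).2 h4
  have hre : Y z / Y v * Y v = Y z := div_mul_cancel₀ _ hY0.ne'
  set r := Y z / Y v with hr
  -- parameter of the second line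
  have hsu : -E < -E * X z + F * Y z := by
    have k1 : E * X z < E * 1 := mul_lt_mul_of_pos_left (by linarith) hE
    have k2 := mul_pos hF hz2
    linarith
  have hD : 0 < (-E * X v + F * Y v) + E := by linarith
  have t0 : 0 < ((-E * X z + F * Y z) + E) / ((-E * X v + F * Y v) + E) :=
    div_pos (by linarith) hD
  have t1 : ((-E * X z + F * Y z) + E) / ((-E * X v + F * Y v) + E) < 1 :=
    (div_lt_one hD).2 (by linarith)
  have hte : ((-E * X z + F * Y z) + E) / ((-E * X v + F * Y v) + E) *
      ((-E * X v + F * Y v) + E) = (-E * X z + F * Y z) + E := div_mul_cancel₀ _ hD.ne'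
  set t := ((-E * X z + F * Y z) + E) / ((-E * X v + F * Y v) + E) with ht
  rcases le_or_gt t r with htr | htr
  · -- at r the point is on the first line, to the left of z
    refine hB.not1 hd huv huz huz' hvz hvz' hnx r0 r1 ?_ ?_ ?_
    · rw [hXu]
      have := mul_pos r0 h1
      linarith
    · rw [hXu]
      have k1 : t * ((-E * X v + F * Y v) + E) ≤ r * ((-E * X v + F * Y v) + E) :=
        mul_le_mul_of_nonneg_right htr hD.le
      rw [hte] at k1
      have k2 : E * ((1 - r) * 1 + r * X v) ≤ E * X z := by
        have : r * (F * Y v) = F * Y z := by rw [← hre]; ring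
        linarith
      exact le_of_mul_le_mul_left k2 hE
    · rw [hYu]; linarith
  · refine hB.not2 hd huv huz huz'' hvz hvz'' hns t0 t1 ?_ ?_ ?_
    · rw [hXu, hYu]
      have := mul_pos t0 (show 0 < 1 - (X v + Y v) by linarith)
      linarith
    · rw [hXu, hYu]; linarith
    · rw [hYu]
      have : r * Y v ≤ t * Y v := mul_le_mul_of_nonneg_right htr.le hY0.le
      linarith

end

end Pool.Agent.Helper18.RAC
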