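import Pool.Agent.Helper18.RAC.Good

/-!
# Counting the additional edges
-/

set_option autoImplicit false

open Complex

namespace Pool.Agent.Helper18.RAC

section

variable {V : Type*} {G H : SimpleGraph V} {a b : V} {p : ℕ → V} {m : ℕ}

/-- RAC drawings of `H ≥ G`: at most `70125` edges are not in `G` -/
theorem edges_le [Finite V] (hle : G ≤ H) (hg : Cfg G a b p m) (hH : ∃ f : V → ℂ, IsRAC H f)
    (hcov : ∀ v, v = a ∨ v = b ∨ (∃ j < m, v = p j) ∨ ¬ CoreV G a b v)
    (hpath : ∀ v, ¬ CoreV G a b v → ∃ j < m, G.Adj v (p j)) :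
    H.edgeSet.ncard ≤ G.edgeSet.ncard + 70125 := by
  classical
  have := Fintype.ofFinite V
  obtain ⟨B, hB, hgood⟩ := good hle hg hH
  -- bad indices
  set Bad : Finset ℕ := (Finset.range 8 ∪ Finset.Ico (m - 8) m) ∪
    B.biUnion (fun i => Finset.Icc (i - 8) (i + 8)) with hBad
  have hBadc : Bad.card ≤ 186 := by
    rw [hBad]
    refine (Finset.card_union_le _ _).trans ?_
    have h1 := Finset.card_union_le (Finset.range 8) (Finset.Ico (m - 8) m)
    rw [Finset.card_range, Nat.card_Ico] at h1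
    have h2 : (B.biUnion (fun i => Finset.Icc (i - 8) (i + 8))).card ≤ B.card * 17 :=
      Finset.card_biUnion_le_card_mul _ _ _ fun i _ => by rw [Nat.card_Icc]; omega
    omega
  have hgood' : ∀ j < m, j ∉ Bad → (∀ v, H.Adj (p j) v → G.Adj (p j) v) ∧
      (∀ x, ¬ CoreV G a b x → G.Adj x (p j) → ∀ v, H.Adj x v → G.Adj x v) := by
    intro j hj hjB
    rw [hBad, Finset.mem_union, Finset.mem_union, Finset.mem_range, Finset.mem_Ico,
      Finset.mem_biUnion] at hjB
    push Not at hjB
    obtain ⟨⟨h1, h2⟩, h3⟩ := hjB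
    refine hgood j h1 ?_ ?_
    · by_contra hcon
      exact absurd (h2 (by omega)) (by omega)
    · intro i h4 h5 h6
      apply h3 i h6
      rw [Finset.mem_Icc]
      omega
  -- the exceptional set
  set Z : Finset V := ({a, b} ∪ Bad.image p) ∪
    Finset.univ.filter (fun x => ¬ CoreV G a b x ∧ ∀ j < m, G.Adj x (p j) → j ∈ Bad) with hZ
  have hZc : Z.card ≤ 374 := by
    rw [hZ]
    refine (Finset.card_union_le _ _).trans ?_
    have h1 := Finset.card_union_le ({a, b} : Finset V) (Bad.image p)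
    have h2 : ({a, b} : Finset V).card ≤ 2 := Finset.card_le_two
    have h3 : (Bad.image p).card ≤ Bad.card := Finset.card_image_le
    have h4 : (Finset.univ.filter
        (fun x => ¬ CoreV G a b x ∧ ∀ j < m, G.Adj x (p j) → j ∈ Bad)).card ≤ Bad.card := by
      choose! g hg1 hg2 using hpath
      refine Finset.card_le_card_of_injOn g ?_ ?_
      · intro x hx
        have hx' := (Finset.mem_filter.1 hx).2
        exact hx'.2 _ (hg1 x hx'.1) (hg2 x hx'.1)
      · intro x hx y hy hxy
        have hx' := (Finset.mem_filter.1 hx).2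
        have hy' := (Finset.mem_filter.1 hy).2
        refine hg.n1 x y (g x) (hg1 x hx'.1) hx'.1 hy'.1 (hg2 x hx'.1) ?_
        rw [hxy]
        exact hg2 y hy'.1
    omega
  have hout : ∀ v, v ∉ Z → ∀ u, H.Adj v u → G.Adj v u := by
    intro v hv u hu
    rw [hZ, Finset.mem_union, Finset.mem_union, Finset.mem_insert, Finset.mem_singleton,
      Finset.mem_image, Finset.mem_filter] at hv
    push Not at hv
    obtain ⟨⟨⟨h1, h2⟩, h3⟩, h4⟩ := hv
    rcases hcov v with h5 | h5 | ⟨j, hj, rfl⟩ | h5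
    · exact absurd h5 h1
    · exact absurd h5 h2
    · exact (hgood' j hj fun h6 => h3 j h6 rfl).1 u hu
    · obtain ⟨j, hj, h6, h7⟩ := h4 (Finset.mem_univ _) h5
      exact (hgood' j hj h7).2 v h5 h6 u hu
  have hsub : H.edgeSet ⊆ G.edgeSet ∪ (Z.sym2 : Set (Sym2 V)) := by
    intro e he
    induction e using Sym2.ind with
    | _ x y =>
      rw [SimpleGraph.mem_edgeSet] at he
      by_cases hx : x ∈ Z
      · by_cases hy : y ∈ Z
        · right
          rw [Finset.mem_coe, Finset.mk_mem_sym2_iff]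
          exact ⟨hx, hy⟩
        · left
          exact (hout y hy x he.symm).symm
      · left
        exact hout x hx y he
  have h1 := Set.ncard_le_ncard hsub (Set.toFinite _)
  have h2 := Set.ncard_union_le G.edgeSet (Z.sym2 : Set (Sym2 V))
  rw [Set.ncard_coe_finset, Finset.card_sym2] at h2
  have h3 : (Z.card + 1).choose 2 ≤ (374 + 1).choose 2 := Nat.choose_le_choose 2 (by omega)
  have h4 : (374 + 1).choose 2 = 70125 := by rw [Nat.choose_two_right]
  omega

/-- every RAC graph is contained in a maximal one -/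
theorem exists_max [Finite V] (hG : ∃ f : V → ℂ, IsRAC G f) :
    ∃ H : SimpleGraph V, G ≤ H ∧ MaxRAC H := by
  classical
  have := Fintype.ofFinite V
  have hfin : {H : SimpleGraph V | G ≤ H ∧ ∃ f : V → ℂ, IsRAC H f}.Finite := Set.toFinite _
  obtain ⟨H, hH, hmax⟩ := hfin.exists_maximal ⟨G, le_refl G, hG⟩
  refine ⟨H, hH.1, hH.2, ?_⟩
  intro u v huv hnadj hex
  have h1 : H ≤ H ⊔ SimpleGraph.edge u v := le_sup_left
  have h2 := hmax (y := H ⊔ SimpleGraph.edge u v) ⟨hH.1.trans h1, hex⟩ h1
  apply hnadj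
  apply h2
  rw [SimpleGraph.sup_adj]
  right
  rw [SimpleGraph.edge_adj]
  exact ⟨Or.inl ⟨rfl, rfl⟩, huv⟩

end

end Pool.Agent.Helper18.RAC
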