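import Mathlib

/-!
# Straight-line right-angle-crossing drawings

Basic notions and invariance under similarities.
-/

set_option autoImplicit false

open Complex

namespace Pool.Agent.Helper18.RAC

/-- `f` is a straight-line RAC drawing of the graph `G` in the plane `ℂ`: the vertices are mapped to
distinct points, every edge is drawn as a straight segment, no vertex lies on an edge of which it is
not an end, and any two distinct edges which have an interior point in common are perpendicular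
(the real part of `z * conj w` is the scalar product of `z` and `w`). -/
structure IsRAC {V : Type*} (G : SimpleGraph V) (f : V → ℂ) : Prop where
  inj : Function.Injective f
  vtx : ∀ u v w : V, G.Adj u v → w ≠ u → w ≠ v → f w ∉ segment ℝ (f u) (f v)
  crs : ∀ u v x y : V, G.Adj u v → G.Adj x y → s(u, v) ≠ s(x, y) →
    ∀ z : ℂ, z ∈ openSegment ℝ (f u) (f v) → z ∈ openSegment ℝ (f x) (f y) →
      ((f v - f u) * (starRingEnd ℂ) (f y - f x)).re = 0

/-- `G` is maximal among the graphs which admit a straight-line RAC drawing: `G` has such a drawing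
and, for every pair of non-adjacent vertices `u ≠ v`, the graph `G + uv` has none. -/
def MaxRAC {V : Type*} (G : SimpleGraph V) : Prop :=
  (∃ f : V → ℂ, IsRAC G f) ∧
    ∀ u v : V, u ≠ v → ¬ G.Adj u v → ¬ ∃ f : V → ℂ, IsRAC (G ⊔ SimpleGraph.edge u v) f

theorem mem_openSegment_iff {z u v : ℂ} :
    z ∈ openSegment ℝ u v ↔ ∃ t : ℝ, 0 < t ∧ t < 1 ∧ z.re = (1 - t) * u.re + t * v.re ∧
      z.im = (1 - t) * u.im + t * v.im := by
  rw [openSegment_eq_image]
  constructor
  · rintro ⟨t, ht, rfl⟩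
    exact ⟨t, ht.1, ht.2, by simp, by simp⟩
  · rintro ⟨t, h0, h1, h2, h3⟩
    refine ⟨t, ⟨h0, h1⟩, ?_⟩
    apply Complex.ext <;> simp [h2, h3]

theorem mem_segment_iff {z u v : ℂ} :
    z ∈ segment ℝ u v ↔ ∃ t : ℝ, 0 ≤ t ∧ t ≤ 1 ∧ z.re = (1 - t) * u.re + t * v.re ∧
      z.im = (1 - t) * u.im + t * v.im := by
  rw [segment_eq_image]
  constructor
  · rintro ⟨t, ht, rfl⟩
    exact ⟨t, ht.1, ht.2, by simp, by simp⟩
  · rintro ⟨t, h0, h1, h2, h3⟩
    refine ⟨t, ⟨h0, h1⟩, ?_⟩
    apply Complex.ext <;> simp [h2, h3]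

/-- scalar product of the vectors `u → v` and `x → y` -/
def dotp (u v x y : ℂ) : ℝ := (v.re - u.re) * (y.re - x.re) + (v.im - u.im) * (y.im - x.im)

theorem re_mul_conj (u v x y : ℂ) :
    ((v - u) * (starRingEnd ℂ) (y - x)).re = dotp u v x y := by
  simp [dotp, Complex.mul_re]
  ring

section

variable {V : Type*} {G : SimpleGraph V} {f : V → ℂ}

theorem IsRAC.dot (hf : IsRAC G f) {u v x y : V} (huv : G.Adj u v) (hxy : G.Adj x y)
    (hne : s(u, v) ≠ s(x, y)) {z : ℂ} (h1 : z ∈ openSegment ℝ (f u) (f v))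
    (h2 : z ∈ openSegment ℝ (f x) (f y)) : dotp (f u) (f v) (f x) (f y) = 0 := by
  rw [← re_mul_conj]
  exact hf.crs u v x y huv hxy hne z h1 h2

theorem IsRAC.mono {H : SimpleGraph V} (hf : IsRAC G f) (h : H ≤ G) : IsRAC H f where
  inj := hf.inj
  vtx := fun u v w huv => hf.vtx u v w (h huv)
  crs := fun u v x y huv hxy => hf.crs u v x y (h huv) (h hxy)

/-- an `ℝ`-affine similarity preserves RAC drawings -/
theorem IsRAC.comp (hf : IsRAC G f) (T : ℂ → ℂ) (A : ℂ →ₗ[ℝ] ℂ) (hA : Function.Injective A)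
    (hT : ∀ z w, T z - T w = A (z - w)) (r : ℝ)
    (hr : ∀ z w, (A z * (starRingEnd ℂ) (A w)).re = r * (z * (starRingEnd ℂ) w).re) :
    IsRAC G (T ∘ f) := by
  have hTinj : Function.Injective T := fun z w h => by
    have h1 := hT z w
    rw [h, sub_self] at h1
    exact sub_eq_zero.1 (hA (by rw [← h1, map_zero]))
  have hseg : ∀ u v z t, z = (1 - t : ℝ) • u + (t : ℝ) • v ↔
      T z = (1 - t : ℝ) • T u + (t : ℝ) • T v := by
    intro u v z t
    have h1 : T z - ((1 - t : ℝ) • T u + (t : ℝ) • T v) =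
        (1 - t : ℝ) • (T z - T u) + (t : ℝ) • (T z - T v) := by module
    have h2 : (1 - t : ℝ) • (T z - T u) + (t : ℝ) • (T z - T v) =
        A (z - ((1 - t : ℝ) • u + (t : ℝ) • v)) := by
      rw [hT, hT, ← map_smul, ← map_smul, ← map_add]
      congr 1
      module
    constructor
    · intro h
      rw [← sub_eq_zero, h1, h2, h, sub_self, map_zero]
    · intro h
      have h3 : A (z - ((1 - t : ℝ) • u + (t : ℝ) • v)) = 0 := by
        rw [← h2, ← h1, h, sub_self]
      have h4 : z - ((1 - t : ℝ) • u + (t : ℝ) • v) = 0 := hA (by rw [h3, map_zero])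
      exact sub_eq_zero.1 h4
  refine ⟨hTinj.comp hf.inj, fun u v w huv hwu hwv h => ?_, fun u v x y huv hxy hne z h1 h2 => ?_⟩
  · apply hf.vtx u v w huv hwu hwv
    rw [segment_eq_image] at h ⊢
    obtain ⟨t, ht, h⟩ := h
    exact ⟨t, ht, ((hseg _ _ _ _).2 h.symm).symm⟩
  · rw [openSegment_eq_image] at h1 h2
    obtain ⟨s, hs, h1⟩ := h1
    obtain ⟨t, ht, h2⟩ := h2
    simp only [Function.comp_apply] at h1 h2 ⊢
    have h3 : T ((1 - s : ℝ) • f u + (s : ℝ) • f v) = z := by
      rw [← h1]; exact (hseg _ _ _ _).1 rfl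
    have h4 : T ((1 - t : ℝ) • f x + (t : ℝ) • f y) = z := by
      rw [← h2]; exact (hseg _ _ _ _).1 rfl
    have h5 : (1 - s : ℝ) • f u + (s : ℝ) • f v = (1 - t : ℝ) • f x + (t : ℝ) • f y :=
      hTinj (h3.trans h4.symm)
    rw [hT, hT, hr, hf.crs u v x y huv hxy hne ((1 - s : ℝ) • f u + (s : ℝ) • f v), mul_zero]
    · rw [openSegment_eq_image]; exact ⟨s, hs, rfl⟩
    · rw [h5, openSegment_eq_image]; exact ⟨t, ht, rfl⟩

/-- complex conjugation -/
theorem IsRAC.conj (hf : IsRAC G f) : IsRAC G (fun v => (starRingEnd ℂ) (f v)) := by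
  refine hf.comp (starRingEnd ℂ) (Complex.conjAe.toLinearMap) (star_injective) ?_ 1 ?_
  · intro z w
    simp
  · intro z w
    simp [Complex.mul_re]

/-- the reflection which exchanges `0` and `1` -/
theorem IsRAC.refl (hf : IsRAC G f) : IsRAC G (fun v => 1 - (starRingEnd ℂ) (f v)) := by
  refine hf.comp (fun z => 1 - (starRingEnd ℂ) z) (-Complex.conjAe.toLinearMap) ?_ ?_ 1 ?_
  · intro z w h
    simp only [LinearMap.neg_apply, neg_inj] at h
    exact star_injective h
  · intro z w
    simp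
  · intro z w
    simp [Complex.mul_re]

/-- normalisation: two given vertices are placed at `0` and `1` -/
theorem IsRAC.normalize (hf : IsRAC G f) {a b : V} (hab : a ≠ b) :
    ∃ g : V → ℂ, IsRAC G g ∧ g a = 0 ∧ g b = 1 := by
  have hne : f b - f a ≠ 0 := sub_ne_zero.2 fun h => hab (hf.inj h).symm
  set c : ℂ := (f b - f a)⁻¹ with hc
  have hc0 : c ≠ 0 := inv_ne_zero hne
  refine ⟨(fun z => c * (z - f a)) ∘ f, ?_, by simp, by simp [hc, inv_mul_cancel₀ hne]⟩
  refine hf.comp (fun z => c * (z - f a)) (LinearMap.mulLeft ℝ c) ?_ ?_ (Complex.normSq c) ?_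
  · intro z w h
    simpa [hc0] using h
  · intro z w
    simp only [LinearMap.mulLeft_apply]
    ring
  · intro z w
    simp only [LinearMap.mulLeft_apply, map_mul]
    rw [show c * z * ((starRingEnd ℂ) c * (starRingEnd ℂ) w) =
      (c * (starRingEnd ℂ) c) * (z * (starRingEnd ℂ) w) by ring, Complex.mul_conj,
      Complex.re_ofReal_mul]

/-- two vertices in the same direction from `u`, both adjacent to `u`, coincide -/
theorem IsRAC.same_dir (hf : IsRAC G f) {u v w : V} (huv : G.Adj u v) (huw : G.Adj u w) {s : ℝ}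
    (hs : 0 < s) (h1 : (f v).re - (f u).re = s * ((f w).re - (f u).re))
    (h2 : (f v).im - (f u).im = s * ((f w).im - (f u).im)) : v = w := by
  by_contra hvw
  rcases le_total s 1 with h | h
  · apply hf.vtx u w v huw huv.ne' hvw
    rw [mem_segment_iff]
    exact ⟨s, hs.le, h, by linarith, by linarith⟩
  · apply hf.vtx u v w huv huw.ne' (Ne.symm hvw)
    rw [mem_segment_iff]
    refine ⟨s⁻¹, (inv_pos.2 hs).le, inv_le_one_of_one_le₀ h, ?_, ?_⟩
    · have : (f w).re - (f u).re = s⁻¹ * ((f v).re - (f u).re) := by rw [h1]; field_simp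
      linarith
    · have : (f w).im - (f u).im = s⁻¹ * ((f v).im - (f u).im) := by rw [h2]; field_simp
      linarith

end

end Pool.Agent.Helper18.RAC
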