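import Pool.Agent.Helper18.RAC.Order2

/-!
# Sectors around a corner of a kite
-/

set_option autoImplicit false

open Complex

namespace Pool.Agent.Helper18.RAC

section

variable {V : Type*} {H : SimpleGraph V} {f : V → ℂ} {a b u u' w w' v x y z : V} {q : ℂ}

/-- `v` lies in the closed sector at `u` between the diagonal and a side of a kite -/
theorem Kite.half (hf : IsRAC H f) (hk : Kite H f u u' w w' q) (huv : H.Adj u v) {s t : ℝ}
    (hs : 0 ≤ s) (ht : 0 ≤ t)
    (hr : (f v).re - (f u).re = s * (q.re - (f u).re) + t * ((f w).re - (f u).re))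
    (hi : (f v).im - (f u).im = s * (q.im - (f u).im) + t * ((f w).im - (f u).im)) :
    v = u' ∨ v = w ∨ Tri q (f u) (f w) (f v) := by
  rcases hs.eq_or_lt with hs0 | hs0
  · rcases ht.eq_or_lt with ht0 | ht0
    · exfalso
      rw [← hs0, ← ht0] at hr hi
      exact huv.ne' (hf.inj (Complex.ext (by linarith) (by linarith)))
    · right; left
      rw [← hs0] at hr hi
      exact hf.same_dir huv hk.uw ht0 (by linarith) (by linarith)
  · rcases ht.eq_or_lt with ht0 | ht0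
    · left
      rw [← ht0] at hr hi
      obtain ⟨r, hr0, hr1, hr2, hr3⟩ := mem_openSegment_iff.1 hk.qu
      exact hf.same_dir huv hk.uu' (mul_pos hs0 hr0) (by rw [hr, hr2]; ring) (by rw [hi, hr3]; ring)
    · exact Or.inr (Or.inr (hk.lemmaB hf huv hs0 ht0 hr hi))

/-- `v` lies in the sector at `u` between two sides of a kite -/
theorem Kite.cone (hf : IsRAC H f) (hk : Kite H f u u' w w' q) (huv : H.Adj u v) {x y : ℝ}
    (hx : 0 ≤ x) (hy : 0 ≤ y)
    (hr : (f v).re - (f u).re = x * ((f w).re - (f u).re) + y * ((f w').re - (f u).re))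
    (hi : (f v).im - (f u).im = x * ((f w).im - (f u).im) + y * ((f w').im - (f u).im)) :
    v = u' ∨ v = w ∨ v = w' ∨ Tri q (f u) (f w) (f v) ∨ Tri q (f u) (f w') (f v) := by
  obtain ⟨t, ht0, ht1, ht2, ht3⟩ := mem_openSegment_iff.1 hk.qw
  rcases le_total (y * (1 - t)) (x * t) with hle | hle
  · have e : y / t * t = y := div_mul_cancel₀ _ ht0.ne'
    have e0 : 0 ≤ x - (1 - t) * (y / t) := by
      have : (1 - t) * (y / t) ≤ x := by
        rw [← mul_div_assoc, div_le_iff₀ ht0]; linarith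
      linarith
    have e1 : (f v).re - (f u).re = y / t * (q.re - (f u).re) +
        (x - (1 - t) * (y / t)) * ((f w).re - (f u).re) := by
      rw [hr, ht2]
      linear_combination -((f w').re - (f u).re) * e
    have e2 : (f v).im - (f u).im = y / t * (q.im - (f u).im) +
        (x - (1 - t) * (y / t)) * ((f w).im - (f u).im) := by
      rw [hi, ht3]
      linear_combination -((f w').im - (f u).im) * e
    rcases hk.half hf huv (div_nonneg hy ht0.le) e0 e1 e2 with h | h | h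
    · exact Or.inl h
    · exact Or.inr (Or.inl h)
    · exact Or.inr (Or.inr (Or.inr (Or.inl h)))
  · have ht1' : 0 < 1 - t := by linarith
    have e : x / (1 - t) * (1 - t) = x := div_mul_cancel₀ _ ht1'.ne'
    have e0 : 0 ≤ y - t * (x / (1 - t)) := by
      have : t * (x / (1 - t)) ≤ y := by
        rw [← mul_div_assoc, div_le_iff₀ ht1']; linarith
      linarith
    have e1 : (f v).re - (f u).re = x / (1 - t) * (q.re - (f u).re) +
        (y - t * (x / (1 - t))) * ((f w').re - (f u).re) := by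
      rw [hr, ht2]
      linear_combination -((f w).re - (f u).re) * e
    have e2 : (f v).im - (f u).im = x / (1 - t) * (q.im - (f u).im) +
        (y - t * (x / (1 - t))) * ((f w').im - (f u).im) := by
      rw [hi, ht3]
      linear_combination -((f w).im - (f u).im) * e
    rcases hk.flipw.half hf huv (div_nonneg hx ht1'.le) e0 e1 e2 with h | h | h
    · exact Or.inl h
    · exact Or.inr (Or.inr (Or.inl h))
    · exact Or.inr (Or.inr (Or.inr (Or.inr h)))

/-- three vectors which positively span the plane -/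
theorem three_cones {p1 p2 p3 r1 r2 r3 v1 v2 : ℝ}
    (h12 : 0 < p1 * r2 - r1 * p2) (h23 : 0 < p2 * r3 - r2 * p3) (h31 : 0 < p3 * r1 - r3 * p1) :
    (∃ x y : ℝ, 0 ≤ x ∧ 0 ≤ y ∧ v1 = x * p1 + y * p2 ∧ v2 = x * r1 + y * r2) ∨
    (∃ x y : ℝ, 0 ≤ x ∧ 0 ≤ y ∧ v1 = x * p2 + y * p3 ∧ v2 = x * r2 + y * r3) ∨
    (∃ x y : ℝ, 0 ≤ x ∧ 0 ≤ y ∧ v1 = x * p3 + y * p1 ∧ v2 = x * r3 + y * r1) := by
  have hsum : (p2 * r3 - r2 * p3) * (v1 * r1 - v2 * p1) + (p3 * r1 - r3 * p1) *
      (v1 * r2 - v2 * p2) + (p1 * r2 - r1 * p2) * (v1 * r3 - v2 * p3) = 0 := by ring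
  have cr : ∀ {a1 a2 b1 b2 : ℝ}, 0 < a1 * b2 - a2 * b1 → 0 ≤ v1 * b2 - v2 * b1 →
      v1 * a2 - v2 * a1 ≤ 0 →
      ∃ x y : ℝ, 0 ≤ x ∧ 0 ≤ y ∧ v1 = x * a1 + y * b1 ∧ v2 = x * a2 + y * b2 := by
    intro a1 a2 b1 b2 hD h1 h2
    refine ⟨(v1 * b2 - v2 * b1) / (a1 * b2 - a2 * b1), -(v1 * a2 - v2 * a1) / (a1 * b2 - a2 * b1),
      div_nonneg h1 hD.le, div_nonneg (by linarith) hD.le, ?_, ?_⟩
    · rw [div_mul_eq_mul_div, div_mul_eq_mul_div, ← add_div, eq_div_iff hD.ne']; ring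
    · rw [div_mul_eq_mul_div, div_mul_eq_mul_div, ← add_div, eq_div_iff hD.ne']; ring
  rcases le_or_gt 0 (v1 * r2 - v2 * p2) with hb | hb
  · rcases le_or_gt (v1 * r1 - v2 * p1) 0 with ha | ha
    · exact Or.inl (cr h12 hb ha)
    · right; right
      have h1 := mul_pos h23 ha
      have h2 := mul_nonneg h31.le hb
      have hc : v1 * r3 - v2 * p3 ≤ 0 := by
        by_contra hcon
        push Not at hcon
        have := mul_pos h12 hcon
        linarith
      exact cr h31 ha.le hc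
  · rcases le_or_gt 0 (v1 * r3 - v2 * p3) with hc | hc
    · exact Or.inr (Or.inl (cr h23 hc hb.le))
    · right; right
      have h1 := mul_neg_of_pos_of_neg h31 hb
      have h2 := mul_neg_of_pos_of_neg h12 hc
      have ha : 0 ≤ v1 * r1 - v2 * p1 := by
        by_contra hcon
        push Not at hcon
        have := mul_neg_of_pos_of_neg h23 hcon
        linarith
      exact cr h31 ha hc.le

theorem three_cones' {p1 p2 p3 r1 r2 r3 v1 v2 : ℝ}
    (h : (0 < p1 * r2 - r1 * p2 ∧ 0 < p2 * r3 - r2 * p3 ∧ 0 < p3 * r1 - r3 * p1) ∨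
      (p1 * r2 - r1 * p2 < 0 ∧ p2 * r3 - r2 * p3 < 0 ∧ p3 * r1 - r3 * p1 < 0)) :
    (∃ x y : ℝ, 0 ≤ x ∧ 0 ≤ y ∧ v1 = x * p1 + y * p2 ∧ v2 = x * r1 + y * r2) ∨
    (∃ x y : ℝ, 0 ≤ x ∧ 0 ≤ y ∧ v1 = x * p2 + y * p3 ∧ v2 = x * r2 + y * r3) ∨
    (∃ x y : ℝ, 0 ≤ x ∧ 0 ≤ y ∧ v1 = x * p3 + y * p1 ∧ v2 = x * r3 + y * r1) := by
  rcases h with ⟨h1, h2, h3⟩ | ⟨h1, h2, h3⟩
  · exact three_cones h1 h2 h3
  · rcases three_cones (p1 := r1) (p2 := r2) (p3 := r3) (r1 := p1) (r2 := p2) (r3 := p3)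
      (v1 := v2) (v2 := v1) (by linarith) (by linarith) (by linarith) with
      ⟨x, y, hx, hy, e1, e2⟩ | ⟨x, y, hx, hy, e1, e2⟩ | ⟨x, y, hx, hy, e1, e2⟩
    · exact Or.inl ⟨x, y, hx, hy, e2, e1⟩
    · exact Or.inr (Or.inl ⟨x, y, hx, hy, e2, e1⟩)
    · exact Or.inr (Or.inr ⟨x, y, hx, hy, e2, e1⟩)

theorem Dt_cyc (x y z : ℂ) : Dt y z x = Dt x y z := by unfold Dt; ring

theorem Dt_anti (x y z : ℂ) : Dt x z y = -Dt x y z := by unfold Dt; ring

theorem Dt_zero {x y : ℂ} (hx : 0 < x.im) (hy : 0 < y.im) (h : Nest x y) : 0 < Dt x y 0 := by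
  have h1 : Dt x y 0 = (xc x - xc y) * (x.im * y.im) := by
    unfold Dt
    rw [← xc_mul hx, ← xc_mul hy]
    simp
    ring
  rw [h1]
  exact mul_pos (by linarith [h.1]) (mul_pos hx hy)

theorem Dt_one {x y : ℂ} (hx : 0 < x.im) (hy : 0 < y.im) (h : Nest x y) : Dt x y 1 < 0 := by
  have h1 : Dt x y 1 = -((yc x - yc y) * (x.im * y.im)) := by
    have e1 := yc_mul hx
    have e2 := yc_mul hy
    unfold Dt
    simp only [Complex.one_re, Complex.one_im]
    linear_combination y.im * e1 - x.im * e2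
  rw [h1]
  have := mul_pos (show 0 < yc x - yc y by linarith [h.2]) (mul_pos hx hy)
  linarith

theorem Dt_Or3 {x y z : ℂ} (hx : 0 < x.im) (hy : 0 < y.im) (hz : 0 < z.im) :
    Dt x y z = Or3 x y z * (x.im * y.im * z.im) := by
  have e1 := yc_mul hx
  have e2 := yc_mul hy
  have e3 := yc_mul hz
  have d1 := xc_mul hx
  have d2 := xc_mul hy
  have d3 := xc_mul hz
  have h1 : Or3 x y z * (x.im * y.im * z.im) =
      ((xc y * y.im) * z.im - (xc z * z.im) * y.im) * (yc x * x.im) -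
      ((xc y * y.im) * x.im - (xc x * x.im) * y.im) * (yc z * z.im) -
      ((xc x * x.im) * z.im - (xc z * z.im) * x.im) * (yc y * y.im) := by
    unfold Or3; ring
  rw [h1, d1, d2, d3, e1, e2, e3]
  unfold Dt
  ring

/-- affine dependence of the orientation on the third point -/
theorem Dt_affine {x y z p q : ℂ} {t : ℝ} (hr : z.re = (1 - t) * p.re + t * q.re)
    (hi : z.im = (1 - t) * p.im + t * q.im) : Dt x y z = (1 - t) * Dt x y p + t * Dt x y q := by
  unfold Dt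
  rw [hr, hi]
  ring

theorem Dt_self_left (x y : ℂ) : Dt x y x = 0 := by unfold Dt; ring

theorem Dt_self_right (x y : ℂ) : Dt x y y = 0 := by unfold Dt; ring

end

end Pool.Agent.Helper18.RAC
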