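import Pool.Agent.Helper18.RAC.CoreDraw
import Pool.Agent.Helper18.RAC.Sector

/-!
# Adding a vertex which is attached to an uncrossed edge
-/

set_option autoImplicit false

open Complex Filter Topology

namespace Pool.Agent.Helper18.RAC

/-- a point near the midpoint of a segment -/
noncomputable def zt (Y₁ Y₂ : ℂ) (τ : ℝ) : ℂ := Y₁ + (1 / 2 + τ * I) * (Y₂ - Y₁)

theorem zt_symm (Y₁ Y₂ : ℂ) (τ : ℝ) : zt Y₂ Y₁ (-τ) = zt Y₁ Y₂ τ := by
  unfold zt
  push_cast
  ring

theorem zt_re (Y₁ Y₂ : ℂ) (τ : ℝ) : (zt Y₁ Y₂ τ).re =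
    Y₁.re + (1 / 2 * (Y₂.re - Y₁.re) - τ * (Y₂.im - Y₁.im)) := by
  unfold zt
  have h2 : ((1 : ℂ) / 2).re = 1 / 2 := by norm_num
  have h3 : ((1 : ℂ) / 2).im = 0 := by norm_num
  simp only [Complex.add_re, Complex.mul_re, Complex.add_im, Complex.mul_im, Complex.sub_re,
    Complex.sub_im, Complex.ofReal_re, Complex.ofReal_im, Complex.I_re, Complex.I_im, h2, h3]
  ring

theorem zt_im (Y₁ Y₂ : ℂ) (τ : ℝ) : (zt Y₁ Y₂ τ).im =
    Y₁.im + (1 / 2 * (Y₂.im - Y₁.im) + τ * (Y₂.re - Y₁.re)) := by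
  unfold zt
  have h2 : ((1 : ℂ) / 2).re = 1 / 2 := by norm_num
  have h3 : ((1 : ℂ) / 2).im = 0 := by norm_num
  simp only [Complex.add_re, Complex.mul_re, Complex.add_im, Complex.mul_im, Complex.sub_re,
    Complex.sub_im, Complex.ofReal_re, Complex.ofReal_im, Complex.I_re, Complex.I_im, h2, h3]
  ring

theorem near {Y₁ Y₂ X : ℂ} (hY : Y₁ ≠ Y₂) (hX : X ≠ Y₁) :
    ∀ᶠ τ : ℝ in 𝓝[≠] 0, Dt Y₁ (zt Y₁ Y₂ τ) X ≠ 0 := by
  have hform : ∀ τ : ℝ, Dt Y₁ (zt Y₁ Y₂ τ) X =
      1 / 2 * ((Y₂.re - Y₁.re) * (X.im - Y₁.im) - (Y₂.im - Y₁.im) * (X.re - Y₁.re)) -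
      τ * ((Y₂.re - Y₁.re) * (X.re - Y₁.re) + (Y₂.im - Y₁.im) * (X.im - Y₁.im)) := by
    intro τ
    unfold Dt
    rw [zt_re, zt_im]
    ring
  set C := (Y₂.re - Y₁.re) * (X.im - Y₁.im) - (Y₂.im - Y₁.im) * (X.re - Y₁.re) with hC
  set D := (Y₂.re - Y₁.re) * (X.re - Y₁.re) + (Y₂.im - Y₁.im) * (X.im - Y₁.im) with hD
  have hpos : 0 < C ^ 2 + D ^ 2 := by
    have h1 : C ^ 2 + D ^ 2 = ((Y₂.re - Y₁.re) ^ 2 + (Y₂.im - Y₁.im) ^ 2) *
        ((X.re - Y₁.re) ^ 2 + (X.im - Y₁.im) ^ 2) := by rw [hC, hD]; ring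
    rw [h1]
    have h2 := nsq_pos (sub_ne_zero.2 hY.symm)
    have h3 := nsq_pos (sub_ne_zero.2 hX)
    simp only [Complex.sub_re, Complex.sub_im] at h2 h3
    exact mul_pos h2 h3
  by_cases hC0 : C = 0
  · have hD0 : D ≠ 0 := by
      intro h
      rw [hC0, h] at hpos
      simp at hpos
    filter_upwards [self_mem_nhdsWithin] with τ hτ
    rw [hform, hC0]
    have : τ ≠ 0 := hτ
    simp [this, hD0]
  · have hcont : Continuous fun τ : ℝ => 1 / 2 * C - τ * D := by fun_prop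
    have h0 : (fun τ : ℝ => 1 / 2 * C - τ * D) 0 ≠ 0 := by simp [hC0]
    have h1 : ∀ᶠ τ : ℝ in 𝓝 0, 1 / 2 * C - τ * D ≠ 0 :=
      hcont.continuousAt.eventually_ne h0
    filter_upwards [h1.filter_mono nhdsWithin_le_nhds] with τ hτ
    rw [hform]
    exact hτ

theorem far {Y₁ Y₂ : ℂ} {K : Set ℂ} (hK : IsClosed K)
    (hdis : Disjoint (segment ℝ Y₁ (zt Y₁ Y₂ 0)) K) :
    ∀ᶠ τ : ℝ in 𝓝[≠] 0, Disjoint (segment ℝ Y₁ (zt Y₁ Y₂ τ)) K := by
  have hcomp : IsCompact (segment ℝ Y₁ (zt Y₁ Y₂ 0)) := by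
    rw [segment_eq_image]
    exact isCompact_Icc.image (by fun_prop)
  obtain ⟨δ, hδ, hsub⟩ := hcomp.exists_thickening_subset_open hK.isOpen_compl
    (Set.disjoint_left.1 hdis)
  have hcont : Continuous fun τ : ℝ => ‖zt Y₁ Y₂ τ - zt Y₁ Y₂ 0‖ := by
    unfold zt
    fun_prop
  have h1 : ∀ᶠ τ : ℝ in 𝓝 0, ‖zt Y₁ Y₂ τ - zt Y₁ Y₂ 0‖ < δ := by
    apply hcont.continuousAt.eventually_lt continuousAt_const
    simpa using hδ
  filter_upwards [h1.filter_mono nhdsWithin_le_nhds] with τ hτ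
  rw [Set.disjoint_left]
  intro w hw hwK
  rw [segment_eq_image] at hw
  obtain ⟨s, hs, rfl⟩ := hw
  have hmem : (1 - s) • Y₁ + s • zt Y₁ Y₂ τ ∈ Metric.thickening δ (segment ℝ Y₁ (zt Y₁ Y₂ 0)) := by
    rw [Metric.mem_thickening_iff]
    refine ⟨(1 - s) • Y₁ + s • zt Y₁ Y₂ 0, ?_, ?_⟩
    · rw [segment_eq_image]
      exact ⟨s, hs, rfl⟩
    · rw [dist_eq_norm]
      have : (1 - s) • Y₁ + s • zt Y₁ Y₂ τ - ((1 - s) • Y₁ + s • zt Y₁ Y₂ 0) =
          s • (zt Y₁ Y₂ τ - zt Y₁ Y₂ 0) := by module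
      rw [this, norm_smul, Real.norm_eq_abs, abs_of_nonneg hs.1]
      calc s * ‖zt Y₁ Y₂ τ - zt Y₁ Y₂ 0‖ ≤ 1 * ‖zt Y₁ Y₂ τ - zt Y₁ Y₂ 0‖ :=
            mul_le_mul_of_nonneg_right hs.2 (norm_nonneg _)
        _ < δ := by rw [one_mul]; exact hτ
  exact hsub hmem hwK

section

variable {V : Type*} {G : SimpleGraph V} {f : V → ℂ} {y₁ y₂ t : V}

theorem half_disjoint (hf : IsRAC G f) (hy : G.Adj y₁ y₂) (hun : Unc G f y₁ y₂) {u v : V}
    (huv : G.Adj u v) (hu : u ≠ y₁) (hv : v ≠ y₁) :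
    Disjoint (segment ℝ (f y₁) (zt (f y₁) (f y₂) 0)) (segment ℝ (f u) (f v)) := by
  rw [Set.disjoint_left]
  intro z hz1 hz2
  have hY : f y₁ ≠ f y₂ := fun h => hy.ne (hf.inj h)
  obtain ⟨s, hs0, hs1, hs2, hs3⟩ := mem_segment_iff.1 hz1
  rw [zt_re] at hs2
  rw [zt_im] at hs3
  rcases hs0.eq_or_lt with h0 | h0
  · -- the end
    have hz : z = f y₁ := by
      rw [← h0] at hs2 hs3
      exact Complex.ext (by linarith) (by linarith)
    rw [hz] at hz2
    exact hf.vtx u v y₁ huv hu.symm hv.symm hz2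
  · have hzo : z ∈ openSegment ℝ (f y₁) (f y₂) := by
      rw [mem_openSegment_iff]
      refine ⟨s / 2, by linarith, by linarith, ?_, ?_⟩
      · rw [hs2]; ring
      · rw [hs3]; ring
    rw [← insert_endpoints_openSegment] at hz2
    rcases hz2 with h1 | h1 | h1
    · by_cases huy : u = y₂
      · rw [huy] at h1
        obtain ⟨r, hr0, hr1, hr2, hr3⟩ := mem_openSegment_iff.1 hzo
        apply hY
        rw [h1] at hr2 hr3
        have e1 : (1 - r) * ((f y₁).re - (f y₂).re) = 0 := by linarith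
        have e2 : (1 - r) * ((f y₁).im - (f y₂).im) = 0 := by linarith
        have hr : 1 - r ≠ 0 := by linarith
        exact Complex.ext (by linarith [(mul_eq_zero.1 e1).resolve_left hr])
          (by linarith [(mul_eq_zero.1 e2).resolve_left hr])
      · exact hf.vtx y₁ y₂ u hy hu huy (openSegment_subset_segment ℝ _ _ (h1 ▸ hzo))
    · by_cases hvy : v = y₂
      · rw [hvy] at h1
        obtain ⟨r, hr0, hr1, hr2, hr3⟩ := mem_openSegment_iff.1 hzo
        apply hY
        rw [h1] at hr2 hr3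
        have e1 : (1 - r) * ((f y₁).re - (f y₂).re) = 0 := by linarith
        have e2 : (1 - r) * ((f y₁).im - (f y₂).im) = 0 := by linarith
        have hr : 1 - r ≠ 0 := by linarith
        exact Complex.ext (by linarith [(mul_eq_zero.1 e1).resolve_left hr])
          (by linarith [(mul_eq_zero.1 e2).resolve_left hr])
      · exact hf.vtx y₁ y₂ v hy hv hvy (openSegment_subset_segment ℝ _ _ (h1 ▸ hzo))
    · refine hun u v huv ?_ z h1 hzo
      intro he
      rcases Sym2.eq_iff.1 he with ⟨h2, -⟩ | ⟨-, h2⟩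
      · exact hu h2
      · exact hv h2

theorem isClosed_seg (u v : ℂ) : IsClosed (segment ℝ u v) := by
  rw [segment_eq_image]
  exact (isCompact_Icc.image (by fun_prop)).isClosed

/-- a good position near an uncrossed edge -/
theorem exists_ear [Finite V] (hf : IsRAC G f) (hy : G.Adj y₁ y₂) (hun : Unc G f y₁ y₂) :
    ∃ z : ℂ, (∀ v, v ≠ y₁ → Dt (f y₁) z (f v) ≠ 0) ∧ (∀ v, v ≠ y₂ → Dt (f y₂) z (f v) ≠ 0) ∧
      (∀ u v, G.Adj u v → u ≠ y₁ → v ≠ y₁ →
        Disjoint (segment ℝ (f y₁) z) (segment ℝ (f u) (f v))) ∧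
      (∀ u v, G.Adj u v → u ≠ y₂ → v ≠ y₂ →
        Disjoint (segment ℝ (f y₂) z) (segment ℝ (f u) (f v))) := by
  have hY : f y₁ ≠ f y₂ := fun h => hy.ne (hf.inj h)
  have hneg : Tendsto (fun τ : ℝ => -τ) (𝓝[≠] 0) (𝓝[≠] 0) := by
    rw [tendsto_nhdsWithin_iff]
    constructor
    · have : Tendsto (fun τ : ℝ => -τ) (𝓝 0) (𝓝 (-0)) := (continuous_neg.tendsto 0)
      rw [neg_zero] at this
      exact this.mono_left nhdsWithin_le_nhds
    · filter_upwards [self_mem_nhdsWithin] with τ hτ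
      simpa using hτ
  have c1 : ∀ᶠ τ : ℝ in 𝓝[≠] 0, ∀ v, v ≠ y₁ → Dt (f y₁) (zt (f y₁) (f y₂) τ) (f v) ≠ 0 := by
    rw [eventually_all]
    intro v
    rw [eventually_imp_distrib_left]
    intro hv
    exact near hY fun h => hv (hf.inj h)
  have c2' : ∀ᶠ τ : ℝ in 𝓝[≠] 0, ∀ v, v ≠ y₂ → Dt (f y₂) (zt (f y₂) (f y₁) τ) (f v) ≠ 0 := by
    rw [eventually_all]
    intro v
    rw [eventually_imp_distrib_left]
    intro hv
    exact near hY.symm fun h => hv (hf.inj h)
  have c3 : ∀ᶠ τ : ℝ in 𝓝[≠] 0, ∀ u v, G.Adj u v → u ≠ y₁ → v ≠ y₁ →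
      Disjoint (segment ℝ (f y₁) (zt (f y₁) (f y₂) τ)) (segment ℝ (f u) (f v)) := by
    rw [eventually_all]
    intro u
    rw [eventually_all]
    intro v
    rw [eventually_imp_distrib_left]
    intro huv
    rw [eventually_imp_distrib_left]
    intro hu
    rw [eventually_imp_distrib_left]
    intro hv
    exact far (isClosed_seg _ _) (half_disjoint hf hy hun huv hu hv)
  have c4' : ∀ᶠ τ : ℝ in 𝓝[≠] 0, ∀ u v, G.Adj u v → u ≠ y₂ → v ≠ y₂ →
      Disjoint (segment ℝ (f y₂) (zt (f y₂) (f y₁) τ)) (segment ℝ (f u) (f v)) := by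
    rw [eventually_all]
    intro u
    rw [eventually_all]
    intro v
    rw [eventually_imp_distrib_left]
    intro huv
    rw [eventually_imp_distrib_left]
    intro hu
    rw [eventually_imp_distrib_left]
    intro hv
    exact far (isClosed_seg _ _) (half_disjoint hf hy.symm hun.symm huv hu hv)
  have c2 := hneg.eventually c2'
  have c4 := hneg.eventually c4'
  obtain ⟨τ, h1, h2, h3, h4⟩ := (c1.and (c2.and (c3.and c4))).exists
  rw [zt_symm] at h2 h4
  exact ⟨zt (f y₁) (f y₂) τ, h1, h2, h3, h4⟩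

theorem Dt_zero_of_mem {x y z : ℂ} (h : z ∈ openSegment ℝ x y) : Dt x z y = 0 := by
  obtain ⟨t, -, -, h1, h2⟩ := mem_openSegment_iff.1 h
  unfold Dt
  rw [h1, h2]
  ring

theorem Dt_zero_of_mem' {x y z : ℂ} (h : z ∈ openSegment ℝ x y) : Dt x y z = 0 := by
  obtain ⟨t, -, -, h1, h2⟩ := mem_openSegment_iff.1 h
  unfold Dt
  rw [h1, h2]
  ring

/-- two segments with a common end and a common interior point are parallel -/
theorem Dt_zero_of_two {x y z w : ℂ} (h1 : w ∈ openSegment ℝ x y) (h2 : w ∈ openSegment ℝ x z) :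
    Dt x y z = 0 := by
  obtain ⟨s, hs0, hs1, hs2, hs3⟩ := mem_openSegment_iff.1 h1
  obtain ⟨t, ht0, ht1, ht2, ht3⟩ := mem_openSegment_iff.1 h2
  have e1 : s * (y.re - x.re) = t * (z.re - x.re) := by linarith
  have e2 : s * (y.im - x.im) = t * (z.im - x.im) := by linarith
  have e3 : (s * t) * Dt x y z = 0 := by
    unfold Dt
    linear_combination (t * (z.im - x.im)) * e1 - (t * (z.re - x.re)) * e2
  exact (mul_eq_zero.1 e3).resolve_left (mul_pos hs0 ht0).ne'

/-- **Adding an ear.** -/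
theorem add_ear [Finite V] [DecidableEq V] (hf : IsRAC G f) (hy : G.Adj y₁ y₂)
    (hun : Unc G f y₁ y₂) (ht : ∀ v, ¬ G.Adj t v) (ht1 : t ≠ y₁) (ht2 : t ≠ y₂) :
    ∃ f' : V → ℂ, IsRAC (G ⊔ SimpleGraph.edge y₁ t ⊔ SimpleGraph.edge y₂ t) f' ∧
      (∀ u v, G.Adj u v → Unc G f u v →
        Unc (G ⊔ SimpleGraph.edge y₁ t ⊔ SimpleGraph.edge y₂ t) f' u v) := by
  obtain ⟨z, h1, h2, h3, h4⟩ := exists_ear hf hy hun
  have hf'v : ∀ v, v ≠ t → Function.update f t z v = f v := fun v hv =>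
    Function.update_of_ne hv z f
  have hf't : Function.update f t z t = z := Function.update_self t z f
  have htu : ∀ u v, G.Adj u v → u ≠ t ∧ v ≠ t := by
    intro u v huv
    exact ⟨fun h => ht v (h ▸ huv), fun h => ht u (h ▸ huv.symm)⟩
  -- a new edge and an old edge have no common interior point
  have hnew1 : ∀ u v, G.Adj u v → ∀ w, w ∈ openSegment ℝ (f u) (f v) →
      w ∉ openSegment ℝ (f y₁) z := by
    intro u v huv w hw1 hw2
    by_cases hu : u = y₁
    · rw [hu] at hw1 huv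
      exact h1 v huv.ne' (Dt_zero_of_two hw2 hw1)
    · by_cases hv : v = y₁
      · rw [hv, openSegment_symm] at hw1
        rw [hv] at huv
        exact h1 u huv.ne (Dt_zero_of_two hw2 hw1)
      · exact Set.disjoint_left.1 (h3 u v huv hu hv) (openSegment_subset_segment ℝ _ _ hw2)
          (openSegment_subset_segment ℝ _ _ hw1)
  have hnew2 : ∀ u v, G.Adj u v → ∀ w, w ∈ openSegment ℝ (f u) (f v) →
      w ∉ openSegment ℝ (f y₂) z := by
    intro u v huv w hw1 hw2
    by_cases hu : u = y₂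
    · rw [hu] at hw1 huv
      exact h2 v huv.ne' (Dt_zero_of_two hw2 hw1)
    · by_cases hv : v = y₂
      · rw [hv, openSegment_symm] at hw1
        rw [hv] at huv
        exact h2 u huv.ne (Dt_zero_of_two hw2 hw1)
      · exact Set.disjoint_left.1 (h4 u v huv hu hv) (openSegment_subset_segment ℝ _ _ hw2)
          (openSegment_subset_segment ℝ _ _ hw1)
  -- the two new edges
  have hnew3 : ∀ w, w ∈ openSegment ℝ (f y₁) z → w ∉ openSegment ℝ (f y₂) z := by
    intro w hw1 hw2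
    rw [openSegment_symm] at hw1 hw2
    have h5 := Dt_zero_of_two hw1 hw2
    apply h1 y₂ hy.ne'
    have h6 : Dt (f y₁) z (f y₂) = -Dt z (f y₁) (f y₂) := by unfold Dt; ring
    rw [h6, h5, neg_zero]
  -- the new point does not lie on an old edge
  have hz1 : ∀ u v, G.Adj u v → z ∉ openSegment ℝ (f u) (f v) := by
    intro u v huv hz
    by_cases hu : u = y₁
    · rw [hu] at hz huv
      exact h1 v huv.ne' (Dt_zero_of_mem hz)
    · by_cases hv : v = y₁
      · rw [hv, openSegment_symm] at hz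
        rw [hv] at huv
        exact h1 u huv.ne (Dt_zero_of_mem hz)
      · exact Set.disjoint_left.1 (h3 u v huv hu hv) (right_mem_segment ℝ _ _)
          (openSegment_subset_segment ℝ _ _ hz)
  have hz2 : ∀ v, z ≠ f v := by
    intro v hv
    by_cases hv1 : v = y₁
    · have := h2 v (by rw [hv1]; exact hy.ne)
      rw [hv, Dt_self_right] at this
      exact this rfl
    · have := h1 v hv1
      rw [hv, Dt_self_right] at this
      exact this rfl
  -- the edges of the new graph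
  have hadj : ∀ u v, (G ⊔ SimpleGraph.edge y₁ t ⊔ SimpleGraph.edge y₂ t).Adj u v →
      G.Adj u v ∨ s(u, v) = s(y₁, t) ∨ s(u, v) = s(y₂, t) := by
    intro u v huv
    rw [SimpleGraph.sup_adj, SimpleGraph.sup_adj, SimpleGraph.edge_adj, SimpleGraph.edge_adj] at huv
    rcases huv with (h5 | ⟨h5, -⟩) | ⟨h5, -⟩
    · exact Or.inl h5
    · exact Or.inr (Or.inl (Sym2.eq_iff.2 h5))
    · exact Or.inr (Or.inr (Sym2.eq_iff.2 h5))
  refine ⟨Function.update f t z, ?_, ?_⟩
  · refine IsRAC.of_codes (ι := (V × V) ⊕ Bool)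
      (fun c => match c with
        | .inl e => e
        | .inr false => (y₁, t)
        | .inr true => (y₂, t))
      (fun c => match c with
        | .inl e => G.Adj e.1 e.2
        | .inr _ => True) ?_ ?_ ?_ ?_
    · intro u v huv
      rcases hadj u v huv with h5 | h5 | h5
      · exact ⟨.inl (u, v), h5, rfl⟩
      · exact ⟨.inr false, trivial, h5⟩
      · exact ⟨.inr true, trivial, h5⟩
    · intro u v huv
      by_cases hu : u = t
      · by_cases hv : v = t
        · rw [hu, hv]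
        · rw [hu, hf't, hf'v v hv] at huv
          exact absurd huv (hz2 v)
      · by_cases hv : v = t
        · rw [hv, hf't, hf'v u hu] at huv
          exact absurd huv.symm (hz2 u)
        · rw [hf'v u hu, hf'v v hv] at huv
          exact hf.inj huv
    · rintro (⟨u, v⟩ | _ | _) w he hw1 hw2 hmem
      · simp only at he hw1 hw2 hmem
        rw [hf'v u (htu u v he).1, hf'v v (htu u v he).2] at hmem
        by_cases hw : w = t
        · rw [hw, hf't] at hmem
          exact hz1 u v he hmem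
        · rw [hf'v w hw] at hmem
          exact hf.vtx u v w he hw1 hw2 (openSegment_subset_segment ℝ _ _ hmem)
      · simp only at hw1 hw2 hmem
        rw [hf't, hf'v y₁ ht1.symm, hf'v w hw2] at hmem
        exact h1 w hw1 (Dt_zero_of_mem' hmem)
      · simp only at hw1 hw2 hmem
        rw [hf't, hf'v y₂ ht2.symm, hf'v w hw2] at hmem
        exact h2 w hw1 (Dt_zero_of_mem' hmem)
    · rintro (⟨u, v⟩ | _ | _) (⟨u', v'⟩ | _ | _) he he' hne w hw1 hw2
      · simp only at he he' hne hw1 hw2 ⊢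
        rw [hf'v u (htu u v he).1, hf'v v (htu u v he).2] at hw1 ⊢
        rw [hf'v u' (htu u' v' he').1, hf'v v' (htu u' v' he').2] at hw2 ⊢
        exact hf.dot he he' hne hw1 hw2
      · exfalso
        simp only at he hw1 hw2
        rw [hf'v u (htu u v he).1, hf'v v (htu u v he).2] at hw1
        rw [hf't, hf'v y₁ ht1.symm] at hw2
        exact hnew1 u v he w hw1 hw2
      · exfalso
        simp only at he hw1 hw2
        rw [hf'v u (htu u v he).1, hf'v v (htu u v he).2] at hw1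
        rw [hf't, hf'v y₂ ht2.symm] at hw2
        exact hnew2 u v he w hw1 hw2
      · exfalso
        simp only at he' hw1 hw2
        rw [hf'v u' (htu u' v' he').1, hf'v v' (htu u' v' he').2] at hw2
        rw [hf't, hf'v y₁ ht1.symm] at hw1
        exact hnew1 u' v' he' w hw2 hw1
      · exact absurd rfl hne
      · exfalso
        simp only at hw1 hw2
        rw [hf't, hf'v y₁ ht1.symm] at hw1
        rw [hf't, hf'v y₂ ht2.symm] at hw2
        exact hnew3 w hw1 hw2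
      · exfalso
        simp only at he' hw1 hw2
        rw [hf'v u' (htu u' v' he').1, hf'v v' (htu u' v' he').2] at hw2
        rw [hf't, hf'v y₂ ht2.symm] at hw1
        exact hnew2 u' v' he' w hw2 hw1
      · exfalso
        simp only at hw1 hw2
        rw [hf't, hf'v y₂ ht2.symm] at hw1
        rw [hf't, hf'v y₁ ht1.symm] at hw2
        exact hnew3 w hw2 hw1
      · exact absurd rfl hne
  · intro u v huv hunc x y hxy hne w hw1 hw2
    have hu := (htu u v huv).1
    have hv := (htu u v huv).2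
    rw [hf'v u hu, hf'v v hv] at hw2
    rcases hadj x y hxy with h5 | h5 | h5
    · rw [hf'v x (htu x y h5).1, hf'v y (htu x y h5).2] at hw1
      exact hunc x y h5 hne w hw1 hw2
    · have hw1' : w ∈ openSegment ℝ (f y₁) z := by
        rcases Sym2.eq_iff.1 h5 with ⟨h6, h7⟩ | ⟨h6, h7⟩
        · rw [h6, h7, hf't, hf'v y₁ ht1.symm] at hw1; exact hw1
        · rw [h6, h7, hf't, hf'v y₁ ht1.symm, openSegment_symm] at hw1; exact hw1
      exact hnew1 u v huv w hw2 hw1'
    · have hw1' : w ∈ openSegment ℝ (f y₂) z := by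
        rcases Sym2.eq_iff.1 h5 with ⟨h6, h7⟩ | ⟨h6, h7⟩
        · rw [h6, h7, hf't, hf'v y₂ ht2.symm] at hw1; exact hw1
        · rw [h6, h7, hf't, hf'v y₂ ht2.symm, openSegment_symm] at hw1; exact hw1
      exact hnew2 u v huv w hw2 hw1'

end

end Pool.Agent.Helper18.RAC
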