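import Pool.Agent.Helper18.RAC.Fan1

/-!
# Two vertices in a cell: statements for kites in general position
-/

set_option autoImplicit false

open Complex

namespace Pool.Agent.Helper18.RAC

variable {V : Type*}

/-- a vertex `z` of the cell `q u w` with edges across the diagonal `w w'` and across the side
`u w` -/
structure Bar (H : SimpleGraph V) (f : V → ℂ) (u u' w : V) (q : ℂ) (z z' z'' : V) : Prop where
  cell : Tri q (f u) (f w) (f z)
  adj' : H.Adj z z'
  adj'' : H.Adj z z''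
  cell' : Tri q (f w) (f u') (f z')
  side : Dt (f u) (f w) (f z'') * Dt (f u) (f w) q < 0

section

variable {H : SimpleGraph V} {f : V → ℂ} {u u' w w' v v' v'' z z' z'' : V} {q : ℂ}

theorem side_lt {D x : ℝ} (h : x * D * D < 0) : x < 0 := by
  by_contra hcon
  push Not at hcon
  have h1 : 0 ≤ x * (D * D) := mul_nonneg hcon (mul_self_nonneg D)
  linarith

/-- only one edge leads from a vertex of a cell to the neighbouring cell across a diagonal -/
theorem Kite.unique_diag (hf : IsRAC H f) (hk : Kite H f u u' w w' q) (hv : H.Adj v v')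
    (hv' : H.Adj v v'') (h : Tri q (f u) (f w) (f v)) (h' : Tri q (f w) (f u') (f v'))
    (h'' : Tri q (f w) (f u') (f v'')) : v' = v'' := by
  obtain ⟨X, Y, E, F, a, b, hd, hn, hT1, hT2, hT3, hdec, hun, hD⟩ := hk.coords hf
  rw [hT1] at h
  rw [hT3] at h' h''
  have ha := hn.a_pos
  have key : ∀ y x : ℝ, x < 0 → a * y - x < a → y < 1 := by
    intro y x hx hy
    by_contra hcon
    push Not at hcon
    have := mul_le_mul_of_nonneg_left hcon ha.le
    linarith
  exact hn.unique_diag hd hv hv' h.1 h.2.1 h.2.2 h'.2.1 h'.1 (key _ _ h'.2.1 h'.2.2)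
    h''.2.1 h''.1 (key _ _ h''.2.1 h''.2.2)

/-- crossing data of an edge from a cell which ends beyond the side -/
theorem KN.beyond {X Y : V → ℝ} {E F a b : ℝ} (hd : ADraw H X Y E F)
    (hk : KN H X Y a b u u' w w') (hv : H.Adj v v')
    (hX : 0 < X v) (hY : 0 < Y v) (hXY : X v + Y v < 1) (h : 1 < X v' + Y v') :
    ∃ s t : ℝ, 0 < s ∧ s < 1 ∧ 0 < t ∧ t < 1 ∧
        (1 - s) * X v + s * X v' = 1 - t ∧ (1 - s) * Y v + s * Y v' = t := by
  have hb := hk.b_pos
  have ha := hk.a_pos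
  rcases KN.lemmaA hd hk hv hX hY hXY with h1 | h1 | h1 | h1 | h1 | h1
  · rw [h1, hk.Xu, hk.Yu] at h; linarith
  · rw [h1, hk.Xw, hk.Yw] at h; linarith
  · linarith [h1.2.2]
  · exfalso
    obtain ⟨h2, h3, h4⟩ := h1
    have h5 : 1 < X v' := by linarith
    have := mul_lt_mul_of_pos_left h5 hb
    linarith
  · exfalso
    obtain ⟨h2, h3, h4⟩ := h1
    have h5 : 1 < Y v' := by linarith
    have := mul_lt_mul_of_pos_left h5 ha
    linarith
  · exact h1.2

/-- only one edge leads from a vertex of a cell across the side -/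
theorem Kite.unique_side (hf : IsRAC H f) (hk : Kite H f u u' w w' q) (hv : H.Adj v v')
    (hv' : H.Adj v v'') (h : Tri q (f u) (f w) (f v))
    (h' : Dt (f u) (f w) (f v') * Dt (f u) (f w) q < 0)
    (h'' : Dt (f u) (f w) (f v'') * Dt (f u) (f w) q < 0) : v' = v'' := by
  obtain ⟨X, Y, E, F, a, b, hd, hn, hT1, hT2, hT3, hdec, hun, hD⟩ := hk.coords hf
  rw [hT1] at h
  have e' : 1 < X (f v') + Y (f v') := by
    rw [Dt_coords (hdec (f v')).1 (hdec (f v')).2] at h'
    have := side_lt h'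
    linarith
  have e'' : 1 < X (f v'') + Y (f v'') := by
    rw [Dt_coords (hdec (f v'')).1 (hdec (f v'')).2] at h''
    have := side_lt h''
    linarith
  obtain ⟨s, t, a1, a2, a3, a4, a5, a6⟩ := hn.beyond hd hv h.1 h.2.1 h.2.2 e'
  obtain ⟨s', t', b1, b2, b3, b4, b5, b6⟩ := hn.beyond hd hv' h.1 h.2.1 h.2.2 e''
  exact hn.unique_side hd hv hv' h.2.2 a1 a2 a3 a4 a5 a6 b1 b2 b3 b4 b5 b6

/-- the barrier in coordinates -/
theorem Bar.barrier {X Y : ℂ → ℝ} {E F a b : ℝ} (hB : Bar H f u u' w q z z' z'')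
    (hd : ADraw H (fun v => X (f v)) (fun v => Y (f v)) E F)
    (hn : KN H (fun v => X (f v)) (fun v => Y (f v)) a b u u' w w')
    (hT1 : ∀ z, Tri q (f u) (f w) z ↔ 0 < X z ∧ 0 < Y z ∧ X z + Y z < 1)
    (hT3 : ∀ z, Tri q (f w) (f u') z ↔ 0 < Y z ∧ X z < 0 ∧ a * Y z - X z < a)
    (hdec : ∀ z : ℂ, z.re = q.re + X z * ((f u).re - q.re) + Y z * ((f w).re - q.re) ∧
        z.im = q.im + X z * ((f u).im - q.im) + Y z * ((f w).im - q.im))
    (hD : Dt (f u) (f w) q ≠ 0) :
    Barrier H (fun v => X (f v)) (fun v => Y (f v)) E F z z' z'' := by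
  have h := (hT1 _).1 hB.cell
  have h' := (hT3 _).1 hB.cell'
  have h'' := hB.side
  have ha := hn.a_pos
  have e'' : 1 < X (f z'') + Y (f z'') := by
    rw [Dt_coords (hdec (f z'')).1 (hdec (f z'')).2] at h''
    have := side_lt h''
    linarith
  have hy1 : Y (f z') < 1 := by
    by_contra hcon
    push Not at hcon
    have := mul_le_mul_of_nonneg_left hcon ha.le
    linarith [h'.2.1, h'.2.2]
  refine ⟨h.1, h.2.1, h.2.2, hB.adj', hB.adj'', h'.2.1, ?_, e'', ?_⟩
  · exact KN.horiz (X := fun v => X (f v)) (Y := fun v => Y (f v)) hd hn hB.adj' h.1 h.2.1 h.2.2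
      h'.2.1 h'.1 hy1
  · obtain ⟨s, t, a1, a2, a3, a4, a5, a6⟩ := hn.beyond hd hB.adj'' h.1 h.2.1 h.2.2 e''
    refine KN.cross_s (X := fun v => X (f v)) (Y := fun v => Y (f v)) hd hn hB.adj'' ?_
      a1 a2 a3 a4 a5 a6
    apply ne_of_left
    · rintro rfl
      have h1 := h.2.1
      have h2 : Y (f z) = 0 := hn.Yu
      rw [h2] at h1
      exact lt_irrefl _ h1
    · rintro rfl
      have h1 := h.1
      have h2 : X (f z) = 0 := hn.Xw
      rw [h2] at h1
      exact lt_irrefl _ h1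

/-- the corner `w` is adjacent to at most one of two vertices with barriers -/
theorem Kite.not_both (hf : IsRAC H f) (hk : Kite H f u u' w w' q) {v₁ v₂ : V}
    (hB : Bar H f u u' w q z z' z'') (hB' : Bar H f u u' w q v v₁ v₂)
    (h1 : w ≠ z') (h2 : w ≠ z'') (h3 : w ≠ v₁) (h4 : w ≠ v₂) (hvz : v ≠ z) (h5 : v ≠ z')
    (h6 : v ≠ z'') (h7 : z ≠ v₁) (h8 : z ≠ v₂) (hwv : H.Adj w v) (hwz : H.Adj w z) : False := by
  obtain ⟨X, Y, E, F, a, b, hd, hn, hT1, hT2, hT3, hdec, hun, hD⟩ := hk.coords hf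
  exact (hB.barrier hd hn hT1 hT3 hdec hD).not_both hd hn (hB'.barrier hd hn hT1 hT3 hdec hD)
    h1 h2 h3 h4 hvz h5 h6 h7 h8 hwv hwz

/-- the corner `u` is not adjacent to a vertex which is adjacent to the corner `w` and different
from the vertex `z` with a barrier -/
theorem Kite.not_u (hf : IsRAC H f) (hk : Kite H f u u' w w' q)
    (hB : Bar H f u u' w q z z' z'') (hv : Tri q (f u) (f w) (f v)) (huz' : u ≠ z')
    (huz'' : u ≠ z'') (hwz' : w ≠ z') (hwz'' : w ≠ z'')
    (hvz : v ≠ z) (hvz' : v ≠ z') (hvz'' : v ≠ z'') (hwv : H.Adj w v) (huv : H.Adj u v) :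
    False := by
  obtain ⟨X, Y, E, F, a, b, hd, hn, hT1, hT2, hT3, hdec, hun, hD⟩ := hk.coords hf
  have hb := hB.barrier hd hn hT1 hT3 hdec hD
  have h := (hT1 _).1 hv
  obtain ⟨e1, e2⟩ := hb.wedge hd hn hwz' hwz'' hwv hvz hvz' hvz'' h.1 h.2.1 h.2.2
  exact hb.not_u hd hn huz' huz'' huv hvz hvz' hvz'' h.1 h.2.2 e1 e2

end

end Pool.Agent.Helper18.RAC
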