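import Pool.Agent.Helper18.RAC.Ear

/-!
# Fans: directions of the columns and positions near the hub
-/

set_option autoImplicit false

open Complex Filter Topology

namespace Pool.Agent.Helper18.RAC

/-- one more direction -/
theorem dir_step {u v : ℝ} (hv : 0 < v) (huv : v < u) {z : ℂ} (hz : 0 < z.im) (hz' : 0 < z.re) :
    ∃ w : ℂ, 0 < w.im ∧ v < xc w ∧ xc w < u ∧ u * w.re + w.im = u * z.re + z.im := by
  have hu : 0 < u := hv.trans huv
  have h1 : 0 < u * z.re + z.im := by have := mul_pos hu hz'; linarith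
  have h2 : 0 < u ^ 2 + 1 := by positivity
  have h3 : 0 < 1 + u * v := by have := mul_pos hu hv; linarith
  set s := (u * z.re + z.im) / (u ^ 2 + 1) with hs
  have hs0 : 0 < s := div_pos h1 h2
  have hse : s * (u ^ 2 + 1) = u * z.re + z.im := by rw [hs]; field_simp
  set e := s * (u - v) / (2 * (1 + u * v)) with he
  have he0 : 0 < e := div_pos (mul_pos hs0 (by linarith)) (by linarith)
  have hee : e * (1 + u * v) * 2 = s * (u - v) := by rw [he]; field_simp
  have him : 0 < s + e * u := by have := mul_pos he0 hu; linarith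
  refine ⟨⟨s * u - e, s + e * u⟩, him, ?_, ?_, ?_⟩
  · unfold xc
    rw [lt_div_iff₀ him]
    simp only
    have := mul_pos he0 h3
    linarith
  · unfold xc
    rw [div_lt_iff₀ him]
    simp only
    have := mul_pos he0 h2
    linarith
  · simp only
    rw [← hse]
    ring

/-- the directions of the columns -/
theorem exists_dir (x : ℕ → ℝ) (N : ℕ) (hpos : ∀ j ≤ N, 0 < x j) (hlt : ∀ j < N, x (j + 1) < x j) :
    ∃ g : ℕ → ℂ, (∀ j < N, 0 < (g j).im ∧ x (j + 1) < xc (g j) ∧ xc (g j) < x j) ∧
      ∀ j, j + 1 < N → x (j + 1) * (g (j + 1)).re + (g (j + 1)).im =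
        x (j + 1) * (g j).re + (g j).im := by
  induction N with
  | zero => exact ⟨fun _ => 0, fun j hj => by omega, fun j hj => by omega⟩
  | succ N ih =>
    obtain ⟨g, h1, h2⟩ := ih (fun j hj => hpos j (by omega)) (fun j hj => hlt j (by omega))
    rcases Nat.eq_zero_or_pos N with hN | hN
    · subst hN
      have h3 := hlt 0 (by omega)
      refine ⟨fun _ => ⟨(x 0 + x 1) / 2, 1⟩, ?_, fun j hj => by omega⟩
      intro j hj
      have : j = 0 := by omega
      subst this
      unfold xc
      simp only [div_one]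
      refine ⟨one_pos, ?_, ?_⟩
      · rw [zero_add] at h3 ⊢; linarith
      · rw [zero_add] at h3; linarith
    · obtain ⟨M, rfl⟩ : ∃ M, N = M + 1 := ⟨N - 1, by omega⟩
      obtain ⟨k1, k2, k3⟩ := h1 M (by omega)
      have k4 : 0 < (g M).re := by
        have := xc_mul k1
        rw [← this]
        exact mul_pos ((hpos (M + 1) (by omega)).trans k2) k1
      obtain ⟨w, w1, w2, w3, w4⟩ := dir_step (hpos (M + 1 + 1) (by omega))
        (hlt (M + 1) (by omega)) k1 k4
      refine ⟨fun j => if j = M + 1 then w else g j, ?_, ?_⟩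
      · intro j hj
        by_cases hjM : j = M + 1
        · subst hjM
          simp only [if_true]
          exact ⟨w1, w2, w3⟩
        · simp only [hjM, if_false]
          exact h1 j (by omega)
      · intro j hj
        by_cases hjM : j + 1 = M + 1
        · have hjM' : j = M := by omega
          subst hjM'
          have e1 : ¬ (j = j + 1) := by omega
          simp only [if_true, e1, if_false]
          exact w4
        · have e1 : ¬ (j = M + 1) := by omega
          simp only [hjM, e1, if_false]
          exact h2 j (by omega)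

/-- compactness: a moving segment avoids a closed set -/
theorem far' {P : ℂ} {h : ℝ → ℂ} (hc : Continuous h) {K : Set ℂ} (hK : IsClosed K)
    (hdis : Disjoint (segment ℝ P (h 0)) K) :
    ∀ᶠ τ : ℝ in 𝓝 0, Disjoint (segment ℝ P (h τ)) K := by
  have hcomp : IsCompact (segment ℝ P (h 0)) := by
    rw [segment_eq_image]
    exact isCompact_Icc.image (by fun_prop)
  obtain ⟨δ, hδ, hsub⟩ := hcomp.exists_thickening_subset_open hK.isOpen_compl
    (Set.disjoint_left.1 hdis)
  have hcont : Continuous fun τ : ℝ => ‖h τ - h 0‖ := by fun_prop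
  have h1 : ∀ᶠ τ : ℝ in 𝓝 0, ‖h τ - h 0‖ < δ := by
    apply hcont.continuousAt.eventually_lt continuousAt_const
    simpa using hδ
  filter_upwards [h1] with τ hτ
  rw [Set.disjoint_left]
  intro w hw hwK
  rw [segment_eq_image] at hw
  obtain ⟨s, hs, rfl⟩ := hw
  have hmem : (1 - s) • P + s • h τ ∈ Metric.thickening δ (segment ℝ P (h 0)) := by
    rw [Metric.mem_thickening_iff]
    refine ⟨(1 - s) • P + s • h 0, ?_, ?_⟩
    · rw [segment_eq_image]
      exact ⟨s, hs, rfl⟩
    · rw [dist_eq_norm]
      have : (1 - s) • P + s • h τ - ((1 - s) • P + s • h 0) = s • (h τ - h 0) := by module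
      rw [this, norm_smul, Real.norm_eq_abs, abs_of_nonneg hs.1]
      calc s * ‖h τ - h 0‖ ≤ 1 * ‖h τ - h 0‖ :=
            mul_le_mul_of_nonneg_right hs.2 (norm_nonneg _)
        _ < δ := by rw [one_mul]; exact hτ
  exact hsub hmem hwK

/-- the direction at the far end -/
theorem near' {P g X : ℂ} (hX : X ≠ P) (hg : P.re * g.im - P.im * g.re ≠ 0) :
    ∀ᶠ τ : ℝ in 𝓝[≠] 0, Dt P ⟨2 * τ * g.re, 2 * τ * g.im⟩ X ≠ 0 := by
  have hform : ∀ τ : ℝ, Dt P ⟨2 * τ * g.re, 2 * τ * g.im⟩ X =
      (P.im * (X.re - P.re) - P.re * (X.im - P.im)) +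
        2 * τ * (g.re * (X.im - P.im) - g.im * (X.re - P.re)) := by
    intro τ
    unfold Dt
    simp only
    ring
  set C := P.im * (X.re - P.re) - P.re * (X.im - P.im) with hC
  set D := g.re * (X.im - P.im) - g.im * (X.re - P.re) with hD
  by_cases hC0 : C = 0
  · have hD0 : D ≠ 0 := by
      intro h
      -- X - P is parallel to both P and g
      have e1 : (P.re * g.im - P.im * g.re) * (X.re - P.re) = 0 := by
        linear_combination -P.re * h + P.re * hD - g.re * hC0 + g.re * hC
      have e2 : (P.re * g.im - P.im * g.re) * (X.im - P.im) = 0 := by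
        linear_combination -P.im * h + P.im * hD - g.im * hC0 + g.im * hC
      have e3 := (mul_eq_zero.1 e1).resolve_left hg
      have e4 := (mul_eq_zero.1 e2).resolve_left hg
      exact hX (Complex.ext (by linarith) (by linarith))
    filter_upwards [self_mem_nhdsWithin] with τ hτ
    rw [hform, hC0, zero_add]
    have : τ ≠ 0 := hτ
    exact mul_ne_zero (mul_ne_zero two_ne_zero this) hD0
  · have hcont : Continuous fun τ : ℝ => C + 2 * τ * D := by fun_prop
    have h0 : (fun τ : ℝ => C + 2 * τ * D) 0 ≠ 0 := by simp [hC0]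
    have h1 : ∀ᶠ τ : ℝ in 𝓝 0, C + 2 * τ * D ≠ 0 :=
      hcont.continuousAt.eventually_ne h0
    filter_upwards [h1.filter_mono nhdsWithin_le_nhds] with τ hτ
    rw [hform]
    exact hτ

end Pool.Agent.Helper18.RAC
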