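import Pool.Agent.Helper18.RAC.Fan3

/-!
# Fans: the choice of the scale
-/

set_option autoImplicit false

open Complex Filter Topology

namespace Pool.Agent.Helper18.RAC

variable {V : Type*}

/-- index of the spoke to which the outer vertex of column `j` is attached -/
def st (j : ℕ) : ℕ := 2 * ((j + 1) / 2)

/-- the data of a fan at `a` -/
structure Fan (G : SimpleGraph V) (f : V → ℂ) (a : V) (P : ℕ → V) (t : ℕ → Bool → V) (N : ℕ)
    (x : ℕ → ℝ) : Prop where
  rac : IsRAC G f
  fa : f a = 0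
  adj : ∀ j ≤ N, G.Adj a (P j)
  im : ∀ j ≤ N, 0 < (f (P j)).im
  xP : ∀ j ≤ N, xc (f (P j)) = x j
  xpos : ∀ j ≤ N, 0 < x j
  xlt : ∀ j < N, x (j + 1) < x j
  at_a : ∀ v, G.Adj a v → (f v).im ≤ 0 ∨ (∃ j ≤ N, v = P j) ∨ x 0 ≤ xc (f v) ∨ xc (f v) ≤ x N
  unc : ∀ j < N, Unc G f a (P (st j))
  iso : ∀ j < N, ∀ r v, ¬ G.Adj (t j r) v
  ta : ∀ j < N, ∀ r, t j r ≠ a
  tinj : ∀ j < N, ∀ k < N, ∀ r s, t j r = t k s → j = k ∧ r = s

/-- the position of a new vertex -/
noncomputable def zz (g : ℕ → ℂ) (lam : ℝ) (j : ℕ) (r : Bool) : ℂ :=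
  ⟨cond r 2 1 * lam * (g j).re, cond r 2 1 * lam * (g j).im⟩

/-- the conditions on the scale -/
structure Scale (G : SimpleGraph V) (f : V → ℂ) (a : V) (P : ℕ → V) (N : ℕ) (x : ℕ → ℝ)
    (g : ℕ → ℂ) (lam δ : ℝ) : Prop where
  pos : 0 < lam
  ball : ∀ j < N, ∀ r, ‖zz g lam j r‖ < δ
  edge : ∀ u v, G.Adj u v → u ≠ a → v ≠ a → ∀ z : ℂ, ‖z‖ < δ → z ∉ segment ℝ (f u) (f v)
  vert : ∀ v, v ≠ a → δ ≤ ‖f v‖
  u1 : ∀ j < N, ∀ u v, G.Adj u v → u ≠ a → v ≠ a → u ≠ P (st j) → v ≠ P (st j) →
    Disjoint (segment ℝ (f (P (st j))) (zz g lam j true)) (segment ℝ (f u) (f v))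
  u2 : ∀ j < N, ∀ v, G.Adj (P (st j)) v → v ≠ a →
    Dt (f (P (st j))) (zz g lam j true) (f v) ≠ 0
  u3 : ∀ j < N, ∀ v, v ≠ a → v ≠ P (st j) → f v ∉ segment ℝ (f (P (st j))) (zz g lam j true)
  u4 : ∀ j < N, 2 * lam * (x (st j) * (g j).re + (g j).im) <
    x (st j) * (f (P (st j))).re + (f (P (st j))).im

section

variable {G : SimpleGraph V} {f : V → ℂ} {a : V} {P : ℕ → V} {t : ℕ → Bool → V} {N : ℕ}
  {x : ℕ → ℝ} {g : ℕ → ℂ} {lam δ : ℝ}

theorem st_le {j : ℕ} (hj : j < N) : st j ≤ N := by unfold st; omega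

/-- the spoke without its end at the hub is disjoint from the other edges -/
theorem Fan.spoke_disjoint (hF : Fan G f a P t N x) {j : ℕ} (hj : j < N) {u v : V}
    (huv : G.Adj u v) (hua : u ≠ a) (hva : v ≠ a) (hu : u ≠ P (st j)) (hv : v ≠ P (st j)) :
    Disjoint (segment ℝ (f (P (st j))) (zz g 0 j true)) (segment ℝ (f u) (f v)) := by
  have h0 : zz g 0 j true = f a := by
    rw [hF.fa]
    unfold zz
    apply Complex.ext <;> simp
  rw [h0, Set.disjoint_left]
  intro z hz1 hz2
  have hadj := hF.adj _ (st_le hj)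
  rw [segment_symm, ← insert_endpoints_openSegment] at hz1
  rw [← insert_endpoints_openSegment] at hz2
  rcases hz1 with rfl | rfl | hz1
  · exact hF.rac.vtx u v a huv hua.symm hva.symm (by
      rw [← insert_endpoints_openSegment]; exact hz2)
  · exact hF.rac.vtx u v _ huv hu.symm hv.symm (by
      rw [← insert_endpoints_openSegment]; exact hz2)
  · rcases hz2 with rfl | rfl | hz2
    · exact hF.rac.vtx _ _ u hadj hua hu (openSegment_subset_segment ℝ _ _ hz1)
    · exact hF.rac.vtx _ _ v hadj hva hv (openSegment_subset_segment ℝ _ _ hz1)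
    · refine hF.unc j hj u v huv ?_ z hz2 hz1
      intro he
      rcases Sym2.eq_iff.1 he with ⟨h2, -⟩ | ⟨-, h2⟩
      · exact hua h2
      · exact hva h2

theorem zz_cont (g : ℕ → ℂ) (j : ℕ) (r : Bool) : Continuous fun lam : ℝ => zz g lam j r := by
  have : (fun lam : ℝ => zz g lam j r) = fun lam : ℝ =>
      ((cond r 2 1 * lam * (g j).re : ℝ) : ℂ) + ((cond r 2 1 * lam * (g j).im : ℝ) : ℂ) * I := by
    funext lam
    unfold zz
    apply Complex.ext <;> simp
  rw [this]
  fun_prop

theorem st_cases (j : ℕ) : (j % 2 = 0 ∧ st j = j) ∨ (j % 2 = 1 ∧ st j = j + 1) := by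
  unfold st; omega

/-- good scales exist -/
theorem Fan.exists_scale [Finite V] (hF : Fan G f a P t N x)
    (hg : ∀ j < N, 0 < (g j).im ∧ x (j + 1) < xc (g j) ∧ xc (g j) < x j) :
    ∃ lam δ : ℝ, Scale G f a P N x g lam δ := by
  -- the ball
  have hb : ∀ᶠ z : ℂ in 𝓝 0, (∀ u v, G.Adj u v → u ≠ a → v ≠ a → z ∉ segment ℝ (f u) (f v)) ∧
      ∀ v, v ≠ a → z ≠ f v := by
    refine Filter.Eventually.and ?_ ?_
    · rw [eventually_all]
      intro u
      rw [eventually_all]
      intro v
      rw [eventually_imp_distrib_left]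
      intro huv
      rw [eventually_imp_distrib_left]
      intro hu
      rw [eventually_imp_distrib_left]
      intro hv
      refine (isClosed_seg (f u) (f v)).isOpen_compl.mem_nhds ?_
      rw [Set.mem_compl_iff, ← hF.fa]
      exact hF.rac.vtx u v a huv hu.symm hv.symm
    · rw [eventually_all]
      intro v
      rw [eventually_imp_distrib_left]
      intro hv
      refine eventually_ne_nhds ?_
      rw [← hF.fa]
      exact fun h => hv (hF.rac.inj h).symm
  obtain ⟨δ, hδ, hball⟩ := Metric.eventually_nhds_iff.1 hb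
  have c1 : ∀ᶠ lam : ℝ in 𝓝[>] 0, ∀ j : Fin N, ∀ r : Bool, ‖zz g lam j r‖ < δ := by
    rw [eventually_all]
    intro j
    rw [eventually_all]
    intro r
    refine Filter.Eventually.filter_mono nhdsWithin_le_nhds ?_
    have hc : Continuous fun lam : ℝ => ‖zz g lam j r‖ := (zz_cont g j r).norm
    apply hc.continuousAt.eventually_lt continuousAt_const
    have : zz g 0 j r = 0 := by
      unfold zz
      apply Complex.ext <;> simp
    rw [this, norm_zero]
    exact hδ
  have c2 : ∀ᶠ lam : ℝ in 𝓝[>] 0, ∀ j : Fin N, ∀ u v, G.Adj u v → u ≠ a → v ≠ a →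
      u ≠ P (st j) → v ≠ P (st j) →
      Disjoint (segment ℝ (f (P (st j))) (zz g lam j true)) (segment ℝ (f u) (f v)) := by
    rw [eventually_all]
    intro j
    rw [eventually_all]
    intro u
    rw [eventually_all]
    intro v
    rw [eventually_imp_distrib_left]
    intro huv
    rw [eventually_imp_distrib_left]
    intro hu
    rw [eventually_imp_distrib_left]
    intro hv
    rw [eventually_imp_distrib_left]
    intro hu'
    rw [eventually_imp_distrib_left]
    intro hv'
    refine Filter.Eventually.filter_mono nhdsWithin_le_nhds ?_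
    exact far' (zz_cont g j true) (isClosed_seg _ _)
      (hF.spoke_disjoint j.2 huv hu hv hu' hv')
  have c3 : ∀ᶠ lam : ℝ in 𝓝[>] 0, ∀ j : Fin N, ∀ v, G.Adj (P (st j)) v → v ≠ a →
      Dt (f (P (st j))) (zz g lam j true) (f v) ≠ 0 := by
    rw [eventually_all]
    intro j
    rw [eventually_all]
    intro v
    rw [eventually_imp_distrib_left]
    intro hv
    rw [eventually_imp_distrib_left]
    intro hva
    have hne : f v ≠ f (P (st j)) := fun h => hv.ne (hF.rac.inj h).symm
    have hj := j.2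
    have hst := st_le hj
    have hpar : (f (P (st j))).re * (g j).im - (f (P (st j))).im * (g j).re ≠ 0 := by
      have i1 := hF.im _ hst
      have i2 := (hg j hj).1
      rw [← xc_mul i1, ← xc_mul i2, hF.xP _ hst]
      have e1 : x (st j) * (f (P (st j))).im * (g j).im - (f (P (st j))).im *
          (xc (g j) * (g j).im) = (f (P (st j))).im * (g j).im * (x (st j) - xc (g j)) := by ring
      rw [e1]
      refine mul_ne_zero (mul_pos i1 i2).ne' ?_
      rcases st_cases j with ⟨-, e⟩ | ⟨-, e⟩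
      · rw [e]; exact (sub_pos.2 (hg j hj).2.2).ne'
      · rw [e]; exact (sub_neg.2 (hg j hj).2.1).ne
    have := (near' hne hpar).filter_mono (nhdsWithin_mono 0 (fun y hy => ne_of_gt hy) :
      𝓝[>] (0 : ℝ) ≤ 𝓝[≠] 0)
    filter_upwards [this] with lam hlam
    exact hlam
  have c4 : ∀ᶠ lam : ℝ in 𝓝[>] 0, ∀ j : Fin N, ∀ v, v ≠ a → v ≠ P (st j) →
      f v ∉ segment ℝ (f (P (st j))) (zz g lam j true) := by
    rw [eventually_all]
    intro j
    rw [eventually_all]
    intro v
    rw [eventually_imp_distrib_left]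
    intro hva
    rw [eventually_imp_distrib_left]
    intro hv
    refine Filter.Eventually.filter_mono nhdsWithin_le_nhds ?_
    have h0 : zz g 0 j true = f a := by
      rw [hF.fa]
      unfold zz
      apply Complex.ext <;> simp
    have hdis : Disjoint (segment ℝ (f (P (st j))) (zz g 0 j true)) {f v} := by
      rw [Set.disjoint_singleton_right, h0, segment_symm]
      exact hF.rac.vtx _ _ v (hF.adj _ (st_le j.2)) hva hv
    filter_upwards [far' (zz_cont g j true) isClosed_singleton hdis] with lam hlam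
    exact Set.disjoint_singleton_right.1 hlam
  have c5 : ∀ᶠ lam : ℝ in 𝓝[>] 0, ∀ j : Fin N,
      2 * lam * (x (st j) * (g j).re + (g j).im) <
        x (st j) * (f (P (st j))).re + (f (P (st j))).im := by
    rw [eventually_all]
    intro j
    refine Filter.Eventually.filter_mono nhdsWithin_le_nhds ?_
    have hc : Continuous fun lam : ℝ => 2 * lam * (x (st j) * (g j).re + (g j).im) := by fun_prop
    apply hc.continuousAt.eventually_lt continuousAt_const
    have hst := st_le j.2
    have i1 := hF.im _ hst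
    rw [← xc_mul i1, hF.xP _ hst]
    have := mul_pos (mul_pos (hF.xpos _ hst) (hF.xpos _ hst)) i1
    simp only [mul_zero, zero_mul]
    linarith
  have c0 : ∀ᶠ lam : ℝ in 𝓝[>] 0, 0 < lam := self_mem_nhdsWithin
  obtain ⟨lam, h1, h2, h3, h4, h5, h6⟩ := (c0.and
      (c1.and (c2.and (c3.and (c4.and c5))))).exists
  refine ⟨lam, δ, h1, fun j hj r => h2 ⟨j, hj⟩ r, ?_, ?_, fun j hj => h3 ⟨j, hj⟩,
    fun j hj => h4 ⟨j, hj⟩, fun j hj => h5 ⟨j, hj⟩, fun j hj => h6 ⟨j, hj⟩⟩
  · intro u v huv hu hv z hz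
    exact (hball (by rw [dist_zero_right]; exact hz)).1 u v huv hu hv
  · intro v hv
    by_contra hcon
    push Not at hcon
    exact (hball (by rw [dist_zero_right]; exact hcon)).2 v hv rfl

end

end Pool.Agent.Helper18.RAC
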