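import Pool.Agent.Helper18.RAC.Fan4

/-!
# Fans: the drawing
-/

set_option autoImplicit false

open Complex Filter Topology

namespace Pool.Agent.Helper18.RAC

/-- codes of the edges after a fan has been added -/
inductive FC (V : Type*)
  | old (u v : V)
  | S (j : ℕ)
  | T (j : ℕ)
  | U (j : ℕ)
  | R (j : ℕ) (r : Bool)

variable {V : Type*}

/-- the ends of an edge -/
def FC.ends (a : V) (P : ℕ → V) (t : ℕ → Bool → V) : FC V → V × V
  | .old u v => (u, v)
  | .S j => (a, t j false)
  | .T j => (t j false, t j true)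
  | .U j => (P (st j), t j true)
  | .R j r => (t j r, t (j + 1) r)

/-- valid codes -/
def FC.valid (G : SimpleGraph V) (N : ℕ) : FC V → Prop
  | .old u v => G.Adj u v
  | .S j => j < N
  | .T j => j < N
  | .U j => j < N
  | .R j _ => j + 1 < N

/-- codes of new edges -/
def FC.new : FC V → Prop
  | .old _ _ => False
  | _ => True

/-- the positions of the ends -/
noncomputable def FC.pts (f : V → ℂ) (a : V) (P : ℕ → V) (g : ℕ → ℂ) (lam : ℝ) : FC V → ℂ × ℂ
  | .old u v => (f u, f v)
  | .S j => (f a, zz g lam j false)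
  | .T j => (zz g lam j false, zz g lam j true)
  | .U j => (f (P (st j)), zz g lam j true)
  | .R j r => (zz g lam j r, zz g lam (j + 1) r)

/-- the edges of a fan -/
def fanE (G : SimpleGraph V) (a : V) (P : ℕ → V) (t : ℕ → Bool → V) (N : ℕ) : Set (Sym2 V) :=
  {e | ∃ c : FC V, c.new ∧ c.valid G N ∧ e = s((c.ends a P t).1, (c.ends a P t).2)}

section

variable {G : SimpleGraph V} {f : V → ℂ} {a : V} {P : ℕ → V} {t : ℕ → Bool → V} {N : ℕ}
  {x : ℕ → ℝ} {g : ℕ → ℂ} {lam δ : ℝ}

theorem xc_zz (hl : 0 < lam) (j : ℕ) (r : Bool) : xc (zz g lam j r) = xc (g j) := by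
  unfold xc zz
  simp only
  have : cond r (2 : ℝ) 1 * lam ≠ 0 := by
    cases r
    · simpa using hl.ne'
    · simpa using hl.ne'
  rw [mul_div_mul_left _ _ this]

theorem zz_im (hl : 0 < lam) {j : ℕ} (hj : 0 < (g j).im) (r : Bool) : 0 < (zz g lam j r).im := by
  unfold zz
  simp only
  have h := mul_pos hl hj
  cases r
  · simp only [cond_false, one_mul]; exact h
  · simp only [cond_true]; linarith

theorem Fan.xanti (hF : Fan G f a P t N x) {i j : ℕ} (hij : i < j) (hj : j ≤ N) : x j < x i := by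
  obtain ⟨d, rfl⟩ := Nat.exists_eq_add_of_lt hij
  induction d with
  | zero => exact hF.xlt i hj
  | succ d ih =>
    have h1 := ih (by omega) (by omega)
    have h2 := hF.xlt (i + d + 1) (by omega)
    have e : i + (d + 1) + 1 = i + d + 1 + 1 := by ring
    rw [e]
    exact h2.trans h1

theorem Fan.xanti' (hF : Fan G f a P t N x) {i j : ℕ} (hij : i ≤ j) (hj : j ≤ N) : x j ≤ x i := by
  rcases hij.eq_or_lt with rfl | h
  · exact le_rfl
  · exact (hF.xanti h hj).le

theorem Fan.kanti (hF : Fan G f a P t N x)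
    (hg : ∀ j < N, 0 < (g j).im ∧ x (j + 1) < xc (g j) ∧ xc (g j) < x j) {i j : ℕ} (hij : i < j)
    (hj : j < N) : xc (g j) < xc (g i) := by
  have h1 := (hg i (by omega)).2.1
  have h2 := (hg j hj).2.2
  have h3 := hF.xanti' (show i + 1 ≤ j by omega) hj.le
  linarith

theorem Fan.idx (hF : Fan G f a P t N x) {j k : ℕ} (hj : j < N) (hk : k < N) {y : ℝ}
    (h1 : x (j + 1) < y) (h2 : y < x j) (h3 : x (k + 1) < y) (h4 : y < x k) : j = k := by
  rcases lt_trichotomy j k with h | h | h
  · have := hF.xanti' (show j + 1 ≤ k by omega) hk.le; linarith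
  · exact h
  · have := hF.xanti' (show k + 1 ≤ j by omega) hj.le; linarith

theorem Fan.idxR (hF : Fan G f a P t N x)
    (hg : ∀ j < N, 0 < (g j).im ∧ x (j + 1) < xc (g j) ∧ xc (g j) < x j) {j k : ℕ}
    (hj : j + 1 < N) (hk : k < N) (h1 : xc (g (j + 1)) < xc (g k))
    (h2 : xc (g k) < xc (g j)) : False := by
  rcases lt_trichotomy k j with h | h | h
  · have := hF.kanti hg h (by omega); linarith
  · rw [h] at h2; exact lt_irrefl _ h2
  · rcases (show j + 1 ≤ k from h).eq_or_lt with h | h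
    · rw [← h] at h1; exact lt_irrefl _ h1
    · have := hF.kanti hg h hk; linarith

theorem Fan.idxRR (hF : Fan G f a P t N x)
    (hg : ∀ j < N, 0 < (g j).im ∧ x (j + 1) < xc (g j) ∧ xc (g j) < x j) {j k : ℕ}
    (hj : j + 1 < N) (hk : k + 1 < N) {y : ℝ} (h1 : xc (g (j + 1)) < y)
    (h2 : y < xc (g j)) (h3 : xc (g (k + 1)) < y) (h4 : y < xc (g k)) : j = k := by
  rcases lt_trichotomy j k with h | h | h
  · rcases (show j + 1 ≤ k from h).eq_or_lt with h | h
    · rw [← h] at h4; linarith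
    · have := hF.kanti hg h (by omega); linarith
  · exact h
  · rcases (show k + 1 ≤ j from h).eq_or_lt with h | h
    · rw [← h] at h2; linarith
    · have := hF.kanti hg h (by omega); linarith

theorem Fan.idxRU (hF : Fan G f a P t N x)
    (hg : ∀ j < N, 0 < (g j).im ∧ x (j + 1) < xc (g j) ∧ xc (g j) < x j) {j k : ℕ}
    (hj : j + 1 < N) (hk : k < N) {y : ℝ} (h1 : xc (g (j + 1)) < y)
    (h2 : y < xc (g j)) (h3 : (k % 2 = 0 ∧ xc (g k) < y ∧ y < x k) ∨
      (k % 2 = 1 ∧ x (k + 1) < y ∧ y < xc (g k))) : st k = j + 1 := by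
  have a1 := hg j (by omega)
  have a2 := hg (j + 1) hj
  rcases h3 with ⟨h0, h3, h4⟩ | ⟨h0, h3, h4⟩
  · have e : st k = k := by unfold st; omega
    rw [e]
    rcases lt_trichotomy k (j + 1) with h | h | h
    · exfalso
      rcases (show k ≤ j by omega).eq_or_lt with h | h
      · rw [h] at h3; linarith
      · have := hF.kanti hg h (by omega); linarith
    · exact h
    · exfalso
      have := hF.xanti' (show j + 1 + 1 ≤ k by omega) hk.le
      linarith
  · have e : st k = k + 1 := by unfold st; omega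
    rw [e]
    rcases lt_trichotomy k j with h | h | h
    · exfalso
      have := hF.xanti' (show k + 1 ≤ j by omega) (by omega)
      linarith
    · rw [h]
    · exfalso
      rcases (show j + 1 ≤ k from h).eq_or_lt with h | h
      · rw [← h] at h4; linarith
      · have := hF.kanti hg h hk; linarith

theorem seg_ball {u v z : ℂ} (hu : ‖u‖ < δ) (hv : ‖v‖ < δ) (hz : z ∈ openSegment ℝ u v) :
    ‖z‖ < δ := by
  have h1 := (convex_ball (0 : ℂ) δ).openSegment_subset (x := u) (y := v)
    (by simpa using hu) (by simpa using hv) hz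
  simpa using h1

theorem reg_S (hs : Scale G f a P N x g lam δ) (hF : Fan G f a P t N x) {j : ℕ} (hj : j < N)
    (hgj : 0 < (g j).im) {z : ℂ} (hz : z ∈ openSegment ℝ (f a) (zz g lam j false)) :
    0 < z.im ∧ xc z = xc (g j) ∧ z.im < lam * (g j).im ∧ ‖z‖ < δ := by
  have hb := hs.ball j hj false
  have h0 : ‖f a‖ < δ := by rw [hF.fa, norm_zero]; exact (norm_nonneg _).trans_lt hb
  have hball := seg_ball h0 hb hz
  obtain ⟨s, h1, h2, h3, h4⟩ := mem_openSegment_iff.1 hz
  rw [hF.fa] at h3 h4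
  have hl := mul_pos hs.pos hgj
  simp only [zz, cond_false, Complex.zero_re, Complex.zero_im, mul_zero, zero_add, one_mul] at h3 h4
  refine ⟨by rw [h4]; exact mul_pos h1 hl, ?_, ?_, hball⟩
  · unfold xc
    rw [h3, h4, ← mul_assoc, ← mul_assoc, mul_div_mul_left _ _ (mul_pos h1 hs.pos).ne']
  · rw [h4]
    have := mul_lt_mul_of_pos_right h2 hl
    linarith

theorem reg_T (hs : Scale G f a P N x g lam δ) {j : ℕ} (hj : j < N)
    (hgj : 0 < (g j).im) {z : ℂ} (hz : z ∈ openSegment ℝ (zz g lam j false) (zz g lam j true)) :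
    lam * (g j).im < z.im ∧ xc z = xc (g j) ∧ z.im < 2 * lam * (g j).im ∧ ‖z‖ < δ := by
  have hball := seg_ball (hs.ball j hj false) (hs.ball j hj true) hz
  obtain ⟨s, h1, h2, h3, h4⟩ := mem_openSegment_iff.1 hz
  have hl := mul_pos hs.pos hgj
  simp only [zz, cond_false, cond_true, one_mul] at h3 h4
  have h3' : z.re = ((1 + s) * lam) * (g j).re := by rw [h3]; ring
  have h4' : z.im = ((1 + s) * lam) * (g j).im := by rw [h4]; ring
  have h5 : 0 < (1 + s) * lam := mul_pos (by linarith) hs.pos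
  refine ⟨?_, ?_, ?_, hball⟩
  · rw [h4']
    have := mul_pos h1 hl
    linarith
  · unfold xc
    rw [h3', h4', mul_div_mul_left _ _ h5.ne']
  · rw [h4']
    have := mul_lt_mul_of_pos_right h2 hl
    linarith

theorem reg_R (hs : Scale G f a P N x g lam δ)
    (hF : Fan G f a P t N x)
    (hg : ∀ j < N, 0 < (g j).im ∧ x (j + 1) < xc (g j) ∧ xc (g j) < x j)
    (hgd : ∀ j, j + 1 < N → x (j + 1) * (g (j + 1)).re + (g (j + 1)).im =
        x (j + 1) * (g j).re + (g j).im) {j : ℕ} (hj : j + 1 < N) {r : Bool}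
    {z : ℂ} (hz : z ∈ openSegment ℝ (zz g lam j r) (zz g lam (j + 1) r)) :
    0 < z.im ∧ xc (g (j + 1)) < xc z ∧ xc z < xc (g j) ∧
      x (j + 1) * z.re + z.im = cond r 2 1 * lam * (x (j + 1) * (g j).re + (g j).im) ∧
      ‖z‖ < δ := by
  have hball := seg_ball (hs.ball j (by omega) r) (hs.ball (j + 1) hj r) hz
  obtain ⟨h0, l, hl0, hl1, h1, -⟩ := mem_seg_coords (zz_im hs.pos (hg j (by omega)).1 r)
    (zz_im hs.pos (hg (j + 1) hj).1 r) hz
  rw [xc_zz hs.pos, xc_zz hs.pos] at h1
  have hk := hF.kanti hg (show j < j + 1 by omega) hj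
  have e1 : 0 < l * (xc (g j) - xc (g (j + 1))) := mul_pos hl0 (by linarith)
  have e2 : 0 < (1 - l) * (xc (g j) - xc (g (j + 1))) := mul_pos (by linarith) (by linarith)
  refine ⟨h0, by linarith, by linarith, ?_, hball⟩
  obtain ⟨s, s1, s2, s3, s4⟩ := mem_openSegment_iff.1 hz
  simp only [zz] at s3 s4
  rw [s3, s4]
  linear_combination (s * (cond r 2 1 * lam)) * hgd j hj

theorem reg_U (hs : Scale G f a P N x g lam δ)
    (hF : Fan G f a P t N x)
    (hg : ∀ j < N, 0 < (g j).im ∧ x (j + 1) < xc (g j) ∧ xc (g j) < x j) {j : ℕ} (hj : j < N)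
    {z : ℂ} (hz : z ∈ openSegment ℝ (f (P (st j))) (zz g lam j true)) :
    0 < z.im ∧ ((j % 2 = 0 ∧ xc (g j) < xc z ∧ xc z < x j) ∨
      (j % 2 = 1 ∧ x (j + 1) < xc z ∧ xc z < xc (g j))) ∧
      2 * lam * (x (st j) * (g j).re + (g j).im) < x (st j) * z.re + z.im := by
  have hst := st_le hj
  have gj := hg j hj
  obtain ⟨h0, l, hl0, hl1, h1, -⟩ := mem_seg_coords (hF.im _ hst) (zz_im hs.pos gj.1 true) hz
  rw [xc_zz hs.pos, hF.xP _ hst] at h1
  refine ⟨h0, ?_, ?_⟩
  · rcases st_cases j with ⟨h2, e⟩ | ⟨h2, e⟩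
    · rw [e] at h1
      have e1 : 0 < l * (x j - xc (g j)) := mul_pos hl0 (by linarith)
      have e2 : 0 < (1 - l) * (x j - xc (g j)) := mul_pos (by linarith) (by linarith)
      exact Or.inl ⟨h2, by linarith, by linarith⟩
    · rw [e] at h1
      have e1 : 0 < l * (xc (g j) - x (j + 1)) := mul_pos hl0 (by linarith)
      have e2 : 0 < (1 - l) * (xc (g j) - x (j + 1)) := mul_pos (by linarith) (by linarith)
      exact Or.inr ⟨h2, by linarith, by linarith⟩
  · obtain ⟨s, s1, s2, s3, s4⟩ := mem_openSegment_iff.1 hz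
    simp only [zz, cond_true] at s3 s4
    rw [s3, s4]
    have := mul_pos (show 0 < 1 - s by linarith) (sub_pos.2 (hs.u4 j hj))
    linarith

/-- the spokes in the range of the fan -/
theorem Fan.spoke (hF : Fan G f a P t N x) {v : V} (hv : G.Adj a v) {z : ℂ}
    (hz : z ∈ openSegment ℝ (f a) (f v)) (h0 : 0 < z.im) (h1 : x N < xc z) (h2 : xc z < x 0) :
    ∃ k, 0 < k ∧ k < N ∧ v = P k ∧ xc z = x k := by
  rw [hF.fa] at hz
  have him : 0 < (f v).im := by
    obtain ⟨s, s1, s2, s3, s4⟩ := mem_openSegment_iff.1 hz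
    rw [s4] at h0
    simp only [Complex.zero_im, mul_zero, zero_add] at h0
    exact (pos_iff_pos_of_mul_pos h0).1 s1
  have hxc := (spoke_a_coords him hz).2.1
  rcases hF.at_a v hv with h3 | ⟨k, hk, rfl⟩ | h3 | h3
  · linarith
  · rw [hF.xP k hk] at hxc
    refine ⟨k, ?_, ?_, rfl, hxc⟩
    · by_contra hcon
      have : k = 0 := by omega
      rw [this] at hxc
      linarith
    · by_contra hcon
      have : k = N := by omega
      rw [this] at hxc
      linarith
  · linarith
  · linarith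

/-- two different new edges have no common interior point -/
theorem new_new_aux (hs : Scale G f a P N x g lam δ)
    (hF : Fan G f a P t N x)
    (hg : ∀ j < N, 0 < (g j).im ∧ x (j + 1) < xc (g j) ∧ xc (g j) < x j)
    (hgd : ∀ j, j + 1 < N → x (j + 1) * (g (j + 1)).re + (g (j + 1)).im =
        x (j + 1) * (g j).re + (g j).im) {z : ℂ} :
    (∀ j k, j < N → k < N → z ∈ openSegment ℝ (f a) (zz g lam j false) →
      z ∈ openSegment ℝ (f a) (zz g lam k false) → j = k) ∧
    (∀ j k, j < N → k < N → z ∈ openSegment ℝ (f a) (zz g lam j false) →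
      z ∉ openSegment ℝ (zz g lam k false) (zz g lam k true)) ∧
    (∀ j k r, j < N → k + 1 < N → z ∈ openSegment ℝ (f a) (zz g lam j false) →
      z ∉ openSegment ℝ (zz g lam k r) (zz g lam (k + 1) r)) ∧
    (∀ j k, j < N → k < N → z ∈ openSegment ℝ (f a) (zz g lam j false) →
      z ∉ openSegment ℝ (f (P (st k))) (zz g lam k true)) ∧
    (∀ j k, j < N → k < N → z ∈ openSegment ℝ (zz g lam j false) (zz g lam j true) →
      z ∈ openSegment ℝ (zz g lam k false) (zz g lam k true) → j = k) ∧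
    (∀ j k r, j < N → k + 1 < N → z ∈ openSegment ℝ (zz g lam j false) (zz g lam j true) →
      z ∉ openSegment ℝ (zz g lam k r) (zz g lam (k + 1) r)) ∧
    (∀ j k, j < N → k < N → z ∈ openSegment ℝ (zz g lam j false) (zz g lam j true) →
      z ∉ openSegment ℝ (f (P (st k))) (zz g lam k true)) ∧
    (∀ j k r r', j + 1 < N → k + 1 < N → z ∈ openSegment ℝ (zz g lam j r) (zz g lam (j + 1) r) →
      z ∈ openSegment ℝ (zz g lam k r') (zz g lam (k + 1) r') → j = k ∧ r = r') ∧
    (∀ j k r, j + 1 < N → k < N → z ∈ openSegment ℝ (zz g lam j r) (zz g lam (j + 1) r) →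
      z ∉ openSegment ℝ (f (P (st k))) (zz g lam k true)) ∧
    (∀ j k, j < N → k < N → z ∈ openSegment ℝ (f (P (st j))) (zz g lam j true) →
      z ∈ openSegment ℝ (f (P (st k))) (zz g lam k true) → j = k) := by
  -- position on the line of a column excludes the other columns
  have colU : ∀ j k, j < N → k < N → xc z = xc (g j) →
      ¬ ((k % 2 = 0 ∧ xc (g k) < xc z ∧ xc z < x k) ∨
      (k % 2 = 1 ∧ x (k + 1) < xc z ∧ xc z < xc (g k))) := by
    intro j k hj hk h1 h2
    have a1 := hg j hj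
    have a2 := hg k hk
    have h3 : j = k := by
      refine hF.idx hj hk (y := xc z) (by linarith) (by linarith) ?_ ?_
      · rcases h2 with ⟨-, h2, h3⟩ | ⟨-, h2, h3⟩ <;> linarith
      · rcases h2 with ⟨-, h2, h3⟩ | ⟨-, h2, h3⟩ <;> linarith
    subst h3
    rcases h2 with ⟨-, h2, h3⟩ | ⟨-, h2, h3⟩ <;> linarith
  have colcol : ∀ j k, j < N → k < N → xc z = xc (g j) → xc z = xc (g k) → j = k := by
    intro j k hj hk h1 h2
    have a1 := hg j hj
    have a2 := hg k hk
    exact hF.idx hj hk (y := xc z) (by linarith) (by linarith) (by linarith) (by linarith)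
  refine ⟨?_, ?_, ?_, ?_, ?_, ?_, ?_, ?_, ?_, ?_⟩
  · intro j k hj hk h1 h2
    exact colcol j k hj hk (reg_S hs hF hj (hg j hj).1 h1).2.1 (reg_S hs hF hk (hg k hk).1 h2).2.1
  · intro j k hj hk h1 h2
    have r1 := reg_S hs hF hj (hg j hj).1 h1
    have r2 := reg_T hs hk (hg k hk).1 h2
    have := colcol j k hj hk r1.2.1 r2.2.1
    subst this
    linarith
  · intro j k r hj hk h1 h2
    have r1 := reg_S hs hF hj (hg j hj).1 h1
    have r2 := reg_R hs hF hg hgd hk h2
    rw [r1.2.1] at r2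
    exact hF.idxR hg hk hj r2.2.1 r2.2.2.1
  · intro j k hj hk h1 h2
    exact colU j k hj hk (reg_S hs hF hj (hg j hj).1 h1).2.1 (reg_U hs hF hg hk h2).2.1
  · intro j k hj hk h1 h2
    exact colcol j k hj hk (reg_T hs hj (hg j hj).1 h1).2.1 (reg_T hs hk (hg k hk).1 h2).2.1
  · intro j k r hj hk h1 h2
    have r1 := reg_T hs hj (hg j hj).1 h1
    have r2 := reg_R hs hF hg hgd hk h2
    rw [r1.2.1] at r2
    exact hF.idxR hg hk hj r2.2.1 r2.2.2.1
  · intro j k hj hk h1 h2
    exact colU j k hj hk (reg_T hs hj (hg j hj).1 h1).2.1 (reg_U hs hF hg hk h2).2.1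
  · intro j k r r' hj hk h1 h2
    have r1 := reg_R hs hF hg hgd hj h1
    have r2 := reg_R hs hF hg hgd hk h2
    have := hF.idxRR hg hj hk r1.2.1 r1.2.2.1 r2.2.1 r2.2.2.1
    subst this
    refine ⟨rfl, ?_⟩
    have a1 := hg j (by omega)
    have hre : 0 < (g j).re := by
      rw [← xc_mul a1.1]
      exact mul_pos ((hF.xpos (j + 1) (by omega)).trans a1.2.1) a1.1
    have hL : 0 < x (j + 1) * (g j).re + (g j).im := by
      have := mul_pos (hF.xpos (j + 1) (by omega)) hre
      linarith [a1.1]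
    have hLL := mul_pos hs.pos hL
    have e := r1.2.2.2.1.symm.trans r2.2.2.2.1
    cases r <;> cases r'
    · rfl
    · simp only [cond_false, cond_true, one_mul] at e; linarith
    · simp only [cond_false, cond_true, one_mul] at e; linarith
    · rfl
  · intro j k r hj hk h1 h2
    have r1 := reg_R hs hF hg hgd hj h1
    have r2 := reg_U hs hF hg hk h2
    have e := hF.idxRU hg hj hk r1.2.1 r1.2.2.1 r2.2.1
    have a1 := hg j (by omega)
    have hre : 0 < (g j).re := by
      rw [← xc_mul a1.1]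
      exact mul_pos ((hF.xpos (j + 1) (by omega)).trans a1.2.1) a1.1
    have hL : 0 < x (j + 1) * (g j).re + (g j).im := by
      have := mul_pos (hF.xpos (j + 1) (by omega)) hre
      linarith [a1.1]
    have hLL := mul_pos hs.pos hL
    have r3 := r2.2.2
    rw [e] at r3
    have hk' : x (j + 1) * (g k).re + (g k).im = x (j + 1) * (g j).re + (g j).im := by
      rcases st_cases k with ⟨-, e'⟩ | ⟨-, e'⟩
      · have : k = j + 1 := by omega
        rw [this]
        exact hgd j hj
      · have : k = j := by omega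
        rw [this]
    rw [hk', r1.2.2.2.1] at r3
    cases r
    · simp only [cond_false, one_mul] at r3; linarith
    · simp only [cond_true] at r3; linarith
  · intro j k hj hk h1 h2
    have r1 := reg_U hs hF hg hj h1
    have r2 := reg_U hs hF hg hk h2
    have a1 := hg j hj
    have a2 := hg k hk
    refine hF.idx hj hk (y := xc z) ?_ ?_ ?_ ?_
    · rcases r1.2.1 with ⟨-, h3, h4⟩ | ⟨-, h3, h4⟩ <;> linarith
    · rcases r1.2.1 with ⟨-, h3, h4⟩ | ⟨-, h3, h4⟩ <;> linarith
    · rcases r2.2.1 with ⟨-, h3, h4⟩ | ⟨-, h3, h4⟩ <;> linarith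
    · rcases r2.2.1 with ⟨-, h3, h4⟩ | ⟨-, h3, h4⟩ <;> linarith

end

end Pool.Agent.Helper18.RAC
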