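import Pool.Agent.Helper18.RAC.Fan5

/-!
# Adding a fan
-/

set_option autoImplicit false

open Complex Filter Topology

namespace Pool.Agent.Helper18.RAC

section

variable {V : Type*} {G : SimpleGraph V} {f F : V → ℂ} {a : V} {P : ℕ → V} {t : ℕ → Bool → V}
  {N : ℕ} {x : ℕ → ℝ} {g : ℕ → ℂ} {lam δ : ℝ}

/-- the directions -/
def Dirs (x : ℕ → ℝ) (g : ℕ → ℂ) (N : ℕ) : Prop :=
  (∀ j < N, 0 < (g j).im ∧ x (j + 1) < xc (g j) ∧ xc (g j) < x j) ∧
    ∀ j, j + 1 < N → x (j + 1) * (g (j + 1)).re + (g (j + 1)).im =
        x (j + 1) * (g j).re + (g j).im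

theorem Fan.no_x (hF : Fan G f a P t N x) {j k : ℕ} (hj : j < N) (hk : k ≤ N)
    (h1 : x (j + 1) < x k) (h2 : x k < x j) : False := by
  rcases Nat.lt_or_ge j k with h | h
  · have := hF.xanti' (show j + 1 ≤ k by omega) hk; linarith
  · have := hF.xanti' h (by omega); linarith

theorem Fan.range (hF : Fan G f a P t N x) {j : ℕ} (hj : j < N) {y : ℝ} (h1 : x (j + 1) < y)
    (h2 : y < x j) : x N < y ∧ y < x 0 := by
  have e1 := hF.xanti' (show j + 1 ≤ N from hj) le_rfl
  have e2 := hF.xanti' (show 0 ≤ j by omega) hj.le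
  constructor <;> linarith

/-- old edges which are not at the hub do not meet the new edges -/
theorem far_new (hs : Scale G f a P N x g lam δ) (hF : Fan G f a P t N x) (hd : Dirs x g N)
    {u v : V} (huv : G.Adj u v) (hu : u ≠ a) (hv : v ≠ a) {z : ℂ}
    (hz : z ∈ openSegment ℝ (f u) (f v)) {c : FC V} (hc : c.new) (hc' : c.valid G N) :
    z ∉ openSegment ℝ (c.pts f a P g lam).1 (c.pts f a P g lam).2 := by
  intro hz'
  have hzs := openSegment_subset_segment ℝ _ _ hz
  cases c with
  | old u v => exact hc
  | S j =>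
    exact hs.edge u v huv hu hv z (reg_S hs hF hc' (hd.1 j hc').1 hz').2.2.2 hzs
  | T j =>
    exact hs.edge u v huv hu hv z (reg_T hs hc' (hd.1 j hc').1 hz').2.2.2 hzs
  | R j r =>
    exact hs.edge u v huv hu hv z (reg_R hs hF hd.1 hd.2 hc' hz').2.2.2.2 hzs
  | U j =>
    simp only [FC.pts] at hz'
    by_cases hu' : u = P (st j)
    · subst hu'
      exact hs.u2 j hc' v huv hv (Dt_zero_of_two hz' hz)
    · by_cases hv' : v = P (st j)
      · subst hv'
        rw [openSegment_symm] at hz
        exact hs.u2 j hc' u huv.symm hu (Dt_zero_of_two hz' hz)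
      · exact Set.disjoint_left.1 (hs.u1 j hc' u v huv hu hv hu' hv')
          (openSegment_subset_segment ℝ _ _ hz') hzs

/-- old edges at the hub meet only the rungs -/
theorem hub_new (hs : Scale G f a P N x g lam δ) (hF : Fan G f a P t N x) (hd : Dirs x g N)
    {v : V} (hv : G.Adj a v) {z : ℂ}
    (hz : z ∈ openSegment ℝ (f a) (f v)) {c : FC V} (hc : c.new) (hc' : c.valid G N)
    (hz' : z ∈ openSegment ℝ (c.pts f a P g lam).1 (c.pts f a P g lam).2) :
    ∃ j r, j + 1 < N ∧ c = .R j r ∧ v = P (j + 1) := by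
  cases c with
  | old u v => exact absurd hc id
  | S j =>
    exfalso
    have gj := hd.1 j hc'
    obtain ⟨r1, r2, -, -⟩ := reg_S hs hF hc' gj.1 hz'
    obtain ⟨e1, e2⟩ := hF.range hc' gj.2.1 gj.2.2
    obtain ⟨k, -, hk, -, hk'⟩ := hF.spoke hv hz r1 (by rw [r2]; exact e1) (by rw [r2]; exact e2)
    exact hF.no_x hc' hk.le (by rw [← hk', r2]; exact gj.2.1) (by rw [← hk', r2]; exact gj.2.2)
  | T j =>
    exfalso
    have gj := hd.1 j hc'
    obtain ⟨r1, r2, -, -⟩ := reg_T hs hc' gj.1 hz'
    have r1' : 0 < z.im := (mul_pos hs.pos gj.1).trans r1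
    obtain ⟨e1, e2⟩ := hF.range hc' gj.2.1 gj.2.2
    obtain ⟨k, -, hk, -, hk'⟩ := hF.spoke hv hz r1' (by rw [r2]; exact e1) (by rw [r2]; exact e2)
    exact hF.no_x hc' hk.le (by rw [← hk', r2]; exact gj.2.1) (by rw [← hk', r2]; exact gj.2.2)
  | U j =>
    exfalso
    have gj := hd.1 j hc'
    obtain ⟨r1, r2, -⟩ := reg_U hs hF hd.1 hc' hz'
    have r3 : x (j + 1) < xc z ∧ xc z < x j := by
      rcases r2 with ⟨-, r2, r3⟩ | ⟨-, r2, r3⟩
      · exact ⟨by linarith, r3⟩
      · exact ⟨r2, by linarith⟩
    obtain ⟨e1, e2⟩ := hF.range hc' r3.1 r3.2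
    obtain ⟨k, -, hk, -, hk'⟩ := hF.spoke hv hz r1 e1 e2
    exact hF.no_x hc' hk.le (by rw [← hk']; exact r3.1) (by rw [← hk']; exact r3.2)
  | R j r =>
    refine ⟨j, r, hc', rfl, ?_⟩
    have hc'' : j + 1 < N := hc'
    have gj := hd.1 j (by omega)
    have gj' := hd.1 (j + 1) hc''
    obtain ⟨r1, r2, r3, -, -⟩ := reg_R hs hF hd.1 hd.2 hc'' hz'
    have a1 := hF.xanti' (show j + 1 + 1 ≤ N from hc'') le_rfl
    have a2 := hF.xanti' (show 0 ≤ j by omega) (show j ≤ N by omega)
    obtain ⟨k, -, hk, hvk, hk'⟩ := hF.spoke hv hz r1 (by linarith) (by linarith)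
    have : k = j + 1 := by
      rcases lt_trichotomy k (j + 1) with h | h | h
      · exfalso
        have := hF.xanti' (show k ≤ j by omega) (by omega)
        linarith
      · exact h
      · exfalso
        have := hF.xanti' (show j + 1 + 1 ≤ k by omega) hk.le
        linarith
    rw [hvk, this]

theorem rung_perp (hF : Fan G f a P t N x) (hd : Dirs x g N) {j : ℕ} (hj : j + 1 < N) (r : Bool) :
    dotp (f a) (f (P (j + 1))) (zz g lam j r) (zz g lam (j + 1) r) = 0 := by
  rw [hF.fa]
  unfold dotp zz
  simp only [Complex.zero_re, Complex.zero_im, sub_zero]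
  have i1 := hF.im (j + 1) hj.le
  have e1 : (f (P (j + 1))).re = x (j + 1) * (f (P (j + 1))).im := by
    rw [← hF.xP (j + 1) hj.le, xc_mul i1]
  rw [e1]
  linear_combination ((f (P (j + 1))).im * (cond r 2 1 * lam)) * hd.2 j hj

/-- two different new edges have no common interior point -/
theorem new_new (hs : Scale G f a P N x g lam δ) (hF : Fan G f a P t N x) (hd : Dirs x g N)
    {z : ℂ} {c c' : FC V} (hc : c.new) (hcv : c.valid G N) (hc' : c'.new) (hcv' : c'.valid G N)
    (hz : z ∈ openSegment ℝ (c.pts f a P g lam).1 (c.pts f a P g lam).2)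
    (hz' : z ∈ openSegment ℝ (c'.pts f a P g lam).1 (c'.pts f a P g lam).2) : c = c' := by
  obtain ⟨n1, n2, n3, n4, n5, n6, n7, n8, n9, n10⟩ := new_new_aux (z := z) hs hF hd.1 hd.2
  cases c with
  | old u v => exact absurd hc id
  | S j =>
    cases c' with
    | old u v => exact absurd hc' id
    | S k => rw [n1 j k hcv hcv' hz hz']
    | T k => exact absurd hz' (n2 j k hcv hcv' hz)
    | U k => exact absurd hz' (n4 j k hcv hcv' hz)
    | R k r => exact absurd hz' (n3 j k r hcv hcv' hz)
  | T j =>
    cases c' with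
    | old u v => exact absurd hc' id
    | S k => exact absurd hz (n2 k j hcv' hcv hz')
    | T k => rw [n5 j k hcv hcv' hz hz']
    | U k => exact absurd hz' (n7 j k hcv hcv' hz)
    | R k r => exact absurd hz' (n6 j k r hcv hcv' hz)
  | U j =>
    cases c' with
    | old u v => exact absurd hc' id
    | S k => exact absurd hz (n4 k j hcv' hcv hz')
    | T k => exact absurd hz (n7 k j hcv' hcv hz')
    | U k => rw [n10 j k hcv hcv' hz hz']
    | R k r => exact absurd hz (n9 k j r hcv' hcv hz')
  | R j r =>
    cases c' with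
    | old u v => exact absurd hc' id
    | S k => exact absurd hz (n3 k j r hcv' hcv hz')
    | T k => exact absurd hz (n6 k j r hcv' hcv hz')
    | U k => exact absurd hz' (n9 j k r hcv hcv' hz)
    | R k r' =>
      obtain ⟨e1, e2⟩ := n8 j k r r' hcv hcv' hz hz'
      rw [e1, e2]

/-- the new vertices do not lie on new edges -/
theorem zz_new (hs : Scale G f a P N x g lam δ) (hF : Fan G f a P t N x) (hd : Dirs x g N)
    {k : ℕ} (hk : k < N) (s : Bool) {c : FC V} (hc : c.new) (hcv : c.valid G N) :
    zz g lam k s ∉ openSegment ℝ (c.pts f a P g lam).1 (c.pts f a P g lam).2 := by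
  intro hz
  have gk := hd.1 k hk
  have hx := xc_zz (g := g) hs.pos k s
  have hl := mul_pos hs.pos gk.1
  have him : (zz g lam k s).im = cond s 2 1 * lam * (g k).im := rfl
  cases c with
  | old u v => exact hc
  | S j =>
    obtain ⟨r1, r2, r3, -⟩ := reg_S hs hF hcv (hd.1 j hcv).1 hz
    have gj := hd.1 j hcv
    rw [hx] at r2
    have : k = j := hF.idx hk hcv gk.2.1 gk.2.2 (by linarith) (by linarith)
    subst this
    rw [him] at r3
    cases s
    · simp only [cond_false, one_mul] at r3; exact lt_irrefl _ r3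
    · simp only [cond_true] at r3; linarith
  | T j =>
    obtain ⟨r1, r2, r3, -⟩ := reg_T hs hcv (hd.1 j hcv).1 hz
    have gj := hd.1 j hcv
    rw [hx] at r2
    have : k = j := hF.idx hk hcv gk.2.1 gk.2.2 (by linarith) (by linarith)
    subst this
    rw [him] at r1 r3
    cases s
    · simp only [cond_false, one_mul] at r1; exact lt_irrefl _ r1
    · simp only [cond_true] at r3; linarith
  | U j =>
    obtain ⟨r1, r2, -⟩ := reg_U hs hF hd.1 hcv hz
    have gj := hd.1 j hcv
    rw [hx] at r2
    have : k = j := by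
      refine hF.idx hk hcv gk.2.1 gk.2.2 ?_ ?_
      · rcases r2 with ⟨-, h3, h4⟩ | ⟨-, h3, h4⟩ <;> linarith
      · rcases r2 with ⟨-, h3, h4⟩ | ⟨-, h3, h4⟩ <;> linarith
    subst this
    rcases r2 with ⟨-, h3, h4⟩ | ⟨-, h3, h4⟩ <;> linarith
  | R j r =>
    obtain ⟨r1, r2, r3, -, -⟩ := reg_R hs hF hd.1 hd.2 hcv hz
    rw [hx] at r2 r3
    exact hF.idxR hd.1 hcv hk r2 r3

/-- the new vertices do not lie on old edges -/
theorem zz_old (hs : Scale G f a P N x g lam δ) (hF : Fan G f a P t N x) (hd : Dirs x g N)
    {k : ℕ} (hk : k < N) (s : Bool) {u v : V} (huv : G.Adj u v) :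
    zz g lam k s ∉ openSegment ℝ (f u) (f v) := by
  have gk := hd.1 k hk
  have hx := xc_zz (g := g) hs.pos k s
  have key : ∀ v, G.Adj a v → zz g lam k s ∉ openSegment ℝ (f a) (f v) := by
    intro v hv hz
    obtain ⟨e1, e2⟩ := hF.range hk gk.2.1 gk.2.2
    obtain ⟨j, -, hj, -, hj'⟩ := hF.spoke hv hz (zz_im hs.pos gk.1 s) (by rw [hx]; exact e1)
      (by rw [hx]; exact e2)
    exact hF.no_x hk hj.le (by rw [← hj', hx]; exact gk.2.1) (by rw [← hj', hx]; exact gk.2.2)
  intro hz
  by_cases hu : u = a
  · subst hu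
    exact key v huv hz
  · by_cases hv : v = a
    · subst hv
      rw [openSegment_symm] at hz
      exact key u huv.symm hz
    · exact hs.edge u v huv hu hv _ (hs.ball k hk s) (openSegment_subset_segment ℝ _ _ hz)

/-- the old vertices do not lie on new edges -/
theorem old_new (hs : Scale G f a P N x g lam δ) (hF : Fan G f a P t N x) (hd : Dirs x g N)
    {w : V} {c : FC V} (hc : c.new) (hcv : c.valid G N) (hw : ∀ j, c = .U j → w ≠ P (st j)) :
    f w ∉ openSegment ℝ (c.pts f a P g lam).1 (c.pts f a P g lam).2 := by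
  intro hz
  by_cases hwa : w = a
  · have h0 : (f w).im = 0 := by rw [hwa, hF.fa]; rfl
    cases c with
    | old u v => exact hc
    | S j => have := (reg_S hs hF hcv (hd.1 j hcv).1 hz).1; linarith
    | T j =>
      have h1 := (reg_T hs hcv (hd.1 j hcv).1 hz).1
      have h2 := mul_pos hs.pos (hd.1 j hcv).1
      linarith
    | U j => have := (reg_U hs hF hd.1 hcv hz).1; linarith
    | R j r => have := (reg_R hs hF hd.1 hd.2 hcv hz).1; linarith
  · have hδ := hs.vert w hwa
    cases c with
    | old u v => exact hc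
    | S j => have := (reg_S hs hF hcv (hd.1 j hcv).1 hz).2.2.2; linarith
    | T j => have := (reg_T hs hcv (hd.1 j hcv).1 hz).2.2.2; linarith
    | U j =>
      exact hs.u3 j hcv w hwa (hw j rfl) (openSegment_subset_segment ℝ _ _ hz)
    | R j r => have := (reg_R hs hF hd.1 hd.2 hcv hz).2.2.2.2; linarith

/-- **Adding a fan.** -/
theorem Fan.add [Finite V] (hF : Fan G f a P t N x) :
    ∃ F : V → ℂ, IsRAC (G ⊔ SimpleGraph.fromEdgeSet (fanE G a P t N)) F ∧
      (∀ v, (∀ j < N, ∀ r, v ≠ t j r) → F v = f v) ∧
      (∀ u v, G.Adj u v → u ≠ a → v ≠ a → Unc G f u v →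
        Unc (G ⊔ SimpleGraph.fromEdgeSet (fanE G a P t N)) F u v) := by
  classical
  obtain ⟨g, hg, hgd⟩ := exists_dir x N hF.xpos hF.xlt
  have hd : Dirs x g N := ⟨hg, hgd⟩
  obtain ⟨lam, δ, hs⟩ := hF.exists_scale hg
  -- the new drawing
  obtain ⟨F, hFt, hFo⟩ : ∃ F : V → ℂ, (∀ j < N, ∀ r, F (t j r) = zz g lam j r) ∧
      ∀ v, (∀ j < N, ∀ r, v ≠ t j r) → F v = f v := by
    refine ⟨fun v => if h : ∃ j, j < N ∧ ∃ r, v = t j r then
      zz g lam h.choose h.choose_spec.2.choose else f v, ?_, ?_⟩
    · intro j hj r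
      have hex : ∃ j', j' < N ∧ ∃ r', t j r = t j' r' := ⟨j, hj, r, rfl⟩
      simp only
      rw [dif_pos hex]
      have h1 := hex.choose_spec.1
      have h2 := hex.choose_spec.2.choose_spec
      obtain ⟨e1, e2⟩ := hF.tinj j hj _ h1 r _ h2
      exact (congrArg₂ (zz g lam) e1 e2).symm
    · intro v hv
      have hex : ¬ ∃ j, j < N ∧ ∃ r, v = t j r := by
        rintro ⟨j, hj, r, h⟩
        exact hv j hj r h
      simp only
      rw [dif_neg hex]
  have hold : ∀ u v, G.Adj u v → F u = f u ∧ F v = f v := by
    intro u v huv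
    refine ⟨hFo u ?_, hFo v ?_⟩
    · rintro j hj r rfl
      exact hF.iso j hj r v huv
    · rintro j hj r rfl
      exact hF.iso j hj r u huv.symm
  have hFa : F a = f a := hFo a fun j hj r h => hF.ta j hj r h.symm
  have hFP : ∀ j ≤ N, F (P j) = f (P j) := fun j hj => (hold _ _ (hF.adj j hj)).2
  -- positions of the ends
  have hpts : ∀ c : FC V, c.valid G N → F (c.ends a P t).1 = (c.pts f a P g lam).1 ∧
      F (c.ends a P t).2 = (c.pts f a P g lam).2 := by
    intro c hc
    cases c with
    | old u v => exact hold u v hc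
    | S j => exact ⟨hFa, hFt j hc false⟩
    | T j => exact ⟨hFt j hc false, hFt j hc true⟩
    | U j => exact ⟨hFP _ (st_le hc), hFt j hc true⟩
    | R j r =>
      have hc' : j + 1 < N := hc
      exact ⟨hFt j (by omega) r, hFt (j + 1) hc' r⟩
  -- two old and new edges
  have hcross : ∀ c c' : FC V, c.valid G N → c'.valid G N → ¬ c.new → c'.new → ∀ z,
      z ∈ openSegment ℝ (c.pts f a P g lam).1 (c.pts f a P g lam).2 →
      z ∈ openSegment ℝ (c'.pts f a P g lam).1 (c'.pts f a P g lam).2 →
      dotp (c.pts f a P g lam).1 (c.pts f a P g lam).2 (c'.pts f a P g lam).1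
        (c'.pts f a P g lam).2 = 0 := by
    intro c c' hc hc' hcn hcn' z hz hz'
    cases c with
    | S j => exact absurd trivial hcn
    | T j => exact absurd trivial hcn
    | U j => exact absurd trivial hcn
    | R j r => exact absurd trivial hcn
    | old u v =>
      have huv : G.Adj u v := hc
      simp only [FC.pts] at hz
      by_cases hu : u = a
      · subst hu
        obtain ⟨j, r, hj, rfl, rfl⟩ := hub_new hs hF hd huv hz hcn' hc' hz'
        exact rung_perp hF hd hj r
      · by_cases hv : v = a
        · subst hv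
          rw [openSegment_symm] at hz
          obtain ⟨j, r, hj, rfl, rfl⟩ := hub_new hs hF hd huv.symm hz hcn' hc' hz'
          have := rung_perp (lam := lam) hF hd hj r
          simp only [FC.pts]
          unfold dotp at this ⊢
          linarith
        · exact absurd hz' (far_new hs hF hd huv hu hv hz hcn' hc')
  have hnewadj : ∀ u v, (G ⊔ SimpleGraph.fromEdgeSet (fanE G a P t N)).Adj u v →
      G.Adj u v ∨ ∃ c : FC V, c.new ∧ c.valid G N ∧
        s(u, v) = s((c.ends a P t).1, (c.ends a P t).2) := by
    intro u v huv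
    rw [SimpleGraph.sup_adj, SimpleGraph.fromEdgeSet_adj] at huv
    rcases huv with h | ⟨h, -⟩
    · exact Or.inl h
    · exact Or.inr h
  refine ⟨F, ?_, hFo, ?_⟩
  · refine IsRAC.of_codes (fun c : FC V => c.ends a P t) (FC.valid G N) ?_ ?_ ?_ ?_
    · intro u v huv
      rcases hnewadj u v huv with h | ⟨c, -, h2, h3⟩
      · exact ⟨.old u v, h, rfl⟩
      · exact ⟨c, h2, h3⟩
    · -- injectivity
      have hzf : ∀ j < N, ∀ r v, zz g lam j r ≠ f v := by
        intro j hj r v h
        by_cases hv : v = a
        · have := zz_im hs.pos (hg j hj).1 r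
          rw [h, hv, hF.fa] at this
          simp at this
        · have h1 := hs.vert v hv
          have h2 := hs.ball j hj r
          rw [h] at h2
          linarith
      intro u v huv
      by_cases hu : ∃ j, j < N ∧ ∃ r, u = t j r
      · obtain ⟨j, hj, r, rfl⟩ := hu
        rw [hFt j hj r] at huv
        by_cases hv : ∃ j, j < N ∧ ∃ r, v = t j r
        · obtain ⟨k, hk, s, rfl⟩ := hv
          rw [hFt k hk s] at huv
          have gj := hg j hj
          have gk := hg k hk
          have e1 : xc (g j) = xc (g k) := by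
            rw [← xc_zz hs.pos j r, ← xc_zz hs.pos k s, huv]
          have e2 : j = k := hF.idx hj hk gj.2.1 gj.2.2 (by linarith) (by linarith)
          subst e2
          have e3 := congrArg Complex.im huv
          simp only [zz] at e3
          have hl := mul_pos hs.pos gj.1
          cases r <;> cases s
          · rfl
          · simp only [cond_false, cond_true, one_mul] at e3; linarith
          · simp only [cond_false, cond_true, one_mul] at e3; linarith
          · rfl
        · rw [hFo v fun j hj r h => hv ⟨j, hj, r, h⟩] at huv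
          exact absurd huv (hzf j hj r v)
      · rw [hFo u fun j hj r h => hu ⟨j, hj, r, h⟩] at huv
        by_cases hv : ∃ j, j < N ∧ ∃ r, v = t j r
        · obtain ⟨k, hk, s, rfl⟩ := hv
          rw [hFt k hk s] at huv
          exact absurd huv.symm (hzf k hk s u)
        · rw [hFo v fun j hj r h => hv ⟨j, hj, r, h⟩] at huv
          exact hF.rac.inj huv
    · -- vertices
      intro c w hc hw1 hw2 hmem
      rw [(hpts c hc).1, (hpts c hc).2] at hmem
      by_cases hw : ∃ j, j < N ∧ ∃ r, w = t j r
      · obtain ⟨k, hk, s, rfl⟩ := hw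
        rw [hFt k hk s] at hmem
        cases c with
        | old u v => exact zz_old hs hF hd hk s hc hmem
        | S j => exact zz_new hs hF hd hk s (c := .S j) trivial hc hmem
        | T j => exact zz_new hs hF hd hk s (c := .T j) trivial hc hmem
        | U j => exact zz_new hs hF hd hk s (c := .U j) trivial hc hmem
        | R j r => exact zz_new hs hF hd hk s (c := .R j r) trivial hc hmem
      · rw [hFo w fun j hj r h => hw ⟨j, hj, r, h⟩] at hmem
        cases c with
        | old u v => exact hF.rac.vtx u v w hc hw1 hw2 (openSegment_subset_segment ℝ _ _ hmem)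
        | S j =>
          exact old_new hs hF hd (c := .S j) trivial hc (fun j' h => by cases h) hmem
        | T j =>
          exact old_new hs hF hd (c := .T j) trivial hc (fun j' h => by cases h) hmem
        | U j =>
          refine old_new hs hF hd (c := .U j) trivial hc (fun j' h => ?_) hmem
          injection h with h
          rw [← h]
          exact hw1
        | R j r =>
          exact old_new hs hF hd (c := .R j r) trivial hc (fun j' h => by cases h) hmem
    · -- crossings
      intro c c' hc hc' hne z hz hz'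
      rw [(hpts c hc).1, (hpts c hc).2] at hz ⊢
      rw [(hpts c' hc').1, (hpts c' hc').2] at hz' ⊢
      by_cases hn : c.new
      · by_cases hn' : c'.new
        · exfalso
          have := new_new hs hF hd hn hc hn' hc' hz hz'
          rw [this] at hne
          exact hne rfl
        · have := hcross c' c hc' hc hn' hn z hz' hz
          unfold dotp at this ⊢
          linarith
      · by_cases hn' : c'.new
        · exact hcross c c' hc hc' hn hn' z hz hz'
        · cases c with
          | S j => exact absurd trivial hn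
          | T j => exact absurd trivial hn
          | U j => exact absurd trivial hn
          | R j r => exact absurd trivial hn
          | old u v =>
            cases c' with
            | S j => exact absurd trivial hn'
            | T j => exact absurd trivial hn'
            | U j => exact absurd trivial hn'
            | R j r => exact absurd trivial hn'
            | old u' v' => exact hF.rac.dot hc hc' hne hz hz'
  · intro u v huv hu hv hunc p q hpq hne z hz hz'
    rw [(hold u v huv).1, (hold u v huv).2] at hz'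
    rcases hnewadj p q hpq with h | ⟨c, h1, h2, h3⟩
    · rw [(hold p q h).1, (hold p q h).2] at hz
      exact hunc p q h hne z hz hz'
    · have hz'' : z ∈ openSegment ℝ (c.pts f a P g lam).1 (c.pts f a P g lam).2 := by
        rw [← (hpts c h2).1, ← (hpts c h2).2]
        rcases Sym2.eq_iff.1 h3 with ⟨h4, h5⟩ | ⟨h4, h5⟩
        · rw [← h4, ← h5]; exact hz
        · rw [← h4, ← h5, openSegment_symm]; exact hz
      exact far_new hs hF hd huv hu hv hz' h1 h2 hz''

end

end Pool.Agent.Helper18.RAC
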