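import Pool.Agent.Helper18.RAC.Mk

/-!
# Good indices: no additional edges at most vertices of the path
-/

set_option autoImplicit false

open Complex

namespace Pool.Agent.Helper18.RAC

section

variable {V : Type*} {G H : SimpleGraph V} {f : V → ℂ} {a b v v' : V} {p : ℕ → V} {m : ℕ}

theorem Core.mono (hle : G ≤ H) (hc : Core G a b p m) : Core H a b p m where
  ha := fun i hi => hle (hc.ha i hi)
  hb := fun i hi => hle (hc.hb i hi)
  inj := hc.inj
  h1 := fun i hi => hle (hc.h1 i hi)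
  h2 := fun i hi => hle (hc.h2 i hi)

theorem good_aux (h : Nm H f a b) (hle : G ≤ H) (hg : Cfg G a b p m) {j : ℕ} (hj : 8 ≤ j)
    (hjm : j + 8 < m) {ε : ℤ} (hε : ε = 1 ∨ ε = -1)
    (him : ∀ i, j - 8 ≤ i → i ≤ j + 8 → 0 < (f (p i)).im)
    (hn : ∀ s : ℤ, -8 ≤ s → s ≤ 7 →
      Nest (f (p ((j : ℤ) + ε * s).toNat)) (f (p ((j : ℤ) + ε * (s + 1)).toNat))) :
    (∀ v, H.Adj (p j) v → G.Adj (p j) v) ∧
      (∀ x, ¬ CoreV G a b x → G.Adj x (p j) → ∀ v, H.Adj x v → G.Adj x v) := by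
  set w : ℤ → V := fun s => p ((j : ℤ) + ε * s).toNat with hw
  have hw0 : w 0 = p j := by
    simp only [hw]
    congr 1
    omega
  -- indices
  have hidx : ∀ s : ℤ, -8 ≤ s → s ≤ 8 → ((j : ℤ) + ε * s).toNat < m ∧
      j - 8 ≤ ((j : ℤ) + ε * s).toNat ∧ ((j : ℤ) + ε * s).toNat ≤ j + 8 := by
    intro s e1 e2
    rcases hε with rfl | rfl <;> omega
  have hG1 : ∀ s : ℤ, -8 ≤ s → s ≤ 7 → G.Adj (w s) (w (s + 1)) := by
    intro s e1 e2
    simp only [hw]
    rcases hε with rfl | rfl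
    · have e3 : ((j : ℤ) + 1 * (s + 1)).toNat = ((j : ℤ) + 1 * s).toNat + 1 := by omega
      rw [e3]
      exact hg.core.h1 _ (by omega)
    · have e3 : ((j : ℤ) + -1 * s).toNat = ((j : ℤ) + -1 * (s + 1)).toNat + 1 := by omega
      rw [e3]
      exact (hg.core.h1 _ (by omega)).symm
  have hG2 : ∀ s : ℤ, -8 ≤ s → s ≤ 6 → G.Adj (w s) (w (s + 2)) := by
    intro s e1 e2
    simp only [hw]
    rcases hε with rfl | rfl
    · have e3 : ((j : ℤ) + 1 * (s + 2)).toNat = ((j : ℤ) + 1 * s).toNat + 2 := by omega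
      rw [e3]
      exact hg.core.h2 _ (by omega)
    · have e3 : ((j : ℤ) + -1 * s).toNat = ((j : ℤ) + -1 * (s + 2)).toNat + 2 := by omega
      rw [e3]
      exact (hg.core.h2 _ (by omega)).symm
  have hGa : ∀ s : ℤ, -8 ≤ s → s ≤ 8 → G.Adj (w s) a := fun s e1 e2 =>
    (hg.core.ha _ (hidx s e1 e2).1).symm
  have hGb : ∀ s : ℤ, -8 ≤ s → s ≤ 8 → G.Adj (w s) b := fun s e1 e2 =>
    (hg.core.hb _ (hidx s e1 e2).1).symm
  obtain ⟨q, hwin⟩ := h.win (w := w) (fun s e1 e2 => him _ (hidx s e1 e2).2.1 (hidx s e1 e2).2.2)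
    (fun s e1 e2 => hle (hGa s e1 e2)) (fun s e1 e2 => hle (hGb s e1 e2)) hn
    (fun s e1 e2 => hle (hG1 s e1 e2))
    (fun s e1 e2 => by
      have := hG2 (s - 1) (by omega) (by omega)
      have e3 : s - 1 + 2 = s + 1 := by ring
      rw [e3] at this
      exact hle this)
  rw [← hw0]
  constructor
  · intro v hv
    refine hwin.g1 hle hg (hGa 0 (by omega) (by omega)) (hGb 0 (by omega) (by omega)) ?_ ?_ ?_ ?_ hv
    · simpa using hG1 0 (by omega) (by omega)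
    · simpa using hG2 0 (by omega) (by omega)
    · simpa using (hG1 (-1) (by omega) (by omega)).symm
    · simpa using (hG2 (-2) (by omega) (by omega)).symm
  · intro x hx hxw v hv
    refine hwin.g2 hle hg (fun s e1 e2 => ⟨_, (hidx s e1 e2).1, rfl⟩) ?_ hx hxw hv
    intro s e1 e2
    simp only [hw]
    rcases hε with rfl | rfl
    · refine ⟨((j : ℤ) + 1 * (s - 1)).toNat, by omega, Or.inl ⟨rfl, ?_⟩⟩
      congr 1
      omega
    · refine ⟨((j : ℤ) + -1 * (s + 1)).toNat, by omega, Or.inr ⟨rfl, ?_⟩⟩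
      congr 1
      omega

/-- **Good indices.** -/
theorem good (hle : G ≤ H) (hg : Cfg G a b p m) (hH : ∃ f : V → ℂ, IsRAC H f) :
    ∃ B : Finset ℕ, B.card ≤ 10 ∧ ∀ j, 8 ≤ j → j + 8 < m →
      (∀ i, j - 8 ≤ i → i ≤ j + 8 → i ∉ B) →
      (∀ v, H.Adj (p j) v → G.Adj (p j) v) ∧
      (∀ x, ¬ CoreV G a b x → G.Adj x (p j) → ∀ v, H.Adj x v → G.Adj x v) := by
  obtain ⟨f, hf⟩ := hH
  obtain ⟨g, hg1, hg2, hg3⟩ := hf.normalize hg.ab.ne
  have hN : Nm H g a b := ⟨hg1, hg2, hg3, hle hg.ab⟩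
  obtain ⟨B, hB, hwin⟩ := hN.windows (hg.core.mono hle)
  refine ⟨B, hB, ?_⟩
  intro j hj hjm hjB
  obtain ⟨g', hg', him, hmono⟩ := hwin (j - 8) 16 (by omega) (by omega)
    (fun i h1 h2 => hjB i h1 (by omega))
  rcases hmono with hmono | hmono
  · refine good_aux hg' hle hg hj hjm (ε := 1) (Or.inl rfl) (fun i h1 h2 => him i h1 (by omega)) ?_
    intro s e1 e2
    have e3 : ((j : ℤ) + 1 * (s + 1)).toNat = ((j : ℤ) + 1 * s).toNat + 1 := by omega
    rw [e3]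
    exact hmono _ (by omega) (by omega)
  · refine good_aux hg' hle hg hj hjm (ε := -1) (Or.inr rfl) (fun i h1 h2 => him i h1 (by omega)) ?_
    intro s e1 e2
    have e3 : ((j : ℤ) + -1 * s).toNat = ((j : ℤ) + -1 * (s + 1)).toNat + 1 := by omega
    rw [e3]
    exact hmono _ (by omega) (by omega)

end

end Pool.Agent.Helper18.RAC
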