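import Pool.Agent.Helper18.RAC.Local3
import Pool.Agent.Helper18.RAC.Count

/-!
# Good indices and counting for the graph with two rings of additional vertices
-/

set_option autoImplicit false

open Complex

namespace Pool.Agent.Helper18.RAC

/-- the graph with the core on `a, b, p 0, …, p (m - 1)` and the additional vertices
`z i δ r`, `1 ≤ i ≤ K`, `δ = ±1` -/
structure Cfg2 {V : Type*} (G : SimpleGraph V) (a b : V) (p : ℕ → V) (z : ℤ → ℤ → Bool → V)
    (m K : ℕ) : Prop where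
  ab : G.Adj a b
  core : Core G a b p m
  hm : K + 2 ≤ m
  hm' : m ≤ K + 7
  z12 : ∀ i δ : ℤ, 1 ≤ i → i ≤ K → (δ = 1 ∨ δ = -1) → G.Adj (z i δ false) (z i δ true)
  zc : ∀ i δ : ℤ, 1 ≤ i → i ≤ K → (δ = 1 ∨ δ = -1) →
    ∃ x, (x = a ∨ x = b) ∧ G.Adj (z i δ false) x
  zp : ∀ i δ : ℤ, 1 ≤ i → i ≤ K → (δ = 1 ∨ δ = -1) → G.Adj (z i δ true) (p (i + δ).toNat)
  zr : ∀ (i δ : ℤ) (r : Bool), 1 ≤ i → i ≤ K → (δ = 1 ∨ δ = -1) → G.Adj (z i δ r) (z i (-δ) r)
  zs : ∀ (i δ : ℤ) (r : Bool), 1 ≤ i → i ≤ K → (δ = 1 ∨ δ = -1) → 1 ≤ i + 2 * δ →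
    i + 2 * δ ≤ K → G.Adj (z i δ r) (z (i + 2 * δ) (-δ) r)
  zcore : ∀ (i δ : ℤ) (r : Bool), 1 ≤ i → i ≤ K → (δ = 1 ∨ δ = -1) → ¬ CoreV G a b (z i δ r)
  inj : ∀ (i δ : ℤ) (r : Bool) (i' δ' : ℤ) (r' : Bool), 1 ≤ i → i ≤ K → (δ = 1 ∨ δ = -1) →
    1 ≤ i' → i' ≤ K → (δ' = 1 ∨ δ' = -1) → z i δ r = z i' δ' r' → i = i' ∧ δ = δ' ∧ r = r'
  cov : ∀ v, ¬ CoreV G a b v → ∃ (i δ : ℤ) (r : Bool), 1 ≤ i ∧ i ≤ K ∧ (δ = 1 ∨ δ = -1) ∧
    v = z i δ r

section

variable {V : Type*} {G H : SimpleGraph V} {f : V → ℂ} {a b v v' : V} {p : ℕ → V} {m K : ℕ}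
  {z : ℤ → ℤ → Bool → V}

theorem Cfg2.zwin (hg : Cfg2 G a b p z m K) {j : ℕ} (hj : 21 ≤ j) (hjm : j + 20 ≤ K) {ε : ℤ}
    (hε : ε = 1 ∨ ε = -1) :
    ZWin G a b (fun s => p ((j : ℤ) + ε * s).toNat)
      (fun s δ r => z ((j : ℤ) + ε * s) (ε * δ) r) := by
  have hm := hg.hm
  have hr : ∀ s : ℤ, -20 ≤ s → s ≤ 20 → 1 ≤ (j : ℤ) + ε * s ∧ (j : ℤ) + ε * s ≤ K := by
    intro s e1 e2
    rcases hε with rfl | rfl <;> omega
  have hd : ∀ δ : ℤ, (δ = 1 ∨ δ = -1) → (ε * δ = 1 ∨ ε * δ = -1) := by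
    intro δ hδ
    rcases hε with rfl | rfl <;> omega
  refine ⟨?_, ?_, ?_, ?_, ?_, ?_, ?_, ?_, ?_, ?_, ?_⟩
  · intro s δ h1 h2 hδ
    exact hg.z12 _ _ (hr s h1 h2).1 (hr s h1 h2).2 (hd δ hδ)
  · intro s δ h1 h2 hδ
    exact hg.zc _ _ (hr s h1 h2).1 (hr s h1 h2).2 (hd δ hδ)
  · intro s δ h1 h2 hδ
    have := hg.zp _ _ (hr s h1 h2).1 (hr s h1 h2).2 (hd δ hδ)
    have e : (j : ℤ) + ε * (s + δ) = (j : ℤ) + ε * s + ε * δ := by ring
    rw [e]
    exact this
  · intro s δ r h1 h2 hδ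
    have := hg.zr _ _ r (hr s h1 h2).1 (hr s h1 h2).2 (hd δ hδ)
    have e : ε * -δ = -(ε * δ) := by ring
    rw [e]
    exact this
  · intro s δ r h1 h2 hδ
    have h3 := hr (s + 2 * δ) (by omega) (by omega)
    have e : (j : ℤ) + ε * (s + 2 * δ) = (j : ℤ) + ε * s + 2 * (ε * δ) := by ring
    have e' : ε * -δ = -(ε * δ) := by ring
    rw [e] at h3
    have := hg.zs _ _ r (hr s (by omega) (by omega)).1 (hr s (by omega) (by omega)).2 (hd δ hδ)
      h3.1 h3.2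
    rw [e, e']
    exact this
  · intro s δ r h1 h2 hδ
    exact hg.zcore _ _ r (hr s h1 h2).1 (hr s h1 h2).2 (hd δ hδ)
  · intro s δ r s' δ' r' h1 h2 hδ h1' h2' hδ' heq
    obtain ⟨e1, e2, e3⟩ := hg.inj _ _ _ _ _ _ (hr s h1 h2).1 (hr s h1 h2).2 (hd δ hδ)
      (hr s' h1' h2').1 (hr s' h1' h2').2 (hd δ' hδ') heq
    refine ⟨?_, ?_, e3⟩
    · rcases hε with rfl | rfl <;> omega
    · rcases hε with rfl | rfl <;> omega
  · intro s s' h1 h2 h1' h2' heq
    have a1 := hr s h1 h2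
    have a2 := hr s' h1' h2'
    have := hg.core.inj _ (by omega) _ (by omega) heq
    rcases hε with rfl | rfl <;> omega
  · intro s h1 h2
    have a1 := hr s h1 h2
    exact (hg.core.ha _ (by omega)).symm
  · intro s h1 h2
    have a1 := hr s h1 h2
    exact (hg.core.hb _ (by omega)).symm
  · intro v hv
    obtain ⟨i, δ, r, h1, h2, hδ, rfl⟩ := hg.cov v hv
    have hA := hg.core.ha (i + δ).toNat (by omega)
    have hB := hg.core.hb (i + δ).toNat (by omega)
    refine ⟨z i δ true, p (i + δ).toNat, hg.zcore _ _ _ h1 h2 hδ, ?_, hg.zp _ _ h1 h2 hδ,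
      hA.ne', hB.ne', hA.symm, hB.symm, ?_⟩
    · cases r with
      | true => exact Or.inl rfl
      | false => exact Or.inr (hg.z12 _ _ h1 h2 hδ)
    · intro t h3 h4 heq
      have a1 := hr t (by omega) (by omega)
      have := hg.core.inj _ (by omega) _ (by omega) heq
      refine ⟨ε * δ, r, hd δ hδ, ?_⟩
      congr 1
      · rcases hε with rfl | rfl <;> omega
      · rcases hε with rfl | rfl <;> omega

theorem good_aux2 (h : Nm H f a b) (hle : G ≤ H) (hg : Cfg2 G a b p z m K) {j : ℕ} (hj : 21 ≤ j)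
    (hjm : j + 20 ≤ K) {ε : ℤ} (hε : ε = 1 ∨ ε = -1)
    (him : ∀ i, j - 20 ≤ i → i ≤ j + 20 → 0 < (f (p i)).im)
    (hn : ∀ s : ℤ, -20 ≤ s → s ≤ 19 →
      Nest (f (p ((j : ℤ) + ε * s).toNat)) (f (p ((j : ℤ) + ε * (s + 1)).toNat))) :
    (∀ v, H.Adj (p j) v → G.Adj (p j) v) ∧
      (∀ δ r, (δ = 1 ∨ δ = -1) → ∀ v, H.Adj (z j δ r) v → G.Adj (z j δ r) v) := by
  have hm := hg.hm
  have hzw := hg.zwin hj hjm hε
  set w : ℤ → V := fun s => p ((j : ℤ) + ε * s).toNat with hw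
  set Z : ℤ → ℤ → Bool → V := fun s δ r => z ((j : ℤ) + ε * s) (ε * δ) r with hZ
  have hw0 : w 0 = p j := by
    simp only [hw]
    congr 1
    omega
  -- indices
  have hidx : ∀ s : ℤ, -20 ≤ s → s ≤ 20 → ((j : ℤ) + ε * s).toNat < m ∧
      j - 20 ≤ ((j : ℤ) + ε * s).toNat ∧ ((j : ℤ) + ε * s).toNat ≤ j + 20 := by
    intro s e1 e2
    rcases hε with rfl | rfl <;> omega
  have hG1 : ∀ s : ℤ, -20 ≤ s → s ≤ 19 → G.Adj (w s) (w (s + 1)) := by
    intro s e1 e2
    simp only [hw]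
    rcases hε with rfl | rfl
    · have e3 : ((j : ℤ) + 1 * (s + 1)).toNat = ((j : ℤ) + 1 * s).toNat + 1 := by omega
      rw [e3]
      exact hg.core.h1 _ (by omega)
    · have e3 : ((j : ℤ) + -1 * s).toNat = ((j : ℤ) + -1 * (s + 1)).toNat + 1 := by omega
      rw [e3]
      exact (hg.core.h1 _ (by omega)).symm
  have hG2 : ∀ s : ℤ, -20 ≤ s → s ≤ 18 → G.Adj (w s) (w (s + 2)) := by
    intro s e1 e2
    simp only [hw]
    rcases hε with rfl | rfl
    · have e3 : ((j : ℤ) + 1 * (s + 2)).toNat = ((j : ℤ) + 1 * s).toNat + 2 := by omega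
      rw [e3]
      exact hg.core.h2 _ (by omega)
    · have e3 : ((j : ℤ) + -1 * s).toNat = ((j : ℤ) + -1 * (s + 2)).toNat + 2 := by omega
      rw [e3]
      exact (hg.core.h2 _ (by omega)).symm
  obtain ⟨q, hwin⟩ := h.winR (w := w) (R := 20)
    (fun s e1 e2 => him _ (hidx s e1 e2).2.1 (hidx s e1 e2).2.2)
    (fun s e1 e2 => hle (hzw.ga s e1 e2)) (fun s e1 e2 => hle (hzw.gb s e1 e2))
    (fun s e1 e2 => hn s e1 (by omega))
    (fun s e1 e2 => hle (hG1 s e1 (by omega)))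
    (fun s e1 e2 => by
      have := hG2 (s - 1) (by omega) (by omega)
      have e3 : s - 1 + 2 = s + 1 := by ring
      rw [e3] at this
      exact hle this)
  constructor
  · intro v hv
    rw [← hw0] at hv ⊢
    refine hwin.g1 hzw hle ?_ ?_ ?_ ?_ hv
    · simpa using hG1 0 (by omega) (by omega)
    · simpa using hG2 0 (by omega) (by omega)
    · simpa using (hG1 (-1) (by omega) (by omega)).symm
    · simpa using (hG2 (-2) (by omega) (by omega)).symm
  · intro δ r hδ v hv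
    have hδ' : ε * δ = 1 ∨ ε * δ = -1 := by rcases hε with rfl | rfl <;> omega
    have e : z j δ r = Z 0 (ε * δ) r := by
      simp only [hZ]
      congr 1
      · omega
      · rcases hε with rfl | rfl <;> omega
    rw [e] at hv ⊢
    exact hwin.g2 hzw hle hδ' hv

/-- **Good indices.** -/
theorem good2 (hle : G ≤ H) (hg : Cfg2 G a b p z m K) (hH : ∃ f : V → ℂ, IsRAC H f) :
    ∃ B : Finset ℕ, B.card ≤ 10 ∧ ∀ j, 21 ≤ j → j + 20 ≤ K →
      (∀ i, j - 20 ≤ i → i ≤ j + 20 → i ∉ B) →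
      (∀ v, H.Adj (p j) v → G.Adj (p j) v) ∧
      (∀ δ r, (δ = 1 ∨ δ = -1) → ∀ v, H.Adj (z j δ r) v → G.Adj (z j δ r) v) := by
  have hm := hg.hm
  obtain ⟨f, hf⟩ := hH
  obtain ⟨g, hg1, hg2, hg3⟩ := hf.normalize hg.ab.ne
  have hN : Nm H g a b := ⟨hg1, hg2, hg3, hle hg.ab⟩
  obtain ⟨B, hB, hwin⟩ := hN.windows (hg.core.mono hle)
  refine ⟨B, hB, ?_⟩
  intro j hj hjm hjB
  obtain ⟨g', hg', him, hmono⟩ := hwin (j - 20) 40 (by omega) (by omega)
    (fun i h1 h2 => hjB i h1 (by omega))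
  rcases hmono with hmono | hmono
  · refine good_aux2 hg' hle hg hj hjm (ε := 1) (Or.inl rfl)
      (fun i h1 h2 => him i h1 (by omega)) ?_
    intro s e1 e2
    have e3 : ((j : ℤ) + 1 * (s + 1)).toNat = ((j : ℤ) + 1 * s).toNat + 1 := by omega
    rw [e3]
    exact hmono _ (by omega) (by omega)
  · refine good_aux2 hg' hle hg hj hjm (ε := -1) (Or.inr rfl)
      (fun i h1 h2 => him i h1 (by omega)) ?_
    intro s e1 e2
    have e3 : ((j : ℤ) + -1 * s).toNat = ((j : ℤ) + -1 * (s + 1)).toNat + 1 := by omega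
    rw [e3]
    exact hmono _ (by omega) (by omega)

/-- RAC drawings of `H ≥ G`: a bounded number of edges is not in `G` -/
theorem edges_le2 [Finite V] (hle : G ≤ H) (hg : Cfg2 G a b p z m K)
    (hH : ∃ f : V → ℂ, IsRAC H f)
    (hcov : ∀ v, v = a ∨ v = b ∨ (∃ j < m, v = p j) ∨ ¬ CoreV G a b v) :
    H.edgeSet.ncard ≤ G.edgeSet.ncard + 2627778 := by
  classical
  have := Fintype.ofFinite V
  have hm := hg.hm
  have hm' := hg.hm'
  obtain ⟨B, hB, hgood⟩ := good2 hle hg hH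
  -- bad indices
  set Bad : Finset ℕ := (Finset.range 21 ∪ Finset.Ico (K - 19) m) ∪
    B.biUnion (fun i => Finset.Icc (i - 20) (i + 20)) with hBad
  have hBadc : Bad.card ≤ 458 := by
    rw [hBad]
    refine (Finset.card_union_le _ _).trans ?_
    have h1 := Finset.card_union_le (Finset.range 21) (Finset.Ico (K - 19) m)
    rw [Finset.card_range, Nat.card_Ico] at h1
    have h2 : (B.biUnion (fun i => Finset.Icc (i - 20) (i + 20))).card ≤ B.card * 41 :=
      Finset.card_biUnion_le_card_mul _ _ _ fun i _ => by rw [Nat.card_Icc]; omega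
    omega
  have hgood' : ∀ j < m, j ∉ Bad → 1 ≤ j ∧ j ≤ K ∧ (∀ v, H.Adj (p j) v → G.Adj (p j) v) ∧
      (∀ δ r, (δ = 1 ∨ δ = -1) → ∀ v, H.Adj (z j δ r) v → G.Adj (z j δ r) v) := by
    intro j hj hjB
    rw [hBad, Finset.mem_union, Finset.mem_union, Finset.mem_range, Finset.mem_Ico,
      Finset.mem_biUnion] at hjB
    push Not at hjB
    obtain ⟨⟨h1, h2⟩, h3⟩ := hjB
    have h4 : j + 20 ≤ K := by
      by_contra hcon
      exact absurd (h2 (by omega)) (by omega)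
    refine ⟨by omega, by omega, hgood j h1 h4 ?_⟩
    intro i h4 h5 h6
    apply h3 i h6
    rw [Finset.mem_Icc]
    omega
  -- the exceptional set
  set Z : Finset V := ({a, b} ∪ Bad.image p) ∪
    ((Bad ×ˢ (Finset.univ : Finset (Bool × Bool))).image
      (fun x => z (x.1 : ℤ) (cond x.2.1 1 (-1)) x.2.2)) with hZ
  have hZc : Z.card ≤ 2292 := by
    rw [hZ]
    refine (Finset.card_union_le _ _).trans ?_
    have h1 := Finset.card_union_le ({a, b} : Finset V) (Bad.image p)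
    have h2 : ({a, b} : Finset V).card ≤ 2 := Finset.card_le_two
    have h3 : (Bad.image p).card ≤ Bad.card := Finset.card_image_le
    have h4 : ((Bad ×ˢ (Finset.univ : Finset (Bool × Bool))).image
      (fun x => z (x.1 : ℤ) (cond x.2.1 1 (-1)) x.2.2)).card ≤
        (Bad ×ˢ (Finset.univ : Finset (Bool × Bool))).card := Finset.card_image_le
    rw [Finset.card_product, Finset.card_univ, Fintype.card_prod, Fintype.card_bool] at h4
    omega
  have hout : ∀ v, v ∉ Z → ∀ u, H.Adj v u → G.Adj v u := by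
    intro v hv u hu
    rw [hZ, Finset.mem_union, Finset.mem_union, Finset.mem_insert, Finset.mem_singleton,
      Finset.mem_image, Finset.mem_image] at hv
    push Not at hv
    obtain ⟨⟨⟨h1, h2⟩, h3⟩, h4⟩ := hv
    rcases hcov v with h5 | h5 | ⟨j, hj, rfl⟩ | h5
    · exact absurd h5 h1
    · exact absurd h5 h2
    · exact (hgood' j hj fun h6 => h3 j h6 rfl).2.2.1 u hu
    · obtain ⟨i, δ, r, h6, h7, hδ, rfl⟩ := hg.cov v h5
      lift i to ℕ using (by omega) with j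
      have hjB : j ∉ Bad := by
        intro h8
        rcases hδ with rfl | rfl
        · exact h4 (j, true, r) (by simp [h8]) rfl
        · exact h4 (j, false, r) (by simp [h8]) rfl
      exact (hgood' j (by omega) hjB).2.2.2 δ r hδ u hu
  have hsub : H.edgeSet ⊆ G.edgeSet ∪ (Z.sym2 : Set (Sym2 V)) := by
    intro e he
    induction e using Sym2.ind with
    | _ x y =>
      rw [SimpleGraph.mem_edgeSet] at he
      by_cases hx : x ∈ Z
      · by_cases hy : y ∈ Z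
        · right
          rw [Finset.mem_coe, Finset.mk_mem_sym2_iff]
          exact ⟨hx, hy⟩
        · left
          exact (hout y hy x he.symm).symm
      · left
        exact hout x hx y he
  have h1 := Set.ncard_le_ncard hsub (Set.toFinite _)
  have h2 := Set.ncard_union_le G.edgeSet (Z.sym2 : Set (Sym2 V))
  rw [Set.ncard_coe_finset, Finset.card_sym2] at h2
  have h3 : (Z.card + 1).choose 2 ≤ (2292 + 1).choose 2 := Nat.choose_le_choose 2 (by omega)
  have h4 : (2292 + 1).choose 2 = 2627778 := by rw [Nat.choose_two_right]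
  omega

end

end Pool.Agent.Helper18.RAC
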