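import Pool.Agent.Helper18.RAC.KiteN

/-!
# Kites in general position
-/

set_option autoImplicit false

open Complex

namespace Pool.Agent.Helper18.RAC

variable {V : Type*}

/-- the open triangle with corners `q`, `u`, `w` -/
def Tri (q u w z : ℂ) : Prop := ∃ α β γ : ℝ, 0 < α ∧ 0 < β ∧ 0 < γ ∧ α + β + γ = 1 ∧
  z.re = α * q.re + β * u.re + γ * w.re ∧ z.im = α * q.im + β * u.im + γ * w.im

theorem Tri.symm {q u w z : ℂ} (h : Tri q u w z) : Tri q w u z := by
  obtain ⟨α, β, γ, h1, h2, h3, h4, h5, h6⟩ := h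
  exact ⟨α, γ, β, h1, h3, h2, by linarith, by linarith, by linarith⟩

/-- orientation of the triangle `u v z` -/
def Dt (u v z : ℂ) : ℝ := (v.re - u.re) * (z.im - u.im) - (v.im - u.im) * (z.re - u.re)

/-- two crossing edges `u u'`, `w w'` and the four sides -/
structure Kite (H : SimpleGraph V) (f : V → ℂ) (u u' w w' : V) (q : ℂ) : Prop where
  uu' : H.Adj u u'
  ww' : H.Adj w w'
  uw : H.Adj u w
  uw' : H.Adj u w'
  u'w : H.Adj u' w
  u'w' : H.Adj u' w'
  qu : q ∈ openSegment ℝ (f u) (f u')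
  qw : q ∈ openSegment ℝ (f w) (f w')

section

variable {H : SimpleGraph V} {f : V → ℂ} {u u' w w' v v' : V} {q : ℂ}

theorem Kite.flipu (h : Kite H f u u' w w' q) : Kite H f u' u w w' q where
  uu' := h.uu'.symm
  ww' := h.ww'
  uw := h.u'w
  uw' := h.u'w'
  u'w := h.uw
  u'w' := h.uw'
  qu := by rw [openSegment_symm]; exact h.qu
  qw := h.qw

theorem Kite.swap (h : Kite H f u u' w w' q) : Kite H f w w' u u' q where
  uu' := h.ww'
  ww' := h.uu'
  uw := h.uw.symm
  uw' := h.u'w.symm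
  u'w := h.uw'.symm
  u'w' := h.u'w'.symm
  qu := h.qw
  qw := h.qu

theorem Kite.flipw (h : Kite H f u u' w w' q) : Kite H f u u' w' w q := h.swap.flipu.swap

/-- coordinate along the vector `e` from the origin `q` -/
noncomputable def cx (q e z : ℂ) : ℝ :=
  ((z.re - q.re) * e.re + (z.im - q.im) * e.im) / (e.re ^ 2 + e.im ^ 2)

theorem nsq_pos {e : ℂ} (he : e ≠ 0) : 0 < e.re ^ 2 + e.im ^ 2 := by
  by_contra h
  push Not at h
  have h1 : e.re ^ 2 = 0 := by nlinarith [sq_nonneg e.re, sq_nonneg e.im]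
  have h2 : e.im ^ 2 = 0 := by nlinarith [sq_nonneg e.re, sq_nonneg e.im]
  exact he (Complex.ext (by simpa using h1) (by simpa using h2))

/-- decomposition with respect to two perpendicular vectors -/
theorem decomp {e₁ e₂ : ℂ} (h1 : e₁ ≠ 0) (h2 : e₂ ≠ 0)
    (hp : e₁.re * e₂.re + e₁.im * e₂.im = 0) (q z : ℂ) :
    z.re = q.re + cx q e₁ z * e₁.re + cx q e₂ z * e₂.re ∧
      z.im = q.im + cx q e₁ z * e₁.im + cx q e₂ z * e₂.im := by
  have hE := nsq_pos h1
  have hF := nsq_pos h2
  set E := e₁.re ^ 2 + e₁.im ^ 2 with hEd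
  set F := e₂.re ^ 2 + e₂.im ^ 2 with hFd
  set D := e₁.re * e₂.im - e₁.im * e₂.re with hD
  have k1 : e₂.re * E = -(e₁.im * D) := by rw [hEd, hD]; linear_combination e₁.re * hp
  have k2 : e₂.im * E = e₁.re * D := by rw [hEd, hD]; linear_combination e₁.im * hp
  have k3 : F * E = D ^ 2 := by
    have : F * E * E = D ^ 2 * E := by
      calc F * E * E = (e₂.re * E) ^ 2 + (e₂.im * E) ^ 2 := by rw [hFd]; ring
        _ = D ^ 2 * E := by rw [k1, k2, hEd]; ring
    exact mul_right_cancel₀ hE.ne' this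
  have hx : cx q e₂ z = (-(z.re - q.re) * e₁.im + (z.im - q.im) * e₁.re) / D := by
    have hD0 : D ≠ 0 := by
      intro h
      rw [h] at k3
      have : F * E > 0 := mul_pos hF hE
      rw [k3] at this
      simp at this
    unfold cx
    rw [← hFd, div_eq_div_iff hF.ne' hD0]
    have : ((z.re - q.re) * e₂.re + (z.im - q.im) * e₂.im) * D * E =
        (-(z.re - q.re) * e₁.im + (z.im - q.im) * e₁.re) * F * E := by
      calc ((z.re - q.re) * e₂.re + (z.im - q.im) * e₂.im) * D * E
          = ((z.re - q.re) * (e₂.re * E) + (z.im - q.im) * (e₂.im * E)) * D := by ring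
        _ = (-(z.re - q.re) * e₁.im + (z.im - q.im) * e₁.re) * D ^ 2 := by rw [k1, k2]; ring
        _ = _ := by rw [← k3]; ring
    exact mul_right_cancel₀ hE.ne' this
  have hD0 : D ≠ 0 := by
    intro h
    rw [h] at k3
    have : F * E > 0 := mul_pos hF hE
    rw [k3] at this
    simp at this
  have hx1 : cx q e₁ z = ((z.re - q.re) * e₁.re + (z.im - q.im) * e₁.im) / E := rfl
  have k1' : e₂.re = -(e₁.im * D) / E := by rw [eq_div_iff hE.ne']; exact k1
  have k2' : e₂.im = e₁.re * D / E := by rw [eq_div_iff hE.ne']; exact k2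
  constructor
  · rw [hx1, hx, k1']
    field_simp
    rw [hEd]
    ring
  · rw [hx1, hx, k2']
    field_simp
    rw [hEd]
    ring

theorem IsRAC.adraw (hf : IsRAC H f) {e₁ e₂ : ℂ} (h1 : e₁ ≠ 0) (h2 : e₂ ≠ 0)
    (hp : e₁.re * e₂.re + e₁.im * e₂.im = 0) (q : ℂ) :
    ADraw H (fun v => cx q e₁ (f v)) (fun v => cx q e₂ (f v)) (e₁.re ^ 2 + e₁.im ^ 2)
      (e₂.re ^ 2 + e₂.im ^ 2) where
  E_pos := nsq_pos h1
  F_pos := nsq_pos h2
  vtx := fun u v w huv hwu hwv t ht0 ht1 hX hY => by
    apply hf.vtx u v w huv hwu hwv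
    rw [mem_segment_iff]
    obtain ⟨a1, a2⟩ := decomp h1 h2 hp q (f u)
    obtain ⟨b1, b2⟩ := decomp h1 h2 hp q (f v)
    obtain ⟨c1, c2⟩ := decomp h1 h2 hp q (f w)
    refine ⟨t, ht0, ht1, ?_, ?_⟩
    · rw [c1, hX, hY]
      linear_combination -(1 - t) * a1 - t * b1
    · rw [c2, hX, hY]
      linear_combination -(1 - t) * a2 - t * b2
  crs := fun u v x y huv hxy hne s t hs0 hs1 ht0 ht1 hX hY => by
    obtain ⟨a1, a2⟩ := decomp h1 h2 hp q (f u)
    obtain ⟨b1, b2⟩ := decomp h1 h2 hp q (f v)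
    obtain ⟨c1, c2⟩ := decomp h1 h2 hp q (f x)
    obtain ⟨d1, d2⟩ := decomp h1 h2 hp q (f y)
    have hz1 : (⟨(1 - s) * (f u).re + s * (f v).re, (1 - s) * (f u).im + s * (f v).im⟩ : ℂ) ∈
        openSegment ℝ (f u) (f v) := by
      rw [mem_openSegment_iff]
      exact ⟨s, hs0, hs1, rfl, rfl⟩
    have hz2 : (⟨(1 - s) * (f u).re + s * (f v).re, (1 - s) * (f u).im + s * (f v).im⟩ : ℂ) ∈
        openSegment ℝ (f x) (f y) := by
      rw [mem_openSegment_iff]
      refine ⟨t, ht0, ht1, ?_, ?_⟩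
      · simp only
        linear_combination (1 - s) * a1 + s * b1 - (1 - t) * c1 - t * d1 + e₁.re * hX + e₂.re * hY
      · simp only
        linear_combination (1 - s) * a2 + s * b2 - (1 - t) * c2 - t * d2 + e₁.im * hX + e₂.im * hY
    have h3 := hf.dot huv hxy hne hz1 hz2
    unfold dotp at h3
    rw [show (f v).re - (f u).re = (cx q e₁ (f v) - cx q e₁ (f u)) * e₁.re +
        (cx q e₂ (f v) - cx q e₂ (f u)) * e₂.re by linear_combination b1 - a1,
      show (f y).re - (f x).re = (cx q e₁ (f y) - cx q e₁ (f x)) * e₁.re +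
        (cx q e₂ (f y) - cx q e₂ (f x)) * e₂.re by linear_combination d1 - c1,
      show (f v).im - (f u).im = (cx q e₁ (f v) - cx q e₁ (f u)) * e₁.im +
        (cx q e₂ (f v) - cx q e₂ (f u)) * e₂.im by linear_combination b2 - a2,
      show (f y).im - (f x).im = (cx q e₁ (f y) - cx q e₁ (f x)) * e₁.im +
        (cx q e₂ (f y) - cx q e₂ (f x)) * e₂.im by linear_combination d2 - c2] at h3
    linear_combination h3 - ((cx q e₁ (f v) - cx q e₁ (f u)) * (cx q e₂ (f y) - cx q e₂ (f x)) +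
      (cx q e₂ (f v) - cx q e₂ (f u)) * (cx q e₁ (f y) - cx q e₁ (f x))) * hp

theorem cx_eq {e₁ e₂ : ℂ} (h1 : e₁ ≠ 0) (hp : e₁.re * e₂.re + e₁.im * e₂.im = 0) {q z : ℂ}
    {x y : ℝ} (hr : z.re = q.re + x * e₁.re + y * e₂.re)
    (hi : z.im = q.im + x * e₁.im + y * e₂.im) : cx q e₁ z = x := by
  have hE := nsq_pos h1
  unfold cx
  rw [div_eq_iff hE.ne', hr, hi]
  linear_combination y * hp

theorem Kite.perp (hf : IsRAC H f) (hk : Kite H f u u' w w' q) :
    (f u - q).re * (f w - q).re + (f u - q).im * (f w - q).im = 0 ∧ f u - q ≠ 0 ∧ f w - q ≠ 0 ∧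
    (∃ a : ℝ, 0 < a ∧ (f u').re = q.re - a * (f u - q).re ∧ (f u').im = q.im - a * (f u - q).im) ∧
    (∃ b : ℝ, 0 < b ∧ (f w').re = q.re - b * (f w - q).re ∧
      (f w').im = q.im - b * (f w - q).im) := by
  have hne : s(u, u') ≠ s(w, w') := ne_of_left hk.uw.ne hk.uw'.ne
  have hdot := hf.dot hk.uu' hk.ww' hne hk.qu hk.qw
  obtain ⟨s, hs0, hs1, hs2, hs3⟩ := mem_openSegment_iff.1 hk.qu
  obtain ⟨t, ht0, ht1, ht2, ht3⟩ := mem_openSegment_iff.1 hk.qw
  have huu' : f u ≠ f u' := fun h => hk.uu'.ne (hf.inj h)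
  have hww' : f w ≠ f w' := fun h => hk.ww'.ne (hf.inj h)
  unfold dotp at hdot
  refine ⟨?_, ?_, ?_, ⟨(1 - s) / s, div_pos (by linarith) hs0, ?_, ?_⟩,
    ⟨(1 - t) / t, div_pos (by linarith) ht0, ?_, ?_⟩⟩
  · simp only [Complex.sub_re, Complex.sub_im]
    rw [show (f u).re - q.re = -s * ((f u').re - (f u).re) by rw [hs2]; ring,
      show (f u).im - q.im = -s * ((f u').im - (f u).im) by rw [hs3]; ring,
      show (f w).re - q.re = -t * ((f w').re - (f w).re) by rw [ht2]; ring,
      show (f w).im - q.im = -t * ((f w').im - (f w).im) by rw [ht3]; ring]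
    linear_combination s * t * hdot
  · intro h
    apply huu'
    have h1 : (f u).re = q.re := by rw [sub_eq_zero.1 h]
    have h2 : (f u).im = q.im := by rw [sub_eq_zero.1 h]
    apply Complex.ext
    · have : s * ((f u').re - (f u).re) = 0 := by linarith
      have := (mul_eq_zero.1 this).resolve_left hs0.ne'
      linarith
    · have : s * ((f u').im - (f u).im) = 0 := by linarith
      have := (mul_eq_zero.1 this).resolve_left hs0.ne'
      linarith
  · intro h
    apply hww'
    have h1 : (f w).re = q.re := by rw [sub_eq_zero.1 h]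
    have h2 : (f w).im = q.im := by rw [sub_eq_zero.1 h]
    apply Complex.ext
    · have : t * ((f w').re - (f w).re) = 0 := by linarith
      have := (mul_eq_zero.1 this).resolve_left ht0.ne'
      linarith
    · have : t * ((f w').im - (f w).im) = 0 := by linarith
      have := (mul_eq_zero.1 this).resolve_left ht0.ne'
      linarith
  · simp only [Complex.sub_re]
    rw [hs2]; field_simp; ring
  · simp only [Complex.sub_im]
    rw [hs3]; field_simp; ring
  · simp only [Complex.sub_re]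
    rw [ht2]; field_simp; ring
  · simp only [Complex.sub_im]
    rw [ht3]; field_simp; ring

/-- the coordinates adapted to a kite -/
theorem Kite.coords (hf : IsRAC H f) (hk : Kite H f u u' w w' q) :
    ∃ (X Y : ℂ → ℝ) (E F a b : ℝ), ADraw H (fun v => X (f v)) (fun v => Y (f v)) E F ∧
      KN H (fun v => X (f v)) (fun v => Y (f v)) a b u u' w w' ∧
      (∀ z, Tri q (f u) (f w) z ↔ 0 < X z ∧ 0 < Y z ∧ X z + Y z < 1) ∧
      (∀ z, Tri q (f u) (f w') z ↔ 0 < X z ∧ Y z < 0 ∧ b * X z - Y z < b) ∧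
      (∀ z, Tri q (f w) (f u') z ↔ 0 < Y z ∧ X z < 0 ∧ a * Y z - X z < a) ∧
      (∀ z, z.re = q.re + X z * ((f u).re - q.re) + Y z * ((f w).re - q.re) ∧
        z.im = q.im + X z * ((f u).im - q.im) + Y z * ((f w).im - q.im)) ∧
      (∀ z x y, z.re = q.re + x * ((f u).re - q.re) + y * ((f w).re - q.re) →
        z.im = q.im + x * ((f u).im - q.im) + y * ((f w).im - q.im) → X z = x ∧ Y z = y) ∧
      Dt (f u) (f w) q ≠ 0 := by
  obtain ⟨hp, h1, h2, ⟨a, ha, ha1, ha2⟩, ⟨b, hb, hb1, hb2⟩⟩ := hk.perp hf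
  have hp' : (f w - q).re * (f u - q).re + (f w - q).im * (f u - q).im = 0 := by linarith
  have hun : ∀ z x y, z.re = q.re + x * ((f u).re - q.re) + y * ((f w).re - q.re) →
      z.im = q.im + x * ((f u).im - q.im) + y * ((f w).im - q.im) →
      cx q (f u - q) z = x ∧ cx q (f w - q) z = y := by
    intro z x y hr hi
    refine ⟨cx_eq h1 hp (y := y) (by simpa using hr) (by simpa using hi), ?_⟩
    refine cx_eq h2 hp' (y := x) ?_ ?_
    · simp only [Complex.sub_re]; linarith
    · simp only [Complex.sub_im]; linarith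
  have hdec : ∀ z : ℂ, z.re = q.re + cx q (f u - q) z * ((f u).re - q.re) +
      cx q (f w - q) z * ((f w).re - q.re) ∧
      z.im = q.im + cx q (f u - q) z * ((f u).im - q.im) +
      cx q (f w - q) z * ((f w).im - q.im) := by
    intro z
    simpa using decomp h1 h2 hp q z
  have cu := hun (f u) 1 0 (by ring) (by ring)
  have cw := hun (f w) 0 1 (by ring) (by ring)
  have cu' := hun (f u') (-a) 0 (by rw [ha1]; simp only [Complex.sub_re]; ring)
    (by rw [ha2]; simp only [Complex.sub_im]; ring)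
  have cw' := hun (f w') 0 (-b) (by rw [hb1]; simp only [Complex.sub_re]; ring)
    (by rw [hb2]; simp only [Complex.sub_im]; ring)
  refine ⟨cx q (f u - q), cx q (f w - q), _, _, a, b, hf.adraw h1 h2 hp q, ?_, ?_, ?_, ?_, hdec,
    hun, ?_⟩
  · exact
      { a_pos := ha, b_pos := hb, Xu := cu.1, Yu := cu.2, Xu' := cu'.1, Yu' := cu'.2, Xw := cw.1,
        Yw := cw.2, Xw' := cw'.1, Yw' := cw'.2, uu' := hk.uu', ww' := hk.ww', uw := hk.uw,
        uw' := hk.uw', u'w := hk.u'w }
  · intro z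
    constructor
    · rintro ⟨α, β, γ, h3, h4, h5, h6, h7, h8⟩
      have := hun z β γ (by rw [h7]; linear_combination q.re * h6)
        (by rw [h8]; linear_combination q.im * h6)
      rw [this.1, this.2]
      exact ⟨h4, h5, by linarith⟩
    · rintro ⟨h3, h4, h5⟩
      obtain ⟨d1, d2⟩ := hdec z
      refine ⟨1 - cx q (f u - q) z - cx q (f w - q) z, cx q (f u - q) z, cx q (f w - q) z,
        by linarith, h3, h4, by ring, ?_, ?_⟩
      · linear_combination d1
      · linear_combination d2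
  · intro z
    constructor
    · rintro ⟨α, β, γ, h3, h4, h5, h6, h7, h8⟩
      have := hun z β (-b * γ)
        (by rw [h7, hb1]; simp only [Complex.sub_re]; linear_combination q.re * h6)
        (by rw [h8, hb2]; simp only [Complex.sub_im]; linear_combination q.im * h6)
      rw [this.1, this.2]
      have hbγ := mul_pos hb h5
      refine ⟨h4, by linarith, ?_⟩
      have : b * α > 0 := mul_pos hb h3
      nlinarith
    · rintro ⟨h3, h4, h5⟩
      obtain ⟨d1, d2⟩ := hdec z
      refine ⟨1 - cx q (f u - q) z + cx q (f w - q) z / b, cx q (f u - q) z,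
        -(cx q (f w - q) z) / b, ?_, h3, div_pos (by linarith) hb, by ring, ?_, ?_⟩
      · have : b * (1 - cx q (f u - q) z + cx q (f w - q) z / b) =
          b - (b * cx q (f u - q) z - cx q (f w - q) z) := by field_simp; ring
        by_contra hcon
        push Not at hcon
        have := mul_nonpos_of_nonneg_of_nonpos hb.le hcon
        linarith
      · rw [hb1]; simp only [Complex.sub_re]; field_simp; linear_combination b * d1
      · rw [hb2]; simp only [Complex.sub_im]; field_simp; linear_combination b * d2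
  · intro z
    constructor
    · rintro ⟨α, β, γ, h3, h4, h5, h6, h7, h8⟩
      have := hun z (-a * γ) β
        (by rw [h7, ha1]; simp only [Complex.sub_re]; linear_combination q.re * h6)
        (by rw [h8, ha2]; simp only [Complex.sub_im]; linear_combination q.im * h6)
      rw [this.1, this.2]
      have haγ := mul_pos ha h5
      refine ⟨h4, by linarith, ?_⟩
      have : a * α > 0 := mul_pos ha h3
      nlinarith
    · rintro ⟨h3, h4, h5⟩
      obtain ⟨d1, d2⟩ := hdec z
      refine ⟨1 - cx q (f w - q) z + cx q (f u - q) z / a, cx q (f w - q) z,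
        -(cx q (f u - q) z) / a, ?_, h3, div_pos (by linarith) ha, by ring, ?_, ?_⟩
      · have : a * (1 - cx q (f w - q) z + cx q (f u - q) z / a) =
          a - (a * cx q (f w - q) z - cx q (f u - q) z) := by field_simp; ring
        by_contra hcon
        push Not at hcon
        have := mul_nonpos_of_nonneg_of_nonpos ha.le hcon
        linarith
      · rw [ha1]; simp only [Complex.sub_re]; field_simp; linear_combination a * d1
      · rw [ha2]; simp only [Complex.sub_im]; field_simp; linear_combination a * d2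
  · -- nondegenerate
    intro hD
    have hE := nsq_pos h1
    have hF := nsq_pos h2
    simp only [Complex.sub_re, Complex.sub_im] at hp hE hF
    have hD' : ((f u).re - q.re) * ((f w).im - q.im) - ((f u).im - q.im) * ((f w).re - q.re) = 0 := by
      unfold Dt at hD
      linear_combination hD
    have : (((f u).re - q.re) ^ 2 + ((f u).im - q.im) ^ 2) *
        (((f w).re - q.re) ^ 2 + ((f w).im - q.im) ^ 2) = 0 := by
      linear_combination (((f u).re - q.re) * ((f w).re - q.re) +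
        ((f u).im - q.im) * ((f w).im - q.im)) * hp +
        (((f u).re - q.re) * ((f w).im - q.im) - ((f u).im - q.im) * ((f w).re - q.re)) * hD'
    have h3 := mul_pos hE hF
    linarith

theorem Dt_coords {u w q z : ℂ} {x y : ℝ} (hr : z.re = q.re + x * (u.re - q.re) + y * (w.re - q.re))
    (hi : z.im = q.im + x * (u.im - q.im) + y * (w.im - q.im)) :
    Dt u w z = (1 - x - y) * Dt u w q := by
  unfold Dt
  rw [hr, hi]
  ring

/-- Lemma B -/
theorem Kite.lemmaB (hf : IsRAC H f) (hk : Kite H f u u' w w' q) (huv : H.Adj u v) {s t : ℝ}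
    (hs : 0 < s) (ht : 0 < t)
    (hr : (f v).re - (f u).re = s * (q.re - (f u).re) + t * ((f w).re - (f u).re))
    (hi : (f v).im - (f u).im = s * (q.im - (f u).im) + t * ((f w).im - (f u).im)) :
    Tri q (f u) (f w) (f v) := by
  obtain ⟨X, Y, E, F, a, b, hd, hn, hT, -, -, -, hun, -⟩ := hk.coords hf
  have h1 := hun (f v) (1 - s - t) t (by linarith) (by linarith)
  rw [hT]
  have h2 := KN.lemmaB hd hn huv (by rw [h1.2]; exact ht)
    (by rw [h1.1, h1.2]; linarith)
  refine ⟨h2, ?_, ?_⟩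
  · rw [h1.2]; exact ht
  · rw [h1.1, h1.2]; linarith

/-- Lemma A -/
theorem Kite.lemmaA (hf : IsRAC H f) (hk : Kite H f u u' w w' q) (hv : H.Adj v v')
    (hT : Tri q (f u) (f w) (f v)) :
    v' = u ∨ v' = w ∨ Tri q (f u) (f w) (f v') ∨ Tri q (f u) (f w') (f v') ∨
      Tri q (f w) (f u') (f v') ∨
      (Dt (f u) (f w) (f v') * Dt (f u) (f w) q < 0 ∧
        ∃ z, z ∈ openSegment ℝ (f v) (f v') ∧ z ∈ openSegment ℝ (f u) (f w)) := by
  obtain ⟨X, Y, E, F, a, b, hd, hn, hT1, hT2, hT3, hdec, hun, hD⟩ := hk.coords hf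
  rw [hT1] at hT
  rcases KN.lemmaA hd hn hv hT.1 hT.2.1 hT.2.2 with h | h | h | h | h | ⟨h, s, t, hs0, hs1, ht0,
    ht1, hx, hy⟩
  · exact Or.inl h
  · exact Or.inr (Or.inl h)
  · exact Or.inr (Or.inr (Or.inl ((hT1 _).2 h)))
  · exact Or.inr (Or.inr (Or.inr (Or.inl ((hT2 _).2 h))))
  · exact Or.inr (Or.inr (Or.inr (Or.inr (Or.inl ((hT3 _).2 h)))))
  · refine Or.inr (Or.inr (Or.inr (Or.inr (Or.inr ⟨?_, ?_⟩))))
    · have h1 := Dt_coords (hdec (f v')).1 (hdec (f v')).2
      rw [h1]
      have h2 : 0 < Dt (f u) (f w) q ^ 2 := by positivity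
      have h3 : (1 - X (f v') - Y (f v')) < 0 := by linarith
      have := mul_neg_of_neg_of_pos h3 h2
      linarith
    · refine ⟨⟨(1 - s) * (f v).re + s * (f v').re, (1 - s) * (f v).im + s * (f v').im⟩, ?_, ?_⟩
      · rw [mem_openSegment_iff]
        exact ⟨s, hs0, hs1, rfl, rfl⟩
      · rw [mem_openSegment_iff]
        refine ⟨t, ht0, ht1, ?_, ?_⟩
        · simp only
          rw [(hdec (f v)).1, (hdec (f v')).1]
          linear_combination ((f u).re - q.re) * hx + ((f w).re - q.re) * hy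
        · simp only
          rw [(hdec (f v)).2, (hdec (f v')).2]
          linear_combination ((f u).im - q.im) * hx + ((f w).im - q.im) * hy

/-- Lemma C -/
theorem Kite.lemmaC (hf : IsRAC H f) (hk : Kite H f u u' w w' q) (hv : H.Adj v v') {z : ℂ}
    (hz1 : z ∈ openSegment ℝ (f v) (f v')) (hz2 : z ∈ openSegment ℝ (f u) (f w))
    (hD : 0 < Dt (f u) (f w) (f v') * Dt (f u) (f w) q) : Tri q (f u) (f w) (f v') := by
  obtain ⟨X, Y, E, F, a, b, hd, hn, hT1, -, -, hdec, hun, hD0⟩ := hk.coords hf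
  obtain ⟨s, hs0, hs1, hs2, hs3⟩ := mem_openSegment_iff.1 hz1
  obtain ⟨t, ht0, ht1, ht2, ht3⟩ := mem_openSegment_iff.1 hz2
  have hlt : X (f v') + Y (f v') < 1 := by
    rw [Dt_coords (hdec (f v')).1 (hdec (f v')).2] at hD
    by_contra hcon
    push Not at hcon
    have h2 : 0 ≤ Dt (f u) (f w) q ^ 2 := by positivity
    have : (1 - X (f v') - Y (f v')) * Dt (f u) (f w) q ^ 2 ≤ 0 :=
      mul_nonpos_of_nonpos_of_nonneg (by linarith) h2
    linarith
  have e1 := hun z ((1 - s) * X (f v) + s * X (f v')) ((1 - s) * Y (f v) + s * Y (f v'))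
    (by rw [hs2]; linear_combination (1 - s) * (hdec (f v)).1 + s * (hdec (f v')).1)
    (by rw [hs3]; linear_combination (1 - s) * (hdec (f v)).2 + s * (hdec (f v')).2)
  have e2 := hun z (1 - t) t (by rw [ht2]; ring) (by rw [ht3]; ring)
  have h3 := KN.lemmaC hd hn hv hs0 hs1 ht0 ht1 (by rw [← e1.1, e2.1])
    (by rw [← e1.2, e2.2]) hlt
  rw [hT1]
  exact ⟨h3.1, h3.2, hlt⟩

end

end Pool.Agent.Helper18.RAC
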