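import Pool.Agent.Helper18.RAC.Defs

/-!
# Kites in adapted coordinates

`ADraw H X Y E F`: a straight-line RAC drawing in affine coordinates with respect to two
perpendicular vectors of squared lengths `E` and `F`.
-/

set_option autoImplicit false

namespace Pool.Agent.Helper18.RAC

variable {V : Type*}

theorem ne_of_right {u v x y : V} (h1 : v ≠ x) (h2 : v ≠ y) : s(u, v) ≠ s(x, y) := by
  intro h
  rcases Sym2.eq_iff.1 h with h | h
  · exact h2 h.2
  · exact h1 h.2

theorem ne_of_left {u v x y : V} (h1 : u ≠ x) (h2 : u ≠ y) : s(u, v) ≠ s(x, y) := by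
  intro h
  rcases Sym2.eq_iff.1 h with h | h
  · exact h1 h.1
  · exact h2 h.1

/-- RAC drawing in affine coordinates -/
structure ADraw (H : SimpleGraph V) (X Y : V → ℝ) (E F : ℝ) : Prop where
  E_pos : 0 < E
  F_pos : 0 < F
  vtx : ∀ u v w, H.Adj u v → w ≠ u → w ≠ v → ∀ t : ℝ, 0 ≤ t → t ≤ 1 →
    X w = (1 - t) * X u + t * X v → Y w = (1 - t) * Y u + t * Y v → False
  crs : ∀ u v x y, H.Adj u v → H.Adj x y → s(u, v) ≠ s(x, y) → ∀ s t : ℝ, 0 < s → s < 1 →
    0 < t → t < 1 → (1 - s) * X u + s * X v = (1 - t) * X x + t * X y →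
    (1 - s) * Y u + s * Y v = (1 - t) * Y x + t * Y y →
    E * ((X v - X u) * (X y - X x)) + F * ((Y v - Y u) * (Y y - Y x)) = 0

/-- a kite with diagonals `u u'` and `w w'` on the coordinate axes -/
structure KN (H : SimpleGraph V) (X Y : V → ℝ) (a b : ℝ) (u u' w w' : V) : Prop where
  a_pos : 0 < a
  b_pos : 0 < b
  Xu : X u = 1
  Yu : Y u = 0
  Xu' : X u' = -a
  Yu' : Y u' = 0
  Xw : X w = 0
  Yw : Y w = 1
  Xw' : X w' = 0
  Yw' : Y w' = -b
  uu' : H.Adj u u'
  ww' : H.Adj w w'
  uw : H.Adj u w
  uw' : H.Adj u w'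
  u'w : H.Adj u' w

section

variable {H : SimpleGraph V} {X Y : V → ℝ} {E F a b : ℝ} {u u' w w' v v' : V}

/-- the drawing with the coordinates exchanged -/
theorem ADraw.swap (h : ADraw H X Y E F) : ADraw H Y X F E where
  E_pos := h.F_pos
  F_pos := h.E_pos
  vtx := fun u v w huv h1 h2 t h3 h4 h5 h6 => h.vtx u v w huv h1 h2 t h3 h4 h6 h5
  crs := fun u v x y huv hxy hne s t h1 h2 h3 h4 h5 h6 => by
    have := h.crs u v x y huv hxy hne s t h1 h2 h3 h4 h6 h5
    linarith

theorem KN.swap (h : KN H X Y a b u u' w w') : KN H Y X b a w w' u u' where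
  a_pos := h.b_pos
  b_pos := h.a_pos
  Xu := h.Yw
  Yu := h.Xw
  Xu' := h.Yw'
  Yu' := h.Xw'
  Xw := h.Yu
  Yw := h.Xu
  Xw' := h.Yu'
  Yw' := h.Xu'
  uu' := h.ww'
  ww' := h.uu'
  uw := h.uw.symm
  uw' := h.u'w.symm
  u'w := h.uw'.symm

/-- an edge which meets the diagonal `w w'` in an interior point of both, at ordinate `y` -/
theorem KN.cross_w (hd : ADraw H X Y E F) (hk : KN H X Y a b u u' w w') (hv : H.Adj v v')
    (hne : s(v, v') ≠ s(w, w')) {s y : ℝ} (hs0 : 0 < s) (hs1 : s < 1)
    (hx : (1 - s) * X v + s * X v' = 0) (hy : (1 - s) * Y v + s * Y v' = y) (h1 : -b < y)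
    (h2 : y < 1) : Y v' = Y v := by
  have hb := hk.b_pos
  have h3 := hd.crs v v' w w' hv hk.ww' hne s ((1 - y) / (1 + b)) hs0 hs1
    (div_pos (by linarith) (by linarith)) ((div_lt_one (by linarith)).2 (by linarith))
    (by rw [hx, hk.Xw, hk.Xw']; ring) (by rw [hy, hk.Yw, hk.Yw']; field_simp; ring)
  rw [hk.Xw, hk.Xw', hk.Yw, hk.Yw'] at h3
  have h4 : F * (1 + b) * (Y v' - Y v) = 0 := by linarith
  have h5 : F * (1 + b) ≠ 0 := mul_ne_zero hd.F_pos.ne' (by linarith)
  have h6 := (mul_eq_zero.1 h4).resolve_left h5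
  linarith

/-- an edge which meets the diagonal `u u'` in an interior point of both -/
theorem KN.cross_u (hd : ADraw H X Y E F) (hk : KN H X Y a b u u' w w') (hv : H.Adj v v')
    (hne : s(v, v') ≠ s(u, u')) {s x : ℝ} (hs0 : 0 < s) (hs1 : s < 1)
    (hx : (1 - s) * X v + s * X v' = x) (hy : (1 - s) * Y v + s * Y v' = 0) (h1 : -a < x)
    (h2 : x < 1) : X v' = X v :=
  KN.cross_w hd.swap hk.swap hv hne hs0 hs1 hy hx h1 h2

/-- an edge which meets the side `u w` in an interior point of both -/
theorem KN.cross_s (hd : ADraw H X Y E F) (hk : KN H X Y a b u u' w w') (hv : H.Adj v v')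
    (hne : s(v, v') ≠ s(u, w)) {s t : ℝ} (hs0 : 0 < s) (hs1 : s < 1) (ht0 : 0 < t) (ht1 : t < 1)
    (hx : (1 - s) * X v + s * X v' = 1 - t) (hy : (1 - s) * Y v + s * Y v' = t) :
    E * (X v' - X v) = F * (Y v' - Y v) := by
  have h3 := hd.crs v v' u w hv hk.uw hne s t hs0 hs1 ht0 ht1
    (by rw [hx, hk.Xu, hk.Xw]; ring) (by rw [hy, hk.Yu, hk.Yw]; ring)
  rw [hk.Xw, hk.Xu, hk.Yw, hk.Yu] at h3
  linarith

/-- no vertex in the interior of the diagonal `w w'` -/
theorem KN.not_on_w (hd : ADraw H X Y E F) (hk : KN H X Y a b u u' w w') (hx : X v = 0)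
    (h1 : -b < Y v) (h2 : Y v < 1) : False := by
  have hb := hk.b_pos
  refine hd.vtx w w' v hk.ww' ?_ ?_ ((1 - Y v) / (1 + b)) (div_nonneg (by linarith) (by linarith))
    ((div_le_one (by linarith)).2 (by linarith)) ?_ ?_
  · rintro rfl; rw [hk.Yw] at h2; exact lt_irrefl _ h2
  · rintro rfl; rw [hk.Yw'] at h1; exact lt_irrefl _ h1
  · rw [hx, hk.Xw, hk.Xw']; ring
  · rw [hk.Yw, hk.Yw']; field_simp; ring

theorem KN.not_on_u (hd : ADraw H X Y E F) (hk : KN H X Y a b u u' w w') (hy : Y v = 0)
    (h1 : -a < X v) (h2 : X v < 1) : False :=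
  KN.not_on_w hd.swap hk.swap hy h1 h2

/-- Lemma B: an edge from the corner `u` which starts inside the cell ends inside the cell. -/
theorem KN.lemmaB (hd : ADraw H X Y E F) (hk : KN H X Y a b u u' w w') (huv : H.Adj u v)
    (hY : 0 < Y v) (hXY : X v + Y v < 1) : 0 < X v := by
  have hb := hk.b_pos
  by_contra hX
  push Not at hX
  have hYX : Y v < 1 - X v := by linarith
  rcases hX.lt_or_eq with hX | hX
  · have hvw : v ≠ w := by rintro rfl; rw [hk.Xw] at hX; exact lt_irrefl _ hX
    have hvw' : v ≠ w' := by rintro rfl; rw [hk.Xw'] at hX; exact lt_irrefl _ hX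
    have h1 : 0 < 1 - X v := by linarith
    have h2 := KN.cross_w hd hk huv (ne_of_right hvw hvw') (s := 1 / (1 - X v))
      (y := Y v / (1 - X v)) (by positivity) (by rw [div_lt_one h1]; linarith)
      (by rw [hk.Xu]; field_simp; ring) (by rw [hk.Yu]; field_simp; ring)
      (by have : 0 < Y v / (1 - X v) := by positivity
          linarith)
      (by rw [div_lt_one h1]; exact hYX)
    rw [hk.Yu] at h2
    linarith
  · exact KN.not_on_w hd hk hX (by linarith) (by linarith)

/-- Lemma C: an edge which crosses the side `u w` ends inside the cell. -/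
theorem KN.lemmaC (hd : ADraw H X Y E F) (hk : KN H X Y a b u u' w w') (hv : H.Adj v v')
    {s t : ℝ} (hs0 : 0 < s) (hs1 : s < 1) (ht0 : 0 < t) (ht1 : t < 1)
    (hx : (1 - s) * X v + s * X v' = 1 - t) (hy : (1 - s) * Y v + s * Y v' = t)
    (hlt : X v' + Y v' < 1) : 0 < X v' ∧ 0 < Y v' := by
  have ha := hk.a_pos
  have hb := hk.b_pos
  have hE := hd.E_pos
  have hF := hd.F_pos
  -- the endpoints are not corners of the side
  have hgt : 1 < X v + Y v := by
    by_contra hcon
    push Not at hcon
    have : (1 - s) * (X v + Y v) + s * (X v' + Y v') < 1 := by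
      nlinarith
    linarith
  have hv'u : v' ≠ u := by rintro rfl; rw [hk.Xu, hk.Yu] at hlt; linarith
  have hv'w : v' ≠ w := by rintro rfl; rw [hk.Xw, hk.Yw] at hlt; linarith
  have hdir := KN.cross_s hd hk hv (ne_of_right hv'u hv'w) hs0 hs1 ht0 ht1 hx hy
  have hvu : v ≠ u := by rintro rfl; rw [hk.Xu, hk.Yu] at hgt; linarith
  have hvw : v ≠ w := by rintro rfl; rw [hk.Xw, hk.Yw] at hgt; linarith
  have hvu' : v ≠ u' := by rintro rfl; rw [hk.Xu', hk.Yu'] at hgt; linarith
  have hvw' : v ≠ w' := by rintro rfl; rw [hk.Xw', hk.Yw'] at hgt; linarith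
  have hdX : X v' < X v := by
    by_contra hcon
    push Not at hcon
    have h1 : 0 ≤ F * (Y v' - Y v) := by rw [← hdir]; exact mul_nonneg hE.le (by linarith)
    have h2 : 0 ≤ Y v' - Y v := by
      by_contra h3
      push Not at h3
      have := mul_neg_of_pos_of_neg hF h3
      linarith
    linarith
  have hdY : Y v' < Y v := by
    have h1 : F * (Y v' - Y v) < 0 := by rw [← hdir]; exact mul_neg_of_pos_of_neg hE (by linarith)
    by_contra hcon
    push Not at hcon
    have := mul_nonneg hF.le (sub_nonneg.2 hcon)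
    linarith
  -- coordinates of the crossing point are positive, so are those of `v`
  have hXv : 1 - t < X v := by
    have : (1 - s) * X v + s * X v' < X v := by nlinarith
    linarith
  have hYv : t < Y v := by
    have : (1 - s) * Y v + s * Y v' < Y v := by nlinarith
    linarith
  have hX't : X v' < 1 - t := by
    have : X v' < (1 - s) * X v + s * X v' := by nlinarith
    linarith
  have hY't : Y v' < t := by
    have : Y v' < (1 - s) * Y v + s * Y v' := by nlinarith
    linarith
  -- step 1: `Y v' ≤ 0` and the point on the axis `Y = 0` has positive abscissa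
  have stepU : Y v' ≤ 0 → ∀ x, (0 ≤ x ∧ x < 1) →
      (Y v - Y v') * x = Y v * X v' - Y v' * X v → False := by
    intro hY' x hx01 hxe
    rcases hY'.lt_or_eq with hY' | hY'
    · have hv'u' : v' ≠ u' := by rintro rfl; rw [hk.Yu'] at hY'; exact lt_irrefl _ hY'
      have hpos : 0 < Y v - Y v' := by linarith
      have := KN.cross_u hd hk hv (ne_of_left hvu hvu') (s := Y v / (Y v - Y v')) (x := x)
        (div_pos (by linarith) hpos) (by rw [div_lt_one hpos]; linarith)
        (by field_simp; linarith) (by field_simp; ring) (by linarith [hx01.1]) hx01.2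
      linarith
    · have hx' : x = X v' := by
        rw [hY'] at hxe
        have : Y v * (x - X v') = 0 := by linarith
        have h0 : Y v ≠ 0 := by linarith
        have := (mul_eq_zero.1 this).resolve_left h0
        linarith
      exact KN.not_on_u hd hk hY' (by rw [← hx']; linarith [hx01.1]) (by rw [← hx']; exact hx01.2)
  have stepW : X v' ≤ 0 → ∀ y, (0 ≤ y ∧ y < 1) →
      (X v - X v') * y = X v * Y v' - X v' * Y v → False := by
    intro hX' y hy01 hye
    rcases hX'.lt_or_eq with hX' | hX'
    · have hpos : 0 < X v - X v' := by linarith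
      have := KN.cross_w hd hk hv (ne_of_left hvw hvw') (s := X v / (X v - X v')) (y := y)
        (div_pos (by linarith) hpos) (by rw [div_lt_one hpos]; linarith)
        (by field_simp; ring) (by field_simp; linarith) (by linarith [hy01.1]) hy01.2
      linarith
    · have hy' : y = Y v' := by
        rw [hX'] at hye
        have : X v * (y - Y v') = 0 := by linarith
        have h0 : X v ≠ 0 := by linarith
        have := (mul_eq_zero.1 this).resolve_left h0
        linarith
      exact KN.not_on_w hd hk hX' (by rw [← hy']; linarith [hy01.1]) (by rw [← hy']; exact hy01.2)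
  -- abscissa of the point on the axis `Y = 0`
  rcases le_or_gt (Y v') 0 with hY' | hY'
  · exfalso
    have hpos : 0 < Y v - Y v' := by linarith
    by_cases hD : 0 ≤ Y v * X v' - Y v' * X v
    · refine stepU hY' ((Y v * X v' - Y v' * X v) / (Y v - Y v')) ⟨div_nonneg hD hpos.le, ?_⟩
        (by field_simp)
      rw [div_lt_one hpos]
      -- the point at `Y = 0` is beyond the crossing point
      have h1 : Y v * X v' - Y v' * X v < (Y v - Y v') * (1 - t) := by
        have e1 : (1 - t) = (1 - s) * X v + s * X v' := hx.symm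
        have e2 : t = (1 - s) * Y v + s * Y v' := hy.symm
        have e3 : (Y v - Y v') * (1 - t) - (Y v * X v' - Y v' * X v) = t * (X v - X v') := by
          rw [e1, e2]; ring
        have : 0 < t * (X v - X v') := mul_pos ht0 (by linarith)
        linarith
      nlinarith
    · push Not at hD
      -- then `X v' < 0` and the point at `X = 0` has positive ordinate
      have hX' : X v' < 0 := by
        by_contra hcon
        push Not at hcon
        have h1 : 0 ≤ Y v * X v' := mul_nonneg (by linarith) hcon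
        have h2 : 0 ≤ -(Y v' * X v) := by
          have := mul_nonneg (neg_nonneg.2 hY') (show 0 ≤ X v by linarith)
          linarith
        linarith
      have hposX : 0 < X v - X v' := by linarith
      refine stepW hX'.le ((X v * Y v' - X v' * Y v) / (X v - X v')) ⟨?_, ?_⟩ (by field_simp)
      · exact div_nonneg (by linarith) hposX.le
      · rw [div_lt_one hposX]
        have e3 : (X v - X v') * t - (X v * Y v' - X v' * Y v) = (1 - t) * (Y v - Y v') := by
          have e1 : (1 - t) = (1 - s) * X v + s * X v' := hx.symm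
          have e2 : t = (1 - s) * Y v + s * Y v' := hy.symm
          rw [e1]
          nth_rewrite 1 [e2]
          ring
        have : 0 < (1 - t) * (Y v - Y v') := mul_pos (by linarith) (by linarith)
        nlinarith
  · refine ⟨?_, hY'⟩
    by_contra hX'
    push Not at hX'
    have hposX : 0 < X v - X v' := by linarith
    have hD : 0 ≤ X v * Y v' - X v' * Y v := by
      have h1 : 0 ≤ X v * Y v' := mul_nonneg (by linarith) hY'.le
      have h2 : 0 ≤ -(X v' * Y v) := by
        have := mul_nonneg (neg_nonneg.2 hX') (show 0 ≤ Y v by linarith)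
        linarith
      linarith
    refine stepW hX' ((X v * Y v' - X v' * Y v) / (X v - X v')) ⟨div_nonneg hD hposX.le, ?_⟩
      (by field_simp)
    rw [div_lt_one hposX]
    have e3 : (X v - X v') * t - (X v * Y v' - X v' * Y v) = (1 - t) * (Y v - Y v') := by
      have e1 : (1 - t) = (1 - s) * X v + s * X v' := hx.symm
      have e2 : t = (1 - s) * Y v + s * Y v' := hy.symm
      rw [e1]
      nth_rewrite 1 [e2]
      ring
    have : 0 < (1 - t) * (Y v - Y v') := mul_pos (by linarith) (by linarith)
    nlinarith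

/-- Lemma A, first case: an edge from inside the cell which leaves the upper half plane is
vertical and ends in the cell below. -/
theorem KN.lemmaA1 (hd : ADraw H X Y E F) (hk : KN H X Y a b u u' w w') (hv : H.Adj v v')
    (hX : 0 < X v) (hY : 0 < Y v) (hXY : X v + Y v < 1) (hY' : Y v' < 0) :
    X v' = X v ∧ b * X v' - Y v' < b := by
  have ha := hk.a_pos
  have hb := hk.b_pos
  have hE := hd.E_pos
  have hF := hd.F_pos
  have hv'u : v' ≠ u := by rintro rfl; rw [hk.Yu] at hY'; linarith
  have hv'u' : v' ≠ u' := by rintro rfl; rw [hk.Yu'] at hY'; linarith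
  have hvu : v ≠ u := by rintro rfl; rw [hk.Yu] at hY; linarith
  have hvw : v ≠ w := by rintro rfl; rw [hk.Xw] at hX; linarith
  have hvw' : v ≠ w' := by rintro rfl; rw [hk.Xw'] at hX; linarith
  have hv'w : v' ≠ w := by rintro rfl; rw [hk.Yw] at hY'; linarith
  have hpos : 0 < Y v - Y v' := by linarith
  -- abscissa at which the edge crosses the axis
  set x1 : ℝ := (Y v * X v' - Y v' * X v) / (Y v - Y v') with hx1
  have hx1e : (Y v - Y v') * x1 = Y v * X v' - Y v' * X v := by rw [hx1]; field_simp
  rcases le_or_gt x1 0 with h0 | h0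
  · -- crosses the diagonal `w w'`
    exfalso
    have h1 : Y v * X v' - Y v' * X v ≤ 0 := by
      rw [← hx1e]; exact mul_nonpos_of_nonneg_of_nonpos hpos.le h0
    have hX' : X v' < 0 := by
      by_contra hcon
      push Not at hcon
      have h2 : 0 ≤ Y v * X v' := mul_nonneg hY.le hcon
      have h3 : 0 < -(Y v' * X v) := by
        have := mul_pos (neg_pos.2 hY') hX
        linarith
      linarith
    have hposX : 0 < X v - X v' := by linarith
    have h4 := KN.cross_w hd hk hv (ne_of_left hvw hvw') (s := X v / (X v - X v'))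
      (y := (X v * Y v' - X v' * Y v) / (X v - X v'))
      (div_pos hX hposX) (by rw [div_lt_one hposX]; linarith)
      (by field_simp; ring) (by field_simp; ring)
      (by have : 0 ≤ (X v * Y v' - X v' * Y v) / (X v - X v') :=
            div_nonneg (by linarith) hposX.le
          linarith)
      (by rw [div_lt_one hposX]
          have e : (X v - X v') - (X v * Y v' - X v' * Y v) =
            X v * (1 - Y v') + (- X v') * (1 - Y v) := by ring
          have := mul_pos hX (show 0 < 1 - Y v' by linarith)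
          have := mul_pos (neg_pos.2 hX') (show 0 < 1 - Y v by linarith)
          linarith)
    linarith
  rcases lt_or_ge x1 1 with h1 | h1
  · -- crosses the diagonal `u u'`
    have hXe := KN.cross_u hd hk hv (ne_of_right hv'u hv'u') (s := Y v / (Y v - Y v')) (x := x1)
      (div_pos hY hpos) (by rw [div_lt_one hpos]; linarith)
      (by field_simp; linarith) (by field_simp; ring) (by linarith) h1
    refine ⟨hXe, ?_⟩
    by_contra hcon
    push Not at hcon
    have hX1 : X v < 1 := by linarith
    have hv'w' : v' ≠ w' := by rintro rfl; rw [hk.Xw'] at hXe; linarith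
    rcases hcon.lt_or_eq with hcon | hcon
    · -- crosses `u w'`
      have hs1 : Y v + b * (1 - X v) < Y v - Y v' := by rw [hXe] at hcon; linarith
      have hs0 : 0 < Y v + b * (1 - X v) := by
        have := mul_pos hb (show 0 < 1 - X v by linarith)
        linarith
      have h3 := hd.crs v v' u w' hv hk.uw' (ne_of_right hv'u hv'w')
        ((Y v + b * (1 - X v)) / (Y v - Y v')) (1 - X v)
        (div_pos hs0 hpos) (by rw [div_lt_one hpos]; exact hs1) (by linarith) (by linarith)
        (by rw [hXe, hk.Xu, hk.Xw']; ring)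
        (by rw [hk.Yu, hk.Yw']; field_simp; ring)
      rw [hXe, sub_self, zero_mul, mul_zero, zero_add, hk.Yu, hk.Yw'] at h3
      have : F * ((Y v' - Y v) * (-b - 0)) > 0 := by
        have := mul_pos hF (mul_pos hpos hb)
        nlinarith
      linarith
    · refine hd.vtx u w' v' hk.uw' hv'u hv'w' (1 - X v') (by linarith) (by linarith) ?_ ?_
      · rw [hk.Xu, hk.Xw']; ring
      · rw [hk.Yu, hk.Yw']; linarith
  · -- crosses the side `u w`
    exfalso
    have h2 : Y v - Y v' ≤ Y v * X v' - Y v' * X v := by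
      rw [← hx1e]; nlinarith
    have hX' : 1 < X v' := by
      by_contra hcon
      push Not at hcon
      have e1 : Y v * X v' ≤ Y v * 1 := mul_le_mul_of_nonneg_left hcon hY.le
      have e2 : -Y v' * X v < -Y v' * 1 := mul_lt_mul_of_pos_left (by linarith) (by linarith)
      linarith
    have hg : 0 < (X v' + Y v') - (X v + Y v) := by
      -- the sum increases along the edge
      by_contra hcon
      push Not at hcon
      have e1 : Y v * (X v' + Y v' - (X v + Y v)) ≤ 0 :=
        mul_nonpos_of_nonneg_of_nonpos hY.le hcon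
      have e2 : (Y v - Y v') * (X v + Y v) < (Y v - Y v') * 1 :=
        mul_lt_mul_of_pos_left hXY hpos
      nlinarith
    have hg1 : 1 < X v' + Y v' := by
      -- as at the axis the sum is at least one
      by_contra hcon
      push Not at hcon
      have e1 : Y v * (X v' + Y v') + (-Y v') * (X v + Y v) ≤ Y v * 1 + (-Y v') * (X v + Y v) :=
        add_le_add_left (mul_le_mul_of_nonneg_left hcon hY.le) _
      have e2 : (-Y v') * (X v + Y v) < (-Y v') * 1 :=
        mul_lt_mul_of_pos_left hXY (by linarith)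
      nlinarith
    set g0 := X v + Y v with hg0
    set g1 := X v' + Y v' with hg1'
    set y3 : ℝ := (g1 - 1) / (g1 - g0) * Y v + (1 - g0) / (g1 - g0) * Y v' with hy3
    have hy3n : 0 ≤ y3 := by
      have : y3 = ((g1 - 1) * Y v + (1 - g0) * Y v') / (g1 - g0) := by rw [hy3]; ring
      rw [this]
      refine div_nonneg ?_ hg.le
      rw [hg0, hg1']
      nlinarith
    have hs0 : 0 < (1 - g0) / (g1 - g0) := div_pos (by linarith) hg
    have hs1 : (1 - g0) / (g1 - g0) < 1 := by rw [div_lt_one hg]; linarith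
    have hsy : (1 - (1 - g0) / (g1 - g0)) * Y v + (1 - g0) / (g1 - g0) * Y v' = y3 := by
      rw [hy3]; field_simp; ring
    have hsx : (1 - (1 - g0) / (g1 - g0)) * X v + (1 - g0) / (g1 - g0) * X v' = 1 - y3 := by
      rw [← hsy]
      have : (1 - (1 - g0) / (g1 - g0)) * g0 + (1 - g0) / (g1 - g0) * g1 = 1 := by
        field_simp; ring
      rw [hg0, hg1'] at this
      rw [hg0, hg1']
      linarith
    have hy31 : y3 < 1 := by
      have h5 : 0 < (1 - (1 - g0) / (g1 - g0)) * X v := mul_pos (by linarith) hX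
      have h6 : 0 < (1 - g0) / (g1 - g0) * X v' := mul_pos hs0 (by linarith)
      linarith
    rcases hy3n.lt_or_eq with hy3p | hy3z
    · have hdir := KN.cross_s hd hk hv (ne_of_right hv'u hv'w) hs0 hs1 hy3p hy31 hsx hsy
      have e1 : 0 < E * (X v' - X v) := mul_pos hE (by linarith)
      have e2 : F * (Y v' - Y v) < 0 := mul_neg_of_pos_of_neg hF (by linarith)
      linarith
    · -- passes through the vertex `u`
      refine hd.vtx v v' u hv (Ne.symm hvu) (Ne.symm hv'u) _ hs0.le hs1.le ?_ ?_
      · rw [hsx, hk.Xu, ← hy3z]; ring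
      · rw [hsy, hk.Yu]; exact hy3z

/-- Lemma A: where an edge from a point of the cell can end. -/
theorem KN.lemmaA (hd : ADraw H X Y E F) (hk : KN H X Y a b u u' w w') (hv : H.Adj v v')
    (hX : 0 < X v) (hY : 0 < Y v) (hXY : X v + Y v < 1) :
    v' = u ∨ v' = w ∨ (0 < X v' ∧ 0 < Y v' ∧ X v' + Y v' < 1) ∨
      (0 < X v' ∧ Y v' < 0 ∧ b * X v' - Y v' < b) ∨
      (0 < Y v' ∧ X v' < 0 ∧ a * Y v' - X v' < a) ∨
      (1 < X v' + Y v' ∧ ∃ s t : ℝ, 0 < s ∧ s < 1 ∧ 0 < t ∧ t < 1 ∧
        (1 - s) * X v + s * X v' = 1 - t ∧ (1 - s) * Y v + s * Y v' = t) := by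
  rcases lt_or_ge (Y v') 0 with hY' | hY'
  · obtain ⟨h1, h2⟩ := KN.lemmaA1 hd hk hv hX hY hXY hY'
    exact Or.inr (Or.inr (Or.inr (Or.inl ⟨by rw [h1]; exact hX, hY', h2⟩)))
  rcases lt_or_ge (X v') 0 with hX' | hX'
  · obtain ⟨h1, h2⟩ := KN.lemmaA1 hd.swap hk.swap hv hY hX (by linarith) hX'
    exact Or.inr (Or.inr (Or.inr (Or.inr (Or.inl ⟨by rw [h1]; exact hY, hX', h2⟩))))
  rcases lt_trichotomy (X v' + Y v') 1 with h | h | h
  · rcases hX'.lt_or_eq with hX'' | hX''
    · rcases hY'.lt_or_eq with hY'' | hY''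
      · exact Or.inr (Or.inr (Or.inl ⟨hX'', hY'', h⟩))
      · exact (KN.not_on_u hd hk hY''.symm (by linarith [hk.a_pos]) (by linarith)).elim
    · exact (KN.not_on_w hd hk hX''.symm (by linarith [hk.b_pos]) (by linarith)).elim
  · by_cases h1 : v' = u
    · exact Or.inl h1
    by_cases h2 : v' = w
    · exact Or.inr (Or.inl h2)
    exfalso
    refine hd.vtx u w v' hk.uw h1 h2 (Y v') hY' (by linarith) ?_ ?_
    · rw [hk.Xu, hk.Xw]; linarith
    · rw [hk.Yu, hk.Yw]; linarith
  · refine Or.inr (Or.inr (Or.inr (Or.inr (Or.inr ⟨h, ?_⟩))))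
    have hg : 0 < (X v' + Y v') - (X v + Y v) := by linarith
    set g0 := X v + Y v with hg0
    set g1 := X v' + Y v' with hg1'
    have hs0 : 0 < (1 - g0) / (g1 - g0) := div_pos (by linarith) hg
    have hs1 : (1 - g0) / (g1 - g0) < 1 := by rw [div_lt_one hg]; linarith
    have hsum : (1 - (1 - g0) / (g1 - g0)) * g0 + (1 - g0) / (g1 - g0) * g1 = 1 := by
      field_simp; ring
    have h5 : 0 < (1 - (1 - g0) / (g1 - g0)) * X v := mul_pos (by linarith) hX
    have h6 : 0 ≤ (1 - g0) / (g1 - g0) * X v' := mul_nonneg hs0.le hX'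
    have h7 : 0 < (1 - (1 - g0) / (g1 - g0)) * Y v := mul_pos (by linarith) hY
    have h8 : 0 ≤ (1 - g0) / (g1 - g0) * Y v' := mul_nonneg hs0.le hY'
    rw [hg0, hg1'] at hsum
    refine ⟨(1 - g0) / (g1 - g0),
      (1 - (1 - g0) / (g1 - g0)) * Y v + (1 - g0) / (g1 - g0) * Y v', hs0, hs1, by linarith, ?_,
      ?_, rfl⟩
    · rw [hg0, hg1'] at *
      linarith
    · rw [hg0, hg1'] at *
      linarith

end

end Pool.Agent.Helper18.RAC
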