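import Pool.Agent.Helper18.RAC.Ear
import Pool.Agent.Helper18.RAC.Count

/-!
# The sparse maximal graphs
-/

set_option autoImplicit false

open Complex

namespace Pool.Agent.Helper18.RAC

/-- the vertices: two hubs, the path and the hermits -/
structure Lay {V : Type*} (a b : V) (p t : ℕ → V) (m h : ℕ) : Prop where
  ab : a ≠ b
  pa : ∀ j < m, p j ≠ a
  pb : ∀ j < m, p j ≠ b
  ta : ∀ i < h, t i ≠ a
  tb : ∀ i < h, t i ≠ b
  tp : ∀ i < h, ∀ j < m, t i ≠ p j
  pinj : ∀ i < m, ∀ j < m, p i = p j → i = j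
  tinj : ∀ i < h, ∀ j < h, t i = t j → i = j
  cov : ∀ v, v = a ∨ v = b ∨ (∃ j < m, v = p j) ∨ (∃ i < h, v = t i)
  hm : ∀ i < h, 4 * (i / 3) + 3 < m

section

variable {V : Type*} {a b : V} {p t : ℕ → V} {m h : ℕ}

/-- the first neighbour of a hermit -/
def Y1 (p : ℕ → V) (i : ℕ) : V := p (4 * (i / 3) + i % 3)

/-- the second neighbour of a hermit -/
def Y2 (a b : V) (p : ℕ → V) (i : ℕ) : V :=
  if i % 3 = 0 then b else if i % 3 = 1 then a else p (4 * (i / 3) + 3)

/-- the core with the first `k` hermits -/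
def GG (a b : V) (p t : ℕ → V) (m : ℕ) : ℕ → SimpleGraph V
  | 0 => SimpleGraph.fromEdgeSet (coreE a b p m)
  | k + 1 => GG a b p t m k ⊔ SimpleGraph.edge (Y1 p k) (t k) ⊔
      SimpleGraph.edge (Y2 a b p k) (t k)

theorem GG_adj (k : ℕ) (u v : V) : (GG a b p t m k).Adj u v ↔
    (SimpleGraph.fromEdgeSet (coreE a b p m)).Adj u v ∨
      ∃ i < k, (s(u, v) = s(Y1 p i, t i) ∨ s(u, v) = s(Y2 a b p i, t i)) ∧ u ≠ v := by
  induction k with
  | zero => simp [GG]
  | succ k ih =>
    simp only [GG, SimpleGraph.sup_adj, SimpleGraph.edge_adj, ih]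
    constructor
    · rintro (((h1 | ⟨i, hi, h1⟩) | ⟨h1, h2⟩) | ⟨h1, h2⟩)
      · exact Or.inl h1
      · exact Or.inr ⟨i, by omega, h1⟩
      · exact Or.inr ⟨k, by omega, Or.inl (Sym2.eq_iff.2 h1), h2⟩
      · exact Or.inr ⟨k, by omega, Or.inr (Sym2.eq_iff.2 h1), h2⟩
    · rintro (h1 | ⟨i, hi, h1, h2⟩)
      · exact Or.inl (Or.inl (Or.inl h1))
      · rcases Nat.lt_succ_iff_lt_or_eq.1 hi with h3 | rfl
        · exact Or.inl (Or.inl (Or.inr ⟨i, h3, h1, h2⟩))
        · rcases h1 with h1 | h1
          · exact Or.inl (Or.inr ⟨Sym2.eq_iff.1 h1, h2⟩)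
          · exact Or.inr ⟨Sym2.eq_iff.1 h1, h2⟩

theorem Lay.Y1_core (hl : Lay a b p t m h) {i : ℕ} (hi : i < h) : ∃ j < m, Y1 p i = p j := by
  have := hl.hm i hi
  exact ⟨4 * (i / 3) + i % 3, by omega, rfl⟩

theorem Lay.Y2_core (hl : Lay a b p t m h) {i : ℕ} (hi : i < h) :
    Y2 a b p i = a ∨ Y2 a b p i = b ∨ ∃ j < m, Y2 a b p i = p j := by
  unfold Y2
  split_ifs
  · exact Or.inr (Or.inl rfl)
  · exact Or.inl rfl
  · exact Or.inr (Or.inr ⟨_, hl.hm i hi, rfl⟩)

theorem Lay.t_ne_core (hl : Lay a b p t m h) {i : ℕ} (hi : i < h) {v : V}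
    (hv : v = a ∨ v = b ∨ ∃ j < m, v = p j) : t i ≠ v := by
  rcases hv with rfl | rfl | ⟨j, hj, rfl⟩
  · exact hl.ta i hi
  · exact hl.tb i hi
  · exact hl.tp i hi j hj

theorem core_adj {u v : V} (huv : (SimpleGraph.fromEdgeSet (coreE a b p m)).Adj u v) :
    (u = a ∨ u = b ∨ ∃ j < m, u = p j) ∧ (v = a ∨ v = b ∨ ∃ j < m, v = p j) := by
  rw [SimpleGraph.fromEdgeSet_adj] at huv
  obtain ⟨⟨c, hc, he⟩, -⟩ := huv
  have key : (((c.ends a b p).1 = a ∨ (c.ends a b p).1 = b ∨ ∃ j < m, (c.ends a b p).1 = p j) ∧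
      ((c.ends a b p).2 = a ∨ (c.ends a b p).2 = b ∨ ∃ j < m, (c.ends a b p).2 = p j)) := by
    cases c with
    | ab => exact ⟨Or.inl rfl, Or.inr (Or.inl rfl)⟩
    | A j => exact ⟨Or.inl rfl, Or.inr (Or.inr ⟨j, hc, rfl⟩)⟩
    | B j => exact ⟨Or.inr (Or.inl rfl), Or.inr (Or.inr ⟨j, hc, rfl⟩)⟩
    | I i j => exact ⟨Or.inr (Or.inr ⟨i, hc.1.trans hc.2.2, rfl⟩), Or.inr (Or.inr ⟨j, hc.2.2, rfl⟩)⟩
  rcases Sym2.eq_iff.1 he with ⟨h1, h2⟩ | ⟨h1, h2⟩
  · rw [h1, h2]; exact key
  · rw [h1, h2]; exact key.symm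

theorem Lay.Y1_ne_Y2 (hl : Lay a b p t m h) {i : ℕ} (hi : i < h) : Y1 p i ≠ Y2 a b p i := by
  have hm := hl.hm i hi
  unfold Y1 Y2
  split_ifs with h0 h1
  · exact hl.pb _ (by omega)
  · exact hl.pa _ (by omega)
  · intro h2
    have := hl.pinj _ (by omega) _ (by omega) h2
    omega

/-- neighbours of hermits -/
theorem Lay.t_adj (hl : Lay a b p t m h) {i : ℕ} (hi : i < h) (y : V) :
    (GG a b p t m h).Adj (t i) y ↔ (y = Y1 p i ∨ y = Y2 a b p i) := by
  rw [GG_adj]
  constructor
  · rintro (h1 | ⟨i', hi', h1, -⟩)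
    · exact absurd rfl (hl.t_ne_core hi (core_adj h1).1)
    · rcases h1 with h1 | h1
      · rcases Sym2.eq_iff.1 h1 with ⟨h2, -⟩ | ⟨h2, h3⟩
        · exact absurd h2 (hl.t_ne_core hi (Or.inr (Or.inr (hl.Y1_core hi'))))
        · rw [hl.tinj i hi i' hi' h2]
          exact Or.inl h3
      · rcases Sym2.eq_iff.1 h1 with ⟨h2, -⟩ | ⟨h2, h3⟩
        · exact absurd h2 (hl.t_ne_core hi (hl.Y2_core hi'))
        · rw [hl.tinj i hi i' hi' h2]
          exact Or.inr h3
  · rintro (rfl | rfl)
    · exact Or.inr ⟨i, hi, Or.inl (Sym2.eq_swap), hl.t_ne_core hi (Or.inr (Or.inr (hl.Y1_core hi)))⟩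
    · exact Or.inr ⟨i, hi, Or.inr (Sym2.eq_swap), hl.t_ne_core hi (hl.Y2_core hi)⟩

theorem Lay.core_sub (hl : Lay a b p t m h) (k : ℕ) {c : Code} (hc : c.valid m) :
    (GG a b p t m k).Adj (c.ends a b p).1 (c.ends a b p).2 := by
  rw [GG_adj, SimpleGraph.fromEdgeSet_adj]
  refine Or.inl ⟨⟨c, hc, rfl⟩, ?_⟩
  cases c with
  | ab => exact hl.ab
  | A j => exact (hl.pa j hc).symm
  | B j => exact (hl.pb j hc).symm
  | I i j =>
    intro h1
    have h2 := hl.pinj i (hc.1.trans hc.2.2) j hc.2.2 h1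
    have h3 := hc.1
    omega

theorem Lay.isCore (hl : Lay a b p t m h) (k : ℕ) : Core (GG a b p t m k) a b p m where
  ha := fun i hi => hl.core_sub k (c := .A i) hi
  hb := fun i hi => hl.core_sub k (c := .B i) hi
  inj := hl.pinj
  h1 := fun i hi => hl.core_sub k (c := .I i (i + 1)) ⟨by omega, by omega, hi⟩
  h2 := fun i hi => hl.core_sub k (c := .I i (i + 2)) ⟨by omega, by omega, hi⟩

theorem Lay.coreV_iff (hl : Lay a b p t m h) (v : V) :
    CoreV (GG a b p t m h) a b v ↔ (v = a ∨ v = b ∨ ∃ j < m, v = p j) := by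
  have hc := hl.isCore h
  constructor
  · rintro (h1 | h1 | ⟨h1, h2⟩)
    · exact Or.inl h1
    · exact Or.inr (Or.inl h1)
    · rcases hl.cov v with h3 | h3 | h3 | ⟨i, hi, rfl⟩
      · exact Or.inl h3
      · exact Or.inr (Or.inl h3)
      · exact Or.inr (Or.inr h3)
      · exfalso
        rw [hl.t_adj hi] at h1 h2
        obtain ⟨j, hj, hy⟩ := hl.Y1_core hi
        rcases h1 with h1 | h1
        · exact hl.pa j hj (by rw [h1, hy])
        · rcases h2 with h2 | h2
          · exact hl.pb j hj (by rw [h2, hy])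
          · exact hl.ab (h1.trans h2.symm)
  · rintro (h1 | h1 | ⟨j, hj, rfl⟩)
    · exact Or.inl h1
    · exact Or.inr (Or.inl h1)
    · exact Or.inr (Or.inr ⟨(hc.ha j hj).symm, (hc.hb j hj).symm⟩)

theorem Lay.not_coreV (hl : Lay a b p t m h) {v : V} (hv : ¬ CoreV (GG a b p t m h) a b v) :
    ∃ i < h, v = t i := by
  rw [hl.coreV_iff] at hv
  rcases hl.cov v with h3 | h3 | h3 | h3
  · exact absurd (Or.inl h3) hv
  · exact absurd (Or.inr (Or.inl h3)) hv
  · exact absurd (Or.inr (Or.inr h3)) hv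
  · exact h3

/-- the path neighbours of a hermit -/
theorem Lay.t_adj_p (hl : Lay a b p t m h) {i j : ℕ} (hi : i < h) (hj : j < m)
    (hadj : (GG a b p t m h).Adj (t i) (p j)) :
    j = 4 * (i / 3) + i % 3 ∨ (i % 3 = 2 ∧ j = 4 * (i / 3) + 3) := by
  rw [hl.t_adj hi] at hadj
  have hm := hl.hm i hi
  rcases hadj with h1 | h1
  · exact Or.inl (hl.pinj j hj _ (by omega) h1)
  · unfold Y2 at h1
    split_ifs at h1 with h2 h3
    · exact absurd h1 (hl.pb j hj)
    · exact absurd h1 (hl.pa j hj)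
    · exact Or.inr ⟨by omega, hl.pinj j hj _ (by omega) h1⟩

/-- the hub neighbours of a hermit -/
theorem Lay.t_adj_hub (hl : Lay a b p t m h) {i : ℕ} (hi : i < h) :
    ((GG a b p t m h).Adj (t i) a → i % 3 = 1) ∧ ((GG a b p t m h).Adj (t i) b → i % 3 = 0) := by
  have hm := hl.hm i hi
  constructor
  · intro hadj
    rw [hl.t_adj hi] at hadj
    rcases hadj with h1 | h1
    · exact absurd h1.symm (hl.pa _ (by omega))
    · unfold Y2 at h1
      split_ifs at h1 with h2 h3
      · exact absurd h1 hl.ab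
      · exact h3
      · exact absurd h1.symm (hl.pa _ (by omega))
  · intro hadj
    rw [hl.t_adj hi] at hadj
    rcases hadj with h1 | h1
    · exact absurd h1.symm (hl.pb _ (by omega))
    · unfold Y2 at h1
      split_ifs at h1 with h2 h3
      · exact h2
      · exact absurd h1.symm hl.ab
      · exact absurd h1.symm (hl.pb _ (by omega))

theorem Lay.cfg (hl : Lay a b p t m h) : Cfg (GG a b p t m h) a b p m where
  ab := hl.core_sub h (c := .ab) trivial
  core := hl.isCore h
  nbrs := fun v hv => by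
    obtain ⟨i, hi, rfl⟩ := hl.not_coreV hv
    refine ⟨Y1 p i, Y2 a b p i, hl.Y1_ne_Y2 hi, ?_, ?_, hl.t_adj hi⟩
    · rw [hl.coreV_iff]; exact Or.inr (Or.inr (hl.Y1_core hi))
    · rw [hl.coreV_iff]; exact hl.Y2_core hi
  n1 := fun x x' j hj hx hx' h1 h2 => by
    obtain ⟨i, hi, rfl⟩ := hl.not_coreV hx
    obtain ⟨i', hi', rfl⟩ := hl.not_coreV hx'
    have e1 := hl.t_adj_p hi hj h1
    have e2 := hl.t_adj_p hi' hj h2
    have : i = i' := by omega
    rw [this]
  n2 := fun x x' j c hj hx hx' hc h1 h2 h3 h4 => by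
    obtain ⟨i, hi, rfl⟩ := hl.not_coreV hx
    obtain ⟨i', hi', rfl⟩ := hl.not_coreV hx'
    have e1 := hl.t_adj_p hi (by omega) h3
    have e2 := hl.t_adj_p hi' hj h4
    have e3 := hl.t_adj_hub hi
    have e4 := hl.t_adj_hub hi'
    rcases hc with rfl | rfl
    · have e5 := e3.1 h1
      have e6 := e4.1 h2
      omega
    · have e5 := e3.2 h1
      have e6 := e4.2 h2
      omega

/-- the graph has a RAC drawing -/
theorem Lay.rac [Finite V] (hl : Lay a b p t m h) :
    ∃ f : V → ℂ, IsRAC (GG a b p t m h) f := by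
  classical
  have := Fintype.ofFinite V
  obtain ⟨x, y, hok⟩ := exists_seq m
  -- the drawing of the core
  obtain ⟨e⟩ : Nonempty (V ≃ Fin (Fintype.card V)) := ⟨Fintype.equivFin V⟩
  have hspos : ∀ j < m, 0 < x j + y j := fun j hj => add_pos (hok.x_pos j hj) (hok.y_pos j hj)
  set f : V → ℂ := fun v => if v = a then 0 else if v = b then 1 else
    if hv : ∃ j < m, v = p j then pt (x hv.choose) (y hv.choose) else
      ⟨0, -((e v : ℕ) : ℝ) - 1⟩ with hf
  have fa : f a = 0 := by simp [hf]
  have fb : f b = 1 := by simp [hf, hl.ab.symm]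
  have fp : ∀ j < m, f (p j) = pt (x j) (y j) := by
    intro j hj
    have hex : ∃ j' < m, p j = p j' := ⟨j, hj, rfl⟩
    have h1 : hex.choose = j :=
      (hl.pinj j hj _ hex.choose_spec.1 hex.choose_spec.2).symm
    simp only [hf]
    rw [if_neg (hl.pa j hj), if_neg (hl.pb j hj), dif_pos hex, h1]
  have ft : ∀ i < h, f (t i) = ⟨0, -((e (t i) : ℕ) : ℝ) - 1⟩ := by
    intro i hi
    have hex : ¬ ∃ j < m, t i = p j := by
      rintro ⟨j, hj, h1⟩
      exact hl.tp i hi j hj h1
    simp only [hf]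
    rw [if_neg (hl.ta i hi), if_neg (hl.tb i hi), dif_neg hex]
  have ft' : ∀ i < h, (f (t i)).im < 0 := by
    intro i hi
    rw [ft i hi]
    have : (0 : ℝ) ≤ ((e (t i) : ℕ) : ℝ) := Nat.cast_nonneg _
    simp only
    linarith
  have fp' : ∀ j < m, 0 < (f (p j)).im := by
    intro j hj
    rw [fp j hj]
    exact pt_im (hspos j hj)
  have hcd : CD f a b p m x y := by
    refine ⟨hok, ?_, fa, fb, fp, ?_⟩
    · intro u v huv
      have hpp : ∀ i < m, ∀ j < m, f (p i) = f (p j) → p i = p j := by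
        intro i hi j hj h1
        rw [fp i hi, fp j hj] at h1
        have h2 : xc (pt (x i) (y i)) = xc (pt (x j) (y j)) := by rw [h1]
        rw [xc_pt (hspos i hi), xc_pt (hspos j hj)] at h2
        rw [hok.x_inj hi hj h2]
      have htt : ∀ i < h, ∀ j < h, f (t i) = f (t j) → t i = t j := by
        intro i hi j hj h1
        rw [ft i hi, ft j hj] at h1
        have h2 := congrArg Complex.im h1
        simp only at h2
        have h3 : ((e (t i) : ℕ) : ℝ) = ((e (t j) : ℕ) : ℝ) := by linarith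
        have h4 : (e (t i) : ℕ) = (e (t j) : ℕ) := by exact_mod_cast h3
        exact e.injective (Fin.ext h4)
      have him := congrArg Complex.im huv
      rcases hl.cov u with rfl | rfl | ⟨j, hj, rfl⟩ | ⟨i, hi, rfl⟩ <;>
        rcases hl.cov v with rfl | rfl | ⟨j', hj', rfl⟩ | ⟨i', hi', rfl⟩
      · rfl
      · rw [fa, fb] at huv; simp at huv
      · have := fp' j' hj'; rw [fa] at him; simp at him; linarith
      · have := ft' i' hi'; rw [fa] at him; simp at him; linarith
      · rw [fa, fb] at huv; simp at huv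
      · rfl
      · have := fp' j' hj'; rw [fb] at him; simp at him; linarith
      · have := ft' i' hi'; rw [fb] at him; simp at him; linarith
      · have := fp' j hj; rw [fa] at him; simp at him; linarith
      · have := fp' j hj; rw [fb] at him; simp at him; linarith
      · exact hpp j hj j' hj' huv
      · have := fp' j hj; have := ft' i' hi'; linarith
      · have := ft' i hi; rw [fa] at him; simp at him; linarith
      · have := ft' i hi; rw [fb] at him; simp at him; linarith
      · have := fp' j' hj'; have := ft' i hi; linarith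
      · exact htt i hi i' hi' huv
    · intro v
      rcases hl.cov v with h1 | h1 | h1 | ⟨i, hi, rfl⟩
      · exact Or.inl h1
      · exact Or.inr (Or.inl h1)
      · exact Or.inr (Or.inr (Or.inl h1))
      · exact Or.inr (Or.inr (Or.inr (ft' i hi)))
  have hY : ∀ k, ∀ i < h, (GG a b p t m k).Adj (Y1 p i) (Y2 a b p i) := by
    intro k i hi
    have hm := hl.hm i hi
    unfold Y1 Y2
    split_ifs with h0 h1
    · exact (hl.core_sub k (c := .B (4 * (i / 3) + i % 3)) (show _ < m by omega)).symm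
    · exact (hl.core_sub k (c := .A (4 * (i / 3) + i % 3)) (show _ < m by omega)).symm
    · exact hl.core_sub k (c := .I (4 * (i / 3) + i % 3) (4 * (i / 3) + 3))
        ⟨by omega, by omega, hm⟩
  have key : ∀ k ≤ h, ∃ g : V → ℂ, IsRAC (GG a b p t m k) g ∧
      ∀ i < h, Unc (GG a b p t m k) g (Y1 p i) (Y2 a b p i) := by
    intro k
    induction k with
    | zero =>
      intro _
      refine ⟨f, hcd.rac, ?_⟩
      intro i hi
      have hm := hl.hm i hi
      unfold Y1 Y2
      split_ifs with h0 h1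
      · exact (hcd.uncB (j := 4 * (i / 3) + i % 3) (by omega) (by omega)).symm
      · exact (hcd.uncA (j := 4 * (i / 3) + i % 3) (by omega) (by omega)).symm
      · have h2 : 4 * (i / 3) + 3 = 4 * (i / 3) + i % 3 + 1 := by omega
        rw [h2]
        exact hcd.uncP (by omega)
    | succ k ih =>
      intro hk
      obtain ⟨g, hg, hgu⟩ := ih (by omega)
      have hiso : ∀ v, ¬ (GG a b p t m k).Adj (t k) v := by
        intro v hv
        rw [GG_adj] at hv
        rcases hv with hv | ⟨i, hi, hv, -⟩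
        · exact absurd rfl (hl.t_ne_core (by omega) (core_adj hv).1)
        · rcases hv with hv | hv
          · rcases Sym2.eq_iff.1 hv with ⟨h2, -⟩ | ⟨h2, -⟩
            · exact absurd h2 (hl.t_ne_core (by omega) (Or.inr (Or.inr (hl.Y1_core (by omega)))))
            · have := hl.tinj k (by omega) i (by omega) h2
              omega
          · rcases Sym2.eq_iff.1 hv with ⟨h2, -⟩ | ⟨h2, -⟩
            · exact absurd h2 (hl.t_ne_core (by omega) (hl.Y2_core (by omega)))
            · have := hl.tinj k (by omega) i (by omega) h2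
              omega
      obtain ⟨g', hg', hgu'⟩ := add_ear hg (hY k k (by omega)) (hgu k (by omega)) hiso
        (hl.t_ne_core (by omega) (Or.inr (Or.inr (hl.Y1_core (by omega)))))
        (hl.t_ne_core (by omega) (hl.Y2_core (by omega)))
      exact ⟨g', hg', fun i hi => hgu' _ _ (hY k i hi) (hgu i hi)⟩
  obtain ⟨g, hg, -⟩ := key h le_rfl
  exact ⟨g, hg⟩

/-- the number of edges of the core -/
theorem ncard_core (a b : V) (p : ℕ → V) (m : ℕ) : (coreE a b p m).Finite ∧
    (coreE a b p m).ncard ≤ 4 * m + 1 := by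
  classical
  set S : Finset (Sym2 V) := ({s(a, b)} ∪ (Finset.range m).image (fun j => s(a, p j))) ∪
    ((Finset.range m).image (fun j => s(b, p j)) ∪
    ((Finset.range m).image (fun j => s(p j, p (j + 1))) ∪
    (Finset.range m).image (fun j => s(p j, p (j + 2))))) with hS
  have hsub : coreE a b p m ⊆ (S : Set (Sym2 V)) := by
    rintro e ⟨c, hc, rfl⟩
    rw [Finset.mem_coe, hS]
    simp only [Finset.mem_union, Finset.mem_singleton, Finset.mem_image, Finset.mem_range]
    cases c with
    | ab => exact Or.inl (Or.inl rfl)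
    | A j => exact Or.inl (Or.inr ⟨j, hc, rfl⟩)
    | B j => exact Or.inr (Or.inl ⟨j, hc, rfl⟩)
    | I i j =>
      obtain ⟨h1, h2, h3⟩ := hc
      have h4 : j = i + 1 ∨ j = i + 2 := by omega
      rcases h4 with rfl | rfl
      · exact Or.inr (Or.inr (Or.inl ⟨i, by omega, rfl⟩))
      · exact Or.inr (Or.inr (Or.inr ⟨i, by omega, rfl⟩))
  refine ⟨S.finite_toSet.subset hsub, ?_⟩
  refine (Set.ncard_le_ncard hsub S.finite_toSet).trans ?_
  rw [Set.ncard_coe_finset, hS]
  have i1 : ((Finset.range m).image (fun j => s(a, p j))).card ≤ m := by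
    simpa using Finset.card_image_le (s := Finset.range m) (f := fun j => s(a, p j))
  have i2 : ((Finset.range m).image (fun j => s(b, p j))).card ≤ m := by
    simpa using Finset.card_image_le (s := Finset.range m) (f := fun j => s(b, p j))
  have i3 : ((Finset.range m).image (fun j => s(p j, p (j + 1)))).card ≤ m := by
    simpa using Finset.card_image_le (s := Finset.range m) (f := fun j => s(p j, p (j + 1)))
  have i4 : ((Finset.range m).image (fun j => s(p j, p (j + 2)))).card ≤ m := by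
    simpa using Finset.card_image_le (s := Finset.range m) (f := fun j => s(p j, p (j + 2)))
  have i0 : ({s(a, b)} : Finset (Sym2 V)).card = 1 := Finset.card_singleton _
  refine (Finset.card_union_le _ _).trans ?_
  have j1 := Finset.card_union_le ({s(a, b)} : Finset (Sym2 V))
    ((Finset.range m).image (fun j => s(a, p j)))
  have j2 := Finset.card_union_le ((Finset.range m).image (fun j => s(b, p j)))
    ((Finset.range m).image (fun j => s(p j, p (j + 1))) ∪
    (Finset.range m).image (fun j => s(p j, p (j + 2))))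
  have j3 := Finset.card_union_le ((Finset.range m).image (fun j => s(p j, p (j + 1))))
    ((Finset.range m).image (fun j => s(p j, p (j + 2))))
  omega

theorem ncard_GG [Finite V] (a b : V) (p t : ℕ → V) (m k : ℕ) :
    (GG a b p t m k).edgeSet.ncard ≤ 4 * m + 1 + 2 * k := by
  have hedge : ∀ u v : V, (SimpleGraph.edge u v).edgeSet.ncard ≤ 1 := by
    intro u v
    have : (SimpleGraph.edge u v).edgeSet ⊆ {s(u, v)} := by
      intro e he
      induction e using Sym2.ind with
      | _ x y =>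
        rw [SimpleGraph.mem_edgeSet, SimpleGraph.edge_adj] at he
        exact Sym2.eq_iff.2 he.1
    exact (Set.ncard_le_ncard this (Set.finite_singleton _)).trans (Set.ncard_singleton _).le
  induction k with
  | zero =>
    simp only [GG, SimpleGraph.edgeSet_fromEdgeSet]
    have h1 := ncard_core a b p m
    refine (Set.ncard_le_ncard Set.sdiff_subset h1.1).trans ?_
    omega
  | succ k ih =>
    simp only [GG, SimpleGraph.edgeSet_sup]
    have h1 := Set.ncard_union_le ((GG a b p t m k).edgeSet ∪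
      (SimpleGraph.edge (Y1 p k) (t k)).edgeSet) (SimpleGraph.edge (Y2 a b p k) (t k)).edgeSet
    have h2 := Set.ncard_union_le (GG a b p t m k).edgeSet
      (SimpleGraph.edge (Y1 p k) (t k)).edgeSet
    have h3 := hedge (Y1 p k) (t k)
    have h4 := hedge (Y2 a b p k) (t k)
    omega

/-- sparse maximal graphs on a set with a layout -/
theorem Lay.main [Finite V] (hl : Lay a b p t m h) :
    ∃ H : SimpleGraph V, MaxRAC H ∧ H.edgeSet.ncard ≤ 4 * m + 2 * h + 70126 := by
  obtain ⟨H, hle, hmax⟩ := exists_max hl.rac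
  refine ⟨H, hmax, ?_⟩
  have h1 := edges_le hle hl.cfg hmax.1 (fun v => by
      rw [hl.coreV_iff]
      rcases hl.cov v with h1 | h1 | h1 | ⟨i, hi, rfl⟩
      · exact Or.inl h1
      · exact Or.inr (Or.inl h1)
      · exact Or.inr (Or.inr (Or.inl h1))
      · exact Or.inr (Or.inr (Or.inr fun h2 => hl.t_ne_core hi h2 rfl)))
    (fun v hv => by
      obtain ⟨i, hi, rfl⟩ := hl.not_coreV hv
      obtain ⟨j, hj, hy⟩ := hl.Y1_core hi
      exact ⟨j, hj, by rw [hl.t_adj hi, ← hy]; exact Or.inl rfl⟩)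
  have h2 := ncard_GG a b p t m h
  omega

end

/-- **Sparse maximal straight-line RAC graphs.** -/
theorem exists_sparse (n : ℕ) : ∃ H : SimpleGraph (Fin n), MaxRAC H ∧
    7 * H.edgeSet.ncard ≤ 22 * n + 500000 := by
  classical
  rcases Nat.lt_or_ge n 2 with hn | hn
  · have hrac : ∃ f : Fin n → ℂ, IsRAC (⊥ : SimpleGraph (Fin n)) f := by
      refine ⟨fun i => ((i : ℕ) : ℂ), ?_, ?_, ?_⟩
      · intro i j hij
        simpa [Fin.ext_iff] using hij
      · intro u v w huv
        exact absurd huv (by simp)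
      · intro u v x y huv
        exact absurd huv (by simp)
    obtain ⟨H, -, hH⟩ := exists_max hrac
    refine ⟨H, hH, ?_⟩
    have h1 : H.edgeSet = ∅ := by
      rw [Set.eq_empty_iff_forall_notMem]
      intro e he
      induction e using Sym2.ind with
      | _ x y =>
        rw [SimpleGraph.mem_edgeSet] at he
        apply he.ne
        apply Fin.ext
        omega
    rw [h1]
    simp
  · set B := (n - 2) / 7 with hB
    set r := (n - 2) % 7 with hr
    have hcard : Fintype.card (Bool ⊕ (Fin (4 * B + r) ⊕ Fin (3 * B))) = n := by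
      simp only [Fintype.card_sum, Fintype.card_bool, Fintype.card_fin]
      omega
    have e : (Bool ⊕ (Fin (4 * B + r) ⊕ Fin (3 * B))) ≃ Fin n := Fintype.equivFinOfCardEq hcard
    have hl : Lay (e (.inl false)) (e (.inl true))
        (fun j => if h : j < 4 * B + r then e (.inr (.inl ⟨j, h⟩)) else e (.inl false))
        (fun i => if h : i < 3 * B then e (.inr (.inr ⟨i, h⟩)) else e (.inl false))
        (4 * B + r) (3 * B) := by
      refine ⟨?_, ?_, ?_, ?_, ?_, ?_, ?_, ?_, ?_, ?_⟩
      · intro h; simpa using e.injective h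
      · intro j hj h; rw [dif_pos hj] at h; simpa using e.injective h
      · intro j hj h; rw [dif_pos hj] at h; simpa using e.injective h
      · intro j hj h; rw [dif_pos hj] at h; simpa using e.injective h
      · intro j hj h; rw [dif_pos hj] at h; simpa using e.injective h
      · intro i hi j hj h
        rw [dif_pos hi, dif_pos hj] at h
        simpa using e.injective h
      · intro i hi j hj h
        rw [dif_pos hi, dif_pos hj] at h
        simpa using e.injective h
      · intro i hi j hj h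
        rw [dif_pos hi, dif_pos hj] at h
        simpa using e.injective h
      · intro v
        obtain ⟨w, rfl⟩ := e.surjective v
        rcases w with (_ | _) | ⟨j, hj⟩ | ⟨i, hi⟩
        · exact Or.inl rfl
        · exact Or.inr (Or.inl rfl)
        · exact Or.inr (Or.inr (Or.inl ⟨j, hj, by rw [dif_pos hj]⟩))
        · exact Or.inr (Or.inr (Or.inr ⟨i, hi, by rw [dif_pos hi]⟩))
      · intro i hi
        omega
    obtain ⟨H, hH, hle⟩ := hl.main
    refine ⟨H, hH, ?_⟩
    omega

end Pool.Agent.Helper18.RAC
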