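import Pool.Agent.Helper18.RAC.Fan6
import Pool.Agent.Helper18.RAC.Main
import Pool.Agent.Helper18.RAC.Good2

/-!
# The graph with two rings of additional vertices around each hub
-/

set_option autoImplicit false

open Complex

namespace Pool.Agent.Helper18.RAC

/-- the vertices: two hubs, the path and the additional vertices -/
structure Lay2 {V : Type*} (a b : V) (p : ℕ → V) (z : ℤ → ℤ → Bool → V) (m K : ℕ) : Prop where
  ab : a ≠ b
  pa : ∀ j < m, p j ≠ a
  pb : ∀ j < m, p j ≠ b
  pinj : ∀ i < m, ∀ j < m, p i = p j → i = j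
  za : ∀ (i δ : ℤ) (r : Bool), 1 ≤ i → i ≤ K → (δ = 1 ∨ δ = -1) → z i δ r ≠ a
  zb : ∀ (i δ : ℤ) (r : Bool), 1 ≤ i → i ≤ K → (δ = 1 ∨ δ = -1) → z i δ r ≠ b
  zp : ∀ (i δ : ℤ) (r : Bool), 1 ≤ i → i ≤ K → (δ = 1 ∨ δ = -1) → ∀ j < m, z i δ r ≠ p j
  zinj : ∀ (i δ : ℤ) (r : Bool) (i' δ' : ℤ) (r' : Bool), 1 ≤ i → i ≤ K → (δ = 1 ∨ δ = -1) →
    1 ≤ i' → i' ≤ K → (δ' = 1 ∨ δ' = -1) → z i δ r = z i' δ' r' → i = i' ∧ δ = δ' ∧ r = r'
  cov : ∀ v, v = a ∨ v = b ∨ (∃ j < m, v = p j) ∨ ∃ (i δ : ℤ) (r : Bool), 1 ≤ i ∧ i ≤ K ∧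
    (δ = 1 ∨ δ = -1) ∧ v = z i δ r
  hm : K + 2 ≤ m
  hm' : m ≤ K + 7

/-- the sign of a column -/
def sg (j : ℕ) : ℤ := if j % 2 = 0 then -1 else 1

theorem sg_pm (j : ℕ) : sg j = 1 ∨ sg j = -1 := by
  unfold sg; split_ifs
  · exact Or.inr rfl
  · exact Or.inl rfl

theorem sg_even {j : ℕ} (h : j % 2 = 0) : sg j = -1 := by unfold sg; rw [if_pos h]

theorem sg_odd {j : ℕ} (h : j % 2 = 1) : sg j = 1 := by unfold sg; rw [if_neg (by omega)]

/-- the columns at the hub `a` -/
def tA {V : Type*} (z : ℤ → ℤ → Bool → V) (j : ℕ) (r : Bool) : V :=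
  z ((2 * (j / 2) + 2 : ℕ) : ℤ) (sg j) r

/-- the columns at the hub `b` -/
def tB {V : Type*} (z : ℤ → ℤ → Bool → V) (j : ℕ) (r : Bool) : V :=
  z ((2 * (j / 2) + 1 : ℕ) : ℤ) (sg j) r

/-- the vertices of a fan -/
def InFan {V : Type*} (a : V) (P : ℕ → V) (t : ℕ → Bool → V) (N : ℕ) (v : V) : Prop :=
  v = a ∨ (∃ j ≤ N, v = P j) ∨ ∃ j < N, ∃ r, v = t j r

section

variable {V : Type*} {G : SimpleGraph V} {a b : V} {p P : ℕ → V} {t : ℕ → Bool → V}
  {z : ℤ → ℤ → Bool → V} {m K N : ℕ} {f : V → ℂ} {x y : ℕ → ℝ}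

theorem fanE_in {u v : V} (h : s(u, v) ∈ fanE G a P t N) :
    InFan a P t N u ∧ InFan a P t N v := by
  obtain ⟨c, hc, hcv, he⟩ := h
  have key : InFan a P t N (c.ends a P t).1 ∧ InFan a P t N (c.ends a P t).2 := by
    cases c with
    | old u v => exact absurd hc id
    | S j => exact ⟨Or.inl rfl, Or.inr (Or.inr ⟨j, hcv, false, rfl⟩)⟩
    | T j => exact ⟨Or.inr (Or.inr ⟨j, hcv, false, rfl⟩), Or.inr (Or.inr ⟨j, hcv, true, rfl⟩)⟩
    | U j =>
      exact ⟨Or.inr (Or.inl ⟨st j, st_le hcv, rfl⟩), Or.inr (Or.inr ⟨j, hcv, true, rfl⟩)⟩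
    | R j r =>
      have hcv' : j + 1 < N := hcv
      exact ⟨Or.inr (Or.inr ⟨j, by omega, r, rfl⟩), Or.inr (Or.inr ⟨j + 1, hcv', r, rfl⟩)⟩
  rcases Sym2.eq_iff.1 he with ⟨h1, h2⟩ | ⟨h1, h2⟩
  · rw [h1, h2]; exact key
  · rw [h1, h2]; exact key.symm

/-- the hub is adjacent to the inner vertices only -/
theorem fanE_hub {u : V} (h : s(u, a) ∈ fanE G a P t N) (ha : ∀ j ≤ N, P j ≠ a)
    (hta : ∀ j < N, ∀ r, t j r ≠ a) : ∃ j < N, u = t j false := by
  obtain ⟨c, hc, hcv, he⟩ := h
  cases c with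
  | old u v => exact absurd hc id
  | S j =>
    rcases Sym2.eq_iff.1 he with ⟨-, h2⟩ | ⟨h1, -⟩
    · exact absurd h2.symm (hta j hcv false)
    · exact ⟨j, hcv, h1⟩
  | T j =>
    rcases Sym2.eq_iff.1 he with ⟨-, h2⟩ | ⟨-, h2⟩
    · exact absurd h2.symm (hta j hcv true)
    · exact absurd h2.symm (hta j hcv false)
  | U j =>
    rcases Sym2.eq_iff.1 he with ⟨-, h2⟩ | ⟨-, h2⟩
    · exact absurd h2.symm (hta j hcv true)
    · exact absurd h2.symm (ha _ (st_le hcv))
  | R j r =>
    have hcv' : j + 1 < N := hcv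
    rcases Sym2.eq_iff.1 he with ⟨-, h2⟩ | ⟨-, h2⟩
    · exact absurd h2.symm (hta (j + 1) hcv' r)
    · exact absurd h2.symm (hta j (by omega) r)

theorem ncard_fanE (G : SimpleGraph V) (a : V) (P : ℕ → V) (t : ℕ → Bool → V) (N : ℕ) :
    (fanE G a P t N).Finite ∧ (fanE G a P t N).ncard ≤ 5 * N := by
  classical
  set S : Finset (Sym2 V) := (Finset.range N).image (fun j => s(a, t j false)) ∪
    ((Finset.range N).image (fun j => s(t j false, t j true)) ∪
    ((Finset.range N).image (fun j => s(P (st j), t j true)) ∪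
    ((Finset.range N).image (fun j => s(t j false, t (j + 1) false)) ∪
    (Finset.range N).image (fun j => s(t j true, t (j + 1) true))))) with hS
  have hsub : fanE G a P t N ⊆ (S : Set (Sym2 V)) := by
    rintro e ⟨c, hc, hcv, rfl⟩
    rw [Finset.mem_coe, hS]
    simp only [Finset.mem_union, Finset.mem_image, Finset.mem_range]
    cases c with
    | old u v => exact absurd hc id
    | S j => exact Or.inl ⟨j, hcv, rfl⟩
    | T j => exact Or.inr (Or.inl ⟨j, hcv, rfl⟩)
    | U j => exact Or.inr (Or.inr (Or.inl ⟨j, hcv, rfl⟩))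
    | R j r =>
      have hcv' : j + 1 < N := hcv
      cases r
      · exact Or.inr (Or.inr (Or.inr (Or.inl ⟨j, by omega, rfl⟩)))
      · exact Or.inr (Or.inr (Or.inr (Or.inr ⟨j, by omega, rfl⟩)))
  refine ⟨S.finite_toSet.subset hsub, ?_⟩
  refine (Set.ncard_le_ncard hsub S.finite_toSet).trans ?_
  rw [Set.ncard_coe_finset, hS]
  have i1 : ((Finset.range N).image (fun j => s(a, t j false))).card ≤ N := by
    simpa using Finset.card_image_le (s := Finset.range N) (f := fun j => s(a, t j false))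
  have i2 : ((Finset.range N).image (fun j => s(t j false, t j true))).card ≤ N := by
    simpa using Finset.card_image_le (s := Finset.range N) (f := fun j => s(t j false, t j true))
  have i3 : ((Finset.range N).image (fun j => s(P (st j), t j true))).card ≤ N := by
    simpa using Finset.card_image_le (s := Finset.range N) (f := fun j => s(P (st j), t j true))
  have i4 : ((Finset.range N).image (fun j => s(t j false, t (j + 1) false))).card ≤ N := by
    simpa using Finset.card_image_le (s := Finset.range N)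
      (f := fun j => s(t j false, t (j + 1) false))
  have i5 : ((Finset.range N).image (fun j => s(t j true, t (j + 1) true))).card ≤ N := by
    simpa using Finset.card_image_le (s := Finset.range N)
      (f := fun j => s(t j true, t (j + 1) true))
  refine (Finset.card_union_le _ _).trans ?_
  have j1 := Finset.card_union_le ((Finset.range N).image (fun j => s(t j false, t j true)))
    ((Finset.range N).image (fun j => s(P (st j), t j true)) ∪
    ((Finset.range N).image (fun j => s(t j false, t (j + 1) false)) ∪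
    (Finset.range N).image (fun j => s(t j true, t (j + 1) true))))
  have j2 := Finset.card_union_le ((Finset.range N).image (fun j => s(P (st j), t j true)))
    ((Finset.range N).image (fun j => s(t j false, t (j + 1) false)) ∪
    (Finset.range N).image (fun j => s(t j true, t (j + 1) true)))
  have j3 := Finset.card_union_le ((Finset.range N).image (fun j => s(t j false, t (j + 1) false)))
    ((Finset.range N).image (fun j => s(t j true, t (j + 1) true)))
  omega

theorem Unc.refl {u v : V} (h : Unc G f u v) :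
    Unc G (fun v => 1 - (starRingEnd ℂ) (f v)) u v := by
  have key : ∀ (z u v : ℂ), z ∈ openSegment ℝ (1 - (starRingEnd ℂ) u) (1 - (starRingEnd ℂ) v) →
      1 - (starRingEnd ℂ) z ∈ openSegment ℝ u v := by
    intro z u v hz
    rw [mem_openSegment_iff] at hz ⊢
    obtain ⟨t, h1, h2, h3, h4⟩ := hz
    simp only [Complex.sub_re, Complex.sub_im, Complex.one_re, Complex.one_im, Complex.conj_re,
      Complex.conj_im, zero_sub, neg_neg] at h3 h4 ⊢
    exact ⟨t, h1, h2, by rw [h3]; ring, by rw [h4]⟩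
  intro x y hxy hne z hz hz'
  exact h x y hxy hne _ (key z _ _ hz) (key z _ _ hz')

/-- a drawing of the core exists, with the other vertices below the axis -/
theorem exists_CD [Finite V] (hab : a ≠ b) (pa : ∀ j < m, p j ≠ a) (pb : ∀ j < m, p j ≠ b)
    (pinj : ∀ i < m, ∀ j < m, p i = p j → i = j) (hok : SeqOK x y m) :
    ∃ f : V → ℂ, CD f a b p m x y := by
  classical
  have := Fintype.ofFinite V
  obtain ⟨e⟩ : Nonempty (V ≃ Fin (Fintype.card V)) := ⟨Fintype.equivFin V⟩
  have hspos : ∀ j < m, 0 < x j + y j := fun j hj => add_pos (hok.x_pos j hj) (hok.y_pos j hj)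
  set f : V → ℂ := fun v => if v = a then 0 else if v = b then 1 else
    if hv : ∃ j < m, v = p j then pt (x hv.choose) (y hv.choose) else
      ⟨0, -((e v : ℕ) : ℝ) - 1⟩ with hf
  have fa : f a = 0 := by simp [hf]
  have fb : f b = 1 := by simp [hf, hab.symm]
  have fp : ∀ j < m, f (p j) = pt (x j) (y j) := by
    intro j hj
    have hex : ∃ j' < m, p j = p j' := ⟨j, hj, rfl⟩
    have h1 : hex.choose = j :=
      (pinj j hj _ hex.choose_spec.1 hex.choose_spec.2).symm
    simp only [hf]
    rw [if_neg (pa j hj), if_neg (pb j hj), dif_pos hex, h1]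
  have fp' : ∀ j < m, 0 < (f (p j)).im := by
    intro j hj
    rw [fp j hj]
    exact pt_im (hspos j hj)
  have fo : ∀ v, v = a ∨ v = b ∨ (∃ j < m, v = p j) ∨
      f v = ⟨0, -((e v : ℕ) : ℝ) - 1⟩ := by
    intro v
    by_cases h1 : v = a
    · exact Or.inl h1
    · by_cases h2 : v = b
      · exact Or.inr (Or.inl h2)
      · by_cases h3 : ∃ j < m, v = p j
        · exact Or.inr (Or.inr (Or.inl h3))
        · refine Or.inr (Or.inr (Or.inr ?_))
          simp only [hf]
          rw [if_neg h1, if_neg h2, dif_neg h3]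
  have hneg : ∀ v, f v = ⟨0, -((e v : ℕ) : ℝ) - 1⟩ → (f v).im < 0 := by
    intro v hv
    rw [hv]
    have : (0 : ℝ) ≤ ((e v : ℕ) : ℝ) := Nat.cast_nonneg _
    simp only
    linarith
  refine ⟨f, hok, ?_, fa, fb, fp, ?_⟩
  · intro u v huv
    have him := congrArg Complex.im huv
    rcases fo u with rfl | rfl | ⟨j, hj, rfl⟩ | hu <;>
      rcases fo v with rfl | rfl | ⟨j', hj', rfl⟩ | hv
    · rfl
    · rw [fa, fb] at huv; simp at huv
    · have := fp' j' hj'; rw [fa] at him; simp at him; linarith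
    · have := hneg v hv; rw [fa] at him; simp at him; linarith
    · rw [fa, fb] at huv; simp at huv
    · rfl
    · have := fp' j' hj'; rw [fb] at him; simp at him; linarith
    · have := hneg v hv; rw [fb] at him; simp at him; linarith
    · have := fp' j hj; rw [fa] at him; simp at him; linarith
    · have := fp' j hj; rw [fb] at him; simp at him; linarith
    · rw [fp j hj, fp j' hj'] at huv
      have h2 : xc (pt (x j) (y j)) = xc (pt (x j') (y j')) := by rw [huv]
      rw [xc_pt (hspos j hj), xc_pt (hspos j' hj')] at h2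
      rw [hok.x_inj hj hj' h2]
    · have := fp' j hj; have := hneg v hv; linarith
    · have := hneg u hu; rw [fa] at him; simp at him; linarith
    · have := hneg u hu; rw [fb] at him; simp at him; linarith
    · have := fp' j' hj'; have := hneg u hu; linarith
    · rw [hu, hv] at huv
      have h2 := congrArg Complex.im huv
      simp only at h2
      have h3 : ((e u : ℕ) : ℝ) = ((e v : ℕ) : ℝ) := by linarith
      have h4 : (e u : ℕ) = (e v : ℕ) := by exact_mod_cast h3
      exact e.injective (Fin.ext h4)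
  · intro v
    rcases fo v with h | h | h | h
    · exact Or.inl h
    · exact Or.inr (Or.inl h)
    · exact Or.inr (Or.inr (Or.inl h))
    · exact Or.inr (Or.inr (Or.inr (hneg v h)))

end

end Pool.Agent.Helper18.RAC
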