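import Pool.Agent.Helper18.RAC.Order2

/-!
# Almost all windows of the path are nested monotonically
-/

set_option autoImplicit false

open Complex

namespace Pool.Agent.Helper18.RAC

namespace Abs

variable (U : Finset ℕ) (X Y : ℕ → ℝ)

/-- `i` is nested inside `j` -/
def nest (i j : ℕ) : Prop := X j < X i ∧ Y j < Y i

/-- the properties of the coordinates of the common neighbours above the axis -/
structure Good : Prop where
  pos : ∀ i ∈ U, 0 < X i + Y i
  xne : ∀ i ∈ U, ∀ j ∈ U, i ≠ j → X i ≠ X j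
  yne : ∀ i ∈ U, ∀ j ∈ U, i ≠ j → Y i ≠ Y j
  inc : ∀ i ∈ U, ∀ j ∈ U, X i < X j → Y j < Y i → X j * Y i = 1

open Classical in
/-- vertices which are incomparable to another one -/
noncomputable def Pr : Finset ℕ :=
  U.filter fun i => ∃ j ∈ U, j ≠ i ∧ ¬ nest X Y i j ∧ ¬ nest X Y j i

open Classical in
/-- the other vertices -/
noncomputable def U' : Finset ℕ := U \ Pr U X Y

open Classical in
/-- rank -/
noncomputable def rk (i : ℕ) : ℕ := ((U' U X Y).filter fun k => X i < X k).card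

open Classical in
/-- bad indices -/
noncomputable def Bd : Finset ℕ :=
  Pr U X Y ∪ (U' U X Y).filter fun i => rk U X Y i = 0 ∨ (U' U X Y).card ≤ rk U X Y i + 2

variable {U X Y}

theorem inc_cases (h : Good U X Y) {i j : ℕ} (hi : i ∈ U) (hj : j ∈ U) (hij : j ≠ i)
    (h1 : ¬ nest X Y i j) (h2 : ¬ nest X Y j i) :
    (X i < X j ∧ Y j < Y i ∧ X j * Y i = 1) ∨ (X j < X i ∧ Y i < Y j ∧ X i * Y j = 1) := by
  unfold nest at h1 h2
  push Not at h1 h2
  have hx := h.xne i hi j hj hij.symm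
  have hy := h.yne i hi j hj hij.symm
  rcases lt_or_gt_of_ne hx with hx | hx
  · left
    have h3 : Y j < Y i := lt_of_le_of_ne (h2 hx) (Ne.symm hy)
    exact ⟨hx, h3, h.inc i hi j hj hx h3⟩
  · right
    have h3 : Y i < Y j := lt_of_le_of_ne (h1 hx) hy
    exact ⟨hx, h3, h.inc j hj i hi hx h3⟩

/-- a vertex is incomparable to at most one other vertex -/
theorem inc_unique (h : Good U X Y) {i j l : ℕ} (hi : i ∈ U) (hj : j ∈ U) (hl : l ∈ U)
    (hij : j ≠ i) (hil : l ≠ i) (h1 : ¬ nest X Y i j) (h2 : ¬ nest X Y j i)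
    (h3 : ¬ nest X Y i l) (h4 : ¬ nest X Y l i) : j = l := by
  by_contra hjl
  rcases inc_cases h hi hj hij h1 h2 with ⟨a1, a2, a3⟩ | ⟨a1, a2, a3⟩ <;>
    rcases inc_cases h hi hl hil h3 h4 with ⟨b1, b2, b3⟩ | ⟨b1, b2, b3⟩
  · have h0 : Y i ≠ 0 := fun h0 => by rw [h0, mul_zero] at a3; exact zero_ne_one a3
    exact h.xne j hj l hl hjl (mul_right_cancel₀ h0 (a3.trans b3.symm))
  · have c := h.inc l hl j hj (b1.trans a1) (a2.trans b2)
    have h0 : X j ≠ 0 := fun h0 => by rw [h0, zero_mul] at a3; exact zero_ne_one a3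
    exact h.yne i hi l hl (Ne.symm hil) (mul_left_cancel₀ h0 (a3.trans c.symm))
  · have c := h.inc j hj l hl (a1.trans b1) (b2.trans a2)
    have h0 : X l ≠ 0 := fun h0 => by rw [h0, zero_mul] at b3; exact zero_ne_one b3
    exact h.yne i hi j hj (Ne.symm hij) (mul_left_cancel₀ h0 (b3.trans c.symm))
  · have h0 : X i ≠ 0 := fun h0 => by rw [h0, zero_mul] at a3; exact zero_ne_one a3
    exact h.yne j hj l hl hjl (mul_left_cancel₀ h0 (a3.trans b3.symm))

/-- two disjoint incomparable pairs: impossible if one is nested inside the other -/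
theorem two_pairs (h : Good U X Y) {p q r s : ℕ} (hp : p ∈ U) (hr : r ∈ U)
    (h1 : X p < X q ∧ Y q < Y p ∧ X q * Y p = 1) (h2 : X r < X s ∧ Y s < Y r ∧ X s * Y r = 1)
    (hqr : nest X Y q r ∨ nest X Y r q) (hqs : nest X Y q s ∨ nest X Y s q)
    (hpr : nest X Y p r) : False := by
  obtain ⟨a1, a2, a3⟩ := h1
  obtain ⟨b1, b2, b3⟩ := h2
  obtain ⟨c1, c2⟩ := hpr
  have d : nest X Y q r := by
    rcases hqr with h' | h'
    · exact h'
    · exact absurd h'.1 (not_lt.2 (by linarith))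
  have e : nest X Y q s := by
    rcases hqs with h' | h'
    · exact h'
    · exact absurd h'.2 (not_lt.2 (by linarith [d.2]))
  have hpos := h.pos r hr
  have hYr : 0 < Y r := by
    by_contra hcon
    push Not at hcon
    have hX : 0 < X s := by linarith
    have := mul_nonpos_of_nonneg_of_nonpos hX.le hcon
    linarith
  have hXs : 0 < X s := by
    by_contra hcon
    push Not at hcon
    have := mul_nonpos_of_nonpos_of_nonneg hcon hYr.le
    linarith
  have := mul_lt_mul'' e.1 c2 hXs.le hYr.le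
  linarith

theorem comp_of_not_inc {i j : ℕ} (h : ¬ (¬ nest X Y i j ∧ ¬ nest X Y j i)) :
    nest X Y i j ∨ nest X Y j i := by
  by_contra hcon
  push Not at hcon
  exact h hcon

/-- two disjoint incomparable pairs are impossible -/
theorem no_two_pairs (h : Good U X Y) {p q r s : ℕ} (hp : p ∈ U) (hq : q ∈ U) (hr : r ∈ U)
    (hs : s ∈ U) (hpq : q ≠ p) (hrs : s ≠ r) (hpr : p ≠ r) (hps : p ≠ s) (hqr : q ≠ r)
    (hqs : q ≠ s) (h1 : ¬ nest X Y p q ∧ ¬ nest X Y q p) (h2 : ¬ nest X Y r s ∧ ¬ nest X Y s r) :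
    False := by
  -- all other pairs are comparable
  have cpr : nest X Y p r ∨ nest X Y r p := comp_of_not_inc fun h' =>
    hqr (inc_unique h hp hq hr hpq hpr.symm h1.1 h1.2 h'.1 h'.2)
  have cps : nest X Y p s ∨ nest X Y s p := comp_of_not_inc fun h' =>
    hqs (inc_unique h hp hq hs hpq hps.symm h1.1 h1.2 h'.1 h'.2)
  have cqr : nest X Y q r ∨ nest X Y r q := comp_of_not_inc fun h' =>
    hpr (inc_unique h hq hp hr hpq.symm hqr.symm h1.2 h1.1 h'.1 h'.2)
  have cqs : nest X Y q s ∨ nest X Y s q := comp_of_not_inc fun h' =>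
    hps (inc_unique h hq hp hs hpq.symm hqs.symm h1.2 h1.1 h'.1 h'.2)
  rcases inc_cases h hp hq hpq h1.1 h1.2 with a | a <;>
    rcases inc_cases h hr hs hrs h2.1 h2.2 with b | b
  · rcases cpr with c | c
    · exact two_pairs h hp hr a b cqr cqs c
    · exact two_pairs h hr hp b a cps.symm cqs.symm c
  · rcases cps with c | c
    · exact two_pairs h hp hs a b cqs cqr c
    · exact two_pairs h hs hp b a cpr.symm cqr.symm c
  · rcases cqr with c | c
    · exact two_pairs h hq hr a b cpr cps c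
    · exact two_pairs h hr hq b a cqs.symm cps.symm c
  · rcases cqs with c | c
    · exact two_pairs h hq hs a b cps cpr c
    · exact two_pairs h hs hq b a cqr.symm cpr.symm c

theorem card_Pr (h : Good U X Y) : (Pr U X Y).card ≤ 2 := by
  classical
  by_contra hcon
  push Not at hcon
  obtain ⟨i, j, l, hi, hj, hl, hij, hil, hjl⟩ := Finset.two_lt_card_iff.1 hcon
  simp only [Pr, Finset.mem_filter] at hi hj hl
  obtain ⟨hiU, i', hi'U, hii', hi1⟩ := hi
  obtain ⟨hjU, j', hj'U, hjj', hj1⟩ := hj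
  obtain ⟨hlU, l', hl'U, hll', hl1⟩ := hl
  -- one of `j`, `l` is different from the partner of `i`
  have key : ∀ k k', k ∈ U → k' ∈ U → k' ≠ k → (¬ nest X Y k k' ∧ ¬ nest X Y k' k) → k ≠ i →
      k ≠ i' → False := by
    intro k k' hk hk' hkk' hk1 hki hki'
    have h1 : k' ≠ i := by
      rintro rfl
      exact hki' (inc_unique h hiU hk hi'U (Ne.symm hkk') hii' hk1.2 hk1.1 hi1.1 hi1.2)
    have h2 : k' ≠ i' := by
      rintro rfl
      exact hki (inc_unique h hi'U hk hiU (Ne.symm hkk') (Ne.symm hii') hk1.2 hk1.1 hi1.2 hi1.1)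
    exact no_two_pairs h hiU hi'U hk hk' hii' hkk' (Ne.symm hki) (Ne.symm h1) (Ne.symm hki')
      (Ne.symm h2) hi1 hk1
  by_cases hji' : j = i'
  · have hli' : l ≠ i' := by rw [← hji']; exact hjl.symm
    exact key l l' hlU hl'U hll' hl1 hil.symm hli'
  · exact key j j' hjU hj'U hjj' hj1 hij.symm hji'

theorem mem_U' {i : ℕ} : i ∈ U' U X Y ↔ i ∈ U ∧ i ∉ Pr U X Y := by
  classical
  simp [U']

theorem comp_of_mem {i j : ℕ} (hi : i ∈ U' U X Y) (hj : j ∈ U) (hij : j ≠ i) :
    nest X Y i j ∨ nest X Y j i := by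
  classical
  rw [mem_U'] at hi
  by_contra hcon
  push Not at hcon
  apply hi.2
  simp only [Pr, Finset.mem_filter]
  exact ⟨hi.1, j, hj, hij, hcon⟩

theorem nest_of_lt {i j : ℕ} (hi : i ∈ U' U X Y) (hj : j ∈ U) (h : X j < X i) :
    nest X Y i j := by
  rcases comp_of_mem hi hj (by rintro rfl; exact lt_irrefl _ h) with h' | h'
  · exact h'
  · exact absurd h'.1 (not_lt.2 h.le)

theorem rk_eq (hg : Good U X Y) {i j : ℕ} (hi : i ∈ U' U X Y) (hj : j ∈ U' U X Y)
    (h : X j < X i) : rk U X Y j = rk U X Y i + 1 +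
      (by classical exact ((U' U X Y).filter fun k => X j < X k ∧ X k < X i).card) := by
  classical
  have h1 : ((U' U X Y).filter fun k => X j < X k) =
      insert i (((U' U X Y).filter fun k => X i < X k) ∪
        ((U' U X Y).filter fun k => X j < X k ∧ X k < X i)) := by
    ext k
    simp only [Finset.mem_filter, Finset.mem_insert, Finset.mem_union]
    constructor
    · rintro ⟨hk, hk'⟩
      by_cases hki : k = i
      · exact Or.inl hki
      · have := hg.xne k (mem_U'.1 hk).1 i (mem_U'.1 hi).1 hki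
        rcases lt_or_gt_of_ne this with h' | h'
        · exact Or.inr (Or.inr ⟨hk, hk', h'⟩)
        · exact Or.inr (Or.inl ⟨hk, h'⟩)
    · rintro (rfl | ⟨hk, hk'⟩ | ⟨hk, hk', _⟩)
      · exact ⟨hi, h⟩
      · exact ⟨hk, h.trans hk'⟩
      · exact ⟨hk, hk'⟩
  have h2 : i ∉ ((U' U X Y).filter fun k => X i < X k) ∪
      ((U' U X Y).filter fun k => X j < X k ∧ X k < X i) := by
    simp
  have h3 : Disjoint ((U' U X Y).filter fun k => X i < X k)
      ((U' U X Y).filter fun k => X j < X k ∧ X k < X i) := by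
    rw [Finset.disjoint_filter]
    intro k _ hk hk'
    exact absurd hk (not_lt.2 hk'.2.le)
  unfold rk
  have h1' : (Finset.filter (fun k => X j < X k) (U' U X Y)).card = (insert i
      (((U' U X Y).filter fun k => X i < X k) ∪
        ((U' U X Y).filter fun k => X j < X k ∧ X k < X i))).card := by rw [h1]
  rw [Finset.card_insert_of_notMem h2, Finset.card_union_of_disjoint h3] at h1'
  convert! h1' using 1
  ring

theorem rk_lt (hg : Good U X Y) {i j : ℕ} (hi : i ∈ U' U X Y) (hj : j ∈ U' U X Y)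
    (h : X j < X i) : rk U X Y i < rk U X Y j := by
  rw [rk_eq hg hi hj h]; omega

theorem rk_inj (hg : Good U X Y) {i j : ℕ} (hi : i ∈ U' U X Y) (hj : j ∈ U' U X Y)
    (h : rk U X Y i = rk U X Y j) : i = j := by
  by_contra hij
  rcases lt_or_gt_of_ne (hg.xne i (mem_U'.1 hi).1 j (mem_U'.1 hj).1 hij) with h' | h'
  · have := rk_lt hg hj hi h'
    omega
  · have := rk_lt hg hi hj h'
    omega

theorem rk_add (hg : Good U X Y) {i : ℕ} (hi : i ∈ U' U X Y) : (U' U X Y).card = rk U X Y i + 1 +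
      (by classical exact ((U' U X Y).filter fun k => X k < X i).card) := by
  classical
  have h1 : (U' U X Y) = insert i (((U' U X Y).filter fun k => X i < X k) ∪
        ((U' U X Y).filter fun k => X k < X i)) := by
    ext k
    simp only [Finset.mem_filter, Finset.mem_insert, Finset.mem_union]
    constructor
    · intro hk
      by_cases hki : k = i
      · exact Or.inl hki
      · have := hg.xne k (mem_U'.1 hk).1 i (mem_U'.1 hi).1 hki
        rcases lt_or_gt_of_ne this with h' | h'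
        · exact Or.inr (Or.inr ⟨hk, h'⟩)
        · exact Or.inr (Or.inl ⟨hk, h'⟩)
    · rintro (rfl | ⟨hk, _⟩ | ⟨hk, _⟩)
      · exact hi
      · exact hk
      · exact hk
  have h2 : i ∉ ((U' U X Y).filter fun k => X i < X k) ∪
      ((U' U X Y).filter fun k => X k < X i) := by
    simp
  have h3 : Disjoint ((U' U X Y).filter fun k => X i < X k)
      ((U' U X Y).filter fun k => X k < X i) := by
    rw [Finset.disjoint_filter]
    intro k _ hk hk'
    exact absurd hk (not_lt.2 hk'.le)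
  have h4 := congrArg Finset.card h1
  rw [Finset.card_insert_of_notMem h2, Finset.card_union_of_disjoint h3] at h4
  unfold rk
  convert! h4 using 1
  ring

theorem rk_lt_card (hg : Good U X Y) {i : ℕ} (hi : i ∈ U' U X Y) :
    rk U X Y i < (U' U X Y).card := by
  rw [rk_add hg hi]; omega

theorem card_Bd (hg : Good U X Y) : (Bd U X Y).card ≤ 5 := by
  classical
  have h1 : ((U' U X Y).filter fun i => rk U X Y i = 0 ∨
      (U' U X Y).card ≤ rk U X Y i + 2).card ≤ 3 := by
    have h2 : ((U' U X Y).filter fun i => rk U X Y i = 0 ∨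
        (U' U X Y).card ≤ rk U X Y i + 2).card ≤
        ({0, (U' U X Y).card - 1, (U' U X Y).card - 2} : Finset ℕ).card := by
      apply Finset.card_le_card_of_injOn (rk U X Y)
      · intro i hi
        rw [Finset.mem_coe, Finset.mem_filter] at hi
        have := rk_lt_card hg hi.1
        simp only [Finset.coe_insert, Finset.coe_singleton, Set.mem_insert_iff,
          Set.mem_singleton_iff]
        omega
      · intro i hi j hj hij
        rw [Finset.mem_coe, Finset.mem_filter] at hi hj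
        exact rk_inj hg hi.1 hj.1 hij
    exact h2.trans Finset.card_le_three
  have h3 := card_Pr hg
  unfold Bd
  refine (Finset.card_union_le _ _).trans ?_
  omega

end Abs

/-- five values of a rank function along the square of a path -/
theorem five {r0 r1 r2 r3 r4 : ℕ} (h01 : r0 ≠ r1) (h02 : r0 ≠ r2) (h03 : r0 ≠ r3) (h04 : r0 ≠ r4)
    (h12 : r1 ≠ r2) (h13 : r1 ≠ r3) (h14 : r1 ≠ r4) (h23 : r2 ≠ r3) (h24 : r2 ≠ r4)
    (h34 : r3 ≠ r4) (a01 : r0 ≤ r1 + 2 ∧ r1 ≤ r0 + 2) (a12 : r1 ≤ r2 + 2 ∧ r2 ≤ r1 + 2)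
    (a23 : r2 ≤ r3 + 2 ∧ r3 ≤ r2 + 2) (a34 : r3 ≤ r4 + 2 ∧ r4 ≤ r3 + 2)
    (a02 : r0 ≤ r2 + 2 ∧ r2 ≤ r0 + 2) (a13 : r1 ≤ r3 + 2 ∧ r3 ≤ r1 + 2)
    (a24 : r2 ≤ r4 + 2 ∧ r4 ≤ r2 + 2) :
    (r1 = r0 + 1 ∧ r2 = r1 + 1 ∧ r3 = r2 + 1 ∧ r4 = r3 + 1) ∨
      (r0 = r1 + 1 ∧ r1 = r2 + 1 ∧ r2 = r3 + 1 ∧ r3 = r4 + 1) := by
  have c0 : r2 = r0 + 1 ∨ r2 = r0 + 2 ∨ r0 = r2 + 1 ∨ r0 = r2 + 2 := by omega
  have c4 : r2 = r4 + 1 ∨ r2 = r4 + 2 ∨ r4 = r2 + 1 ∨ r4 = r2 + 2 := by omega
  have c1 : r2 = r1 + 1 ∨ r2 = r1 + 2 ∨ r1 = r2 + 1 ∨ r1 = r2 + 2 := by omega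
  rcases c0 with c0 | c0 | c0 | c0 <;> rcases c4 with c4 | c4 | c4 | c4 <;>
    rcases c1 with c1 | c1 | c1 | c1 <;> omega

/-- the square of a path joined to two adjacent hubs, as a subgraph -/
structure Core {V : Type*} (H : SimpleGraph V) (a b : V) (p : ℕ → V) (m : ℕ) : Prop where
  ha : ∀ i < m, H.Adj a (p i)
  hb : ∀ i < m, H.Adj b (p i)
  inj : ∀ i < m, ∀ j < m, p i = p j → i = j
  h1 : ∀ i, i + 1 < m → H.Adj (p i) (p (i + 1))
  h2 : ∀ i, i + 2 < m → H.Adj (p i) (p (i + 2))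

section

variable {V : Type*} {H : SimpleGraph V} {f : V → ℂ} {a b : V} {p : ℕ → V} {m : ℕ}

open Classical in
/-- indices of the vertices above the axis -/
noncomputable def Ups (f : V → ℂ) (p : ℕ → V) (m : ℕ) : Finset ℕ :=
  (Finset.range m).filter fun i => 0 < (f (p i)).im

theorem mem_Ups {i : ℕ} : i ∈ Ups f p m ↔ i < m ∧ 0 < (f (p i)).im := by
  classical
  simp [Ups]

theorem Nm.good (h : Nm H f a b) (hc : Core H a b p m) :
    Abs.Good (Ups f p m) (fun i => xc (f (p i))) (fun i => yc (f (p i))) where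
  pos := fun i hi => xy_pos (mem_Ups.1 hi).2
  xne := fun i hi j hj hij => h.x_ne (mem_Ups.1 hi).2 (mem_Ups.1 hj).2 (hc.ha i (mem_Ups.1 hi).1)
    (hc.ha j (mem_Ups.1 hj).1) fun h' => hij (hc.inj i (mem_Ups.1 hi).1 j (mem_Ups.1 hj).1 h')
  yne := fun i hi j hj hij => h.y_ne (mem_Ups.1 hi).2 (mem_Ups.1 hj).2 (hc.hb i (mem_Ups.1 hi).1)
    (hc.hb j (mem_Ups.1 hj).1) fun h' => hij (hc.inj i (mem_Ups.1 hi).1 j (mem_Ups.1 hj).1 h')
  inc := fun i hi j hj hx hy => h.incomp (mem_Ups.1 hi).2 (mem_Ups.1 hj).2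
    (hc.ha j (mem_Ups.1 hj).1) (hc.hb i (mem_Ups.1 hi).1) hx hy

/-- bad indices of the upper side -/
noncomputable def BdU (f : V → ℂ) (p : ℕ → V) (m : ℕ) : Finset ℕ :=
  Abs.Bd (Ups f p m) (fun i => xc (f (p i))) (fun i => yc (f (p i)))

/-- the ranks on the upper side -/
noncomputable def rkU (f : V → ℂ) (p : ℕ → V) (m : ℕ) (i : ℕ) : ℕ :=
  Abs.rk (Ups f p m) (fun i => xc (f (p i))) (fun i => yc (f (p i))) i

theorem mem_U'_of_notMem {i : ℕ} (hi : i ∈ Ups f p m) (hb : i ∉ BdU f p m) :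
    i ∈ Abs.U' (Ups f p m) (fun i => xc (f (p i))) (fun i => yc (f (p i))) := by
  classical
  rw [Abs.mem_U']
  refine ⟨hi, fun h => hb ?_⟩
  unfold BdU Abs.Bd
  exact Finset.mem_union_left _ h

/-- good indices have no neighbour below the axis -/
theorem Nm.no_down (h : Nm H f a b) (hc : Core H a b p m) {i j : ℕ} (hi : i ∈ Ups f p m)
    (hb : i ∉ BdU f p m) (hj : j < m) (hij : H.Adj (p i) (p j)) : j ∈ Ups f p m := by
  classical
  have hg := h.good hc
  have hi' := mem_U'_of_notMem hi hb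
  rw [mem_Ups]
  refine ⟨hj, ?_⟩
  have hne := h.im_ne (hc.ha j hj) (hc.hb j hj)
  rcases lt_or_gt_of_ne hne with hlt | hgt
  · exfalso
    apply hb
    unfold BdU Abs.Bd
    apply Finset.mem_union_right
    rw [Finset.mem_filter]
    refine ⟨hi', ?_⟩
    rcases h.down (mem_Ups.1 hi).2 hlt hij with h1 | h1
    · left
      unfold Abs.rk
      rw [Finset.card_eq_zero, Finset.filter_eq_empty_iff]
      intro k hk hlt'
      have hkU := mem_Ups.1 (Abs.mem_U'.1 hk).1
      exact h1 (p k) hkU.2 (hc.ha k hkU.1) (hc.hb k hkU.1)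
        (Abs.nest_of_lt hk hi hlt')
    · right
      rw [Abs.rk_add hg hi']
      have : ((Abs.U' (Ups f p m) (fun i => xc (f (p i))) (fun i => yc (f (p i)))).filter
          fun k => xc (f (p k)) < xc (f (p i))).card ≤ 1 := by
        rw [Finset.card_le_one]
        intro k hk l hl
        rw [Finset.mem_filter] at hk hl
        have hkU := mem_Ups.1 (Abs.mem_U'.1 hk.1).1
        have hlU := mem_Ups.1 (Abs.mem_U'.1 hl.1).1
        exact hc.inj k hkU.1 l hlU.1 (h1 (p k) (p l) hkU.2 hlU.2 (hc.ha k hkU.1) (hc.hb k hkU.1)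
          (hc.ha l hlU.1) (hc.hb l hlU.1)
          (Abs.nest_of_lt hi' (Abs.mem_U'.1 hk.1).1 hk.2)
          (Abs.nest_of_lt hi' (Abs.mem_U'.1 hl.1).1 hl.2))
      have h2 : ∀ (n x y : ℕ), y ≤ 1 → n + 1 + y ≤ n + 2 := fun n _ y hy => by omega
      convert! h2 _ 0 _ this using 1
  · exact hgt

/-- adjacent vertices have close ranks -/
theorem Nm.rank_close (h : Nm H f a b) (hc : Core H a b p m) {i j : ℕ} (hi : i ∈ Ups f p m)
    (hbi : i ∉ BdU f p m) (hj : j ∈ Ups f p m) (hbj : j ∉ BdU f p m) (hij : H.Adj (p i) (p j)) :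
    rkU f p m i ≠ rkU f p m j ∧ rkU f p m i ≤ rkU f p m j + 2 ∧
      rkU f p m j ≤ rkU f p m i + 2 := by
  classical
  have hg := h.good hc
  -- one direction
  have key : ∀ i j : ℕ, i ∈ Ups f p m → i ∉ BdU f p m → j ∈ Ups f p m → j ∉ BdU f p m →
      H.Adj (p i) (p j) → xc (f (p j)) < xc (f (p i)) →
      rkU f p m i < rkU f p m j ∧ rkU f p m j ≤ rkU f p m i + 2 := by
    intro i j hi hbi hj hbj hij hlt
    have hi' := mem_U'_of_notMem hi hbi
    have hj' := mem_U'_of_notMem hj hbj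
    have h1 := Abs.rk_eq hg hi' hj' hlt
    have h2 : ((Abs.U' (Ups f p m) (fun i => xc (f (p i))) (fun i => yc (f (p i)))).filter
        fun k => xc (f (p j)) < xc (f (p k)) ∧ xc (f (p k)) < xc (f (p i))).card ≤ 1 := by
      rw [Finset.card_le_one]
      intro k hk l hl
      by_contra hkl
      rw [Finset.mem_filter] at hk hl
      have hkU := mem_Ups.1 (Abs.mem_U'.1 hk.1).1
      have hlU := mem_Ups.1 (Abs.mem_U'.1 hl.1).1
      have e1 : Nest (f (p i)) (f (p k)) := Abs.nest_of_lt hi' (Abs.mem_U'.1 hk.1).1 hk.2.2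
      have e2 : Nest (f (p i)) (f (p l)) := Abs.nest_of_lt hi' (Abs.mem_U'.1 hl.1).1 hl.2.2
      have e3 : Nest (f (p k)) (f (p j)) := Abs.nest_of_lt hk.1 hj hk.2.1
      have e4 : Nest (f (p l)) (f (p j)) := Abs.nest_of_lt hl.1 hj hl.2.1
      rcases Abs.comp_of_mem hk.1 (Abs.mem_U'.1 hl.1).1 (Ne.symm hkl) with e | e
      · exact h.not_two (mem_Ups.1 hi).2 (mem_Ups.1 hj).2 hkU.2 hlU.2 hij (hc.ha k hkU.1)
          (hc.hb k hkU.1) (hc.ha l hlU.1) (hc.hb l hlU.1) e1 e e4
      · exact h.not_two (mem_Ups.1 hi).2 (mem_Ups.1 hj).2 hlU.2 hkU.2 hij (hc.ha l hlU.1)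
          (hc.hb l hlU.1) (hc.ha k hkU.1) (hc.hb k hkU.1) e2 e e3
    have h3 : ∀ (r s t : ℕ), s = r + 1 + t → t ≤ 1 → r < s ∧ s ≤ r + 2 := fun r s t _ _ => by
      omega
    refine h3 _ _ _ h1 ?_
    convert! h2 using 1
  have hne : i ≠ j := by rintro rfl; exact hij.ne rfl
  rcases lt_or_gt_of_ne (hg.xne i hi j hj hne) with h' | h'
  · have := key j i hj hbj hi hbi hij.symm h'
    omega
  · have := key i j hi hbi hj hbj hij h'
    omega

theorem Nm.rank_inj (h : Nm H f a b) (hc : Core H a b p m) {i j : ℕ} (hi : i ∈ Ups f p m)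
    (hbi : i ∉ BdU f p m) (hj : j ∈ Ups f p m) (hbj : j ∉ BdU f p m) (hij : i ≠ j) :
    rkU f p m i ≠ rkU f p m j := fun h' =>
  hij (Abs.rk_inj (h.good hc) (mem_U'_of_notMem hi hbi) (mem_U'_of_notMem hj hbj) h')

theorem Nm.nest_of_rank (h : Nm H f a b) (hc : Core H a b p m) {i j : ℕ} (hi : i ∈ Ups f p m)
    (hbi : i ∉ BdU f p m) (hj : j ∈ Ups f p m) (hbj : j ∉ BdU f p m)
    (hij : rkU f p m i < rkU f p m j) : Nest (f (p i)) (f (p j)) := by
  have hg := h.good hc
  have hi' := mem_U'_of_notMem hi hbi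
  have hj' := mem_U'_of_notMem hj hbj
  have hne : i ≠ j := by rintro rfl; exact lt_irrefl _ hij
  rcases lt_or_gt_of_ne (hg.xne i hi j hj hne) with h' | h'
  · have : rkU f p m j < rkU f p m i := Abs.rk_lt hg hj' hi' h'
    omega
  · exact Abs.nest_of_lt hi' hj h'

/-- five consecutive good indices -/
theorem Nm.five (h : Nm H f a b) (hc : Core H a b p m) {i : ℕ} (him : i + 4 < m)
    (hU : ∀ j, i ≤ j → j ≤ i + 4 → j ∈ Ups f p m) (hB : ∀ j, i ≤ j → j ≤ i + 4 → j ∉ BdU f p m) :
    (rkU f p m (i + 1) = rkU f p m i + 1 ∧ rkU f p m (i + 2) = rkU f p m (i + 1) + 1 ∧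
      rkU f p m (i + 3) = rkU f p m (i + 2) + 1 ∧ rkU f p m (i + 4) = rkU f p m (i + 3) + 1) ∨
    (rkU f p m i = rkU f p m (i + 1) + 1 ∧ rkU f p m (i + 1) = rkU f p m (i + 2) + 1 ∧
      rkU f p m (i + 2) = rkU f p m (i + 3) + 1 ∧ rkU f p m (i + 3) = rkU f p m (i + 4) + 1) := by
  have ne : ∀ j l, i ≤ j → j ≤ i + 4 → i ≤ l → l ≤ i + 4 → j ≠ l →
      rkU f p m j ≠ rkU f p m l := fun j l h1 h2 h3 h4 h5 =>
    h.rank_inj hc (hU j h1 h2) (hB j h1 h2) (hU l h3 h4) (hB l h3 h4) h5
  have cl : ∀ j l, i ≤ j → j ≤ i + 4 → i ≤ l → l ≤ i + 4 → H.Adj (p j) (p l) →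
      rkU f p m j ≤ rkU f p m l + 2 ∧ rkU f p m l ≤ rkU f p m j + 2 := fun j l h1 h2 h3 h4 h5 =>
    (h.rank_close hc (hU j h1 h2) (hB j h1 h2) (hU l h3 h4) (hB l h3 h4) h5).2
  exact RAC.five (ne _ _ (by omega) (by omega) (by omega) (by omega) (by omega))
    (ne _ _ (by omega) (by omega) (by omega) (by omega) (by omega))
    (ne _ _ (by omega) (by omega) (by omega) (by omega) (by omega))
    (ne _ _ (by omega) (by omega) (by omega) (by omega) (by omega))
    (ne _ _ (by omega) (by omega) (by omega) (by omega) (by omega))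
    (ne _ _ (by omega) (by omega) (by omega) (by omega) (by omega))
    (ne _ _ (by omega) (by omega) (by omega) (by omega) (by omega))
    (ne _ _ (by omega) (by omega) (by omega) (by omega) (by omega))
    (ne _ _ (by omega) (by omega) (by omega) (by omega) (by omega))
    (ne _ _ (by omega) (by omega) (by omega) (by omega) (by omega))
    (cl _ _ (by omega) (by omega) (by omega) (by omega) (hc.h1 i (by omega)))
    (cl _ _ (by omega) (by omega) (by omega) (by omega) (hc.h1 (i + 1) (by omega)))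
    (cl _ _ (by omega) (by omega) (by omega) (by omega) (hc.h1 (i + 2) (by omega)))
    (cl _ _ (by omega) (by omega) (by omega) (by omega) (hc.h1 (i + 3) (by omega)))
    (cl _ _ (by omega) (by omega) (by omega) (by omega) (hc.h2 i (by omega)))
    (cl _ _ (by omega) (by omega) (by omega) (by omega) (hc.h2 (i + 1) (by omega)))
    (cl _ _ (by omega) (by omega) (by omega) (by omega) (hc.h2 (i + 2) (by omega)))

/-- a long window of good indices above the axis is monotone -/
theorem Nm.mono (h : Nm H f a b) (hc : Core H a b p m) {i L : ℕ} (hL : 4 ≤ L) (him : i + L < m)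
    (hU : ∀ j, i ≤ j → j ≤ i + L → j ∈ Ups f p m) (hB : ∀ j, i ≤ j → j ≤ i + L → j ∉ BdU f p m) :
    (∀ j, i ≤ j → j < i + L → Nest (f (p j)) (f (p (j + 1)))) ∨
    (∀ j, i ≤ j → j < i + L → Nest (f (p (j + 1))) (f (p j))) := by
  have key : ∀ n, n + 4 ≤ L →
      ((∀ j, i ≤ j → j < i + n + 4 → rkU f p m (j + 1) = rkU f p m j + 1) ∨
      (∀ j, i ≤ j → j < i + n + 4 → rkU f p m j = rkU f p m (j + 1) + 1)) := by
    intro n
    induction n with
    | zero =>
      intro _
      rcases h.five hc (i := i) (by omega) (fun j h1 h2 => hU j h1 (by omega))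
        (fun j h1 h2 => hB j h1 (by omega)) with ⟨a1, a2, a3, a4⟩ | ⟨a1, a2, a3, a4⟩
      · left
        intro j h1 h2
        obtain ⟨t, rfl⟩ := Nat.exists_eq_add_of_le h1
        have ht : t < 4 := by omega
        interval_cases t <;> assumption
      · right
        intro j h1 h2
        obtain ⟨t, rfl⟩ := Nat.exists_eq_add_of_le h1
        have ht : t < 4 := by omega
        interval_cases t <;> assumption
    | succ n ih =>
      intro hn
      have h5 := h.five hc (i := i + n + 1) (by omega) (fun j h1 h2 => hU j (by omega) (by omega))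
        (fun j h1 h2 => hB j (by omega) (by omega))
      rcases ih (by omega) with h6 | h6
      · left
        intro j h1 h2
        have h7 := h6 (i + n + 1) (by omega) (by omega)
        rcases h5 with ⟨a1, a2, a3, a4⟩ | ⟨a1, a2, a3, a4⟩
        · rcases Nat.lt_or_ge j (i + n + 4) with h8 | h8
          · exact h6 j h1 h8
          · have : j = i + n + 1 + 3 := by omega
            subst this
            exact a4
        · omega
      · right
        intro j h1 h2
        have h7 := h6 (i + n + 1) (by omega) (by omega)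
        rcases h5 with ⟨a1, a2, a3, a4⟩ | ⟨a1, a2, a3, a4⟩
        · omega
        · rcases Nat.lt_or_ge j (i + n + 4) with h8 | h8
          · exact h6 j h1 h8
          · have : j = i + n + 1 + 3 := by omega
            subst this
            exact a4
  rcases key (L - 4) (by omega) with h1 | h1
  · left
    intro j h2 h3
    refine h.nest_of_rank hc (hU j h2 h3.le) (hB j h2 h3.le) (hU (j + 1) (by omega) (by omega))
      (hB (j + 1) (by omega) (by omega)) ?_
    have := h1 j h2 (by omega)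
    omega
  · right
    intro j h2 h3
    refine h.nest_of_rank hc (hU (j + 1) (by omega) (by omega)) (hB (j + 1) (by omega) (by omega))
      (hU j h2 h3.le) (hB j h2 h3.le) ?_
    have := h1 j h2 (by omega)
    omega

theorem Nm.up_all (h : Nm H f a b) (hc : Core H a b p m) {i L : ℕ} (him : i + L < m)
    (hi : i ∈ Ups f p m) (hB : ∀ j, i ≤ j → j ≤ i + L → j ∉ BdU f p m) :
    ∀ n ≤ L, i + n ∈ Ups f p m := by
  intro n
  induction n with
  | zero => intro _; exact hi
  | succ n ih =>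
    intro hn
    exact h.no_down hc (ih (by omega)) (hB _ (by omega) (by omega)) (by omega)
      (hc.h1 (i + n) (by omega))

/-- **Windows.** Outside of a set of at most ten bad indices, windows of the path are monotone. -/
theorem Nm.windows (h : Nm H f a b) (hc : Core H a b p m) : ∃ B : Finset ℕ, B.card ≤ 10 ∧
    ∀ i L, 4 ≤ L → i + L < m → (∀ j, i ≤ j → j ≤ i + L → j ∉ B) →
      ∃ g : V → ℂ, Nm H g a b ∧ (∀ j, i ≤ j → j ≤ i + L → 0 < (g (p j)).im) ∧
        ((∀ j, i ≤ j → j < i + L → Nest (g (p j)) (g (p (j + 1)))) ∨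
          (∀ j, i ≤ j → j < i + L → Nest (g (p (j + 1))) (g (p j)))) := by
  classical
  refine ⟨BdU f p m ∪ BdU (fun v => (starRingEnd ℂ) (f v)) p m, ?_, ?_⟩
  · refine (Finset.card_union_le _ _).trans ?_
    have h1 : (BdU f p m).card ≤ 5 := Abs.card_Bd (h.good hc)
    have h2 : (BdU (fun v => (starRingEnd ℂ) (f v)) p m).card ≤ 5 := Abs.card_Bd (h.conj.good hc)
    omega
  · intro i L hL him hB
    have hne := h.im_ne (hc.ha i (by omega)) (hc.hb i (by omega))
    rcases lt_or_gt_of_ne hne with h1 | h1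
    · have hB' : ∀ j, i ≤ j → j ≤ i + L → j ∉ BdU (fun v => (starRingEnd ℂ) (f v)) p m :=
        fun j h2 h3 h4 => hB j h2 h3 (Finset.mem_union_right _ h4)
      have hi : i ∈ Ups (fun v => (starRingEnd ℂ) (f v)) p m :=
        mem_Ups.2 ⟨by omega, by simpa using h1⟩
      have hall := h.conj.up_all hc him hi hB'
      have hall' : ∀ j, i ≤ j → j ≤ i + L → j ∈ Ups (fun v => (starRingEnd ℂ) (f v)) p m := by
        intro j h2 h3
        obtain ⟨n, rfl⟩ := Nat.exists_eq_add_of_le h2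
        exact hall n (by omega)
      exact ⟨_, h.conj, fun j h2 h3 => (mem_Ups.1 (hall' j h2 h3)).2,
        h.conj.mono hc hL him hall' hB'⟩
    · have hB' : ∀ j, i ≤ j → j ≤ i + L → j ∉ BdU f p m :=
        fun j h2 h3 h4 => hB j h2 h3 (Finset.mem_union_left _ h4)
      have hi : i ∈ Ups f p m := mem_Ups.2 ⟨by omega, h1⟩
      have hall := h.up_all hc him hi hB'
      have hall' : ∀ j, i ≤ j → j ≤ i + L → j ∈ Ups f p m := by
        intro j h2 h3
        obtain ⟨n, rfl⟩ := Nat.exists_eq_add_of_le h2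
        exact hall n (by omega)
      exact ⟨_, h, fun j h2 h3 => (mem_Ups.1 (hall' j h2 h3)).2, h.mono hc hL him hall' hB'⟩

end

end Pool.Agent.Helper18.RAC
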