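import Pool.Agent.Helper18.RAC.Local
import Pool.Agent.Helper18.RAC.Window

/-!
# No additional edges near the centre of a monotone window
-/

set_option autoImplicit false

open Complex

namespace Pool.Agent.Helper18.RAC

variable {V : Type*}

/-- the vertices of the core -/
def CoreV (G : SimpleGraph V) (a b v : V) : Prop := v = a ∨ v = b ∨ (G.Adj v a ∧ G.Adj v b)

/-- the conditions on the other vertices (hermits) -/
structure Cfg (G : SimpleGraph V) (a b : V) (p : ℕ → V) (m : ℕ) : Prop where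
  ab : G.Adj a b
  core : Core G a b p m
  nbrs : ∀ v, ¬ CoreV G a b v → ∃ y₁ y₂, y₁ ≠ y₂ ∧ CoreV G a b y₁ ∧ CoreV G a b y₂ ∧
    ∀ y, G.Adj v y ↔ (y = y₁ ∨ y = y₂)
  n1 : ∀ h h' i, i < m → ¬ CoreV G a b h → ¬ CoreV G a b h' → G.Adj h (p i) → G.Adj h' (p i) →
    h = h'
  n2 : ∀ h h' i x, i + 2 < m → ¬ CoreV G a b h → ¬ CoreV G a b h' → (x = a ∨ x = b) →
    G.Adj h x → G.Adj h' x → G.Adj h (p i) → G.Adj h' (p (i + 2)) → False

section

variable {G H : SimpleGraph V} {f : V → ℂ} {a b v v' : V} {w c : ℤ → V} {q : ℤ → ℂ}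
  {s δ s' δ' : ℤ} {κ κ' : Bool} {p : ℕ → V} {m : ℕ}

theorem CoreV.mono (hle : G ≤ H) (h : CoreV G a b v) : CoreV H a b v := by
  rcases h with h | h | ⟨h1, h2⟩
  · exact Or.inl h
  · exact Or.inr (Or.inl h)
  · exact Or.inr (Or.inr ⟨hle h1, hle h2⟩)

/-- a vertex in a cell is a hermit which is attached to the ends of the side of the cell -/
theorem Win.hermit (h : Win H f a b w c q) (hle : G ≤ H) (hg : Cfg G a b p m)
    (hδ : δ = 1 ∨ δ = -1) (h1 : -3 ≤ s) (h2 : s ≤ 3) (hc : Cell f w c q s δ κ (f v)) :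
    ¬ CoreV G a b v ∧ ∀ y, G.Adj v y ↔ (y = w (s + δ) ∨ y = cond κ (c s) (w s)) := by
  have hv : ¬ CoreV G a b v := fun hcv =>
    h.no_core hδ (by omega) (show s ≤ 5 by omega) (hcv.mono hle) hc
  refine ⟨hv, ?_⟩
  obtain ⟨y₁, y₂, hne, hy1, hy2, hiff⟩ := hg.nbrs v hv
  have key : ∀ y, CoreV G a b y → G.Adj v y → y = w (s + δ) ∨ y = cond κ (c s) (w s) := by
    intro y hy hvy
    rcases h.step hδ (by omega) (show s ≤ 5 by omega) (hle hvy) hc with h3 | h3 |
      ⟨s', δ', κ', hr, h3⟩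
    · exact Or.inl h3
    · exact Or.inr h3
    · exfalso
      have hb := hr.bd hδ
      exact h.no_core (hr.pm hδ) (by omega) (by omega) (hy.mono hle) h3
  have k1 := key y₁ hy1 ((hiff y₁).2 (Or.inl rfl))
  have k2 := key y₂ hy2 ((hiff y₂).2 (Or.inr rfl))
  intro y
  rw [hiff]
  rcases k1 with k1 | k1 <;> rcases k2 with k2 | k2
  · exact absurd (k1.trans k2.symm) hne
  · rw [k1, k2]
  · rw [k1, k2]; exact or_comm
  · exact absurd (k1.trans k2.symm) hne

/-- all neighbours of the centre are neighbours in `G` -/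
theorem Win.g1 (h : Win H f a b w c q) (hle : G ≤ H) (hg : Cfg G a b p m)
    (ha : G.Adj (w 0) a) (hb : G.Adj (w 0) b) (w1 : G.Adj (w 0) (w 1)) (w2 : G.Adj (w 0) (w 2))
    (w1' : G.Adj (w 0) (w (-1))) (w2' : G.Adj (w 0) (w (-2))) (hv : H.Adj (w 0) v) :
    G.Adj (w 0) v := by
  rcases h.around hv with rfl | rfl | rfl | rfl | rfl | rfl | ⟨s, δ, κ, h1, h2, hδ, h3, h4⟩
  · exact w1
  · exact w1'
  · exact w2
  · exact w2'
  · exact ha
  · exact hb
  · have h5 := (h.hermit hle hg hδ (by omega) (by omega) h4).2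
    refine SimpleGraph.Adj.symm ?_
    rw [h5]
    rcases h3 with h3 | ⟨h3, h3'⟩
    · left; rw [h3]
    · right; rw [h3, h3']; rfl

/-- all neighbours of a hermit at the centre are neighbours in `G` -/
theorem Win.g2 (h : Win H f a b w c q) (hle : G ≤ H) (hg : Cfg G a b p m)
    (hw : ∀ s, -8 ≤ s → s ≤ 8 → ∃ i < m, w s = p i)
    (hw2 : ∀ s, -7 ≤ s → s ≤ 7 → ∃ i, i + 2 < m ∧ ((w (s - 1) = p i ∧ w (s + 1) = p (i + 2)) ∨
      (w (s + 1) = p i ∧ w (s - 1) = p (i + 2))))
    {x : V} (hx : ¬ CoreV G a b x) (hxw : G.Adj x (w 0)) (hv : H.Adj x v) : G.Adj x v := by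
  have hcore : ∀ s, -8 ≤ s → s ≤ 8 → CoreV G a b (w s) := by
    intro s h1 h2
    obtain ⟨i, hi, e⟩ := hw s h1 h2
    rw [e]
    exact Or.inr (Or.inr ⟨(hg.core.ha i hi).symm, (hg.core.hb i hi).symm⟩)
  have hN1 : ∀ s y z, -8 ≤ s → s ≤ 8 → ¬ CoreV G a b y → ¬ CoreV G a b z → G.Adj y (w s) →
      G.Adj z (w s) → y = z := by
    intro s y z h1 h2 hy hz hys hzs
    obtain ⟨i, hi, e⟩ := hw s h1 h2
    rw [e] at hys hzs
    exact hg.n1 y z i hi hy hz hys hzs
  have hN2 : ∀ s y z u, -7 ≤ s → s ≤ 7 → (u = a ∨ u = b) → ¬ CoreV G a b y → ¬ CoreV G a b z →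
      G.Adj y u → G.Adj z u → G.Adj y (w (s - 1)) → G.Adj z (w (s + 1)) → False := by
    intro s y z u h1 h2 hu hy hz hyu hzu hys hzs
    obtain ⟨i, hi, ⟨e1, e2⟩ | ⟨e1, e2⟩⟩ := hw2 s h1 h2
    · rw [e1] at hys
      rw [e2] at hzs
      exact hg.n2 y z i u hi hy hz hu hyu hzu hys hzs
    · rw [e1] at hzs
      rw [e2] at hys
      exact hg.n2 z y i u hi hz hy hu hzu hyu hzs hys
  rcases h.around (hle hxw.symm) with rfl | rfl | rfl | rfl | rfl | rfl |
    ⟨s, δ, κ, h1, h2, hδ, -, h4⟩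
  · exact absurd (hcore 1 (by omega) (by omega)) hx
  · exact absurd (hcore (-1) (by omega) (by omega)) hx
  · exact absurd (hcore 2 (by omega) (by omega)) hx
  · exact absurd (hcore (-2) (by omega) (by omega)) hx
  · exact absurd (Or.inl rfl) hx
  · exact absurd (Or.inr (Or.inl rfl)) hx
  · have h5 := (h.hermit hle hg hδ (by omega) (by omega) h4).2
    rcases h.step hδ (by omega) (by omega) hv h4 with h6 | h6 | ⟨s', δ', κ', hr, h6⟩
    · exact (h5 v).2 (Or.inl h6)
    · exact (h5 v).2 (Or.inr h6)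
    · exfalso
      have hbd := hr.bd hδ
      obtain ⟨hvc, h7⟩ := h.hermit hle hg (hr.pm hδ) (by omega) (by omega) h6
      have hxv : x ≠ v := hv.ne
      rcases hr with ⟨r1, r2⟩ | ⟨r1, r2, r3⟩ | ⟨r1, r2, r3, r4⟩ | ⟨r1, r2, r3, r4⟩
      · rw [r1, r2] at h7
        exact hxv (hN1 (s + δ) x v (by omega) (by omega) hx hvc ((h5 _).2 (Or.inl rfl))
          ((h7 _).2 (Or.inl rfl)))
      · rw [r1, r2, r3] at h7
        cases κ with
        | false =>
          exact hxv (hN1 s x v (by omega) (by omega) hx hvc ((h5 _).2 (Or.inr rfl))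
            ((h7 _).2 (Or.inr rfl)))
        | true =>
          simp only [cond_true] at h5 h7
          have e1 := (h5 _).2 (Or.inl rfl)
          have e2 := (h7 _).2 (Or.inl rfl)
          have e3 := (h5 _).2 (Or.inr rfl)
          have e4 := (h7 _).2 (Or.inr rfl)
          rcases hδ with rfl | rfl
          · exact hN2 s v x (c s) (by omega) (by omega) (h.cab s (by omega) (by omega)) hvc hx
              e4 e3 e2 e1
          · rw [neg_neg] at e2
            exact hN2 s x v (c s) (by omega) (by omega) (h.cab s (by omega) (by omega)) hx hvc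
              e3 e4 e1 e2
      · rw [r2, r3, r4] at h7
        have e1 := (h5 _).2 (Or.inl rfl)
        have e2 := (h7 (w (s + δ))).2 (Or.inr rfl)
        exact hxv (hN1 (s + δ) x v (by omega) (by omega) hx hvc e1 e2)
      · rw [r2, r3, r4] at h7
        have e1 := (h5 _).2 (Or.inl rfl)
        have e2 := (h7 _).2 (Or.inl rfl)
        have e3 : s + 2 * δ + -δ = s + δ := by ring
        rw [e3] at e2
        exact hxv (hN1 (s + δ) x v (by omega) (by omega) hx hvc e1 e2)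

end

end Pool.Agent.Helper18.RAC
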