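import Pool.Agent.Helper18.RAC.Local
import Pool.Agent.Helper18.RAC.Fan1

/-!
# The drawing near the centre of a monotone window of radius `R`
-/

set_option autoImplicit false

open Complex

namespace Pool.Agent.Helper18.RAC

variable {V : Type*}

/-- data of a monotone window with centre `w 0` and radius `R` -/
structure WinR (H : SimpleGraph V) (f : V → ℂ) (a b : V) (w c : ℤ → V) (q : ℤ → ℂ) (R : ℤ) :
    Prop where
  rac : IsRAC H f
  ne : a ≠ b
  ia : (f a).im = 0
  ib : (f b).im = 0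
  im : ∀ s, -R ≤ s → s ≤ R → 0 < (f (w s)).im
  adja : ∀ s, -R ≤ s → s ≤ R → H.Adj (w s) a
  adjb : ∀ s, -R ≤ s → s ≤ R → H.Adj (w s) b
  cab : ∀ s, -R < s → s < R → c s = a ∨ c s = b
  c2 : ∀ s, -R < s → s + 2 < R → c (s + 2) = c s
  kite : ∀ s, -R < s → s < R → Kite H f (w (s - 1)) (w (s + 1)) (c s) (w s) (q s)
  sideP : ∀ s, -R < s → s + 1 < R →
    Dt (f (w s)) (f (w (s + 1))) (q s) * Dt (f (w s)) (f (w (s + 1))) (q (s + 1)) < 0
  sideH : ∀ s, -R < s → s + 2 < R →
    Dt (f (w (s + 1))) (f (c s)) (q s) * Dt (f (w (s + 1))) (f (c s)) (q (s + 2)) < 0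
  sec : ∀ s, -R < s - 1 → s + 1 < R →
    (0 < Dt (f (w s)) (f (w (s - 1))) (f (w (s + 1))) ∧
      0 < Dt (f (w s)) (f (w (s + 1))) (f (c (s + 1))) ∧
      0 < Dt (f (w s)) (f (c (s + 1))) (f (w (s - 1)))) ∨
    (Dt (f (w s)) (f (w (s - 1))) (f (w (s + 1))) < 0 ∧
      Dt (f (w s)) (f (w (s + 1))) (f (c (s + 1))) < 0 ∧
      Dt (f (w s)) (f (c (s + 1))) (f (w (s - 1))) < 0)

section

variable {G H : SimpleGraph V} {f : V → ℂ} {a b v v' : V} {w c : ℤ → V} {q : ℤ → ℂ}
  {s δ s' δ' R : ℤ} {κ κ' : Bool}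

theorem WinR.ck (h : WinR H f a b w c q R) (hδ : δ = 1 ∨ δ = -1) (κ : Bool) (h1 : -R < s)
    (h2 : s < R) : Kite H f (w (s + δ)) (w (s - δ)) (cond κ (c s) (w s)) (cond κ (w s) (c s))
      (q s) := by
  have hk := h.kite s h1 h2
  rcases hδ with rfl | rfl
  · cases κ
    · exact hk.flipu.flipw
    · exact hk.flipu
  · have e1 : s + -1 = s - 1 := by ring
    have e2 : s - -1 = s + 1 := by ring
    rw [e1, e2]
    cases κ
    · exact hk.flipw
    · exact hk

/-- the two cells at a side lie on different sides of it -/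
theorem WinR.sd_false (h : WinR H f a b w c q R) (hδ : δ = 1 ∨ δ = -1) (h1 : -R + 2 ≤ s)
    (h2 : s ≤ R - 2) :
    Dt (f (w (s + δ))) (f (w s)) (q s) * Dt (f (w (s + δ))) (f (w s)) (q (s + δ)) < 0 := by
  rcases hδ with rfl | rfl
  · have := h.sideP s (by omega) (by omega)
    unfold Dt at this ⊢
    linarith
  · have := h.sideP (s - 1) (by omega) (by omega)
    rw [sub_add_cancel] at this
    have e1 : s + -1 = s - 1 := by ring
    rw [e1]
    linarith

theorem WinR.sd_true (h : WinR H f a b w c q R) (hδ : δ = 1 ∨ δ = -1) (h1 : -R + 3 ≤ s)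
    (h2 : s ≤ R - 3) :
    Dt (f (w (s + δ))) (f (c s)) (q s) * Dt (f (w (s + δ))) (f (c s)) (q (s + 2 * δ)) < 0 ∧
      c (s + 2 * δ) = c s := by
  rcases hδ with rfl | rfl
  · exact ⟨h.sideH s (by omega) (by omega), h.c2 s (by omega) (by omega)⟩
  · have h3 := h.sideH (s - 2) (by omega) (by omega)
    have h4 := h.c2 (s - 2) (by omega) (by omega)
    rw [sub_add_cancel] at h3 h4
    have e1 : s + -1 = s - 2 + 1 := by ring
    have e2 : s + 2 * -1 = s - 2 := by ring
    rw [e1, e2]
    refine ⟨?_, h4.symm⟩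
    rw [← h4] at h3
    linarith

/-- where an edge from a cell can lead -/
theorem WinR.step (h : WinR H f a b w c q R) (hδ : δ = 1 ∨ δ = -1) (h1 : -R + 3 ≤ s)
    (h2 : s ≤ R - 3)
    (hv : H.Adj v v') (hc : Cell f w c q s δ κ (f v)) :
    v' = w (s + δ) ∨ v' = cond κ (c s) (w s) ∨
      ∃ s' δ' κ', Rel s δ κ s' δ' κ' ∧ Cell f w c q s' δ' κ' (f v') := by
  have hk := h.ck hδ κ (by omega) (show s < R by omega)
  rcases hk.lemmaA h.rac hv hc with h3 | h3 | h3 | h3 | h3 | ⟨h3, z, hz1, hz2⟩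
  · exact Or.inl h3
  · exact Or.inr (Or.inl h3)
  · exact Or.inr (Or.inr ⟨s, δ, κ, Or.inl ⟨rfl, rfl⟩, h3⟩)
  · refine Or.inr (Or.inr ⟨s, δ, !κ, Or.inl ⟨rfl, rfl⟩, ?_⟩)
    unfold Cell
    cases κ
    · exact h3
    · exact h3
  · refine Or.inr (Or.inr ⟨s, -δ, κ, Or.inr (Or.inl ⟨rfl, rfl, rfl⟩), ?_⟩)
    unfold Cell
    rw [← sub_eq_add_neg]
    exact h3.symm
  · cases κ with
    | false =>
      refine Or.inr (Or.inr ⟨s + δ, -δ, false, Or.inr (Or.inr (Or.inl ⟨rfl, rfl, rfl, rfl⟩)), ?_⟩)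
      have hk' := h.ck (s := s + δ) (δ := -δ) (by omega) false (by omega) (by omega)
      rw [add_neg_cancel_right] at hk'
      simp only [cond_false] at hk' hz2 h3
      have h4 := h.sd_false hδ (by omega) (show s ≤ R - 2 by omega)
      unfold Cell
      rw [add_neg_cancel_right]
      simp only [cond_false]
      refine hk'.lemmaC h.rac hv hz1 (by rw [openSegment_symm]; exact hz2) ?_
      have h5 : 0 < Dt (f (w (s + δ))) (f (w s)) (f v') *
          Dt (f (w (s + δ))) (f (w s)) (q (s + δ)) := by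
        by_contra hcon
        push Not at hcon
        have hX := mul_pos_of_neg_of_neg h3 h4
        have hne : 0 < Dt (f (w (s + δ))) (f (w s)) (q s) ^ 2 := by
          rcases (sq_nonneg (Dt (f (w (s + δ))) (f (w s)) (q s))).lt_or_eq with h' | h'
          · exact h'
          · have h0 : Dt (f (w (s + δ))) (f (w s)) (q s) = 0 := by
              have := pow_eq_zero_iff (two_ne_zero) |>.1 h'.symm
              exact this
            rw [h0, mul_zero] at h3
            exact absurd h3 (lt_irrefl _)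
        have := mul_nonpos_of_nonpos_of_nonneg hcon hne.le
        nlinarith
      unfold Dt at h5 ⊢
      linarith
    | true =>
      refine Or.inr (Or.inr ⟨s + 2 * δ, -δ, true, Or.inr (Or.inr (Or.inr ⟨rfl, rfl, rfl, rfl⟩)),
        ?_⟩)
      have hk' := h.ck (s := s + 2 * δ) (δ := -δ) (by omega) true (by omega) (by omega)
      obtain ⟨h4, h5⟩ := h.sd_true hδ (by omega) (show s ≤ R - 3 by omega)
      have e1 : s + 2 * δ + -δ = s + δ := by ring
      unfold Cell
      rw [e1] at hk' ⊢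
      simp only [cond_true] at hk' hz2 h3 ⊢
      rw [h5] at hk' ⊢
      refine hk'.lemmaC h.rac hv hz1 hz2 ?_
      by_contra hcon
      push Not at hcon
      have hX := mul_pos_of_neg_of_neg h3 h4
      have hne : 0 < Dt (f (w (s + δ))) (f (c s)) (q s) ^ 2 := by
        rcases (sq_nonneg (Dt (f (w (s + δ))) (f (c s)) (q s))).lt_or_eq with h' | h'
        · exact h'
        · have h0 : Dt (f (w (s + δ))) (f (c s)) (q s) = 0 := by
            have := pow_eq_zero_iff (two_ne_zero) |>.1 h'.symm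
            exact this
          rw [h0, mul_zero] at h3
          exact absurd h3 (lt_irrefl _)
      have := mul_nonpos_of_nonpos_of_nonneg hcon hne.le
      nlinarith

/-- cells lie above the axis -/
theorem WinR.im_cell (h : WinR H f a b w c q R) (hδ : δ = 1 ∨ δ = -1) (h1 : -R < s) (h2 : s < R)
    {z : ℂ} (hc : Cell f w c q s δ κ z) : 0 < z.im := by
  obtain ⟨α, β, γ, h3, h4, h5, -, -, h6⟩ := hc
  have hq : 0 < (q s).im := by
    obtain ⟨t, ht0, ht1, -, ht⟩ := mem_openSegment_iff.1 (h.kite s h1 h2).qu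
    rw [ht]
    have := mul_pos (show 0 < 1 - t by linarith) (h.im (s - 1) (by omega) (by omega))
    have := mul_pos ht0 (h.im (s + 1) (by omega) (by omega))
    linarith
  have hw : 0 < (f (w (s + δ))).im := h.im _ (by omega) (by omega)
  have ho : 0 ≤ (f (cond κ (c s) (w s))).im := by
    cases κ
    · exact (h.im s (by omega) (by omega)).le
    · rcases h.cab s h1 h2 with h7 | h7
      · simp only [cond_true, h7, h.ia, le_refl]
      · simp only [cond_true, h7, h.ib, le_refl]
  rw [h6]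
  have := mul_pos h3 hq
  have := mul_pos h4 hw
  have := mul_nonneg h5.le ho
  linarith

/-- common neighbours of the hubs are not in cells -/
theorem WinR.no_core (h : WinR H f a b w c q R) (hδ : δ = 1 ∨ δ = -1) (h1 : -R + 3 ≤ s)
    (h2 : s ≤ R - 3)
    (hva : v = a ∨ v = b ∨ (H.Adj v a ∧ H.Adj v b)) : ¬ Cell f w c q s δ κ (f v) := by
  intro hc
  have hi := h.im_cell hδ (by omega) (show s < R by omega) hc
  rcases hva with rfl | rfl | ⟨ha, hb⟩
  · rw [h.ia] at hi; exact lt_irrefl _ hi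
  · rw [h.ib] at hi; exact lt_irrefl _ hi
  · have key : ∀ x, H.Adj v x → (f x).im = 0 → x = cond κ (c s) (w s) := by
      intro x hx hx0
      rcases h.step hδ h1 h2 hx hc with h3 | h3 | ⟨s', δ', κ', hr, h3⟩
      · exfalso
        have := h.im (s + δ) (by omega) (by omega)
        rw [← h3, hx0] at this
        exact lt_irrefl _ this
      · exact h3
      · exfalso
        have hb := hr.bd hδ
        have := h.im_cell (hr.pm hδ) (by omega) (by omega) h3
        rw [hx0] at this
        exact lt_irrefl _ this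
    exact h.ne ((key a ha h.ia).trans (key b hb h.ib).symm)

/-- the neighbours of a path vertex -/
theorem WinR.around (h : WinR H f a b w c q R) {t : ℤ} (ht1 : -R + 2 ≤ t) (ht2 : t ≤ R - 2)
    (hv : H.Adj (w t) v) :
    v = w (t + 1) ∨ v = w (t - 1) ∨ v = w (t + 2) ∨ v = w (t - 2) ∨ v = a ∨ v = b ∨
      ∃ s δ κ, t - 1 ≤ s ∧ s ≤ t + 1 ∧ (δ = 1 ∨ δ = -1) ∧
        (s + δ = t ∨ (s = t ∧ κ = false)) ∧ Cell f w c q s δ κ (f v) := by
  have e1 : t + 1 - 1 = t := by ring
  have e2 : t + 1 + 1 = t + 2 := by ring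
  have e3 : t - 1 - 1 = t - 2 := by ring
  have e4 : t - 1 + 1 = t := by ring
  have hcc : c (t + 1) = c (t - 1) := by
    have := h.c2 (t - 1) (by omega) (by omega)
    have e5 : t - 1 + 2 = t + 1 := by ring
    rwa [e5] at this
  have k0 : Kite H f (w t) (c t) (w (t - 1)) (w (t + 1)) (q t) :=
    (h.kite t (by omega) (by omega)).swap.flipu
  have k1 : Kite H f (w t) (w (t + 2)) (w (t + 1)) (c (t + 1)) (q (t + 1)) := by
    have := (h.kite (t + 1) (by omega) (by omega)).flipw
    rwa [e1, e2] at this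
  have k2 : Kite H f (w t) (w (t - 2)) (c (t + 1)) (w (t - 1)) (q (t - 1)) := by
    have := (h.kite (t - 1) (by omega) (by omega)).flipu
    rw [e3, e4, ← hcc] at this
    exact this
  have hc0 := h.cab t (by omega) (by omega)
  have hc1 := h.cab (t + 1) (by omega) (by omega)
  have hc0' : v = c t → v = a ∨ v = b := by rintro rfl; exact hc0
  have hc1' : v = c (t + 1) → v = a ∨ v = b := by rintro rfl; exact hc1
  rcases three_cones' (p1 := (f (w (t - 1))).re - (f (w t)).re)
    (p2 := (f (w (t + 1))).re - (f (w t)).re)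
    (p3 := (f (c (t + 1))).re - (f (w t)).re) (r1 := (f (w (t - 1))).im - (f (w t)).im)
    (r2 := (f (w (t + 1))).im - (f (w t)).im) (r3 := (f (c (t + 1))).im - (f (w t)).im)
    (v1 := (f v).re - (f (w t)).re) (v2 := (f v).im - (f (w t)).im)
    (h.sec t (by omega) (by omega)) with
    ⟨x, y, hx, hy, e1, e2⟩ | ⟨x, y, hx, hy, e1, e2⟩ | ⟨x, y, hx, hy, e1, e2⟩
  · rcases k0.cone h.rac hv hx hy e1 e2 with h1 | h1 | h1 | h1 | h1
    · have := hc0' h1; tauto
    · tauto
    · tauto
    · refine Or.inr (Or.inr (Or.inr (Or.inr (Or.inr (Or.inr ⟨t, -1, false, by omega, by omega,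
        Or.inr rfl, Or.inr ⟨rfl, rfl⟩, ?_⟩)))))
      exact h1.symm
    · refine Or.inr (Or.inr (Or.inr (Or.inr (Or.inr (Or.inr ⟨t, 1, false, by omega, by omega,
        Or.inl rfl, Or.inr ⟨rfl, rfl⟩, ?_⟩)))))
      exact h1.symm
  · rcases k1.cone h.rac hv hx hy e1 e2 with h1 | h1 | h1 | h1 | h1
    · tauto
    · tauto
    · have := hc1' h1; tauto
    · refine Or.inr (Or.inr (Or.inr (Or.inr (Or.inr (Or.inr ⟨t + 1, -1, false, by omega,
        by omega, Or.inr rfl, Or.inl (by ring), ?_⟩)))))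
      unfold Cell
      rw [show t + 1 + -1 = t by ring]
      exact h1
    · refine Or.inr (Or.inr (Or.inr (Or.inr (Or.inr (Or.inr ⟨t + 1, -1, true, by omega,
        by omega, Or.inr rfl, Or.inl (by ring), ?_⟩)))))
      unfold Cell
      rw [show t + 1 + -1 = t by ring]
      exact h1
  · rcases k2.cone h.rac hv hx hy e1 e2 with h1 | h1 | h1 | h1 | h1
    · tauto
    · have := hc1' h1; tauto
    · tauto
    · refine Or.inr (Or.inr (Or.inr (Or.inr (Or.inr (Or.inr ⟨t - 1, 1, true, by omega,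
        by omega, Or.inl rfl, Or.inl (by ring), ?_⟩)))))
      unfold Cell
      rw [show t - 1 + 1 = t by ring, cond_true, ← hcc]
      exact h1
    · refine Or.inr (Or.inr (Or.inr (Or.inr (Or.inr (Or.inr ⟨t - 1, 1, false, by omega,
        by omega, Or.inl rfl, Or.inl (by ring), ?_⟩)))))
      unfold Cell
      rw [show t - 1 + 1 = t by ring]
      exact h1

end

end Pool.Agent.Helper18.RAC
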