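import Pool.Agent.Helper18.RAC.Lay2

/-!
# Maximal straight-line RAC graphs with at most `14 n / 5 + O(1)` edges
-/

set_option autoImplicit false

open Complex

namespace Pool.Agent.Helper18.RAC

section

variable {V : Type*} {a b : V} {p : ℕ → V} {z : ℤ → ℤ → Bool → V} {m K : ℕ}

/-- the core -/
def GC (a b : V) (p : ℕ → V) (m : ℕ) : SimpleGraph V := SimpleGraph.fromEdgeSet (coreE a b p m)

/-- the edges of the fan at `a` -/
def EA (a b : V) (p : ℕ → V) (z : ℤ → ℤ → Bool → V) (m K : ℕ) : Set (Sym2 V) :=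
  fanE (GC a b p m) a (fun j => p (j + 1)) (tA z) (2 * (K / 2))

/-- the core with the fan at `a` -/
def GA (a b : V) (p : ℕ → V) (z : ℤ → ℤ → Bool → V) (m K : ℕ) : SimpleGraph V :=
  GC a b p m ⊔ SimpleGraph.fromEdgeSet (EA a b p z m K)

/-- the edges of the fan at `b` -/
def EB (a b : V) (p : ℕ → V) (z : ℤ → ℤ → Bool → V) (m K : ℕ) : Set (Sym2 V) :=
  fanE (GA a b p z m K) b p (tB z) (2 * ((K + 1) / 2))

/-- the core with both fans -/
def G2 (a b : V) (p : ℕ → V) (z : ℤ → ℤ → Bool → V) (m K : ℕ) : SimpleGraph V :=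
  GA a b p z m K ⊔ SimpleGraph.fromEdgeSet (EB a b p z m K)

theorem GA_adj {u v : V} : (GA a b p z m K).Adj u v ↔
    (GC a b p m).Adj u v ∨ (s(u, v) ∈ EA a b p z m K ∧ u ≠ v) := by
  unfold GA
  rw [SimpleGraph.sup_adj, SimpleGraph.fromEdgeSet_adj]

theorem G2_adj {u v : V} : (G2 a b p z m K).Adj u v ↔
    (GC a b p m).Adj u v ∨ (s(u, v) ∈ EA a b p z m K ∧ u ≠ v) ∨
      (s(u, v) ∈ EB a b p z m K ∧ u ≠ v) := by
  unfold G2
  rw [SimpleGraph.sup_adj, SimpleGraph.fromEdgeSet_adj, GA_adj, or_assoc]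

theorem rA {j : ℕ} (hj : j < 2 * (K / 2)) : (1 : ℤ) ≤ ((2 * (j / 2) + 2 : ℕ) : ℤ) ∧
    ((2 * (j / 2) + 2 : ℕ) : ℤ) ≤ K := by omega

theorem rB {j : ℕ} (hj : j < 2 * ((K + 1) / 2)) : (1 : ℤ) ≤ ((2 * (j / 2) + 1 : ℕ) : ℤ) ∧
    ((2 * (j / 2) + 1 : ℕ) : ℤ) ≤ K := by omega

theorem Lay2.tA_ne (hl : Lay2 a b p z m K) {j : ℕ} (hj : j < 2 * (K / 2)) (r : Bool) :
    tA z j r ≠ a ∧ tA z j r ≠ b ∧ ∀ k < m, tA z j r ≠ p k :=
  ⟨hl.za _ _ r (rA hj).1 (rA hj).2 (sg_pm j), hl.zb _ _ r (rA hj).1 (rA hj).2 (sg_pm j),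
    fun k hk => hl.zp _ _ r (rA hj).1 (rA hj).2 (sg_pm j) k hk⟩

theorem Lay2.tB_ne (hl : Lay2 a b p z m K) {j : ℕ} (hj : j < 2 * ((K + 1) / 2)) (r : Bool) :
    tB z j r ≠ a ∧ tB z j r ≠ b ∧ ∀ k < m, tB z j r ≠ p k :=
  ⟨hl.za _ _ r (rB hj).1 (rB hj).2 (sg_pm j), hl.zb _ _ r (rB hj).1 (rB hj).2 (sg_pm j),
    fun k hk => hl.zp _ _ r (rB hj).1 (rB hj).2 (sg_pm j) k hk⟩

theorem Lay2.tA_inj (hl : Lay2 a b p z m K) {j k : ℕ} (hj : j < 2 * (K / 2))
    (hk : k < 2 * (K / 2)) {r s : Bool} (h : tA z j r = tA z k s) : j = k ∧ r = s := by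
  obtain ⟨e1, e2, e3⟩ := hl.zinj _ _ _ _ _ _ (rA hj).1 (rA hj).2 (sg_pm j) (rA hk).1 (rA hk).2
    (sg_pm k) h
  refine ⟨?_, e3⟩
  unfold sg at e2
  split_ifs at e2 <;> omega

theorem Lay2.tB_inj (hl : Lay2 a b p z m K) {j k : ℕ} (hj : j < 2 * ((K + 1) / 2))
    (hk : k < 2 * ((K + 1) / 2)) {r s : Bool} (h : tB z j r = tB z k s) : j = k ∧ r = s := by
  obtain ⟨e1, e2, e3⟩ := hl.zinj _ _ _ _ _ _ (rB hj).1 (rB hj).2 (sg_pm j) (rB hk).1 (rB hk).2
    (sg_pm k) h
  refine ⟨?_, e3⟩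
  unfold sg at e2
  split_ifs at e2 <;> omega

theorem Lay2.tA_ne_tB (hl : Lay2 a b p z m K) {j k : ℕ} (hj : j < 2 * (K / 2))
    (hk : k < 2 * ((K + 1) / 2)) {r s : Bool} : tA z j r ≠ tB z k s := by
  intro h
  obtain ⟨e1, -, -⟩ := hl.zinj _ _ _ _ _ _ (rA hj).1 (rA hj).2 (sg_pm j) (rB hk).1 (rB hk).2
    (sg_pm k) h
  omega

theorem Lay2.core_sub (hl : Lay2 a b p z m K) {c : Code} (hc : c.valid m) :
    (GC a b p m).Adj (c.ends a b p).1 (c.ends a b p).2 := by
  unfold GC
  rw [SimpleGraph.fromEdgeSet_adj]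
  refine ⟨⟨c, hc, rfl⟩, ?_⟩
  cases c with
  | ab => exact hl.ab
  | A j => exact (hl.pa j hc).symm
  | B j => exact (hl.pb j hc).symm
  | I i j =>
    intro h1
    have h2 := hl.pinj i (hc.1.trans hc.2.2) j hc.2.2 h1
    have h3 := hc.1
    omega

theorem GC_le : GC a b p m ≤ G2 a b p z m K := by
  unfold G2 GA
  exact le_sup_left.trans le_sup_left

theorem Lay2.isCore (hl : Lay2 a b p z m K) : Core (G2 a b p z m K) a b p m where
  ha := fun i hi => GC_le (hl.core_sub (c := .A i) hi)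
  hb := fun i hi => GC_le (hl.core_sub (c := .B i) hi)
  inj := hl.pinj
  h1 := fun i hi => GC_le (hl.core_sub (c := .I i (i + 1)) ⟨by omega, by omega, hi⟩)
  h2 := fun i hi => GC_le (hl.core_sub (c := .I i (i + 2)) ⟨by omega, by omega, hi⟩)

/-- the graph has a RAC drawing -/
theorem Lay2.rac [Finite V] (hl : Lay2 a b p z m K) :
    ∃ f : V → ℂ, IsRAC (G2 a b p z m K) f := by
  have hm := hl.hm
  obtain ⟨x, y, hok⟩ := exists_seq m
  obtain ⟨f, hcd⟩ := exists_CD hl.ab hl.pa hl.pb hl.pinj hok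
  have hrac : IsRAC (GC a b p m) f := hcd.rac
  -- the fan at a
  have hFA : Fan (GC a b p m) f a (fun j => p (j + 1)) (tA z) (2 * (K / 2))
      (fun j => x (j + 1)) := by
    refine ⟨hrac, hcd.fa, ?_, ?_, ?_, ?_, ?_, ?_, ?_, ?_, ?_, ?_⟩
    · intro j hj
      exact hl.core_sub (c := .A (j + 1)) (show j + 1 < m by omega)
    · intro j hj; exact hcd.im (by omega)
    · intro j hj; exact hcd.xc (by omega)
    · intro j hj; exact hok.x_pos _ (by omega)
    · intro j hj; exact hok.x_lt _ (by omega)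
    · intro v hv
      rcases (core_adj hv).2 with rfl | rfl | ⟨j, hj, rfl⟩
      · exact absurd rfl hv.ne
      · left; rw [hcd.fb]; simp
      · right
        rw [hcd.xc hj]
        rcases Nat.eq_zero_or_pos j with h0 | h0
        · right; left
          subst h0
          exact (hok.lt (show 0 < 0 + 1 by omega) (by omega)).1.le
        · rcases Nat.lt_or_ge (2 * (K / 2) + 1) j with h1 | h1
          · right; right
            exact (hok.lt h1 hj).1.le
          · left
            refine ⟨j - 1, by omega, ?_⟩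
            rw [Nat.sub_add_cancel h0]
    · intro j hj
      refine hcd.uncA ?_ ?_
      · have := st_le hj; omega
      · unfold st; omega
    · intro j hj r v hv
      obtain ⟨h1, h2, h3⟩ := hl.tA_ne hj r
      rcases (core_adj hv).1 with h | h | ⟨k, hk, h⟩
      · exact h1 h
      · exact h2 h
      · exact h3 k hk h
    · intro j hj r; exact (hl.tA_ne hj r).1
    · intro j hj k hk r s h; exact hl.tA_inj hj hk h
  obtain ⟨F, hF1, hF2, hF3⟩ := hFA.add
  have hne : ∀ v, (v = a ∨ v = b ∨ ∃ k < m, v = p k) → F v = f v := by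
    intro v hv
    apply hF2
    rintro j hj r rfl
    obtain ⟨h1, h2, h3⟩ := hl.tA_ne hj r
    rcases hv with h | h | ⟨k, hk, h⟩
    · exact h1 h
    · exact h2 h
    · exact h3 k hk h
  have Fa : F a = f a := hne a (Or.inl rfl)
  have Fb : F b = f b := hne b (Or.inr (Or.inl rfl))
  have Fp : ∀ k < m, F (p k) = f (p k) := fun k hk => hne _ (Or.inr (Or.inr ⟨k, hk, rfl⟩))
  have hleA : GC a b p m ≤ GA a b p z m K := le_sup_left
  -- neighbours in GA of vertices which are not in the fan at a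
  have hGA : ∀ u v, (GA a b p z m K).Adj u v → u ≠ a → (∀ k < m, u ≠ p k) →
      (∀ j < 2 * (K / 2), ∀ r, u ≠ tA z j r) → (GC a b p m).Adj u v := by
    intro u v huv h1 h2 h3
    rw [GA_adj] at huv
    rcases huv with h | ⟨h, -⟩
    · exact h
    · exfalso
      rcases (fanE_in h).1 with h4 | ⟨j, hj, h4⟩ | ⟨j, hj, r, h4⟩
      · exact h1 h4
      · exact h2 (j + 1) (by omega) h4
      · exact h3 j hj r h4
  -- the fan at b, after a reflection
  have hFB : Fan (GA a b p z m K) (fun v => 1 - (starRingEnd ℂ) (F v)) b p (tB z)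
      (2 * ((K + 1) / 2)) y := by
    refine ⟨IsRAC.refl hF1, ?_, ?_, ?_, ?_, ?_, ?_, ?_, ?_, ?_, ?_, ?_⟩
    · rw [Fb, hcd.fb]
      simp
    · intro j hj
      exact hleA (hl.core_sub (c := .B j) (show j < m by omega))
    · intro j hj
      rw [im_refl, Fp j (by omega)]
      exact hcd.im (by omega)
    · intro j hj
      rw [xc_refl, Fp j (by omega)]
      exact hcd.yc (by omega)
    · intro j hj; exact hok.y_pos _ (by omega)
    · intro j hj; exact hok.y_lt _ (by omega)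
    · intro v hv
      rw [im_refl, xc_refl]
      have hv' := hGA b v hv hl.ab.symm (fun k hk h => hl.pb k hk h.symm)
        (fun j hj r h => (hl.tA_ne hj r).2.1 h.symm)
      rcases (core_adj hv').2 with rfl | rfl | ⟨j, hj, rfl⟩
      · left; rw [Fa, hcd.fa]; simp
      · exact absurd rfl hv.ne
      · right
        rw [Fp j hj, hcd.yc hj]
        rcases Nat.lt_or_ge (2 * ((K + 1) / 2)) j with h1 | h1
        · right; right
          exact (hok.lt h1 hj).2.le
        · left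
          exact ⟨j, h1, rfl⟩
    · intro j hj
      have hst := st_le hj
      have hadj := hl.core_sub (c := .B (st j)) (show st j < m by omega)
      refine (hF3 b (p (st j)) hadj hl.ab.symm (hl.pa _ (by omega)) ?_).refl
      exact hcd.uncB (show st j < m by omega) (by unfold st; omega)
    · intro j hj r v hv
      obtain ⟨h1, h2, h3⟩ := hl.tB_ne hj r
      have hv' := hGA _ v hv h1 h3 (fun k hk s h => hl.tA_ne_tB hk hj h.symm)
      rcases (core_adj hv').1 with h | h | ⟨k, hk, h⟩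
      · exact h1 h
      · exact h2 h
      · exact h3 k hk h
    · intro j hj r; exact (hl.tB_ne hj r).2.1
    · intro j hj k hk r s h; exact hl.tB_inj hj hk h
  obtain ⟨F', hF1', -, -⟩ := hFB.add
  exact ⟨F', hF1'⟩

/-- edges of the fan at `a` -/
theorem Lay2.subA (hl : Lay2 a b p z m K) {c : FC V} (hc : c.new)
    (hcv : c.valid (GC a b p m) (2 * (K / 2))) :
    (G2 a b p z m K).Adj (c.ends a (fun j => p (j + 1)) (tA z)).1
      (c.ends a (fun j => p (j + 1)) (tA z)).2 := by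
  rw [G2_adj]
  refine Or.inr (Or.inl ⟨⟨c, hc, hcv, rfl⟩, ?_⟩)
  have hm := hl.hm
  cases c with
  | old u v => exact absurd hc id
  | S j => exact (hl.tA_ne hcv false).1.symm
  | T j =>
    intro h
    exact absurd (hl.tA_inj hcv hcv h).2 (by decide)
  | U j =>
    have := st_le hcv
    exact ((hl.tA_ne hcv true).2.2 _ (by omega)).symm
  | R j r =>
    have hcv' : j + 1 < 2 * (K / 2) := hcv
    intro h
    have := (hl.tA_inj (by omega) hcv' h).1
    omega

/-- edges of the fan at `b` -/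
theorem Lay2.subB (hl : Lay2 a b p z m K) {c : FC V} (hc : c.new)
    (hcv : c.valid (GA a b p z m K) (2 * ((K + 1) / 2))) :
    (G2 a b p z m K).Adj (c.ends b p (tB z)).1 (c.ends b p (tB z)).2 := by
  rw [G2_adj]
  refine Or.inr (Or.inr ⟨⟨c, hc, hcv, rfl⟩, ?_⟩)
  have hm := hl.hm
  cases c with
  | old u v => exact absurd hc id
  | S j => exact (hl.tB_ne hcv false).2.1.symm
  | T j =>
    intro h
    exact absurd (hl.tB_inj hcv hcv h).2 (by decide)
  | U j =>
    have := st_le hcv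
    exact ((hl.tB_ne hcv true).2.2 _ (by omega)).symm
  | R j r =>
    have hcv' : j + 1 < 2 * ((K + 1) / 2) := hcv
    intro h
    have := (hl.tB_inj (by omega) hcv' h).1
    omega

/-- every additional vertex is in a column at `a` or at `b` -/
theorem z_cases {i δ : ℤ} (h1 : 1 ≤ i) (h2 : i ≤ K) (hδ : δ = 1 ∨ δ = -1) :
    (∃ j, j < 2 * (K / 2) ∧ (∀ r, z i δ r = tA z j r) ∧
      ((δ = -1 ∧ (j : ℤ) = i - 2) ∨ (δ = 1 ∧ (j : ℤ) = i - 1)) ∧ i % 2 = 0) ∨
    (∃ j, j < 2 * ((K + 1) / 2) ∧ (∀ r, z i δ r = tB z j r) ∧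
      ((δ = -1 ∧ (j : ℤ) = i - 1) ∨ (δ = 1 ∧ (j : ℤ) = i)) ∧ i % 2 = 1) := by
  rcases Int.emod_two_eq_zero_or_one i with h0 | h0
  · left
    rcases hδ with rfl | rfl
    · refine ⟨(i - 1).toNat, by omega, ?_, Or.inr ⟨rfl, by omega⟩, h0⟩
      intro r
      unfold tA
      rw [sg_odd (by omega)]
      congr 1
      omega
    · refine ⟨(i - 2).toNat, by omega, ?_, Or.inl ⟨rfl, by omega⟩, h0⟩
      intro r
      unfold tA
      rw [sg_even (by omega)]
      congr 1
      omega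
  · right
    rcases hδ with rfl | rfl
    · refine ⟨i.toNat, by omega, ?_, Or.inr ⟨rfl, by omega⟩, h0⟩
      intro r
      unfold tB
      rw [sg_odd (by omega)]
      congr 1
      omega
    · refine ⟨(i - 1).toNat, by omega, ?_, Or.inl ⟨rfl, by omega⟩, h0⟩
      intro r
      unfold tB
      rw [sg_even (by omega)]
      congr 1
      omega

theorem Lay2.adj_a (hl : Lay2 a b p z m K) {i δ : ℤ} {r : Bool} (h1 : 1 ≤ i) (h2 : i ≤ K)
    (hδ : δ = 1 ∨ δ = -1) (h : (G2 a b p z m K).Adj (z i δ r) a) : i % 2 = 0 := by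
  have hm := hl.hm
  rw [G2_adj] at h
  rcases h with h | ⟨h, -⟩ | ⟨h, -⟩
  · exfalso
    rcases (core_adj h).1 with h3 | h3 | ⟨k, hk, h3⟩
    · exact hl.za i δ r h1 h2 hδ h3
    · exact hl.zb i δ r h1 h2 hδ h3
    · exact hl.zp i δ r h1 h2 hδ k hk h3
  · obtain ⟨j, hj, h3⟩ := fanE_hub h (fun j hj => hl.pa _ (by omega))
      (fun j hj r => (hl.tA_ne hj r).1)
    have := (hl.zinj _ _ _ _ _ _ h1 h2 hδ (rA hj).1 (rA hj).2 (sg_pm j) h3).1
    omega
  · exfalso
    rcases (fanE_in h).2 with h3 | ⟨j, hj, h3⟩ | ⟨j, hj, r, h3⟩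
    · exact hl.ab h3
    · exact hl.pa j (by omega) h3.symm
    · exact (hl.tB_ne hj r).1 h3.symm

theorem Lay2.adj_b (hl : Lay2 a b p z m K) {i δ : ℤ} {r : Bool} (h1 : 1 ≤ i) (h2 : i ≤ K)
    (hδ : δ = 1 ∨ δ = -1) (h : (G2 a b p z m K).Adj (z i δ r) b) : i % 2 = 1 := by
  have hm := hl.hm
  rw [G2_adj] at h
  rcases h with h | ⟨h, -⟩ | ⟨h, -⟩
  · exfalso
    rcases (core_adj h).1 with h3 | h3 | ⟨k, hk, h3⟩
    · exact hl.za i δ r h1 h2 hδ h3
    · exact hl.zb i δ r h1 h2 hδ h3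
    · exact hl.zp i δ r h1 h2 hδ k hk h3
  · exfalso
    rcases (fanE_in h).2 with h3 | ⟨j, hj, h3⟩ | ⟨j, hj, r, h3⟩
    · exact hl.ab h3.symm
    · exact hl.pb (j + 1) (by omega) h3.symm
    · exact (hl.tA_ne hj r).2.1 h3.symm
  · obtain ⟨j, hj, h3⟩ := fanE_hub h (fun j hj => hl.pb _ (by omega))
      (fun j hj r => (hl.tB_ne hj r).2.1)
    have := (hl.zinj _ _ _ _ _ _ h1 h2 hδ (rB hj).1 (rB hj).2 (sg_pm j) h3).1
    omega

theorem Lay2.zcore (hl : Lay2 a b p z m K) {i δ : ℤ} {r : Bool} (h1 : 1 ≤ i) (h2 : i ≤ K)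
    (hδ : δ = 1 ∨ δ = -1) : ¬ CoreV (G2 a b p z m K) a b (z i δ r) := by
  rintro (h | h | ⟨h, h'⟩)
  · exact hl.za i δ r h1 h2 hδ h
  · exact hl.zb i δ r h1 h2 hδ h
  · have := hl.adj_a h1 h2 hδ h
    have := hl.adj_b h1 h2 hδ h'
    omega

theorem Lay2.cfg (hl : Lay2 a b p z m K) : Cfg2 (G2 a b p z m K) a b p z m K where
  ab := GC_le (hl.core_sub (c := .ab) trivial)
  core := hl.isCore
  hm := hl.hm
  hm' := hl.hm'
  z12 := fun i δ h1 h2 hδ => by
    rcases z_cases (z := z) h1 h2 hδ with ⟨j, hj, hz, -, -⟩ | ⟨j, hj, hz, -, -⟩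
    · rw [hz, hz]; exact hl.subA (c := .T j) trivial hj
    · rw [hz, hz]; exact hl.subB (c := .T j) trivial hj
  zc := fun i δ h1 h2 hδ => by
    rcases z_cases (z := z) h1 h2 hδ with ⟨j, hj, hz, -, -⟩ | ⟨j, hj, hz, -, -⟩
    · rw [hz]; exact ⟨a, Or.inl rfl, (hl.subA (c := .S j) trivial hj).symm⟩
    · rw [hz]; exact ⟨b, Or.inr rfl, (hl.subB (c := .S j) trivial hj).symm⟩
  zp := fun i δ h1 h2 hδ => by
    rcases z_cases (z := z) h1 h2 hδ with ⟨j, hj, hz, h3, h4⟩ | ⟨j, hj, hz, h3, h4⟩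
    · have h5 := hl.subA (c := .U j) trivial hj
      simp only [FC.ends] at h5
      rw [hz]
      have e : (i + δ).toNat = st j + 1 := by unfold st; omega
      rw [e]
      exact h5.symm
    · have h5 := hl.subB (c := .U j) trivial hj
      simp only [FC.ends] at h5
      rw [hz]
      have e : (i + δ).toNat = st j := by unfold st; omega
      rw [e]
      exact h5.symm
  zr := fun i δ r h1 h2 hδ => by
    have hδ' : -δ = 1 ∨ -δ = -1 := by omega
    rcases z_cases (z := z) h1 h2 hδ with ⟨j, hj, hz, h3, h4⟩ | ⟨j, hj, hz, h3, h4⟩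
    · rcases z_cases (z := z) h1 h2 hδ' with ⟨k, hk, hz', h3', h4'⟩ | ⟨k, hk, hz', h3', h4'⟩
      · rw [hz, hz']
        have hjk : k = j + 1 ∨ j = k + 1 := by omega
        rcases hjk with rfl | rfl
        · exact hl.subA (c := .R j r) trivial hk
        · exact (hl.subA (c := .R k r) trivial hj).symm
      · omega
    · rcases z_cases (z := z) h1 h2 hδ' with ⟨k, hk, hz', h3', h4'⟩ | ⟨k, hk, hz', h3', h4'⟩
      · omega
      · rw [hz, hz']
        have hjk : k = j + 1 ∨ j = k + 1 := by omega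
        rcases hjk with rfl | rfl
        · exact hl.subB (c := .R j r) trivial hk
        · exact (hl.subB (c := .R k r) trivial hj).symm
  zs := fun i δ r h1 h2 hδ h1' h2' => by
    have hδ' : -δ = 1 ∨ -δ = -1 := by omega
    rcases z_cases (z := z) h1 h2 hδ with ⟨j, hj, hz, h3, h4⟩ | ⟨j, hj, hz, h3, h4⟩
    · rcases z_cases (z := z) h1' h2' hδ' with
        ⟨k, hk, hz', h3', h4'⟩ | ⟨k, hk, hz', h3', h4'⟩
      · rw [hz, hz']
        have hjk : k = j + 1 ∨ j = k + 1 := by omega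
        rcases hjk with rfl | rfl
        · exact hl.subA (c := .R j r) trivial hk
        · exact (hl.subA (c := .R k r) trivial hj).symm
      · omega
    · rcases z_cases (z := z) h1' h2' hδ' with
        ⟨k, hk, hz', h3', h4'⟩ | ⟨k, hk, hz', h3', h4'⟩
      · omega
      · rw [hz, hz']
        have hjk : k = j + 1 ∨ j = k + 1 := by omega
        rcases hjk with rfl | rfl
        · exact hl.subB (c := .R j r) trivial hk
        · exact (hl.subB (c := .R k r) trivial hj).symm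
  zcore := fun i δ r h1 h2 hδ => hl.zcore h1 h2 hδ
  inj := hl.zinj
  cov := fun v hv => by
    rcases hl.cov v with rfl | rfl | ⟨j, hj, rfl⟩ | h
    · exact absurd (Or.inl rfl) hv
    · exact absurd (Or.inr (Or.inl rfl)) hv
    · exact absurd (Or.inr (Or.inr ⟨(hl.isCore.ha j hj).symm, (hl.isCore.hb j hj).symm⟩)) hv
    · exact h

theorem ncard_G2 [Finite V] (a b : V) (p : ℕ → V) (z : ℤ → ℤ → Bool → V) (m K : ℕ) :
    (G2 a b p z m K).edgeSet.ncard ≤ 4 * m + 1 + 10 * K := by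
  have h1 := ncard_core a b p m
  have h2 := ncard_fanE (GC a b p m) a (fun j => p (j + 1)) (tA z) (2 * (K / 2))
  have h3 := ncard_fanE (GA a b p z m K) b p (tB z) (2 * ((K + 1) / 2))
  have hsub : (G2 a b p z m K).edgeSet ⊆ coreE a b p m ∪ (EA a b p z m K ∪ EB a b p z m K) := by
    intro e he
    induction e using Sym2.ind with
    | _ u v =>
      rw [SimpleGraph.mem_edgeSet, G2_adj] at he
      rcases he with h | ⟨h, -⟩ | ⟨h, -⟩
      · left
        unfold GC at h
        rw [SimpleGraph.fromEdgeSet_adj] at h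
        exact h.1
      · exact Or.inr (Or.inl h)
      · exact Or.inr (Or.inr h)
  have h4 := Set.ncard_le_ncard hsub (Set.toFinite _)
  have h5 := Set.ncard_union_le (coreE a b p m) (EA a b p z m K ∪ EB a b p z m K)
  have h6 := Set.ncard_union_le (EA a b p z m K) (EB a b p z m K)
  have h2' : (EA a b p z m K).ncard ≤ 5 * (2 * (K / 2)) := h2.2
  have h3' : (EB a b p z m K).ncard ≤ 5 * (2 * ((K + 1) / 2)) := h3.2
  have h1' := h1.2
  omega

/-- sparse maximal graphs on a set with a layout -/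
theorem Lay2.main [Finite V] (hl : Lay2 a b p z m K) :
    ∃ H : SimpleGraph V, MaxRAC H ∧ H.edgeSet.ncard ≤ 4 * m + 10 * K + 2627779 := by
  obtain ⟨H, hle, hmax⟩ := exists_max hl.rac
  refine ⟨H, hmax, ?_⟩
  have h1 := edges_le2 hle hl.cfg hmax.1 (fun v => by
      rcases hl.cov v with h1 | h1 | h1 | ⟨i, δ, r, h1, h2, hδ, rfl⟩
      · exact Or.inl h1
      · exact Or.inr (Or.inl h1)
      · exact Or.inr (Or.inr (Or.inl h1))
      · exact Or.inr (Or.inr (Or.inr (hl.zcore h1 h2 hδ))))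
  have h2 := ncard_G2 a b p z m K
  omega

end

/-- **Sparse maximal straight-line RAC graphs.** -/
theorem exists_sparser (n : ℕ) : ∃ H : SimpleGraph (Fin n), MaxRAC H ∧
    5 * H.edgeSet.ncard ≤ 14 * n + 13200000 := by
  classical
  rcases Nat.lt_or_ge n 4 with hn | hn
  · have hrac : ∃ f : Fin n → ℂ, IsRAC (⊥ : SimpleGraph (Fin n)) f := by
      refine ⟨fun i => ((i : ℕ) : ℂ), ?_, ?_, ?_⟩
      · intro i j hij
        simpa [Fin.ext_iff] using hij
      · intro u v w huv
        exact absurd huv (by simp)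
      · intro u v x y huv
        exact absurd huv (by simp)
    obtain ⟨H, -, hH⟩ := exists_max hrac
    refine ⟨H, hH, ?_⟩
    have h1 : H.edgeSet.ncard ≤ (Finset.univ : Finset (Sym2 (Fin n))).card := by
      rw [← Set.ncard_coe_finset]
      exact Set.ncard_le_ncard (fun e _ => by simp) (Set.toFinite _)
    rw [Finset.card_univ, Sym2.card, Fintype.card_fin] at h1
    have h2 : (n + 1).choose 2 ≤ (4 + 1).choose 2 := Nat.choose_le_choose 2 (by omega)
    have h3 : (4 + 1).choose 2 = 10 := rfl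
    omega
  · set K := (n - 4) / 5 with hK
    set ρ := (n - 4) % 5 with hρ
    have hcard : Fintype.card (Bool ⊕ (Fin (K + 2 + ρ) ⊕ (Fin K × Bool × Bool))) = n := by
      simp only [Fintype.card_sum, Fintype.card_bool, Fintype.card_fin, Fintype.card_prod]
      omega
    have e : (Bool ⊕ (Fin (K + 2 + ρ) ⊕ (Fin K × Bool × Bool))) ≃ Fin n :=
      Fintype.equivFinOfCardEq hcard
    set p : ℕ → Fin n := fun j => if h : j < K + 2 + ρ then e (.inr (.inl ⟨j, h⟩)) else
      e (.inl false) with hp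
    set z : ℤ → ℤ → Bool → Fin n := fun i δ r => if h : (i - 1).toNat < K then
      e (.inr (.inr (⟨(i - 1).toNat, h⟩, decide (δ = 1), r))) else e (.inl false) with hz
    have hzv : ∀ (i δ : ℤ) (r : Bool) (h1 : 1 ≤ i) (h2 : i ≤ K), z i δ r =
        e (.inr (.inr (⟨(i - 1).toNat, by omega⟩, decide (δ = 1), r))) := by
      intro i δ r h1 h2
      simp only [hz]
      rw [dif_pos]
    have hl : Lay2 (e (.inl false)) (e (.inl true)) p z (K + 2 + ρ) K := by
      refine ⟨?_, ?_, ?_, ?_, ?_, ?_, ?_, ?_, ?_, ?_, ?_⟩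
      · intro h; simpa using e.injective h
      · intro j hj h; simp only [hp] at h; rw [dif_pos hj] at h; simpa using e.injective h
      · intro j hj h; simp only [hp] at h; rw [dif_pos hj] at h; simpa using e.injective h
      · intro i hi j hj h
        simp only [hp] at h
        rw [dif_pos hi, dif_pos hj] at h
        simpa using e.injective h
      · intro i δ r h1 h2 hδ h
        rw [hzv i δ r h1 h2] at h
        simpa using e.injective h
      · intro i δ r h1 h2 hδ h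
        rw [hzv i δ r h1 h2] at h
        simpa using e.injective h
      · intro i δ r h1 h2 hδ j hj h
        simp only [hp] at h
        rw [hzv i δ r h1 h2, dif_pos hj] at h
        simpa using e.injective h
      · intro i δ r i' δ' r' h1 h2 hδ h1' h2' hδ' h
        rw [hzv i δ r h1 h2, hzv i' δ' r' h1' h2'] at h
        have h3 := Sum.inr_injective (Sum.inr_injective (e.injective h))
        simp only [Prod.mk.injEq, Fin.mk.injEq, decide_eq_decide] at h3
        obtain ⟨e1, e2, e3⟩ := h3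
        exact ⟨by omega, by omega, e3⟩
      · intro v
        obtain ⟨w, rfl⟩ := e.surjective v
        rcases w with (_ | _) | ⟨j, hj⟩ | ⟨⟨i, hi⟩, d, r⟩
        · exact Or.inl rfl
        · exact Or.inr (Or.inl rfl)
        · refine Or.inr (Or.inr (Or.inl ⟨j, hj, ?_⟩))
          simp only [hp]
          rw [dif_pos hj]
        · refine Or.inr (Or.inr (Or.inr ⟨(i : ℤ) + 1, cond d 1 (-1), r, by omega, by omega, ?_, ?_⟩))
          · cases d
            · exact Or.inr rfl
            · exact Or.inl rfl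
          · rw [hzv _ _ _ (by omega) (by omega)]
            congr 1
            cases d <;> simp
      · omega
      · omega
    obtain ⟨H, hH, hle⟩ := hl.main
    refine ⟨H, hH, ?_⟩
    omega

end Pool.Agent.Helper18.RAC
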