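import Pool.Agent.Helper18.RAC.Local2

/-!
# Construction of the local data from a monotone window
-/

set_option autoImplicit false

open Complex

namespace Pool.Agent.Helper18.RAC

section

variable {V : Type*} {G H : SimpleGraph V} {f : V → ℂ} {a b v v' : V} {w c : ℤ → V} {q : ℤ → ℂ}
  {p : ℕ → V} {m : ℕ}

open Classical in
/-- the hub whose spoke is crossed -/
noncomputable def hub (f : V → ℂ) (a b : V) (w : ℤ → V) (s : ℤ) : V :=
  if 0 < Or3 (f (w (s - 1))) (f (w s)) (f (w (s + 1))) then a else b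

/-- construction of the local data -/
theorem Nm.win (h : Nm H f a b) (him : ∀ s, -8 ≤ s → s ≤ 8 → 0 < (f (w s)).im)
    (ha : ∀ s, -8 ≤ s → s ≤ 8 → H.Adj (w s) a) (hb : ∀ s, -8 ≤ s → s ≤ 8 → H.Adj (w s) b)
    (hn : ∀ s, -8 ≤ s → s ≤ 7 → Nest (f (w s)) (f (w (s + 1))))
    (h1 : ∀ s, -8 ≤ s → s ≤ 7 → H.Adj (w s) (w (s + 1)))
    (h2 : ∀ s, -7 ≤ s → s ≤ 7 → H.Adj (w (s - 1)) (w (s + 1))) :
    ∃ q : ℤ → ℂ, Win H f a b w (hub f a b w) q := by
  have hn' : ∀ s, -7 ≤ s → s ≤ 8 → Nest (f (w (s - 1))) (f (w s)) := by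
    intro s e1 e2
    have := hn (s - 1) (by omega) (by omega)
    rwa [sub_add_cancel] at this
  have h1' : ∀ s, -7 ≤ s → s ≤ 8 → H.Adj (w (s - 1)) (w s) := by
    intro s e1 e2
    have := h1 (s - 1) (by omega) (by omega)
    rwa [sub_add_cancel] at this
  have hcr := fun s (e1 : -7 ≤ s) (e2 : s ≤ 7) =>
    h.cross (him (s - 1) (by omega) (by omega)) (him (s + 1) (by omega) (by omega))
      (him s (by omega) (by omega)) (h2 s e1 e2) (ha s (by omega) (by omega)).symm
      (hb s (by omega) (by omega)).symm (hn' s e1 (by omega)) (hn s (by omega) e2)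
  have hq : ∀ s, ∃ z, -7 ≤ s → s ≤ 7 → z ∈ openSegment ℝ (f (w (s - 1))) (f (w (s + 1))) ∧
      z ∈ openSegment ℝ (f (hub f a b w s)) (f (w s)) := by
    intro s
    by_cases e1 : -7 ≤ s
    · by_cases e2 : s ≤ 7
      · rcases hcr s e1 e2 with ⟨h3, -, -, z, hz1, hz2⟩ | ⟨h3, -, -, z, hz1, hz2⟩
        · refine ⟨z, fun _ _ => ⟨hz1, ?_⟩⟩
          unfold hub
          rw [if_pos h3]
          exact hz2
        · refine ⟨z, fun _ _ => ⟨hz1, ?_⟩⟩
          unfold hub
          rw [if_neg (not_lt.2 h3.le)]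
          exact hz2
      · exact ⟨0, fun _ h' => absurd h' e2⟩
    · exact ⟨0, fun h' _ => absurd h' e1⟩
  choose q hq using hq
  -- the hubs alternate
  have halt : ∀ s, -7 ≤ s → s ≤ 6 →
      ((hub f a b w s = a ∧ hub f a b w (s + 1) = b) ∨
        (hub f a b w s = b ∧ hub f a b w (s + 1) = a)) ∧
      ((hub f a b w s = a ∧ 0 < Or3 (f (w (s - 1))) (f (w s)) (f (w (s + 1)))) ∨
        (hub f a b w s = b ∧ Or3 (f (w (s - 1))) (f (w s)) (f (w (s + 1))) < 0)) := by
    intro s e1 e2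
    have hs2 : s + 1 + 1 = s + 2 := by ring
    have c1 := hcr s e1 (by omega)
    have c2 := hcr (s + 1) (by omega) (by omega)
    rw [add_sub_cancel_right] at c2
    have hn2 := hn (s + 1) (by omega) (by omega)
    have him2 := him (s + 1 + 1) (by omega) (by omega)
    have hadj2 := h2 (s + 1) (by omega) (by omega)
    rw [add_sub_cancel_right] at hadj2
    unfold hub
    rw [add_sub_cancel_right]
    rcases c1 with ⟨c1, -, d1, -⟩ | ⟨c1, -, d1, -⟩ <;> rcases c2 with ⟨c2, -, -, -⟩ | ⟨c2, -, -, -⟩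
    · exfalso
      exact h.alt (him (s - 1) (by omega) (by omega)) (him s (by omega) (by omega))
        (him (s + 1) (by omega) (by omega)) him2 (h2 s e1 (by omega)) hadj2
        (hn' s e1 (by omega)) (hn s (by omega) (by omega)) hn2 c1 c2 d1
    · rw [if_pos c1, if_neg (not_lt.2 c2.le)]
      exact ⟨Or.inl ⟨rfl, rfl⟩, Or.inl ⟨rfl, c1⟩⟩
    · rw [if_neg (not_lt.2 c1.le), if_pos c2]
      exact ⟨Or.inr ⟨rfl, rfl⟩, Or.inr ⟨rfl, c1⟩⟩
    · exfalso
      refine h.refl.alt (p := w (s - 1)) (q := w s) (r := w (s + 1)) (s := w (s + 1 + 1))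
        ?_ ?_ ?_ ?_ (h2 s e1 (by omega)) hadj2 (Nest_refl (hn' s e1 (by omega)))
        (Nest_refl (hn s (by omega) (by omega))) (Nest_refl hn2) ?_ ?_ ?_
      · rw [im_refl]; exact him (s - 1) (by omega) (by omega)
      · rw [im_refl]; exact him s (by omega) (by omega)
      · rw [im_refl]; exact him (s + 1) (by omega) (by omega)
      · rw [im_refl]; exact him2
      · rw [Or3_refl]; linarith
      · rw [Or3_refl]; linarith
      · rw [dotp_refl]; exact d1
  have hab : ∀ s, hub f a b w s = a ∨ hub f a b w s = b := by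
    intro s
    unfold hub
    split_ifs
    · exact Or.inl rfl
    · exact Or.inr rfl
  have hc2 : ∀ s, -7 ≤ s → s ≤ 5 → hub f a b w (s + 2) = hub f a b w s := by
    intro s e1 e2
    have k1 := (halt s e1 (by omega)).1
    have k2 := (halt (s + 1) (by omega) (by omega)).1
    have hs2 : s + 1 + 1 = s + 2 := by ring
    rw [hs2] at k2
    have hne := h.ab.ne
    rcases k1 with ⟨k1, k1'⟩ | ⟨k1, k1'⟩ <;> rcases k2 with ⟨k2, k2'⟩ | ⟨k2, k2'⟩
    · exact absurd (k2.symm.trans k1') hne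
    · rw [k2', k1]
    · rw [k2', k1]
    · exact absurd (k1'.symm.trans k2) hne
  -- signs of the orientations
  have hA : ∀ s, -8 ≤ s → s ≤ 7 → 0 < Dt (f (w s)) (f (w (s + 1))) (f a) := by
    intro s e1 e2
    rw [h.fa]
    exact Dt_zero (him s e1 (by omega)) (him (s + 1) (by omega) (by omega)) (hn s e1 e2)
  have hB : ∀ s, -8 ≤ s → s ≤ 7 → Dt (f (w s)) (f (w (s + 1))) (f b) < 0 := by
    intro s e1 e2
    rw [h.fb]
    exact Dt_one (him s e1 (by omega)) (him (s + 1) (by omega) (by omega)) (hn s e1 e2)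
  refine ⟨q, h.rac, h.ab.ne, by rw [h.fa]; rfl, by rw [h.fb]; rfl, him, ha, hb, fun s _ _ => hab s,
    hc2, ?_, ?_, ?_, ?_⟩
  · intro s e1 e2
    obtain ⟨k1, k2⟩ := hq s e1 e2
    have hcadj : ∀ u, -8 ≤ u → u ≤ 8 → H.Adj (w u) (hub f a b w s) := by
      intro u d1 d2
      rcases hab s with h' | h'
      · rw [h']; exact ha u d1 d2
      · rw [h']; exact hb u d1 d2
    exact
      { uu' := h2 s e1 e2
        ww' := (hcadj s (by omega) (by omega)).symm
        uw := hcadj (s - 1) (by omega) (by omega)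
        uw' := h1' s e1 (by omega)
        u'w := hcadj (s + 1) (by omega) (by omega)
        u'w' := (h1 s (by omega) e2).symm
        qu := k1
        qw := k2 }
  · intro s e1 e2
    obtain ⟨t, ht0, ht1, ht2, ht3⟩ := mem_openSegment_iff.1 (hq s e1 (by omega)).2
    obtain ⟨r, hr0, hr1, hr2, hr3⟩ := mem_openSegment_iff.1 (hq (s + 1) (by omega) (by omega)).2
    rw [Dt_affine ht2 ht3, Dt_affine hr2 hr3, Dt_self_left, Dt_self_right, mul_zero, mul_zero,
      add_zero, add_zero]
    have k := mul_pos (show 0 < 1 - t by linarith) (show 0 < 1 - r by linarith)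
    have kA := hA s (by omega) (by omega)
    have kB := hB s (by omega) (by omega)
    rcases (halt s e1 e2).1 with ⟨k1, k2⟩ | ⟨k1, k2⟩
    · rw [k1, k2]
      have := mul_neg_of_pos_of_neg (mul_pos (show 0 < 1 - t by linarith) kA)
        (mul_neg_of_pos_of_neg (show 0 < 1 - r by linarith) kB)
      exact this
    · rw [k1, k2]
      exact mul_neg_of_neg_of_pos (mul_neg_of_pos_of_neg (show 0 < 1 - t by linarith) kB)
        (mul_pos (show 0 < 1 - r by linarith) kA)
  · intro s e1 e2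
    obtain ⟨t, ht0, ht1, ht2, ht3⟩ := mem_openSegment_iff.1 (hq s e1 (by omega)).2
    obtain ⟨r, hr0, hr1, hr2, hr3⟩ := mem_openSegment_iff.1 (hq (s + 2) (by omega) (by omega)).2
    rw [hc2 s e1 e2] at hr2 hr3
    rw [Dt_affine ht2 ht3, Dt_affine hr2 hr3, Dt_self_right, mul_zero, mul_zero, zero_add, zero_add]
    have hs2 : s + 1 + 1 = s + 2 := by ring
    have e3 : ∀ x, Dt (f (w (s + 1))) x (f (w s)) = Dt (f (w s)) (f (w (s + 1))) x := by
      intro x; unfold Dt; ring
    have e4 : ∀ x, Dt (f (w (s + 1))) x (f (w (s + 2))) =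
        -Dt (f (w (s + 1))) (f (w (s + 2))) x := by
      intro x; unfold Dt; ring
    rw [e3, e4]
    have kA := hA s (by omega) (by omega)
    have kB := hB s (by omega) (by omega)
    have kA' := hA (s + 1) (by omega) (by omega)
    have kB' := hB (s + 1) (by omega) (by omega)
    rw [hs2] at kA' kB'
    rcases hab s with k1 | k1
    · rw [k1]
      exact mul_neg_of_pos_of_neg (mul_pos ht0 kA) (mul_neg_of_pos_of_neg hr0 (by linarith))
    · rw [k1]
      exact mul_neg_of_neg_of_pos (mul_neg_of_pos_of_neg ht0 kB) (mul_pos hr0 (by linarith))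
  · have i0 := him 0 (by omega) (by omega)
    have i1 := him 1 (by omega) (by omega)
    have i2 := him (-1) (by omega) (by omega)
    have hp := mul_pos (mul_pos i2 i0) i1
    have k0 := halt 0 (by omega) (by omega)
    have kA := hA 0 (by omega) (by omega)
    have kB := hB 0 (by omega) (by omega)
    have kA' := hA (-1) (by omega) (by omega)
    have kB' := hB (-1) (by omega) (by omega)
    have z1 : (0 : ℤ) + 1 = 1 := by norm_num
    have z2 : (0 : ℤ) - 1 = -1 := by norm_num
    have z3 : (-1 : ℤ) + 1 = 0 := by norm_num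
    rw [z1, z2] at k0
    rw [z1] at kA kB
    rw [z3] at kA' kB'
    have e3 : ∀ x, Dt (f (w 0)) x (f (w (-1))) = Dt (f (w (-1))) (f (w 0)) x := by
      intro x; unfold Dt; ring
    have e4 : Dt (f (w 0)) (f (w (-1))) (f (w 1)) = -Dt (f (w (-1))) (f (w 0)) (f (w 1)) := by
      unfold Dt; ring
    rw [e3, e4, Dt_Or3 i2 i0 i1]
    have hne := h.ab.ne
    rcases k0 with ⟨⟨k1, k2⟩ | ⟨k1, k2⟩, ⟨k3, k4⟩ | ⟨k3, k4⟩⟩
    · right
      rw [k2]
      have := mul_pos k4 hp
      exact ⟨by linarith, kB, kB'⟩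
    · exact absurd (k1.symm.trans k3) hne
    · exact absurd (k3.symm.trans k1) hne
    · left
      rw [k2]
      have := mul_neg_of_neg_of_pos k4 hp
      exact ⟨by linarith, kA, kA'⟩

end

end Pool.Agent.Helper18.RAC
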