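import Pool.Agent.Helper18.RAC.Order

/-!
# Alternation of the hubs and edges which change the side of the axis
-/

set_option autoImplicit false

open Complex

namespace Pool.Agent.Helper18.RAC

section

variable {V : Type*} {H : SimpleGraph V} {f : V → ℂ} {a b p q k l r s : V}

theorem Or3_refl (x y z : ℂ) : Or3 (1 - (starRingEnd ℂ) x) (1 - (starRingEnd ℂ) y)
    (1 - (starRingEnd ℂ) z) = -Or3 x y z := by
  unfold Or3
  rw [xc_refl, xc_refl, xc_refl, yc_refl, yc_refl, yc_refl]
  ring

theorem Nest_refl {x y : ℂ} (h : Nest x y) : Nest (1 - (starRingEnd ℂ) x)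
    (1 - (starRingEnd ℂ) y) := by
  unfold Nest
  rw [xc_refl, xc_refl, yc_refl, yc_refl]
  exact ⟨h.2, h.1⟩

theorem dotp_refl (x y z w : ℂ) : dotp (1 - (starRingEnd ℂ) x) (1 - (starRingEnd ℂ) y)
    (1 - (starRingEnd ℂ) z) (1 - (starRingEnd ℂ) w) = dotp x y z w := by
  unfold dotp
  simp
  ring

/-- vectors perpendicular to the same nonzero vector are parallel -/
theorem par_of_perp {d1 d2 x1 y1 x2 y2 : ℝ} (hd : d1 ≠ 0 ∨ d2 ≠ 0) (h1 : d1 * x1 + d2 * y1 = 0)
    (h2 : d1 * x2 + d2 * y2 = 0) : x1 * y2 = x2 * y1 := by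
  rcases hd with h | h
  · have : d1 * (x1 * y2 - x2 * y1) = 0 := by linear_combination y2 * h1 - y1 * h2
    have := (mul_eq_zero.1 this).resolve_left h
    linarith
  · have : d2 * (x1 * y2 - x2 * y1) = 0 := by linear_combination -x2 * h1 + x1 * h2
    have := (mul_eq_zero.1 this).resolve_left h
    linarith

theorem ne_coords {x y : ℂ} (h : x ≠ y) : y.re - x.re ≠ 0 ∨ y.im - x.im ≠ 0 := by
  by_contra hcon
  push Not at hcon
  exact h (Complex.ext (by linarith [hcon.1]) (by linarith [hcon.2]))

/-- consecutive nested vertices: the crossed spokes cannot both go to the hub `a` -/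
theorem Nm.alt (h : Nm H f a b) (hp : 0 < (f p).im) (hq : 0 < (f q).im) (hr : 0 < (f r).im)
    (hs : 0 < (f s).im) (hpr : H.Adj p r) (hqs : H.Adj q s) (h1 : Nest (f p) (f q))
    (h2 : Nest (f q) (f r)) (h3 : Nest (f r) (f s)) (hO1 : 0 < Or3 (f p) (f q) (f r))
    (hO2 : 0 < Or3 (f q) (f r) (f s)) (hd : dotp (f p) (f r) (f a) (f q) = 0) : False := by
  have e1 := h1.1
  have e2 := h2.1
  have e3 := h3.1
  have e1' := h1.2
  have e2' := h2.2
  have e3' := h3.2
  have hPR : 0 < xc (f p) - xc (f r) := by linarith
  have hQS : 0 < xc (f q) - xc (f s) := by linarith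
  have hA : 0 < Or3 (f q) (f r) (f s) * (xc (f p) - xc (f r)) := mul_pos hO2 hPR
  have hB : 0 < Or3 (f p) (f q) (f r) * (xc (f q) - xc (f s)) := mul_pos hO1 hQS
  set A := Or3 (f q) (f r) (f s) * (xc (f p) - xc (f r)) with hAd
  set B := Or3 (f p) (f q) (f r) * (xc (f q) - xc (f s)) with hBd
  have hAB : 0 < A + B := by linarith
  set x0 := (B * xc (f r) + A * xc (f q)) / (A + B) with hx0
  have hx0e : (A + B) * x0 = B * xc (f r) + A * xc (f q) := by rw [hx0]; field_simp
  have hx0r : xc (f r) < x0 := by
    rw [hx0, lt_div_iff₀ hAB]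
    have := mul_pos hA (show 0 < xc (f q) - xc (f r) by linarith)
    linarith
  have hx0q : x0 < xc (f q) := by
    rw [hx0, div_lt_iff₀ hAB]
    have := mul_pos hB (show 0 < xc (f q) - xc (f r) by linarith)
    linarith
  obtain ⟨z, hz, hzi, hzx, hzy⟩ := exists_mem_seg hp hr
    (l := (x0 - xc (f r)) / (xc (f p) - xc (f r))) (div_pos (by linarith) hPR)
    ((div_lt_one hPR).2 (by linarith))
  obtain ⟨z', hz', hzi', hzx', hzy'⟩ := exists_mem_seg hq hs
    (l := (x0 - xc (f s)) / (xc (f q) - xc (f s))) (div_pos (by linarith) hQS)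
    ((div_lt_one hQS).2 (by linarith))
  have hzx0 : xc z = x0 := by rw [hzx]; field_simp; ring
  have hzx0' : xc z' = x0 := by rw [hzx']; field_simp; ring
  have hzz : z = z' := by
    refine ext_xy hzi hzi' (hzx0.trans hzx0'.symm) ?_
    have hkey : (x0 - xc (f r)) * (yc (f p) - yc (f r)) * (xc (f q) - xc (f s)) +
        yc (f r) * (xc (f p) - xc (f r)) * (xc (f q) - xc (f s)) =
        (x0 - xc (f s)) * (yc (f q) - yc (f s)) * (xc (f p) - xc (f r)) +
        yc (f s) * (xc (f p) - xc (f r)) * (xc (f q) - xc (f s)) := by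
      have hAB' : A + B ≠ 0 := hAB.ne'
      apply mul_left_cancel₀ hAB'
      have hA' : A = ((xc (f r) - xc (f s)) * (yc (f q) - yc (f s)) -
        (yc (f r) - yc (f s)) * (xc (f q) - xc (f s))) * (xc (f p) - xc (f r)) := rfl
      have hB' : B = ((xc (f q) - xc (f r)) * (yc (f p) - yc (f r)) -
        (yc (f q) - yc (f r)) * (xc (f p) - xc (f r))) * (xc (f q) - xc (f s)) := rfl
      have k1 : (A + B) * ((x0 - xc (f r)) * (yc (f p) - yc (f r)) * (xc (f q) - xc (f s)) +
          yc (f r) * (xc (f p) - xc (f r)) * (xc (f q) - xc (f s))) -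
          (A + B) * ((x0 - xc (f s)) * (yc (f q) - yc (f s)) * (xc (f p) - xc (f r)) +
          yc (f s) * (xc (f p) - xc (f r)) * (xc (f q) - xc (f s))) =
          ((A + B) * x0) * ((yc (f p) - yc (f r)) * (xc (f q) - xc (f s)) -
            (yc (f q) - yc (f s)) * (xc (f p) - xc (f r))) +
          (A + B) * (-(xc (f r)) * (yc (f p) - yc (f r)) * (xc (f q) - xc (f s)) +
            xc (f s) * (yc (f q) - yc (f s)) * (xc (f p) - xc (f r)) +
            (yc (f r) - yc (f s)) * (xc (f p) - xc (f r)) * (xc (f q) - xc (f s))) := by ring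
      rw [← sub_eq_zero, k1, hx0e, hA', hB']
      ring
    rw [hzy, hzy']
    field_simp
    linear_combination hkey
  have hpq : p ≠ q := by rintro rfl; exact lt_irrefl _ e1
  have hps : p ≠ s := by rintro rfl; linarith
  have hdot := h.rac.dot hpr hqs (ne_of_left hpq hps) hz (hzz ▸ hz')
  have hpr' : f p ≠ f r := fun hh => hpr.ne (h.rac.inj hh)
  unfold dotp at hd hdot
  rw [h.fa] at hd
  simp only [Complex.zero_re, Complex.zero_im, sub_zero] at hd
  have h5 := par_of_perp (ne_coords hpr') hd
    (show ((f r).re - (f p).re) * (f s).re + ((f r).im - (f p).im) * (f s).im = 0 by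
      linear_combination hdot + hd)
  have h6 : xc (f q) = xc (f s) := by
    unfold xc
    rw [div_eq_div_iff hq.ne' hs.ne']
    exact h5
  linarith

/-- an edge which crosses the axis to the right of `b` crosses the spokes to `b` of all vertices
outside of its upper end -/
theorem Nm.down_right (h : Nm H f a b) (hp : 0 < (f p).im) (hq : (f q).im < 0) (hpq : H.Adj p q)
    (hX : (f p).im - (f q).im < (f p).re * (-(f q).im) + (f q).re * (f p).im)
    (hk : 0 < (f k).im) (hbk : H.Adj b k) (hn : Nest (f p) (f k)) :
    dotp (f p) (f q) (f b) (f k) = 0 := by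
  have hx := hn.1
  have hy := hn.2
  have hD : 0 < (f p).im - (f q).im := by linarith
  set X := ((f p).re * (-(f q).im) + (f q).re * (f p).im) / ((f p).im - (f q).im) with hXd
  have hX1 : 1 < X := by rw [hXd, lt_div_iff₀ hD]; linarith
  have hXe : ((f p).im - (f q).im) * X = (f p).re * (-(f q).im) + (f q).re * (f p).im := by
    rw [hXd]; field_simp
  -- values of the linear form vanishing on the line `b k`
  set B0 := (1 - (f p).re) - yc (f k) * (f p).im with hB0
  have hB0p : 0 < B0 := by
    have h1 := yc_mul hp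
    have : 0 < (yc (f p) - yc (f k)) * (f p).im := mul_pos (by linarith) hp
    rw [hB0]; linarith
  set t := B0 / (B0 + (X - 1)) with ht
  have hden : 0 < B0 + (X - 1) := by linarith
  have ht0 : 0 < t := div_pos hB0p hden
  have ht1 : t < 1 := by rw [ht, div_lt_one hden]; linarith
  have hte : t * (B0 + (X - 1)) = B0 := by rw [ht]; field_simp
  set w : ℂ := ⟨(1 - t) * (f p).re + t * X, (1 - t) * (f p).im⟩ with hw
  have hwi : 0 < w.im := by rw [hw]; exact mul_pos (by linarith) hp
  have hwy : yc w = yc (f k) := by
    have : yc w = (1 - w.re) / w.im := rfl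
    rw [this, div_eq_iff hwi.ne']
    rw [hw]
    simp only
    rw [hB0] at hte
    linear_combination -hte
  have hwx : xc (f k) < xc w := by
    have h1 : xc w * w.im = w.re := xc_mul hwi
    have h2 : xc (f p) * (f p).im = (f p).re := xc_mul hp
    have h3 : (xc w - xc (f p)) * w.im = t * X := by
      rw [sub_mul, h1]
      rw [hw]
      simp only
      linear_combination -(1 - t) * h2
    have h4 : 0 < t * X := mul_pos ht0 (by linarith)
    have h5 : 0 < xc w - xc (f p) := by
      by_contra hcon
      push Not at hcon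
      have := mul_nonpos_of_nonpos_of_nonneg hcon hwi.le
      linarith
    linarith
  have hmem1 : w ∈ openSegment ℝ (f b) (f k) := by
    rw [h.fb]; exact mem_spoke_b hwi hk hwy hwx
  have hmem2 : w ∈ openSegment ℝ (f p) (f q) := by
    rw [mem_openSegment_iff]
    have e : 0 < t * (f p).im := mul_pos ht0 hp
    refine ⟨t * (f p).im / ((f p).im - (f q).im), div_pos e hD, ?_, ?_, ?_⟩
    · rw [div_lt_one hD]
      have : t * (f p).im < 1 * (f p).im := mul_lt_mul_of_pos_right ht1 hp
      linarith
    · rw [hw]
      simp only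
      field_simp
      linear_combination t * hXe
    · rw [hw]
      simp only
      field_simp
      ring
  have hqb : q ≠ b := by rintro rfl; rw [h.fb] at hq; simp at hq
  have hqk : q ≠ k := by rintro rfl; linarith
  exact h.rac.dot hpq hbk (ne_of_right hqb hqk) hmem2 hmem1

/-- an edge from the upper to the lower half plane: its upper end is extremal -/
theorem Nm.down (h : Nm H f a b) (hp : 0 < (f p).im) (hq : (f q).im < 0) (hpq : H.Adj p q) :
    (∀ k, 0 < (f k).im → H.Adj a k → H.Adj b k → ¬ Nest (f k) (f p)) ∨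
    (∀ k l, 0 < (f k).im → 0 < (f l).im → H.Adj a k → H.Adj b k → H.Adj a l → H.Adj b l →
      Nest (f p) (f k) → Nest (f p) (f l) → k = l) := by
  have hD : 0 < (f p).im - (f q).im := by linarith
  have hpq' : f p ≠ f q := fun hh => hpq.ne (h.rac.inj hh)
  have hpa : a ≠ p := by rintro rfl; rw [h.fa] at hp; simp at hp
  have hqa : a ≠ q := by rintro rfl; rw [h.fa] at hq; simp at hq
  have hpb : b ≠ p := by rintro rfl; rw [h.fb] at hp; simp at hp
  have hqb : b ≠ q := by rintro rfl; rw [h.fb] at hq; simp at hq
  set N := (f p).re * (-(f q).im) + (f q).re * (f p).im with hN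
  have ht0 : 0 < (f p).im / ((f p).im - (f q).im) := div_pos hp hD
  have ht1 : (f p).im / ((f p).im - (f q).im) < 1 := by rw [div_lt_one hD]; linarith
  have hre : (1 - (f p).im / ((f p).im - (f q).im)) * (f p).re +
      (f p).im / ((f p).im - (f q).im) * (f q).re = N / ((f p).im - (f q).im) := by
    rw [hN]; field_simp; ring
  have him : (1 - (f p).im / ((f p).im - (f q).im)) * (f p).im +
      (f p).im / ((f p).im - (f q).im) * (f q).im = 0 := by field_simp; ring
  rcases lt_trichotomy N 0 with hN0 | hN0 | hN0
  · right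
    intro k l hk hl hak hbk hal hbl hnk hnl
    by_contra hkl
    have hX : (1 - (starRingEnd ℂ) (f p)).im - (1 - (starRingEnd ℂ) (f q)).im <
        (1 - (starRingEnd ℂ) (f p)).re * (-(1 - (starRingEnd ℂ) (f q)).im) +
        (1 - (starRingEnd ℂ) (f q)).re * (1 - (starRingEnd ℂ) (f p)).im := by
      simp
      linarith
    have h1 := h.refl.down_right (p := p) (q := q) (k := k) (by rw [im_refl]; exact hp)
      (by rw [im_refl]; exact hq) hpq hX (by rw [im_refl]; exact hk) hak (Nest_refl hnk)
    have h2 := h.refl.down_right (p := p) (q := q) (k := l) (by rw [im_refl]; exact hp)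
      (by rw [im_refl]; exact hq) hpq hX (by rw [im_refl]; exact hl) hal (Nest_refl hnl)
    rw [dotp_refl] at h1 h2
    unfold dotp at h1 h2
    rw [h.fa] at h1 h2
    simp only [Complex.zero_re, Complex.zero_im, sub_zero] at h1 h2
    have h5 := par_of_perp (ne_coords hpq') h1 h2
    apply h.x_ne hk hl hak hal hkl
    unfold xc
    rw [div_eq_div_iff hk.ne' hl.ne']
    exact h5
  · exfalso
    apply h.rac.vtx p q a hpq hpa hqa
    rw [mem_segment_iff]
    refine ⟨_, ht0.le, ht1.le, ?_, ?_⟩
    · rw [hre, hN0, h.fa]; simp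
    · rw [him, h.fa]; simp
  rcases lt_trichotomy N ((f p).im - (f q).im) with hN1 | hN1 | hN1
  · left
    intro k hk hak hbk hn
    -- the edge is vertical
    have hmem : (⟨N / ((f p).im - (f q).im), 0⟩ : ℂ) ∈ openSegment ℝ (f p) (f q) := by
      rw [mem_openSegment_iff]
      exact ⟨_, ht0, ht1, by rw [hre], by rw [him]⟩
    have hmem' : (⟨N / ((f p).im - (f q).im), 0⟩ : ℂ) ∈ openSegment ℝ (f a) (f b) := by
      rw [mem_openSegment_iff, h.fa, h.fb]
      exact ⟨N / ((f p).im - (f q).im), div_pos hN0 hD, by rwa [div_lt_one hD], by simp, by simp⟩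
    have hdot := h.rac.dot hpq h.ab (ne_of_left hpa.symm hpb.symm) hmem hmem'
    unfold dotp at hdot
    rw [h.fa, h.fb] at hdot
    simp only [Complex.zero_re, Complex.zero_im, Complex.one_re, Complex.one_im, sub_zero,
      mul_one, mul_zero, add_zero] at hdot
    have hre' : (f q).re = (f p).re := by linarith
    have hNp : N = (f p).re * ((f p).im - (f q).im) := by rw [hN, hre']; ring
    have hX0 : 0 < (f p).re := by
      by_contra hcon
      push Not at hcon
      have := mul_nonpos_of_nonpos_of_nonneg hcon hD.le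
      linarith
    have hX1 : (f p).re < 1 := by
      by_contra hcon
      push Not at hcon
      have := mul_le_mul_of_nonneg_right hcon hD.le
      linarith
    have hxk := hn.1
    have hyk := hn.2
    have hxp : 0 < xc (f p) := div_pos hX0 hp
    have hyp : 0 < yc (f p) := div_pos (by linarith) hp
    have hxk0 : 0 < xc (f k) := by linarith
    have hyk0 : 0 < yc (f k) := by linarith
    have hrek : (f k).re = xc (f k) * (f k).im := (xc_mul hk).symm
    have hrek' : 1 - (f k).re = yc (f k) * (f k).im := (yc_mul hk).symm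
    have hrep : (f p).re = xc (f p) * (f p).im := (xc_mul hp).symm
    have hrep' : 1 - (f p).re = yc (f p) * (f p).im := (yc_mul hp).symm
    have hkp : k ≠ p := by rintro rfl; exact lt_irrefl _ hxk
    have hkq : k ≠ q := by rintro rfl; linarith
    -- a point of height `y`, `0 < y < im p`, on the vertical line
    have hvert : ∀ y : ℝ, 0 < y → y < (f p).im →
        (⟨(f p).re, y⟩ : ℂ) ∈ openSegment ℝ (f p) (f q) := by
      intro y hy0 hy1
      rw [mem_openSegment_iff]
      refine ⟨((f p).im - y) / ((f p).im - (f q).im), div_pos (by linarith) hD,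
        (div_lt_one hD).2 (by linarith), ?_, ?_⟩
      · simp only; rw [hre']; ring
      · simp only; field_simp; ring
    rcases lt_trichotomy (f p).re (f k).re with hlt | heq | hgt
    · have hy1 : (f p).re / xc (f k) < (f p).im := by
        rw [div_lt_iff₀ hxk0]
        have := mul_lt_mul_of_pos_right hxk hp
        linarith
      have hm := hvert ((f p).re / xc (f k)) (by positivity) hy1
      have hm' : (⟨(f p).re, (f p).re / xc (f k)⟩ : ℂ) ∈ openSegment ℝ (f a) (f k) := by
        rw [mem_openSegment_iff, h.fa]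
        have hk0 : 0 < (f k).re := by linarith
        refine ⟨(f p).re / (f k).re, by positivity, by rwa [div_lt_one hk0], ?_, ?_⟩
        · simp only [Complex.zero_re]; field_simp; ring
        · simp only [Complex.zero_im]
          rw [hrek]
          field_simp
          ring
      have hdot2 := h.rac.dot hpq hak (ne_of_right hqa.symm hkq.symm) hm hm'
      unfold dotp at hdot2
      rw [h.fa, hre'] at hdot2
      simp only [Complex.zero_im, sub_zero, sub_self, zero_mul, zero_add] at hdot2
      have : ((f q).im - (f p).im) * (f k).im < 0 := mul_neg_of_neg_of_pos (by linarith) hk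
      linarith
    · apply h.rac.vtx p q k hpq hkp hkq
      apply openSegment_subset_segment ℝ
      have hy1 : (f k).im < (f p).im := by
        by_contra hcon
        push Not at hcon
        have h1 : xc (f p) * (f p).im ≤ xc (f p) * (f k).im :=
          mul_le_mul_of_nonneg_left hcon hxp.le
        have h2 : xc (f p) * (f k).im < xc (f k) * (f k).im := mul_lt_mul_of_pos_right hxk hk
        linarith
      have := hvert (f k).im hk hy1
      rwa [heq] at this
    · have hpos : 0 < 1 - (f p).re := by linarith
      have hy1 : (1 - (f p).re) / yc (f k) < (f p).im := by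
        rw [div_lt_iff₀ hyk0]
        have := mul_lt_mul_of_pos_right hyk hp
        linarith
      have hm := hvert ((1 - (f p).re) / yc (f k)) (by positivity) hy1
      have hm' : (⟨(f p).re, (1 - (f p).re) / yc (f k)⟩ : ℂ) ∈ openSegment ℝ (f b) (f k) := by
        rw [mem_openSegment_iff, h.fb]
        have hk0 : 0 < 1 - (f k).re := by linarith
        refine ⟨(1 - (f p).re) / (1 - (f k).re), by positivity,
          by rw [div_lt_one hk0]; linarith, ?_, ?_⟩
        · simp only [Complex.one_re]; field_simp; ring
        · simp only [Complex.one_im]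
          rw [hrek']
          field_simp
          ring
      have hdot2 := h.rac.dot hpq hbk (ne_of_right hqb.symm hkq.symm) hm hm'
      unfold dotp at hdot2
      rw [h.fb, hre'] at hdot2
      simp only [Complex.one_im, sub_zero, sub_self, zero_mul, zero_add] at hdot2
      have : ((f q).im - (f p).im) * (f k).im < 0 := mul_neg_of_neg_of_pos (by linarith) hk
      linarith
  · exfalso
    apply h.rac.vtx p q b hpq hpb hqb
    rw [mem_segment_iff]
    refine ⟨_, ht0.le, ht1.le, ?_, ?_⟩
    · rw [hre, hN1, h.fb, div_self hD.ne']; simp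
    · rw [him, h.fb]; simp
  · right
    intro k l hk hl hak hbk hal hbl hnk hnl
    by_contra hkl
    have h1 := h.down_right hp hq hpq hN1 hk hbk hnk
    have h2 := h.down_right hp hq hpq hN1 hl hbl hnl
    unfold dotp at h1 h2
    rw [h.fb] at h1 h2
    simp only [Complex.one_re, Complex.one_im, sub_zero] at h1 h2
    have h5 := par_of_perp (ne_coords hpq') h1 h2
    apply h.y_ne hk hl hbk hbl hkl
    unfold yc
    rw [div_eq_div_iff hk.ne' hl.ne']
    linarith

end

end Pool.Agent.Helper18.RAC
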