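import Mathlib

/-!
# The sequence of cotangents
-/

set_option autoImplicit false

namespace Pool.Agent.Helper18.RAC

/-- the side on which the edge from `i` to `j` passes `k`, in coordinates -/
def OrC (xi yi xk yk xj yj : ℝ) : ℝ := (xk - xj) * (yi - yj) - (yk - yj) * (xi - xj)

/-- one more point, hub `a` -/
theorem stepA {ε : ℝ} (hε : 0 < ε) : ∃ η : ℝ, 0 < η ∧ η < ε ∧ ∀ xi yi xk yk : ℝ,
    |xi - 2| < η → |yi - 2| < η → |xk - 2| < η → |yk - 2| < η → xk < xi → yk < yi →
    xi * xk * yk + xk + yk < xk ^ 2 * yi + xi + yi →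
    ∃ xj yj : ℝ, |xj - 2| < ε ∧ |yj - 2| < ε ∧ xj < xk ∧ yj < yk ∧
      xk * (xi * yj - xj * yi) = (xi + yi) - (xj + yj) ∧ 0 < OrC xi yi xk yk xj yj ∧
      yk * yj * xj + xj + yj < yj ^ 2 * xk + xk + yk := by
  set η : ℝ := min (1 / 100) (ε / 20) with hη
  have hη0 : 0 < η := lt_min (by norm_num) (by linarith)
  have hη1 : η ≤ 1 / 100 := min_le_left _ _
  have hη2 : η ≤ ε / 20 := min_le_right _ _
  refine ⟨η, hη0, by linarith, ?_⟩
  intro xi yi xk yk hxi hyi hxk hyk hx hy hinv
  have a1 := abs_lt.1 hxi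
  have a2 := abs_lt.1 hyi
  have a3 := abs_lt.1 hxk
  have a4 := abs_lt.1 hyk
  set D := xk * yi - 1 with hD
  have hDpos : 2 < D := by
    have : (1.99 : ℝ) * 1.99 < xk * yi :=
      mul_lt_mul'' (by linarith) (by linarith) (by norm_num) (by norm_num)
    rw [hD]
    norm_num at this ⊢
    linarith
  -- the gap
  set x0 := (yk * (1 + xk * xi) - (xi + yi)) / D with hx0
  have hx0e : x0 * D = yk * (1 + xk * xi) - (xi + yi) := by rw [hx0]; field_simp
  have hg : 0 < xk - x0 := by
    have h1 : (xk - x0) * D = xk * D - (yk * (1 + xk * xi) - (xi + yi)) := by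
      rw [sub_mul, hx0e]
    have h2 : 0 < (xk - x0) * D := by
      rw [h1, hD]
      nlinarith
    exact (pos_iff_pos_of_mul_pos h2).2 (by linarith)
  set g := xk - x0 with hgd
  obtain ⟨δ, hδ0, hδ1, hδ2, hδ3⟩ : ∃ δ : ℝ, 0 < δ ∧ δ ≤ η ∧ δ ≤ g / 10 ∧
      δ * (xi - xk) < g * (yi - yk) := by
    have hxik : 0 < xi - xk := by linarith
    have hyik : 0 < yi - yk := by linarith
    refine ⟨min η (min (g / 10) (g * (yi - yk) / (2 * (xi - xk)))), ?_, min_le_left _ _,
      (min_le_right _ _).trans (min_le_left _ _), ?_⟩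
    · exact lt_min hη0 (lt_min (by linarith) (div_pos (mul_pos hg hyik) (by linarith)))
    · have h1 : min η (min (g / 10) (g * (yi - yk) / (2 * (xi - xk)))) ≤
          g * (yi - yk) / (2 * (xi - xk)) := (min_le_right _ _).trans (min_le_right _ _)
      have h2 : g * (yi - yk) / (2 * (xi - xk)) * (xi - xk) = g * (yi - yk) / 2 := by
        field_simp
      have h3 := mul_le_mul_of_nonneg_right h1 hxik.le
      have h4 : 0 < g * (yi - yk) := mul_pos hg hyik
      linarith
  set yj := yk - δ with hyj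
  set xj := (yj * (1 + xk * xi) - (xi + yi)) / D with hxj
  have hxje : xj * D = yj * (1 + xk * xi) - (xi + yi) := by rw [hxj]; field_simp
  have hxj0 : xj < x0 := by
    have h1 : (x0 - xj) * D = δ * (1 + xk * xi) := by
      rw [sub_mul, hx0e, hxje, hyj]; ring
    have h2 : 0 < xk * xi := mul_pos (by linarith) (by linarith)
    have h3 : 0 < (x0 - xj) * D := by rw [h1]; exact mul_pos hδ0 (by linarith)
    have := (pos_iff_pos_of_mul_pos h3).2 (by linarith)
    linarith
  -- xj is near 2
  have hxj2 : |xj - 2| ≤ 10 * η := by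
    have e1 : (xj - 2) * D = 3 * (xi - 2) + 5 * (yj - 2) - 5 * (yi - 2) +
        2 * ((xk - 2) * (xi - 2)) + 2 * ((yj - 2) * (xi - 2)) + 2 * ((yj - 2) * (xk - 2)) +
        (yj - 2) * ((xk - 2) * (xi - 2)) - 2 * ((xk - 2) * (yi - 2)) := by
      rw [sub_mul, hxje, hD]; ring
    have b1 : |yj - 2| ≤ 2 * η := by
      rw [abs_le, hyj]
      constructor <;> linarith
    have m1 : |(xk - 2) * (xi - 2)| ≤ η * η := by
      rw [abs_mul]; exact mul_le_mul hxk.le hxi.le (abs_nonneg _) hη0.le
    have m2 : |(yj - 2) * (xi - 2)| ≤ 2 * η * η := by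
      rw [abs_mul]; exact mul_le_mul b1 hxi.le (abs_nonneg _) (by linarith)
    have m3 : |(yj - 2) * (xk - 2)| ≤ 2 * η * η := by
      rw [abs_mul]; exact mul_le_mul b1 hxk.le (abs_nonneg _) (by linarith)
    have m4 : |(yj - 2) * ((xk - 2) * (xi - 2))| ≤ 2 * η * (η * η) := by
      rw [abs_mul]; exact mul_le_mul b1 m1 (abs_nonneg _) (by linarith)
    have m5 : |(xk - 2) * (yi - 2)| ≤ η * η := by
      rw [abs_mul]; exact mul_le_mul hxk.le hyi.le (abs_nonneg _) hη0.le
    have q1 : η * η ≤ 1 / 100 * η := mul_le_mul_of_nonneg_right hη1 hη0.le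
    have q2 : η * (η * η) ≤ 1 / 100 * η := by
      have : η * (η * η) ≤ 1 / 100 * (η * η) :=
        mul_le_mul_of_nonneg_right hη1 (mul_nonneg hη0.le hη0.le)
      linarith
    have b1' := abs_le.1 b1
    have m1' := abs_le.1 m1
    have m2' := abs_le.1 m2
    have m3' := abs_le.1 m3
    have m4' := abs_le.1 m4
    have m5' := abs_le.1 m5
    have u1 : (xj - 2) * D ≤ 20 * η := by rw [e1]; linarith
    have u2 : -(20 * η) ≤ (xj - 2) * D := by rw [e1]; linarith
    rw [abs_le]
    constructor
    · by_contra hcon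
      push Not at hcon
      have : (xj - 2) * D < -(10 * η) * D := mul_lt_mul_of_pos_right hcon (by linarith)
      have : 10 * η * 2 ≤ 10 * η * D := mul_le_mul_of_nonneg_left hDpos.le (by linarith)
      linarith
    · by_contra hcon
      push Not at hcon
      have : 10 * η * D < (xj - 2) * D := mul_lt_mul_of_pos_right hcon (by linarith)
      have : 10 * η * 2 ≤ 10 * η * D := mul_le_mul_of_nonneg_left hDpos.le (by linarith)
      linarith
  have hxjk : xj < xk := by linarith
  have hyjk : yj < yk := by linarith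
  have hgj : g < xk - xj := by linarith
  refine ⟨xj, yj, by linarith, ?_, hxjk, hyjk, ?_, ?_, ?_⟩
  · rw [abs_lt, hyj]
    constructor <;> linarith
  · have : xj * (xk * yi - 1) = yj * (1 + xk * xi) - (xi + yi) := hxje
    linarith
  · unfold OrC
    have e1 : (xk - xj) * (yi - yj) - (yk - yj) * (xi - xj) =
        (xk - xj) * (yi - yk) - δ * (xi - xk) := by rw [hyj]; ring
    rw [e1]
    have : g * (yi - yk) < (xk - xj) * (yi - yk) := mul_lt_mul_of_pos_right hgj (by linarith)
    linarith
  · have hyjpos : 0 < yj := by rw [hyj]; linarith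
    have e1 : yj ^ 2 * xk + xk + yk - (yk * yj * xj + xj + yj) =
        yj * (yk * (xk - xj) - δ * xk) + (xk - xj) + δ := by rw [hyj]; ring
    have e2 : g ≤ yk * (xk - xj) := by
      have : 1 * (xk - xj) ≤ yk * (xk - xj) := mul_le_mul_of_nonneg_right (by linarith) (by linarith)
      linarith
    have e3 : δ * xk ≤ δ * 10 := mul_le_mul_of_nonneg_left (by linarith) hδ0.le
    have e4 : 0 ≤ yj * (yk * (xk - xj) - δ * xk) := mul_nonneg hyjpos.le (by linarith)
    linarith

/-- one more point, hub `b` -/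
theorem stepB {ε : ℝ} (hε : 0 < ε) : ∃ η : ℝ, 0 < η ∧ η < ε ∧ ∀ xi yi xk yk : ℝ,
    |xi - 2| < η → |yi - 2| < η → |xk - 2| < η → |yk - 2| < η → xk < xi → yk < yi →
    yi * yk * xk + xk + yk < yk ^ 2 * xi + xi + yi →
    ∃ xj yj : ℝ, |xj - 2| < ε ∧ |yj - 2| < ε ∧ xj < xk ∧ yj < yk ∧
      yk * (xj * yi - xi * yj) = (xi + yi) - (xj + yj) ∧ OrC xi yi xk yk xj yj < 0 ∧
      xk * xj * yj + xj + yj < xj ^ 2 * yk + xk + yk := by
  obtain ⟨η, h1, h2, h3⟩ := stepA hε
  refine ⟨η, h1, h2, ?_⟩
  intro xi yi xk yk hxi hyi hxk hyk hx hy hinv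
  obtain ⟨yj, xj, k1, k2, k3, k4, k5, k6, k7⟩ := h3 yi xi yk xk hyi hxi hyk hxk hy hx
    (by linarith)
  refine ⟨xj, yj, k2, k1, k4, k3, by linarith, ?_, by linarith⟩
  unfold OrC at k6 ⊢
  linarith

/-- the sequence: the edge from `k` to `k + 2` is perpendicular to the spoke from `k + 1` to `a` if
`k + 1` is even and to `b` if `k + 1` is odd -/
structure SeqOK (x y : ℕ → ℝ) (m : ℕ) : Prop where
  x_pos : ∀ j < m, 0 < x j
  y_pos : ∀ j < m, 0 < y j
  x_lt : ∀ j, j + 1 < m → x (j + 1) < x j
  y_lt : ∀ j, j + 1 < m → y (j + 1) < y j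
  even : ∀ k, k + 2 < m → (k + 1) % 2 = 0 →
    x (k + 1) * (x k * y (k + 2) - x (k + 2) * y k) = (x k + y k) - (x (k + 2) + y (k + 2)) ∧
    0 < OrC (x k) (y k) (x (k + 1)) (y (k + 1)) (x (k + 2)) (y (k + 2))
  odd : ∀ k, k + 2 < m → (k + 1) % 2 = 1 →
    y (k + 1) * (x (k + 2) * y k - x k * y (k + 2)) = (x k + y k) - (x (k + 2) + y (k + 2)) ∧
    OrC (x k) (y k) (x (k + 1)) (y (k + 1)) (x (k + 2)) (y (k + 2)) < 0

theorem exists_seq_aux (n : ℕ) : ∀ ε : ℝ, 0 < ε → ε ≤ 1 → ∃ x y : ℕ → ℝ,
    (∀ j, |x j - 2| < ε ∧ |y j - 2| < ε) ∧ SeqOK x y (n + 2) ∧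
    ((n + 1) % 2 = 0 → x n * x (n + 1) * y (n + 1) + x (n + 1) + y (n + 1) <
      x (n + 1) ^ 2 * y n + x n + y n) ∧
    ((n + 1) % 2 = 1 → y n * y (n + 1) * x (n + 1) + x (n + 1) + y (n + 1) <
      y (n + 1) ^ 2 * x n + x n + y n) := by
  induction n with
  | zero =>
    intro ε hε hε1
    refine ⟨fun j => if j = 0 then 2 + ε / 2 else 2, fun j => if j = 0 then 2 + ε / 2 else 2,
      ?_, ?_, ?_, ?_⟩
    · intro j
      simp only
      split_ifs
      · rw [abs_lt]; constructor <;> constructor <;> linarith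
      · simp [hε]
    · refine ⟨?_, ?_, ?_, ?_, ?_, ?_⟩
      · intro j _; try simp only
        split_ifs <;> linarith
      · intro j _; try simp only
        split_ifs <;> linarith
      · intro j hj
        have : j = 0 := by omega
        subst this
        simp [hε]
      · intro j hj
        have : j = 0 := by omega
        subst this
        simp [hε]
      · intro k hk; omega
      · intro k hk; omega
    · intro h; omega
    · intro _
      simp
      linarith
  | succ n ih =>
    intro ε hε hε1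
    obtain ⟨ηa, ha1, ha2, ha3⟩ := stepA hε
    obtain ⟨ηb, hb1, hb2, hb3⟩ := stepB hε
    obtain ⟨x, y, hxy, hok, hA, hB⟩ := ih (min ηa ηb) (lt_min ha1 hb1)
      ((min_le_left _ _).trans (by linarith))
    -- the new point
    obtain ⟨xj, yj, k1, k2, k3, k4, k5, k6⟩ : ∃ xj yj : ℝ, |xj - 2| < ε ∧ |yj - 2| < ε ∧
        xj < x (n + 1) ∧ yj < y (n + 1) ∧
        ((n + 1) % 2 = 0 → (x (n + 1) * (x n * yj - xj * y n) = (x n + y n) - (xj + yj) ∧
          0 < OrC (x n) (y n) (x (n + 1)) (y (n + 1)) xj yj) ∧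
          y (n + 1) * yj * xj + xj + yj < yj ^ 2 * x (n + 1) + x (n + 1) + y (n + 1)) ∧
        ((n + 1) % 2 = 1 → (y (n + 1) * (xj * y n - x n * yj) = (x n + y n) - (xj + yj) ∧
          OrC (x n) (y n) (x (n + 1)) (y (n + 1)) xj yj < 0) ∧
          x (n + 1) * xj * yj + xj + yj < xj ^ 2 * y (n + 1) + x (n + 1) + y (n + 1)) := by
      rcases Nat.mod_two_eq_zero_or_one (n + 1) with h0 | h0
      · obtain ⟨xj, yj, k1, k2, k3, k4, k5, k6, k7⟩ := ha3 (x n) (y n) (x (n + 1)) (y (n + 1))
          ((hxy n).1.trans_le (min_le_left _ _)) ((hxy n).2.trans_le (min_le_left _ _))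
          ((hxy (n + 1)).1.trans_le (min_le_left _ _)) ((hxy (n + 1)).2.trans_le (min_le_left _ _))
          (hok.x_lt n (by omega)) (hok.y_lt n (by omega)) (hA h0)
        exact ⟨xj, yj, k1, k2, k3, k4, fun _ => ⟨⟨k5, k6⟩, k7⟩, fun h => by omega⟩
      · obtain ⟨xj, yj, k1, k2, k3, k4, k5, k6, k7⟩ := hb3 (x n) (y n) (x (n + 1)) (y (n + 1))
          ((hxy n).1.trans_le (min_le_right _ _)) ((hxy n).2.trans_le (min_le_right _ _))
          ((hxy (n + 1)).1.trans_le (min_le_right _ _))
          ((hxy (n + 1)).2.trans_le (min_le_right _ _))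
          (hok.x_lt n (by omega)) (hok.y_lt n (by omega)) (hB h0)
        exact ⟨xj, yj, k1, k2, k3, k4, fun h => by omega, fun _ => ⟨⟨k5, k6⟩, k7⟩⟩
    have hlt : min ηa ηb < ε := (min_le_left _ _).trans_lt ha2
    have hj1 := abs_lt.1 k1
    have hj2 := abs_lt.1 k2
    refine ⟨fun j => if j = n + 2 then xj else x j, fun j => if j = n + 2 then yj else y j,
      ?_, ?_, ?_, ?_⟩
    · intro j
      simp only
      split_ifs
      · exact ⟨k1, k2⟩
      · exact ⟨(hxy j).1.trans hlt, (hxy j).2.trans hlt⟩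
    · refine ⟨?_, ?_, ?_, ?_, ?_, ?_⟩
      · intro j hj
        try simp only
        split_ifs with h
        · linarith
        · exact hok.x_pos j (by omega)
      · intro j hj
        try simp only
        split_ifs with h
        · linarith
        · exact hok.y_pos j (by omega)
      · intro j hj
        try simp only
        rcases Nat.lt_or_ge j (n + 1) with h | h
        · rw [if_neg (by omega), if_neg (by omega)]
          exact hok.x_lt j (by omega)
        · have : j = n + 1 := by omega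
          subst this
          rw [if_pos rfl, if_neg (by omega)]
          exact k3
      · intro j hj
        try simp only
        rcases Nat.lt_or_ge j (n + 1) with h | h
        · rw [if_neg (by omega), if_neg (by omega)]
          exact hok.y_lt j (by omega)
        · have : j = n + 1 := by omega
          subst this
          rw [if_pos rfl, if_neg (by omega)]
          exact k4
      · intro k hk hpar
        try simp only
        rcases Nat.lt_or_ge k n with h | h
        · have e1 : ¬ (k = n + 2) := by omega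
          have e2 : ¬ (k + 1 = n + 2) := by omega
          have e3 : ¬ (k + 2 = n + 2) := by omega
          simp only [e1, e2, e3, if_false]
          exact hok.even k (by omega) hpar
        · have : k = n := by omega
          subst this
          have e1 : ¬ (k = k + 2) := by omega
          have e2 : ¬ (k + 1 = k + 2) := by omega
          simp only [e1, e2, if_false, eq_self_iff_true, if_true]
          exact (k5 hpar).1
      · intro k hk hpar
        try simp only
        rcases Nat.lt_or_ge k n with h | h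
        · have e1 : ¬ (k = n + 2) := by omega
          have e2 : ¬ (k + 1 = n + 2) := by omega
          have e3 : ¬ (k + 2 = n + 2) := by omega
          simp only [e1, e2, e3, if_false]
          exact hok.odd k (by omega) hpar
        · have : k = n := by omega
          subst this
          have e1 : ¬ (k = k + 2) := by omega
          have e2 : ¬ (k + 1 = k + 2) := by omega
          simp only [e1, e2, if_false, eq_self_iff_true, if_true]
          exact (k6 hpar).1
    · intro hpar
      have e1 : ¬ (n + 1 = n + 2) := by omega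
      have e2 : n + 1 + 1 = n + 2 := rfl
      simp only [e1, e2, if_true, if_false]
      exact (k6 (by omega)).2
    · intro hpar
      have e1 : ¬ (n + 1 = n + 2) := by omega
      have e2 : n + 1 + 1 = n + 2 := rfl
      simp only [e1, e2, if_true, if_false]
      exact (k5 (by omega)).2

theorem exists_seq (m : ℕ) : ∃ x y : ℕ → ℝ, SeqOK x y m := by
  obtain ⟨x, y, -, h, -⟩ := exists_seq_aux m 1 one_pos le_rfl
  exact ⟨x, y, fun j hj => h.x_pos j (by omega), fun j hj => h.y_pos j (by omega),
    fun j hj => h.x_lt j (by omega), fun j hj => h.y_lt j (by omega),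
    fun k hk => h.even k (by omega), fun k hk => h.odd k (by omega)⟩

end Pool.Agent.Helper18.RAC
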